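import Pool.Agent.H83.RGG.Kernel

/-! Module R04_Alpha: `L²` contraction without collision. -/

set_option autoImplicit false

open MeasureTheory ProbabilityTheory

namespace Pool.Agent.H83.RGG

section General

variable {X : Type} [MeasurableSpace X] {P : Measure X} [IsFiniteMeasure P]

theorem nice_cs {F G : X → ℝ} (hF : Nice F) (hG : Nice G) :
    (∫ x, F x * G x ∂P) ^ 2 ≤ (∫ x, F x ^ 2 ∂P) * ∫ x, G x ^ 2 ∂P := by
  set a := ∫ x, F x ^ 2 ∂P with ha
  set b := ∫ x, F x * G x ∂P with hb
  set c := ∫ x, G x ^ 2 ∂P with hc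
  have key : ∀ t : ℝ, 0 ≤ a * (t * t) + (2 * b) * t + c := by
    intro t
    have h : 0 ≤ ∫ x, (t * F x + G x) ^ 2 ∂P := integral_nonneg fun x => sq_nonneg _
    have e : ∫ x, (t * F x + G x) ^ 2 ∂P = a * (t * t) + (2 * b) * t + c := by
      have e1 : ∀ x, (t * F x + G x) ^ 2 = (t * t) * F x ^ 2 + ((2 * t) * (F x * G x) + G x ^ 2) := by
        intro x; ring
      simp_rw [e1]
      have i1 : Integrable (fun x => t * t * F x ^ 2) P :=
        ((hF.pow 2).integrable P).const_mul _
      have i2 : Integrable (fun x => 2 * t * (F x * G x)) P :=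
        ((hF.mul hG).integrable P).const_mul _
      have i3 : Integrable (fun x => G x ^ 2) P := (hG.pow 2).integrable P
      have i4 : Integrable (fun x => 2 * t * (F x * G x) + G x ^ 2) P := i2.add i3
      rw [integral_add i1 i4, integral_add i2 i3, integral_const_mul, integral_const_mul]
      rw [← ha, ← hb, ← hc]; ring
    rw [e] at h; exact h
  have hd := discrim_le_zero key
  unfold discrim at hd
  nlinarith

theorem nice_cs_sqrt {F G : X → ℝ} (hF : Nice F) (hG : Nice G) :
    ∫ x, F x * G x ∂P ≤ Real.sqrt (∫ x, F x ^ 2 ∂P) * Real.sqrt (∫ x, G x ^ 2 ∂P) := by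
  rw [← Real.sqrt_mul (integral_nonneg fun x => sq_nonneg _)]
  exact Real.le_sqrt_of_sq_le (nice_cs hF hG)

end General

variable {Ω : Type} [MeasurableSpace Ω] {ι : Type} [Fintype ι] [DecidableEq ι]
variable {μ : Measure Ω} [IsProbabilityMeasure μ] {W : Ω → Ω → ℝ} {p : ℝ}

theorem nice_upd {F : (ι → Ω) → ℝ} (hF : Nice F) (a : ι) (y : Ω) :
    Nice (fun x => F (Function.update x a y)) := by
  refine hF.comp ?_
  exact (measurable_upd a).comp (measurable_id.prodMk measurable_const)

theorem nice_upd_pair {F : (ι → Ω) → ℝ} (hF : Nice F) (a : ι) :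
    Nice (fun q : (ι → Ω) × Ω => F (Function.update q.1 a q.2)) :=
  hF.comp (measurable_upd a)

theorem nice_upd_fix {F : (ι → Ω) → ℝ} (hF : Nice F) (a : ι) (x : ι → Ω) :
    Nice (fun y : Ω => F (Function.update x a y)) :=
  hF.comp (measurable_update x)

theorem ind_upd {F : (ι → Ω) → ℝ} {a b : ι} (hab : b ≠ a) (hF : Ind F b) (y : Ω) :
    Ind (fun x => F (Function.update x a y)) b := by
  intro x z
  show F (Function.update (Function.update x b z) a y) = F (Function.update x a y)
  rw [Function.update_comm hab, hF]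

/-- general second moment formula: for `F` independent of the coordinates `T`,
`𝔼[H (∫ F(a:=y) ∏_T k(y,x_b))²] = ∫∫ 𝔼[H F(a:=y)F(a:=z)] k₂(y,z)^|T|` -/
theorem second_moment {F H : (ι → Ω) → ℝ} (hF : Nice F) (hH : Nice H) {a : ι} {T : Finset ι}
    (haT : a ∉ T) (hind : ∀ b ∈ T, Ind F b) (hindH : ∀ b ∈ T, Ind H b)
    {k : Ω → Ω → ℝ} (hk : Nice (fun q : Ω × Ω => k q.1 q.2)) :
    EE μ (fun x => H x * (Ex μ a (fun x => F x * ∏ b ∈ T, k (x a) (x b)) x) ^ 2) =
      ∫ y, ∫ z, EE μ (fun x => H x * (F (Function.update x a y) * F (Function.update x a z)))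
        * (∫ w, k y w * k z w ∂μ) ^ T.card ∂μ ∂μ := by
  have hne : ∀ b ∈ T, b ≠ a := fun b hb h => haT (h ▸ hb)
  -- the integrand
  have e1 : ∀ x : ι → Ω, Ex μ a (fun x => F x * ∏ b ∈ T, k (x a) (x b)) x =
      ∫ y, F (Function.update x a y) * ∏ b ∈ T, k y (x b) ∂μ := by
    intro x
    unfold Ex
    refine integral_congr_ae (Filter.Eventually.of_forall fun y => ?_)
    simp only [Function.update_self]
    congr 1
    refine Finset.prod_congr rfl fun b hb => ?_
    rw [Function.update_of_ne (hne b hb)]
  have e2 : ∀ x : ι → Ω, H x * (Ex μ a (fun x => F x * ∏ b ∈ T, k (x a) (x b)) x) ^ 2 =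
      ∫ y, ∫ z, (H x * (F (Function.update x a y) * F (Function.update x a z))) *
        ∏ b ∈ T, (k y (x b) * k z (x b)) ∂μ ∂μ := by
    intro x
    rw [e1 x, sq, ← integral_mul_const, ← integral_const_mul]
    refine integral_congr_ae (Filter.Eventually.of_forall fun y => ?_)
    simp only
    rw [← integral_const_mul, ← integral_const_mul]
    refine integral_congr_ae (Filter.Eventually.of_forall fun z => ?_)
    simp only
    rw [Finset.prod_mul_distrib]
    ring
  have hnice : Nice (fun q : (ι → Ω) × (Ω × Ω) =>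
      (H q.1 * (F (Function.update q.1 a q.2.1) * F (Function.update q.1 a q.2.2))) *
        ∏ b ∈ T, (k q.2.1 (q.1 b) * k q.2.2 (q.1 b))) := by
    refine (((hH.comp measurable_fst).mul ?_)).mul (Nice.prod T fun b _ => ?_)
    · refine Nice.mul ?_ ?_
      · exact (nice_upd_pair hF a).comp (f := fun q : (ι → Ω) × (Ω × Ω) => (q.1, q.2.1))
          (measurable_fst.prodMk (measurable_fst.comp measurable_snd))
      · exact (nice_upd_pair hF a).comp (f := fun q : (ι → Ω) × (Ω × Ω) => (q.1, q.2.2))
          (measurable_fst.prodMk (measurable_snd.comp measurable_snd))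
    · refine Nice.mul ?_ ?_
      · exact hk.comp (f := fun q : (ι → Ω) × (Ω × Ω) => (q.2.1, q.1 b))
          ((measurable_fst.comp measurable_snd).prodMk
            ((measurable_pi_apply b).comp measurable_fst))
      · exact hk.comp (f := fun q : (ι → Ω) × (Ω × Ω) => (q.2.2, q.1 b))
          ((measurable_snd.comp measurable_snd).prodMk
            ((measurable_pi_apply b).comp measurable_fst))
  have e3 : EE μ (fun x => H x * (Ex μ a (fun x => F x * ∏ b ∈ T, k (x a) (x b)) x) ^ 2) =
      EE μ (fun x => ∫ y, ∫ z,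
        (H x * (F (Function.update x a y) * F (Function.update x a z))) *
        ∏ b ∈ T, (k y (x b) * k z (x b)) ∂μ ∂μ) := by
    congr 1
    funext x
    exact e2 x
  rw [e3, EE_integral_swap hnice]
  refine integral_congr_ae (Filter.Eventually.of_forall fun y => ?_)
  refine integral_congr_ae (Filter.Eventually.of_forall fun z => ?_)
  simp only
  have hky : Nice (fun w => k y w) :=
    hk.comp (f := fun w => (y, w)) (measurable_const.prodMk measurable_id)
  have hkz : Nice (fun w => k z w) :=
    hk.comp (f := fun w => (z, w)) (measurable_const.prodMk measurable_id)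
  exact EE_mul_prod (hH.mul ((nice_upd hF a y).mul (nice_upd hF a z))) T
    (fun w => k y w * k z w) (hky.mul hkz) (fun b hb x v => by
      have h1 := hindH b hb x v
      have h2 := ind_upd (hne b hb) (hind b hb) y x v
      have h3 := ind_upd (hne b hb) (hind b hb) z x v
      simp only at h1 h2 h3 ⊢
      rw [h1, h2, h3])

theorem alpha (hK : Kern μ W p) {F : (ι → Ω) → ℝ} (hF : Nice F) {a : ι} {T : Finset ι}
    (haT : a ∉ T) (hind : ∀ b ∈ T, Ind F b) :
    EE μ (fun x => (Ex μ a (fun x => F x * ∏ b ∈ T, kg W p (x a) (x b)) x) ^ 2) ≤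
      EE μ (fun x => F x ^ 2) *
        Real.sqrt (∫ y, ∫ z, |kh μ W p y z| ^ (2 * T.card) ∂μ ∂μ) := by
  have h1 := second_moment (μ := μ) (H := fun _ => (1:ℝ)) hF (Nice.const 1) haT hind
    (fun b _ x y => rfl) hK.nice_kg
  simp only [one_mul] at h1
  rw [h1]
  have hniceFF : Nice (fun q : (ι → Ω) × (Ω × Ω) =>
      (F (Function.update q.1 a q.2.1) * F (Function.update q.1 a q.2.2)) *
        (kh μ W p q.2.1 q.2.2) ^ T.card) := by
    refine Nice.mul (Nice.mul ?_ ?_) ((hK.nice_kh.comp measurable_snd).pow _)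
    · exact (nice_upd_pair hF a).comp (f := fun q : (ι → Ω) × (Ω × Ω) => (q.1, q.2.1))
        (measurable_fst.prodMk (measurable_fst.comp measurable_snd))
    · exact (nice_upd_pair hF a).comp (f := fun q : (ι → Ω) × (Ω × Ω) => (q.1, q.2.2))
        (measurable_fst.prodMk (measurable_snd.comp measurable_snd))
  have e1 : (∫ y, ∫ z, EE μ (fun x => F (Function.update x a y) * F (Function.update x a z))
        * (∫ w, kg W p y w * kg W p z w ∂μ) ^ T.card ∂μ ∂μ) =
      EE μ (fun x => ∫ y, ∫ z, (F (Function.update x a y) * F (Function.update x a z))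
        * (kh μ W p y z) ^ T.card ∂μ ∂μ) := by
    rw [EE_integral_swap hniceFF]
    refine integral_congr_ae (Filter.Eventually.of_forall fun y => ?_)
    refine integral_congr_ae (Filter.Eventually.of_forall fun z => ?_)
    show EE μ (fun x => F (Function.update x a y) * F (Function.update x a z)) * _ =
      EE μ (fun x => (F (Function.update x a y) * F (Function.update x a z)) * _)
    have : (fun x => (F (Function.update x a y) * F (Function.update x a z)) *
        (kh μ W p y z) ^ T.card) = fun x => (kh μ W p y z) ^ T.card *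
        (F (Function.update x a y) * F (Function.update x a z)) := by
      funext x; ring
    rw [this, EE_const_mul, mul_comm]
    rfl
  rw [e1]
  set Q := Real.sqrt (∫ y, ∫ z, |kh μ W p y z| ^ (2 * T.card) ∂μ ∂μ) with hQ
  have hpt : ∀ x : ι → Ω, (∫ y, ∫ z, (F (Function.update x a y) * F (Function.update x a z))
        * (kh μ W p y z) ^ T.card ∂μ ∂μ) ≤ Ex μ a (fun x => F x ^ 2) x * Q := by
    intro x
    have nf : Nice (fun y : Ω => F (Function.update x a y)) := nice_upd_fix hF a x
    have nA : Nice (fun q : Ω × Ω => F (Function.update x a q.1) * F (Function.update x a q.2)) :=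
      (nf.comp measurable_fst).mul (nf.comp measurable_snd)
    have nB : Nice (fun q : Ω × Ω => (kh μ W p q.1 q.2) ^ T.card) := hK.nice_kh.pow _
    have hcs := nice_cs_sqrt (P := μ.prod μ) nA nB
    have t1 : ∫ q, (F (Function.update x a q.1) * F (Function.update x a q.2)) *
        (kh μ W p q.1 q.2) ^ T.card ∂(μ.prod μ) =
        ∫ y, ∫ z, (F (Function.update x a y) * F (Function.update x a z))
        * (kh μ W p y z) ^ T.card ∂μ ∂μ :=
      integral_prod _ ((nA.mul nB).integrable _)
    have t2 : ∫ q, (F (Function.update x a q.1) * F (Function.update x a q.2)) ^ 2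
        ∂(μ.prod μ) = (Ex μ a (fun x => F x ^ 2) x) ^ 2 := by
      rw [integral_prod _ ((nA.pow 2).integrable _)]
      unfold Ex
      rw [sq (∫ y, F (Function.update x a y) ^ 2 ∂μ), ← integral_mul_const]
      refine integral_congr_ae (Filter.Eventually.of_forall fun y => ?_)
      simp only
      rw [← integral_const_mul]
      refine integral_congr_ae (Filter.Eventually.of_forall fun z => ?_)
      simp only
      ring
    have t3 : ∫ q : Ω × Ω, ((kh μ W p q.1 q.2) ^ T.card) ^ 2 ∂(μ.prod μ) =
        ∫ y, ∫ z, |kh μ W p y z| ^ (2 * T.card) ∂μ ∂μ := by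
      rw [integral_prod _ ((nB.pow 2).integrable _)]
      refine integral_congr_ae (Filter.Eventually.of_forall fun y => ?_)
      refine integral_congr_ae (Filter.Eventually.of_forall fun z => ?_)
      simp only
      rw [← pow_mul, mul_comm T.card 2, pow_mul, pow_mul, sq_abs]
    rw [t1, t2, t3] at hcs
    rw [Real.sqrt_sq] at hcs
    · exact hcs
    · unfold Ex
      exact integral_nonneg fun y => sq_nonneg _
  have hnE : Nice (Ex μ a (fun x => F x ^ 2)) := (hF.pow 2).Ex a
  calc EE μ (fun x => ∫ y, ∫ z, (F (Function.update x a y) * F (Function.update x a z))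
        * (kh μ W p y z) ^ T.card ∂μ ∂μ)
      ≤ EE μ (fun x => Ex μ a (fun x => F x ^ 2) x * Q) := by
        refine EE_mono ?_ (hnE.mul (Nice.const Q)) hpt
        have n3 : Nice (fun q : ((ι → Ω) × Ω) × Ω =>
            (F (Function.update q.1.1 a q.1.2) * F (Function.update q.1.1 a q.2)) *
              (kh μ W p q.1.2 q.2) ^ T.card) :=
          hniceFF.comp (f := fun q : ((ι → Ω) × Ω) × Ω => (q.1.1, (q.1.2, q.2)))
            ((measurable_fst.comp measurable_fst).prodMk
              ((measurable_snd.comp measurable_fst).prodMk measurable_snd))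
        exact (n3.integral μ).integral μ
    _ = EE μ (fun x => Q * Ex μ a (fun x => F x ^ 2) x) := by
        congr 1; funext x; ring
    _ = Q * EE μ (Ex μ a (fun x => F x ^ 2)) := EE_const_mul _ _
    _ = EE μ (fun x => F x ^ 2) * Q := by rw [EE_Ex (hF.pow 2), mul_comm]

end Pool.Agent.H83.RGG
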