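import Pool.Agent.H83.RGG.GeoDefs
import Pool.Agent.H63.RGG.Cap

/-! Module G04_Q: one-dimensional Gaussian tail. -/

set_option autoImplicit false

open MeasureTheory ProbabilityTheory

namespace Pool.Agent.H83.RGG

lemma Qf_eq (x : ℝ) : Qf x = Pool.Agent.H63.RGG.QQ x := rfl

theorem Qf_nonneg (x : ℝ) : 0 ≤ Qf x := measureReal_nonneg

theorem Qf_le_one (x : ℝ) : Qf x ≤ 1 := measureReal_le_one

theorem Qf_anti : Antitone Qf := fun _ _ h => Pool.Agent.H63.RGG.QQ_anti h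

theorem Qf_zero : Qf 0 = 1 / 2 := by
  have hneg : (gaussianReal 0 1).map (fun x => -x) = gaussianReal 0 1 := by
    have h := gaussianReal_map_neg (μ := 0) (v := 1)
    rwa [neg_zero] at h
  have h1 : (gaussianReal 0 1).real (Set.Iic 0) = (gaussianReal 0 1).real (Set.Ici 0) := by
    conv_lhs => rw [← hneg]
    rw [map_measureReal_apply measurable_neg measurableSet_Iic]
    congr 1
    ext x
    simp
  have h2 : (gaussianReal 0 1).real (Set.Iic (0 : ℝ)) + (gaussianReal 0 1).real (Set.Ici (0 : ℝ)) = 1 := by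
    have h3 : (gaussianReal 0 1).real (Set.Iic (0 : ℝ)) = (gaussianReal 0 1).real (Set.Iio (0 : ℝ)) := by
      have hn : NullSingletonClass (gaussianReal 0 1) := nullSingletonClass_gaussianReal one_ne_zero
      exact measureReal_congr Iio_ae_eq_Iic.symm
    rw [h3, add_comm, ← Set.compl_Ici]
    rw [measureReal_compl measurableSet_Ici]
    simp
  unfold Qf
  linarith

theorem Qf_le {x : ℝ} (hx : 0 ≤ x) : Qf x ≤ Real.exp (-(x ^ 2 / 2)) := by
  have h := Pool.Agent.H63.RGG.QQ_le hx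
  rw [neg_div] at h
  exact h

theorem Qf_ge {x : ℝ} (hx : 0 ≤ x) : Real.exp (-(x ^ 2 / 2)) / (13 * (x + 1)) ≤ Qf x := by
  have h := Pool.Agent.H63.RGG.le_QQ hx
  refine le_trans ?_ h
  have h1 : Real.sqrt (2 * Real.pi) ≤ 13 := by
    rw [Real.sqrt_le_left (by norm_num)]
    have := Real.pi_lt_four
    nlinarith
  have h2 : 0 < Real.sqrt (2 * Real.pi) := Real.sqrt_pos.2 (by positivity)
  rw [neg_div, div_le_div_iff₀ (by positivity) (by positivity)]
  have h3 : (13 : ℝ)⁻¹ ≤ (Real.sqrt (2 * Real.pi))⁻¹ := inv_anti₀ h2 h1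
  have h4 : Real.exp (-(x ^ 2 / 2)) * (1 + x) =
      (13 : ℝ)⁻¹ * Real.exp (-(x ^ 2 / 2)) * (13 * (x + 1)) := by ring
  rw [h4]
  have h5 := Real.exp_pos (-(x ^ 2 / 2))
  gcongr

theorem Qf_haz {x y : ℝ} (hx : 0 ≤ x) (hxy : x ≤ y) :
    Qf x * (1 - 5 * (y - x) * (y + 1)) ≤ Qf y := by
  have h := Pool.Agent.H63.RGG.QQ_compare hx hxy
  refine le_trans ?_ h
  have h0 := Qf_nonneg x
  apply mul_le_mul_of_nonneg_left _ h0
  have h1 : (y - x) * (x + 1) ≤ (y - x) * (y + 1) :=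
    mul_le_mul_of_nonneg_left (by linarith) (sub_nonneg.2 hxy)
  have h2 : 0 ≤ (y - x) * (y + 1) := mul_nonneg (sub_nonneg.2 hxy) (by linarith)
  nlinarith

end Pool.Agent.H83.RGG
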