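import Pool.Agent.H83.RGG.Chi
import Pool.Agent.H83.RGG.QF

/-! Module G05_Cap: cap probabilities versus one- and two-dimensional Gaussian tails. -/

set_option autoImplicit false

open MeasureTheory ProbabilityTheory

namespace Pool.Agent.H83.RGG

lemma cap_single {d : ℕ} (i : Fin d) : ∑ k, (Pi.single i (1 : ℝ) : Fin d → ℝ) k ^ 2 = 1 := by
  rw [Finset.sum_eq_single i]
  · simp
  · intro b _ hb
    simp [Pi.single_eq_of_ne hb]
  · simp

lemma cap_dot {d : ℕ} (i : Fin d) (w : Fin d → ℝ) :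
    ∑ k, (Pi.single i (1 : ℝ) : Fin d → ℝ) k * w k = w i := by
  rw [Finset.sum_eq_single i]
  · simp
  · intro b _ hb
    simp [Pi.single_eq_of_ne hb]
  · simp

lemma cap_tail {d : ℕ} (i : Fin d) (a : ℝ) : (gam d).real {w | a ≤ w i} = Qf a := by
  have h := Pool.Agent.H63.RGG.tail_one (cap_single i) a
  simp_rw [cap_dot] at h
  exact h

/-- two different coordinates are independent standard normal variables -/
lemma cap_pair {d : ℕ} {i j : Fin d} (hij : i ≠ j) :
    (gam d).map (fun w => (w i, w j)) = (gaussianReal 0 1).prod (gaussianReal 0 1) := by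
  have h := Pool.Agent.H63.RGG.law_two (ρ := 0) (s := 1) (cap_single i) (cap_single j)
    (by rw [cap_dot]; simp [Pi.single_eq_of_ne hij]) (by norm_num)
  simp_rw [cap_dot] at h
  have e : (fun p : ℝ × ℝ => (p.1, 0 * p.1 + 1 * p.2)) = id := by
    funext p
    simp
  rw [e, Measure.map_id] at h
  exact h

theorem P1_neg {d : ℕ} (i : Fin d) {t : ℝ} (ht : t ≤ 0) : 1 / 2 ≤ P1 i t := by
  rw [← Qf_zero, ← cap_tail i 0]
  unfold P1
  refine measureReal_mono ?_
  intro w hw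
  simp only [Set.mem_ofPred_eq] at hw ⊢
  have : 0 ≤ nrm w := Real.sqrt_nonneg _
  nlinarith

lemma cap_nrm_lower {d : ℕ} {η : ℝ} {w : Fin d → ℝ} (h : (1 - η) * d ≤ ∑ k, w k ^ 2) :
    Real.sqrt ((1 - η) * d) ≤ nrm w := Real.sqrt_le_sqrt h

lemma cap_nrm_upper {d : ℕ} {η : ℝ} {w : Fin d → ℝ} (h : ∑ k, w k ^ 2 ≤ (1 + η) * d) :
    nrm w ≤ Real.sqrt ((1 + η) * d) := Real.sqrt_le_sqrt h

lemma cap_one_le {d : ℕ} (i : Fin d) : 1 ≤ d := Fin.pos i

/-- splitting off the bad event of the norm -/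
lemma cap_split {d : ℕ} (hd : 1 ≤ d) {η : ℝ} (h0 : 0 < η) (h1 : η < 1) {A B : Set (Fin d → ℝ)}
    (h : ∀ w, (1 - η) * d ≤ ∑ k, w k ^ 2 → ∑ k, w k ^ 2 ≤ (1 + η) * d → w ∈ A → w ∈ B) :
    (gam d).real A ≤ (gam d).real B + 2 * Real.exp (-(η ^ 2 * d / 8)) := by
  have hsub : A ⊆ B ∪ {z | ¬ ((1 - η) * d ≤ ∑ k, z k ^ 2 ∧ ∑ k, z k ^ 2 ≤ (1 + η) * d)} := by
    intro w hw
    by_cases hg : (1 - η) * d ≤ ∑ k, w k ^ 2 ∧ ∑ k, w k ^ 2 ≤ (1 + η) * d
    · exact Or.inl (h w hg.1 hg.2 hw)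
    · exact Or.inr hg
  have h3 := measureReal_mono (μ := gam d) hsub
  have h4 := measureReal_union_le (μ := gam d) B
    {z | ¬ ((1 - η) * d ≤ ∑ k, z k ^ 2 ∧ ∑ k, z k ^ 2 ≤ (1 + η) * d)}
  have h5 := chi_conc hd h0 h1
  linarith

theorem P1_upper {d : ℕ} (i : Fin d) {t η : ℝ} (ht : 0 ≤ t) (h0 : 0 < η) (h1 : η < 1) :
    P1 i t ≤ Qf (t * Real.sqrt ((1 - η) * d)) + 2 * Real.exp (-(η ^ 2 * d / 8)) := by
  rw [← cap_tail i]
  apply cap_split (cap_one_le i) h0 h1
  intro w hw1 _ hw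
  exact le_trans (mul_le_mul_of_nonneg_left (cap_nrm_lower hw1) ht) hw

theorem P1_lower {d : ℕ} (i : Fin d) {t η : ℝ} (ht : 0 ≤ t) (h0 : 0 < η) (h1 : η < 1) :
    Qf (t * Real.sqrt ((1 + η) * d)) - 2 * Real.exp (-(η ^ 2 * d / 8)) ≤ P1 i t := by
  rw [← cap_tail i, sub_le_iff_le_add]
  apply cap_split (cap_one_le i) h0 h1
  intro w _ hw2 hw
  exact le_trans (mul_le_mul_of_nonneg_left (cap_nrm_upper hw2) ht) hw

/-- product bound in the plane -/
lemma cap_prod {d : ℕ} {i j : Fin d} (hij : i ≠ j) (a b : ℝ) :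
    (gam d).real {w | a ≤ w i ∧ b ≤ w j} = Qf a * Qf b := by
  have h := cap_pair hij
  have hm : Measurable (fun w : Fin d → ℝ => (w i, w j)) := by fun_prop
  have e : {w : Fin d → ℝ | a ≤ w i ∧ b ≤ w j} =
      (fun w : Fin d → ℝ => (w i, w j)) ⁻¹' (Set.Ici a ×ˢ Set.Ici b) := by
    ext w
    simp
  rw [e, ← map_measureReal_apply hm (measurableSet_Ici.prod measurableSet_Ici), h,
    measureReal_prod_prod]
  rfl

theorem P2_upper {d : ℕ} {i j : Fin d} (hij : i ≠ j) {t η r r0 X : ℝ} (ht : 0 ≤ t) (h0 : 0 < η)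
    (h1 : η < 1) (hr : |r| ≤ r0) (hr0 : r0 < 1) (hX : 0 ≤ X)
    (hpos : 0 ≤ t * Real.sqrt ((1 - η) * d) - r0 * X) :
    P2 i j t r ≤ Qf (t * Real.sqrt ((1 - η) * d)) * Qf (t * Real.sqrt ((1 - η) * d) - r0 * X)
      + Qf X + 2 * Real.exp (-(η ^ 2 * d / 8)) := by
  set T := t * Real.sqrt ((1 - η) * d) with hT
  have h2 : P2 i j t r ≤ (gam d).real ({w | T ≤ w i ∧ T - r0 * X ≤ w j} ∪ {w | X ≤ w i}) +
      2 * Real.exp (-(η ^ 2 * d / 8)) := by
    apply cap_split (cap_one_le i) h0 h1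
    intro w hw1 _ hw
    simp only [Set.mem_ofPred_eq, Set.mem_union] at hw ⊢
    by_cases hXw : X ≤ w i
    · exact Or.inr hXw
    · left
      rw [not_le] at hXw
      have h3 : T ≤ t * nrm w := mul_le_mul_of_nonneg_left (cap_nrm_lower hw1) ht
      have hT0 : 0 ≤ T := by positivity
      have hwi0 : 0 ≤ w i := hT0.trans (h3.trans hw.1)
      refine ⟨h3.trans hw.1, ?_⟩
      have h4 : r * w i ≤ r0 * X := by
        have a1 : r * w i ≤ |r| * w i := mul_le_mul_of_nonneg_right (le_abs_self r) hwi0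
        have a2 : |r| * w i ≤ r0 * X := mul_le_mul hr hXw.le hwi0 ((abs_nonneg r).trans hr)
        linarith
      have h5 : T - r0 * X ≤ Real.sqrt (1 - r ^ 2) * w j := by linarith [h3.trans hw.2]
      have h6 : 0 ≤ Real.sqrt (1 - r ^ 2) * w j := hpos.trans h5
      have h7 : Real.sqrt (1 - r ^ 2) ≤ 1 := by
        rw [Real.sqrt_le_left zero_le_one]
        nlinarith [sq_nonneg r]
      have h8 : 0 ≤ Real.sqrt (1 - r ^ 2) := Real.sqrt_nonneg _
      rcases le_or_gt 0 (w j) with hwj | hwj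
      · have : Real.sqrt (1 - r ^ 2) * w j ≤ 1 * w j := mul_le_mul_of_nonneg_right h7 hwj
        linarith
      · -- then the product is nonpositive
        have h9 : Real.sqrt (1 - r ^ 2) * w j ≤ 0 := mul_nonpos_of_nonneg_of_nonpos h8 hwj.le
        exfalso
        have hr1 : r ^ 2 < 1 := by
          have : |r| < 1 := hr.trans_lt hr0
          rw [← sq_abs]
          nlinarith [abs_nonneg r]
        have h10 : 0 < Real.sqrt (1 - r ^ 2) := Real.sqrt_pos.2 (by linarith)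
        have h11 : Real.sqrt (1 - r ^ 2) * w j < 0 := mul_neg_of_pos_of_neg h10 hwj
        linarith
  have h3 := measureReal_union_le (μ := gam d) {w : Fin d → ℝ | T ≤ w i ∧ T - r0 * X ≤ w j}
    {w | X ≤ w i}
  rw [cap_prod hij, cap_tail i] at h3
  linarith

theorem P2_lower {d : ℕ} {i j : Fin d} (hij : i ≠ j) {t η r r0 X : ℝ} (ht : 0 ≤ t) (h0 : 0 < η)
    (h1 : η < 1) (hr : |r| ≤ r0) (hr0 : r0 < 1) (hX : 0 ≤ X) :
    (Qf (t * Real.sqrt ((1 + η) * d)) - Qf X)
        * Qf ((t * Real.sqrt ((1 + η) * d) + r0 * X) / Real.sqrt (1 - r0 ^ 2))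
      - 2 * Real.exp (-(η ^ 2 * d / 8)) ≤ P2 i j t r := by
  set T := t * Real.sqrt ((1 + η) * d) with hT
  set b := (T + r0 * X) / Real.sqrt (1 - r0 ^ 2) with hb
  have hT0 : 0 ≤ T := by positivity
  have hr00 : 0 ≤ r0 := (abs_nonneg r).trans hr
  have hs0 : 0 < Real.sqrt (1 - r0 ^ 2) := Real.sqrt_pos.2 (by nlinarith)
  have hb0 : 0 ≤ b := by positivity
  have h2 : (gam d).real {w | (T ≤ w i ∧ ¬ X ≤ w i) ∧ b ≤ w j} ≤ P2 i j t r +
      2 * Real.exp (-(η ^ 2 * d / 8)) := by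
    apply cap_split (cap_one_le i) h0 h1
    intro w _ hw2 hw
    simp only [Set.mem_ofPred_eq] at hw ⊢
    obtain ⟨⟨hw3, hw4⟩, hw5⟩ := hw
    rw [not_le] at hw4
    have h3 : t * nrm w ≤ T := mul_le_mul_of_nonneg_left (cap_nrm_upper hw2) ht
    refine ⟨h3.trans hw3, ?_⟩
    have hwi0 : 0 ≤ w i := hT0.trans hw3
    have h4 : -(r0 * X) ≤ r * w i := by
      have a1 : -(|r| * w i) ≤ r * w i := by
        have := mul_le_mul_of_nonneg_right (neg_abs_le r) hwi0
        linarith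
      have a2 : |r| * w i ≤ r0 * X := mul_le_mul hr hw4.le hwi0 hr00
      linarith
    have h5 : Real.sqrt (1 - r0 ^ 2) ≤ Real.sqrt (1 - r ^ 2) := by
      apply Real.sqrt_le_sqrt
      have : r ^ 2 ≤ r0 ^ 2 := by
        rw [← sq_abs]
        exact pow_le_pow_left₀ (abs_nonneg r) hr 2
      linarith
    have h6 : T + r0 * X ≤ Real.sqrt (1 - r ^ 2) * w j := by
      have a1 : T + r0 * X = Real.sqrt (1 - r0 ^ 2) * b := by
        rw [hb]
        field_simp
      rw [a1]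
      exact mul_le_mul h5 hw5 hb0 (Real.sqrt_nonneg _)
    linarith
  have h3 : (gam d).real {w | T ≤ w i ∧ b ≤ w j} ≤
      (gam d).real {w | (T ≤ w i ∧ ¬ X ≤ w i) ∧ b ≤ w j} + (gam d).real {w | X ≤ w i ∧ b ≤ w j} := by
    refine le_trans (measureReal_mono ?_) (measureReal_union_le _ _)
    intro w hw
    simp only [Set.mem_ofPred_eq, Set.mem_union] at hw ⊢
    by_cases hXw : X ≤ w i
    · exact Or.inr ⟨hXw, hw.2⟩
    · exact Or.inl ⟨⟨hw.1, hXw⟩, hw.2⟩
  rw [cap_prod hij, cap_prod hij] at h3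
  nlinarith

/-- Chernoff bound for the two-cap event at correlation `r` -/
theorem P2_crude {d : ℕ} {i j : Fin d} (hij : i ≠ j) {t η r : ℝ} (ht : 0 ≤ t) (h0 : 0 < η)
    (h1 : η < 1) (hr1 : -1 ≤ r) (hr2 : r ≤ 1) :
    P2 i j t r ≤ Real.exp (-(t ^ 2 * ((1 - η) * d) * (1 - r)))
      + 2 * Real.exp (-(η ^ 2 * d / 8)) := by
  set T := t * Real.sqrt ((1 - η) * d) with hT
  have hT0 : 0 ≤ T := by positivity
  have hT2 : T ^ 2 = t ^ 2 * ((1 - η) * d) := by
    rw [hT, mul_pow, Real.sq_sqrt]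
    have : (0 : ℝ) ≤ d := Nat.cast_nonneg _
    have : 0 ≤ 1 - η := by linarith
    positivity
  -- the sum of the two functionals
  set S : ℝ := Real.sqrt (1 - r ^ 2) with hS
  have hS2 : S ^ 2 = 1 - r ^ 2 := by
    rw [hS, Real.sq_sqrt]
    nlinarith
  have h2 : P2 i j t r ≤ (gam d).real {w | 2 * T ≤ (1 + r) * w i + S * w j} +
      2 * Real.exp (-(η ^ 2 * d / 8)) := by
    apply cap_split (cap_one_le i) h0 h1
    intro w hw1 _ hw
    simp only [Set.mem_ofPred_eq] at hw ⊢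
    have h3 : T ≤ t * nrm w := mul_le_mul_of_nonneg_left (cap_nrm_lower hw1) ht
    linarith [hw.1, hw.2]
  refine h2.trans (add_le_add ?_ le_rfl)
  -- law of the sum
  rcases hr1.eq_or_lt with hr | hr
  · -- r = -1 : the sum vanishes
    subst hr
    have hS0 : S = 0 := by rw [hS]; norm_num
    rcases hT0.eq_or_lt with h | h
    · have e : t ^ 2 * ((1 - η) * d) = 0 := by rw [← hT2, ← h]; norm_num
      rw [e]
      simp only [zero_mul, neg_zero, Real.exp_zero]
      exact measureReal_le_one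
    · have e : {w : Fin d → ℝ | 2 * T ≤ (1 + -1) * w i + S * w j} = ∅ := by
        ext w
        simp only [Set.mem_ofPred_eq, Set.mem_empty_iff_false, iff_false, not_le]
        rw [hS0]
        linarith
      rw [e]
      simp only [measureReal_empty]
      positivity
  · set N : ℝ := Real.sqrt (2 + 2 * r) with hN
    have hN2 : N ^ 2 = 2 + 2 * r := by rw [hN, Real.sq_sqrt (by linarith)]
    have hN0 : 0 < N := Real.sqrt_pos.2 (by linarith)
    -- the unit vector
    have hex : ∑ k, ((Pi.single i ((1 + r) / N) + Pi.single j (S / N) : Fin d → ℝ) k) ^ 2 = 1 := by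
      have hpt : ∀ k, ((Pi.single i ((1 + r) / N) + Pi.single j (S / N) : Fin d → ℝ) k) ^ 2 =
          ((1 + r) / N) ^ 2 * (Pi.single i (1 : ℝ) : Fin d → ℝ) k ^ 2 +
            (S / N) ^ 2 * (Pi.single j (1 : ℝ) : Fin d → ℝ) k ^ 2 := by
        intro k
        by_cases hk : k = i
        · subst hk
          simp [Pi.single_eq_of_ne hij]
        · by_cases hk' : k = j
          · subst hk'
            simp [Pi.single_eq_of_ne hk]
          · simp [Pi.single_eq_of_ne hk, Pi.single_eq_of_ne hk']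
      simp_rw [hpt]
      rw [Finset.sum_add_distrib, ← Finset.mul_sum, ← Finset.mul_sum, cap_single, cap_single]
      rw [div_pow, div_pow, hN2, hS2]
      have h9 : (2 + 2 * r) ≠ 0 := by linarith
      rw [mul_one, mul_one, ← add_div, div_eq_one_iff_eq h9]
      ring
    have htail := Pool.Agent.H63.RGG.tail_one hex (2 * T / N)
    have hdot : ∀ z : Fin d → ℝ, ∑ k, (Pi.single i ((1 + r) / N) + Pi.single j (S / N) : Fin d → ℝ) k * z k =
        ((1 + r) * z i + S * z j) / N := by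
      intro z
      have hpt : ∀ k, (Pi.single i ((1 + r) / N) + Pi.single j (S / N) : Fin d → ℝ) k * z k =
          (1 + r) / N * ((Pi.single i (1 : ℝ) : Fin d → ℝ) k * z k) +
            S / N * ((Pi.single j (1 : ℝ) : Fin d → ℝ) k * z k) := by
        intro k
        by_cases hk : k = i
        · subst hk
          simp [Pi.single_eq_of_ne hij]
        · by_cases hk' : k = j
          · subst hk'
            simp [Pi.single_eq_of_ne hk]
          · simp [Pi.single_eq_of_ne hk, Pi.single_eq_of_ne hk']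
      simp_rw [hpt]
      rw [Finset.sum_add_distrib, ← Finset.mul_sum, ← Finset.mul_sum, cap_dot, cap_dot]
      field_simp
    simp_rw [hdot] at htail
    have hset : {w : Fin d → ℝ | 2 * T ≤ (1 + r) * w i + S * w j} =
        {z | 2 * T / N ≤ ((1 + r) * z i + S * z j) / N} := by
      ext w
      simp only [Set.mem_ofPred_eq]
      rw [div_le_div_iff_of_pos_right hN0]
    rw [hset]
    have h4 : (gam d).real {z | 2 * T / N ≤ ((1 + r) * z i + S * z j) / N} = Qf (2 * T / N) := htail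
    rw [h4]
    refine (Qf_le (by positivity)).trans ?_
    apply Real.exp_le_exp.2
    rw [← hT2, div_pow, hN2]
    have h5 : (1 - r) ≤ 1 / (1 + r) := by
      rw [le_div_iff₀ (by linarith)]
      nlinarith [sq_nonneg r]
    have h6 : (2 * T) ^ 2 / (2 + 2 * r) / 2 = T ^ 2 * (1 / (1 + r)) := by
      have : 1 + r ≠ 0 := by linarith
      have : 2 + 2 * r ≠ 0 := by linarith
      field_simp
    rw [h6]
    have h7 : T ^ 2 * (1 - r) ≤ T ^ 2 * (1 / (1 + r)) := mul_le_mul_of_nonneg_left h5 (sq_nonneg _)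
    linarith

end Pool.Agent.H83.RGG
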