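import Pool.Agent.H83.RGG.KernG
import Pool.Agent.H83.RGG.Cap

/-! Module G07_Asy1: size of the threshold. -/

set_option autoImplicit false

open MeasureTheory ProbabilityTheory Filter

namespace Pool.Agent.H83.RGG

variable {c : ℝ} {d : ℕ → ℕ} {t : ℕ → ℝ}

theorem asy1_log (B : ℝ) : ∀ᶠ n : ℕ in atTop, B ≤ Real.log n :=
  (Real.tendsto_log_atTop.comp tendsto_natCast_atTop_atTop).eventually_ge_atTop B

/-- `d(n) ≥ A log³ n` eventually, for each `A` -/
theorem Asy.ge (hA : Asy c d t) (A : ℝ) : ∀ᶠ n : ℕ in atTop, A * Real.log n ^ 3 ≤ d n := by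
  filter_upwards [hA.hd.eventually_ge_atTop A, asy1_log 1] with n h1 h2
  have h3 : 0 < Real.log n ^ 3 := by positivity
  rwa [le_div_iff₀ h3] at h1

theorem Asy.two_le (hA : Asy c d t) : ∀ᶠ n : ℕ in atTop, 2 ≤ d n := by
  filter_upwards [hA.ge 2, asy1_log 1] with n h1 h2
  have h3 : (1:ℝ) ≤ Real.log n ^ 3 := one_le_pow₀ h2
  have h4 : (2:ℝ) ≤ d n := by linarith
  exact_mod_cast h4

theorem Asy.P1_eq (hA : Asy c d t) : ∀ᶠ n : ℕ in atTop, ∀ i : Fin (d n), P1 i (t n) = c / n := by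
  filter_upwards [hA.ht] with n h1 i
  have hc := hA.c_pos
  rw [← edgeP_eq i (t n), h1, ENNReal.toReal_ofReal (by positivity)]

/-- `η_n log n → 0` -/
theorem Asy.etan_log (hA : Asy c d t) :
    Tendsto (fun n : ℕ => etan (d n) n * Real.log n) atTop (nhds 0) := by
  have h1 : Tendsto (fun n : ℕ => ((d n : ℝ) / (Real.log n) ^ 3)⁻¹) atTop (nhds 0) :=
    hA.hd.inv_tendsto_atTop
  have h2 : Tendsto (fun n : ℕ => 60 * Real.sqrt (((d n : ℝ) / (Real.log n) ^ 3)⁻¹)) atTop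
      (nhds (60 * Real.sqrt 0)) := (h1.sqrt).const_mul 60
  rw [Real.sqrt_zero, mul_zero] at h2
  refine h2.congr' ?_
  filter_upwards [asy1_log 1] with n h3
  have h4 : 0 ≤ Real.log n := by linarith
  unfold etan
  rw [mul_assoc, inv_div]
  congr 1
  have e : Real.sqrt (Real.log n / d n) * Real.log n =
      Real.sqrt (Real.log n / d n) * Real.sqrt (Real.log n ^ 2) := by
    rw [Real.sqrt_sq h4]
  rw [e, ← Real.sqrt_mul (by positivity)]
  congr 1
  ring

theorem Asy.etan_pos (hA : Asy c d t) :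
    ∀ᶠ n : ℕ in atTop, 0 < etan (d n) n ∧ etan (d n) n < 1 / 10 := by
  filter_upwards [hA.etan_log.eventually (gt_mem_nhds (show (0:ℝ) < 1 / 10 by norm_num)),
    asy1_log 1, hA.two_le] with n h1 h2 h3
  have hd : (0:ℝ) < d n := by exact_mod_cast (by omega : 0 < d n)
  have h4 : 0 < etan (d n) n := by
    unfold etan
    have : 0 < Real.log n := by linarith
    positivity
  refine ⟨h4, ?_⟩
  nlinarith

theorem asy1_etan_sq {d n : ℕ} (hd : 0 < d) (hn : 0 ≤ Real.log n) :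
    etan d n ^ 2 * d = 3600 * Real.log n := by
  unfold etan
  have hd' : (0:ℝ) < d := by exact_mod_cast hd
  rw [mul_pow, Real.sq_sqrt (by positivity)]
  field_simp
  ring

/-- the concentration error is negligible: it equals `2 n^{-450}` -/
theorem Asy.beta (hA : Asy c d t) :
    ∀ᶠ n : ℕ in atTop, 2 * Real.exp (-(etan (d n) n ^ 2 * d n / 8)) ≤ (n : ℝ) ^ (-(100 : ℤ)) := by
  filter_upwards [hA.two_le, asy1_log 1, eventually_ge_atTop 2] with n h1 h2 h3
  rw [asy1_etan_sq (by omega) (by linarith)]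
  have hn : (2:ℝ) ≤ n := by exact_mod_cast h3
  have hn0 : (0:ℝ) < n := by linarith
  have e : Real.exp (-(3600 * Real.log n / 8)) = ((n:ℝ) ^ 450)⁻¹ := by
    rw [Real.exp_neg]
    congr 1
    rw [show 3600 * Real.log n / 8 = ((450:ℕ):ℝ) * Real.log n by push_cast; ring,
      Real.exp_nat_mul, Real.exp_log hn0]
  rw [e, zpow_neg]
  have e2 : (n:ℝ) ^ (100:ℤ) = (n:ℝ) ^ 100 := by norm_cast
  rw [e2, ← div_eq_mul_inv, div_le_iff₀ (by positivity), inv_mul_eq_div, le_div_iff₀ (by positivity)]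
  calc 2 * (n:ℝ) ^ 100 ≤ n * (n:ℝ) ^ 100 := by gcongr
    _ = (n:ℝ) ^ 101 := by ring
    _ ≤ (n:ℝ) ^ 450 := pow_le_pow_right₀ (by linarith) (by norm_num)

theorem Asy.t_nonneg (hA : Asy c d t) : ∀ᶠ n : ℕ in atTop, 0 ≤ t n := by
  have hc := hA.c_pos
  filter_upwards [hA.P1_eq, hA.two_le, eventually_gt_atTop ⌈2 * c⌉₊] with n h1 h2 h3
  by_contra hcon
  push Not at hcon
  have h4 := P1_neg (⟨0, by omega⟩ : Fin (d n)) hcon.le
  rw [h1] at h4
  have h5 : 2 * c < n := lt_of_le_of_lt (Nat.le_ceil _) (by exact_mod_cast h3)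
  have hn : (0:ℝ) < n := by linarith
  rw [le_div_iff₀ hn] at h4
  linarith

/-- the concentration error against the edge probability -/
theorem asy1_beta_small {c ε : ℝ} (hc : 0 < c) (hε : 0 < ε) :
    ∀ᶠ n : ℕ in atTop, (n : ℝ) ^ (-(100 : ℤ)) ≤ ε * (c / n) := by
  filter_upwards [eventually_gt_atTop ⌈1 / (ε * c)⌉₊, eventually_ge_atTop 2] with n h1 h2
  have hn : (2:ℝ) ≤ n := by exact_mod_cast h2
  have hn0 : (0:ℝ) < n := by linarith
  have h3 : 1 / (ε * c) < n := lt_of_le_of_lt (Nat.le_ceil _) (by exact_mod_cast h1)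
  rw [div_lt_iff₀ (by positivity)] at h3
  have e2 : (n:ℝ) ^ (100:ℤ) = (n:ℝ) ^ 100 := by norm_cast
  rw [zpow_neg, e2, ← mul_div_assoc, le_div_iff₀ hn0, inv_mul_eq_div, div_le_iff₀ (by positivity)]
  have h4 : (n:ℝ) ^ 2 ≤ (n:ℝ) ^ 100 := pow_le_pow_right₀ (by linarith) (by norm_num)
  calc (n:ℝ) = n * 1 := by ring
    _ ≤ n * (n * (ε * c)) := by gcongr
    _ = ε * c * (n:ℝ) ^ 2 := by ring
    _ ≤ ε * c * (n:ℝ) ^ 100 := by gcongr

/-- `T² = t² d ≤ 3 log n` -/
theorem Asy.T_le (hA : Asy c d t) : ∀ᶠ n : ℕ in atTop, t n ^ 2 * d n ≤ 3 * Real.log n := by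
  have hc := hA.c_pos
  filter_upwards [hA.P1_eq, hA.two_le, hA.t_nonneg, hA.etan_pos, hA.beta,
    asy1_beta_small hc (ε := 1 / 2) (by norm_num), asy1_log 1,
    asy1_log (4 * Real.log (2 / c)), eventually_gt_atTop 0] with n h1 h2 h3 h4 h5 h6 h7 h8 h9
  have hn : (0:ℝ) < n := by exact_mod_cast h9
  have h10 := P1_upper (⟨0, by omega⟩ : Fin (d n)) h3 h4.1 (h4.2.trans (by norm_num))
  rw [h1] at h10
  have hd : (0:ℝ) < d n := by exact_mod_cast (by omega : 0 < d n)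
  have h11 := Qf_le (x := t n * Real.sqrt ((1 - etan (d n) n) * d n)) (by positivity)
  have h12 : c / (2 * n) ≤ Real.exp (-((t n * Real.sqrt ((1 - etan (d n) n) * d n)) ^ 2 / 2)) := by
    have : c / (2 * n) = 1 / 2 * (c / n) := by field_simp
    rw [this]
    linarith
  have h13 : (t n * Real.sqrt ((1 - etan (d n) n) * d n)) ^ 2 =
      (1 - etan (d n) n) * (t n ^ 2 * d n) := by
    rw [mul_pow, Real.sq_sqrt (mul_nonneg (by linarith [h4.2]) hd.le)]
    ring
  rw [h13] at h12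
  have h14 := Real.log_le_log (by positivity) h12
  rw [Real.log_exp] at h14
  have h15 : Real.log (c / (2 * n)) = -Real.log (2 / c) - Real.log n := by
    rw [show c / (2 * (n:ℝ)) = (2 / c)⁻¹ * (n:ℝ)⁻¹ by field_simp, Real.log_mul (by positivity)
      (by positivity), Real.log_inv, Real.log_inv]
    ring
  rw [h15] at h14
  have h16 : 0 ≤ t n ^ 2 * d n := by positivity
  have h17 : 9 / 10 * (t n ^ 2 * d n) ≤ (1 - etan (d n) n) * (t n ^ 2 * d n) := by
    apply mul_le_mul_of_nonneg_right _ h16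
    linarith [h4.2]
  linarith

/-- the relative distance of the two thresholds -/
theorem asy1_gap {t η d L : ℝ} (ht : 0 ≤ t) (hη : 0 ≤ η) (hη1 : η < 1 / 10) (hd : 0 < d)
    (hL : 1 ≤ L) (hT : t ^ 2 * d ≤ 3 * L) :
    t * Real.sqrt ((1 - η) * d) ≤ t * Real.sqrt ((1 + η) * d) ∧
    (t * Real.sqrt ((1 + η) * d) - t * Real.sqrt ((1 - η) * d)) *
      (t * Real.sqrt ((1 + η) * d) + 1) ≤ 11 * (η * L) := by
  set P := t * Real.sqrt ((1 + η) * d) with hP
  set M := t * Real.sqrt ((1 - η) * d) with hM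
  have hP0 : 0 ≤ P := by positivity
  have hM0 : 0 ≤ M := by positivity
  have hP2 : P ^ 2 = (1 + η) * (t ^ 2 * d) := by
    rw [hP, mul_pow, Real.sq_sqrt (by positivity)]; ring
  have hM2 : M ^ 2 = (1 - η) * (t ^ 2 * d) := by
    rw [hM, mul_pow, Real.sq_sqrt (mul_nonneg (by linarith) hd.le)]; ring
  have hT0 : 0 ≤ t ^ 2 * d := by positivity
  have h1 : M ≤ P := by
    rw [hM, hP]
    gcongr
    linarith
  refine ⟨h1, ?_⟩
  have h2 : (1 - 2 * η) * P ≤ M := by
    apply le_of_sq_le_sq _ hM0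
    rw [mul_pow, hP2, hM2]
    have h3 : (1 - 2 * η) ^ 2 * (1 + η) ≤ 1 - η := by
      have : 0 ≤ η * (1 - 2 * η ^ 2) := mul_nonneg hη (by nlinarith)
      nlinarith
    calc (1 - 2 * η) ^ 2 * ((1 + η) * (t ^ 2 * d)) = ((1 - 2 * η) ^ 2 * (1 + η)) * (t ^ 2 * d) := by
          ring
      _ ≤ (1 - η) * (t ^ 2 * d) := mul_le_mul_of_nonneg_right h3 hT0
  have h4 : P - M ≤ 2 * η * P := by linarith
  have h5 : P ^ 2 ≤ 33 / 10 * L := by
    rw [hP2]
    calc (1 + η) * (t ^ 2 * d) ≤ (11 / 10) * (3 * L) := by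
          apply mul_le_mul (by linarith) hT hT0 (by norm_num)
      _ = 33 / 10 * L := by ring
  calc (P - M) * (P + 1) ≤ (2 * η * P) * (P + 1) := by gcongr
    _ = η * (2 * P ^ 2 + 2 * P) := by ring
    _ ≤ η * (11 * L) := by
        apply mul_le_mul_of_nonneg_left _ hη
        nlinarith [sq_nonneg (P - 1)]
    _ = 11 * (η * L) := by ring

/-- `Q(T₋) ≤ (1+ε) c/n`, `Q(T₊) ≥ (1-ε) c/n` -/
theorem Asy.Q_bounds (hA : Asy c d t) {ε : ℝ} (hε : 0 < ε) :
    ∀ᶠ n : ℕ in atTop,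
      Qf (t n * Real.sqrt ((1 - etan (d n) n) * d n)) ≤ (1 + ε) * (c / n) ∧
      (1 - ε) * (c / n) ≤ Qf (t n * Real.sqrt ((1 + etan (d n) n) * d n)) := by
  have hc := hA.c_pos
  set e : ℝ := min ε 1 / 4 with he
  have he0 : 0 < e := by
    have : 0 < min ε 1 := lt_min hε one_pos
    positivity
  have he1 : e ≤ 1 / 4 := by
    have := min_le_right ε 1
    linarith
  have he2 : 4 * e ≤ ε := by
    have := min_le_left ε 1
    linarith
  filter_upwards [hA.P1_eq, hA.two_le, hA.t_nonneg, hA.etan_pos, hA.beta,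
    asy1_beta_small hc he0, asy1_log 1, hA.T_le, eventually_gt_atTop 0,
    hA.etan_log.eventually (ge_mem_nhds (show (0:ℝ) < e / 55 by positivity))]
    with n h1 h2 h3 h4 h5 h6 h7 h8 h9 h10
  have hn : (0:ℝ) < n := by exact_mod_cast h9
  have hd : (0:ℝ) < d n := by exact_mod_cast (by omega : 0 < d n)
  obtain ⟨hMP, hgap⟩ := asy1_gap h3 h4.1.le h4.2 hd h7 h8
  have hup := P1_upper (⟨0, by omega⟩ : Fin (d n)) h3 h4.1 (h4.2.trans (by norm_num))
  have hlo := P1_lower (⟨0, by omega⟩ : Fin (d n)) h3 h4.1 (h4.2.trans (by norm_num))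
  rw [h1] at hup hlo
  have hM0 : 0 ≤ t n * Real.sqrt ((1 - etan (d n) n) * d n) := by positivity
  have hhaz := Qf_haz hM0 hMP
  have hqM := Qf_nonneg (t n * Real.sqrt ((1 - etan (d n) n) * d n))
  have hqP := Qf_nonneg (t n * Real.sqrt ((1 + etan (d n) n) * d n))
  set P := t n * Real.sqrt ((1 + etan (d n) n) * d n)
  set M := t n * Real.sqrt ((1 - etan (d n) n) * d n)
  set B := 2 * Real.exp (-(etan (d n) n ^ 2 * d n / 8))
  set q := c / (n:ℝ) with hq
  have hq0 : 0 < q := by positivity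
  have hθ : 5 * (P - M) * (P + 1) ≤ e := by
    have : 5 * (P - M) * (P + 1) = 5 * ((P - M) * (P + 1)) := by ring
    rw [this]
    linarith
  have hB : B ≤ e * q := h5.trans h6
  have h11 : Qf M * (1 - e) ≤ Qf P :=
    le_trans (mul_le_mul_of_nonneg_left (by linarith) hqM) hhaz
  constructor
  · have h12 : Qf M * (1 - e) ≤ (1 + e) * q := by linarith
    have h13 : (1 + e) * q ≤ ((1 + ε) * q) * (1 - e) := by
      have h14 : 1 + e ≤ (1 + ε) * (1 - e) := by nlinarith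
      calc (1 + e) * q ≤ ((1 + ε) * (1 - e)) * q := mul_le_mul_of_nonneg_right h14 hq0.le
        _ = ((1 + ε) * q) * (1 - e) := by ring
    exact le_of_mul_le_mul_right (h12.trans h13) (by linarith)
  · have h12 : (1 - e) * q ≤ Qf M := by linarith
    have h13 : ((1 - e) * q) * (1 - e) ≤ Qf M * (1 - e) :=
      mul_le_mul_of_nonneg_right h12 (by linarith)
    have h14 : (1 - ε) * q ≤ ((1 - e) * q) * (1 - e) := by
      have h15 : 1 - ε ≤ (1 - e) * (1 - e) := by nlinarith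
      calc (1 - ε) * q ≤ ((1 - e) * (1 - e)) * q := mul_le_mul_of_nonneg_right h15 hq0.le
        _ = ((1 - e) * q) * (1 - e) := by ring
    linarith

end Pool.Agent.H83.RGG
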