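import Pool.Agent.H83.RGG.Asy1

/-! Module G08_Asy2: two caps at small correlation. -/

set_option autoImplicit false

open MeasureTheory ProbabilityTheory Filter

namespace Pool.Agent.H83.RGG

variable {c : ℝ} {d : ℕ → ℕ} {t : ℕ → ℝ}

namespace Asy2Aux

/-- `√(1+η) ≤ 1 + η` -/
lemma sqrt_one_add {η : ℝ} (h : 0 ≤ η) : Real.sqrt (1 + η) ≤ 1 + η := by
  rw [Real.sqrt_le_left (by linarith)]; nlinarith

/-- the arithmetic of the upper bound -/
lemma arith_upper {e q A B X b P : ℝ} (he : 0 < e) (he1 : e ≤ 1 / 10) (hq : 0 < q)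
    (hA0 : 0 ≤ A) (hA : A ≤ (1 + e) * q) (hB0 : 0 ≤ B) (hB : B * (1 - e) ≤ A) (hX : X ≤ e * q ^ 2)
    (hb : b ≤ e * q ^ 2) (hP : P ≤ A * B + X + b) : P ≤ (1 + 6 * e) * q ^ 2 := by
  have h1e : 0 < 1 - e := by linarith
  have hB' : B ≤ (1 + e) * q / (1 - e) := by
    rw [le_div_iff₀ h1e]; linarith
  have h2 : (1 + e) / (1 - e) ≤ 1 + 5 / 2 * e := by
    rw [div_le_iff₀ h1e]; nlinarith
  have h3 : B ≤ (1 + 5 / 2 * e) * q := by
    calc B ≤ (1 + e) * q / (1 - e) := hB'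
      _ = (1 + e) / (1 - e) * q := by ring
      _ ≤ _ := mul_le_mul_of_nonneg_right h2 hq.le
  have h4 : A * B ≤ (1 + e) * q * ((1 + 5 / 2 * e) * q) :=
    mul_le_mul hA h3 hB0 (by positivity)
  have h5 : (1 + e) * q * ((1 + 5 / 2 * e) * q) ≤ (1 + 4 * e) * q ^ 2 := by
    have : (1 + e) * (1 + 5 / 2 * e) ≤ 1 + 4 * e := by nlinarith
    calc (1 + e) * q * ((1 + 5 / 2 * e) * q) = ((1 + e) * (1 + 5 / 2 * e)) * q ^ 2 := by ring
      _ ≤ _ := mul_le_mul_of_nonneg_right this (by positivity)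
  nlinarith

/-- the arithmetic of the lower bound -/
lemma arith_lower {e q A B X b P : ℝ} (he : 0 < e) (he1 : e ≤ 1 / 10) (hq : 0 < q) (hq1 : q ≤ 1)
    (hA : (1 - e) * q ≤ A) (hB0 : 0 ≤ B) (hB1 : B ≤ 1) (hB : A * (1 - e) ≤ B)
    (hX0 : 0 ≤ X) (hX : X ≤ e * q ^ 2)
    (hb : b ≤ e * q ^ 2) (hP : (A - X) * B - b ≤ P) : (1 - 6 * e) * q ^ 2 ≤ P := by
  have h1e : 0 < 1 - e := by linarith
  have h3 : (1 - e) ^ 2 * q ≤ B := by
    calc (1 - e) ^ 2 * q = ((1 - e) * q) * (1 - e) := by ring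
      _ ≤ A * (1 - e) := mul_le_mul_of_nonneg_right hA h1e.le
      _ ≤ B := hB
  have h4 : (1 - e) * q * ((1 - e) ^ 2 * q) ≤ A * B := by
    apply mul_le_mul hA h3 (by positivity)
    exact le_trans (by positivity) hA
  have h5 : X * B ≤ e * q ^ 2 := by
    calc X * B ≤ X * 1 := mul_le_mul_of_nonneg_left hB1 hX0
      _ ≤ _ := by linarith
  have h6 : (1 - 3 * e) * q ^ 2 ≤ (1 - e) * q * ((1 - e) ^ 2 * q) := by
    have : 1 - 3 * e ≤ (1 - e) ^ 3 := by nlinarith [sq_nonneg e, mul_pos he he]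
    calc (1 - 3 * e) * q ^ 2 ≤ (1 - e) ^ 3 * q ^ 2 :=
          mul_le_mul_of_nonneg_right this (by positivity)
      _ = _ := by ring
  nlinarith

end Asy2Aux

open Asy2Aux

theorem Asy.P2_near (hA : Asy c d t) {ε : ℝ} (hε : 0 < ε) :
    ∀ᶠ n : ℕ in atTop, ∀ i j : Fin (d n), i ≠ j → ∀ r : ℝ, |r| ≤ etan (d n) n →
      |P2 i j (t n) r / (c / n) ^ 2 - 1| ≤ ε := by
  have hc := hA.c_pos
  set e : ℝ := min ε 1 / 10 with hedef
  have he : 0 < e := by
    have : 0 < min ε 1 := lt_min hε one_pos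
    positivity
  have he1 : e ≤ 1 / 10 := by
    have : min ε 1 ≤ 1 := min_le_right _ _
    linarith
  have he2 : 6 * e ≤ ε := by
    have : min ε 1 ≤ ε := min_le_left _ _
    have h0 : 0 < min ε 1 := lt_min hε one_pos
    rw [hedef]; linarith
  have hl : ∀ᶠ n : ℕ in atTop, 4 ≤ Real.log n := asy1_log 4
  have hel : ∀ᶠ n : ℕ in atTop, etan (d n) n * Real.log n < e / 250 :=
    hA.etan_log.eventually_lt_const (by positivity)
  -- n^{-8} ≤ e (c/n)^2
  have h8 : ∀ᶠ n : ℕ in atTop, ((n : ℝ) ^ 8)⁻¹ ≤ e * (c / n) ^ 2 := by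
    have h1 : ∀ᶠ n : ℕ in atTop, (e * c ^ 2)⁻¹ ≤ (n : ℝ) :=
      tendsto_natCast_atTop_atTop.eventually_ge_atTop _
    filter_upwards [h1, eventually_ge_atTop 1] with n hn hn1
    have hn0 : (1:ℝ) ≤ n := by exact_mod_cast hn1
    have hec : 0 < e * c ^ 2 := by positivity
    rw [div_pow, inv_le_iff_one_le_mul₀ (by positivity)]
    have h2 : 1 ≤ e * c ^ 2 * n := by
      rw [inv_le_iff_one_le_mul₀ hec] at hn; linarith
    have h3 : e * (c ^ 2 / (n:ℝ) ^ 2) * (n:ℝ) ^ 8 = e * c ^ 2 * n * (n:ℝ) ^ 5 := by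
      field_simp
    rw [h3]
    have h4 : (1:ℝ) ≤ (n:ℝ) ^ 5 := one_le_pow₀ hn0
    nlinarith
  have hcn : ∀ᶠ n : ℕ in atTop, c / n ≤ 1 / 4 := by
    have h1 : ∀ᶠ n : ℕ in atTop, 4 * c ≤ (n : ℝ) :=
      tendsto_natCast_atTop_atTop.eventually_ge_atTop _
    filter_upwards [h1, eventually_ge_atTop 1] with n hn hn1
    have hn0 : (0:ℝ) < n := by exact_mod_cast hn1
    rw [div_le_div_iff₀ hn0 (by norm_num)]; linarith
  have hcn2 : ∀ᶠ n : ℕ in atTop, (1 + e) * (c / n) < Qf 1 := by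
    have h1 : Tendsto (fun n : ℕ => (1 + e) * (c / (n:ℝ))) atTop (nhds ((1 + e) * 0)) :=
      (tendsto_const_div_atTop_nhds_zero_nat c).const_mul _
    rw [mul_zero] at h1
    have hQ1 : 0 < Qf 1 := by
      refine lt_of_lt_of_le ?_ (Qf_ge (x := 1) (by norm_num))
      positivity
    exact h1.eventually_lt_const hQ1
  filter_upwards [hl, hel, h8, hcn, hcn2, hA.etan_pos, hA.beta, hA.t_nonneg, hA.T_le,
    hA.Q_bounds he, eventually_ge_atTop 1] with n hl hel h8 hcn hcn2 hη hβ ht hT hQ hn1 i j hij r hr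
  obtain ⟨hη0, hη1⟩ := hη
  obtain ⟨hQ1, hQ2⟩ := hQ
  set η := etan (d n) n with hηdef
  set l := Real.log n with hldef
  have hn0 : (1:ℝ) ≤ n := by exact_mod_cast hn1
  have hnpos : (0:ℝ) < n := by linarith
  have hq : 0 < c / n := by positivity
  set β := 2 * Real.exp (-(η ^ 2 * d n / 8)) with hβdef
  have hβ8 : β ≤ e * (c / n) ^ 2 := by
    refine (hβ.trans ?_).trans h8
    rw [zpow_neg]
    apply inv_anti₀ (by positivity)
    exact_mod_cast pow_le_pow_right₀ hn0 (by norm_num : 8 ≤ 100)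
  set X := 4 * Real.sqrt l with hXdef
  have hsl : Real.sqrt l ^ 2 = l := Real.sq_sqrt (by linarith)
  have hsl2 : 2 ≤ Real.sqrt l := by
    apply Real.le_sqrt_of_sq_le; linarith
  have hsl0 : 0 ≤ Real.sqrt l := Real.sqrt_nonneg _
  have hX0 : 0 ≤ X := by positivity
  have hQX : Qf X ≤ e * (c / n) ^ 2 := by
    refine ((Qf_le hX0).trans ?_).trans h8
    have h1 : -(X ^ 2 / 2) = -((8:ℕ) * l) := by
      rw [hXdef, mul_pow, hsl]; push_cast; ring
    rw [h1, Real.exp_neg, hldef, Real.exp_nat_mul, Real.exp_log hnpos]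
  -- the thresholds
  set Tm := t n * Real.sqrt ((1 - η) * d n) with hTm
  set Tp := t n * Real.sqrt ((1 + η) * d n) with hTp
  have hd0 : (0:ℝ) ≤ d n := Nat.cast_nonneg _
  have hTmp : Tm ≤ Tp := by
    apply mul_le_mul_of_nonneg_left _ ht
    apply Real.sqrt_le_sqrt
    exact mul_le_mul_of_nonneg_right (by linarith) hd0
  have hTm0 : 0 ≤ Tm := mul_nonneg ht (Real.sqrt_nonneg _)
  have hTp2 : Tp ≤ 2 * Real.sqrt l := by
    apply le_of_sq_le_sq _ (by positivity)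
    have h0 : 0 ≤ (1 + η) * (d n : ℝ) := mul_nonneg (by linarith) hd0
    rw [hTp, mul_pow, Real.sq_sqrt h0, mul_pow, hsl]
    have h1 : 0 ≤ t n ^ 2 * (d n : ℝ) := mul_nonneg (sq_nonneg _) hd0
    calc t n ^ 2 * ((1 + η) * (d n : ℝ)) = (1 + η) * (t n ^ 2 * (d n : ℝ)) := by ring
      _ ≤ (11 / 10) * (3 * l) := mul_le_mul (by linarith) hT h1 (by norm_num)
      _ ≤ 2 ^ 2 * l := by linarith
  have hTm1 : 1 < Tm := by
    by_contra hcon
    push Not at hcon
    have := Qf_anti hcon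
    linarith
  have hηX : η * X ≤ 1 := by
    have : η * l ≤ e / 250 := hel.le
    have h2 : Real.sqrt l ≤ l := by
      calc Real.sqrt l = Real.sqrt l * 1 := by ring
        _ ≤ Real.sqrt l * Real.sqrt l := mul_le_mul_of_nonneg_left (by linarith) hsl0
        _ = l := by rw [← sq, hsl]
    have h3 : η * Real.sqrt l ≤ η * l := mul_le_mul_of_nonneg_left h2 hη0.le
    rw [hXdef]; linarith
  have hηX0 : 0 ≤ η * X := by positivity
  have hηs : η * Real.sqrt l * Real.sqrt l ≤ e / 250 := by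
    rw [mul_assoc, ← sq, hsl]; exact hel.le
  -- upper bound
  have hup := P2_upper hij (t := t n) (η := η) (r := r) (r0 := η) (X := X) ht hη0 (by linarith) hr
    (by linarith) hX0 (by linarith)
  have hhaz1 : Qf (Tm - η * X) * (1 - e) ≤ Qf Tm := by
    have h1 := Qf_haz (x := Tm - η * X) (y := Tm) (by linarith) (by linarith)
    refine le_trans (mul_le_mul_of_nonneg_left ?_ (Qf_nonneg _)) h1
    have h2 : (Tm - (Tm - η * X)) * (Tm + 1) ≤ e / 5 := by
      have e1 : Tm + 1 ≤ 3 * Real.sqrt l := by linarith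
      calc (Tm - (Tm - η * X)) * (Tm + 1) = (η * X) * (Tm + 1) := by ring
        _ ≤ (η * X) * (3 * Real.sqrt l) := mul_le_mul_of_nonneg_left e1 hηX0
        _ = 12 * (η * Real.sqrt l * Real.sqrt l) := by rw [hXdef]; ring
        _ ≤ _ := by linarith
    linarith
  have hU : P2 i j (t n) r ≤ (1 + 6 * e) * (c / n) ^ 2 :=
    arith_upper he he1 hq (Qf_nonneg _) hQ1 (Qf_nonneg _) hhaz1 hQX hβ8 hup
  -- lower bound
  have hlo := P2_lower hij (t := t n) (η := η) (r := r) (r0 := η) (X := X) ht hη0 (by linarith) hr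
    (by linarith) hX0
  set Y := (Tp + η * X) / Real.sqrt (1 - η ^ 2) with hY
  have hTp0 : 0 ≤ Tp := hTm0.trans hTmp
  have hsq0 : (1 + η ^ 2)⁻¹ ≤ Real.sqrt (1 - η ^ 2) := by
    apply Real.le_sqrt_of_sq_le
    rw [inv_pow, inv_le_iff_one_le_mul₀ (by positivity)]
    have : (1 - η ^ 2) * (1 + η ^ 2) ^ 2 - 1 = η ^ 2 * (1 - η ^ 2 - η ^ 4) := by ring
    have h2 : η ^ 2 ≤ 1 / 100 := by
      have := pow_le_pow_left₀ hη0.le hη1.le 2
      linarith
    have h4 : η ^ 4 ≤ 1 / 100 := by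
      have := pow_le_pow_left₀ hη0.le hη1.le 4
      linarith
    have : 0 ≤ η ^ 2 * (1 - η ^ 2 - η ^ 4) := mul_nonneg (by positivity) (by linarith)
    linarith
  have hsqpos : 0 < Real.sqrt (1 - η ^ 2) := lt_of_lt_of_le (by positivity) hsq0
  have hsq1 : Real.sqrt (1 - η ^ 2) ≤ 1 := by
    rw [Real.sqrt_le_one]; linarith [sq_nonneg η]
  have hYle : Y ≤ (Tp + η * X) * (1 + η ^ 2) := by
    rw [hY, div_le_iff₀ hsqpos, mul_assoc]
    have h1 : 1 ≤ (1 + η ^ 2) * Real.sqrt (1 - η ^ 2) := by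
      rw [inv_le_iff_one_le_mul₀ (by positivity)] at hsq0; linarith
    calc Tp + η * X = (Tp + η * X) * 1 := by ring
      _ ≤ _ := mul_le_mul_of_nonneg_left h1 (by linarith)
  have hYge : Tp ≤ Y := by
    rw [hY, le_div_iff₀ hsqpos]
    calc Tp * Real.sqrt (1 - η ^ 2) ≤ Tp * 1 := mul_le_mul_of_nonneg_left hsq1 hTp0
      _ ≤ _ := by linarith
  have hdiff : Y - Tp ≤ 5 * (η * Real.sqrt l) := by
    have h1 : Y - Tp ≤ η * X + η ^ 2 * (Tp + η * X) := by linarith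
    have h2 : Tp + η * X ≤ 3 * Real.sqrt l := by linarith
    have h3 : η ^ 2 * (Tp + η * X) ≤ η ^ 2 * (3 * Real.sqrt l) :=
      mul_le_mul_of_nonneg_left h2 (by positivity)
    have h4 : η ^ 2 * (3 * Real.sqrt l) ≤ η * Real.sqrt l := by
      have : η * (3 * (η * Real.sqrt l)) ≤ 1 / 10 * (3 * (η * Real.sqrt l)) :=
        mul_le_mul_of_nonneg_right hη1.le (by positivity)
      have h5 : 0 ≤ η * Real.sqrt l := by positivity
      calc η ^ 2 * (3 * Real.sqrt l) = η * (3 * (η * Real.sqrt l)) := by ring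
        _ ≤ _ := this
        _ ≤ _ := by linarith
    have h5 : η * X = 4 * (η * Real.sqrt l) := by rw [hXdef]; ring
    linarith
  have hY1 : Y + 1 ≤ 9 * Real.sqrt l := by
    have : η * Real.sqrt l ≤ 1 / 10 * Real.sqrt l := mul_le_mul_of_nonneg_right hη1.le hsl0
    linarith
  have hhaz2 : Qf Tp * (1 - e) ≤ Qf Y := by
    have h1 := Qf_haz (x := Tp) (y := Y) hTp0 hYge
    refine le_trans (mul_le_mul_of_nonneg_left ?_ (Qf_nonneg _)) h1
    have h2 : (Y - Tp) * (Y + 1) ≤ e / 5 := by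
      calc (Y - Tp) * (Y + 1) ≤ (5 * (η * Real.sqrt l)) * (9 * Real.sqrt l) :=
            mul_le_mul hdiff hY1 (by linarith) (by positivity)
        _ = 45 * (η * Real.sqrt l * Real.sqrt l) := by ring
        _ ≤ _ := by linarith
    linarith
  have hL : (1 - 6 * e) * (c / n) ^ 2 ≤ P2 i j (t n) r :=
    arith_lower he he1 hq (by linarith) hQ2 (Qf_nonneg _) (Qf_le_one _) hhaz2 (Qf_nonneg _) hQX
      hβ8 hlo
  have hq2 : 0 < (c / n) ^ 2 := by positivity
  rw [abs_le]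
  constructor
  · have : (1 - 6 * e) ≤ P2 i j (t n) r / (c / n) ^ 2 := by rw [le_div_iff₀ hq2]; exact hL
    linarith
  · have : P2 i j (t n) r / (c / n) ^ 2 ≤ 1 + 6 * e := by rw [div_le_iff₀ hq2]; exact hU
    linarith

end Pool.Agent.H83.RGG
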