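import Pool.Agent.H83.RGG.Asy1

/-! Module G09_Asy3: crude bound for two caps at any correlation. -/

set_option autoImplicit false

open MeasureTheory ProbabilityTheory Filter

namespace Pool.Agent.H83.RGG

variable {c : ℝ} {d : ℕ → ℕ} {t : ℕ → ℝ}

theorem asy3_beta {c : ℝ} (hc : 0 < c) :
    ∀ᶠ n : ℕ in atTop, (n : ℝ) ^ (-(100 : ℤ)) ≤ (c / n) ^ 2 := by
  filter_upwards [eventually_gt_atTop ⌈1 / c⌉₊, eventually_ge_atTop 1] with n h1 h2
  have hn : (1:ℝ) ≤ n := by exact_mod_cast h2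
  have hn0 : (0:ℝ) < n := by linarith
  have h3 : 1 / c < n := lt_of_le_of_lt (Nat.le_ceil _) (by exact_mod_cast h1)
  rw [div_lt_iff₀ hc] at h3
  have e2 : (n:ℝ) ^ (100:ℤ) = (n:ℝ) ^ 100 := by norm_cast
  rw [zpow_neg, e2, div_pow, le_div_iff₀ (by positivity), inv_mul_eq_div,
    div_le_iff₀ (by positivity)]
  have h4 : (n:ℝ) ^ 4 ≤ (n:ℝ) ^ 100 := pow_le_pow_right₀ hn (by norm_num)
  calc (n:ℝ) ^ 2 = (n:ℝ) ^ 2 * 1 ^ 2 := by ring
    _ ≤ (n:ℝ) ^ 2 * (n * c) ^ 2 := by gcongr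
    _ = c ^ 2 * (n:ℝ) ^ 4 := by ring
    _ ≤ c ^ 2 * (n:ℝ) ^ 100 := by gcongr

theorem Asy.P2_crude (hA : Asy c d t) :
    ∃ C : ℝ, 1 ≤ C ∧ ∀ᶠ n : ℕ in atTop, ∀ i j : Fin (d n), i ≠ j → ∀ r : ℝ, |r| ≤ 1 →
      P2 i j (t n) r / (c / n) ^ 2 ≤ C * Real.log n * Real.exp (3 * Real.log n * |r|) := by
  have hc := hA.c_pos
  refine ⟨5409, by norm_num, ?_⟩
  filter_upwards [hA.two_le, hA.t_nonneg, hA.etan_pos, hA.beta, asy3_beta hc, asy1_log 1,
    hA.T_le, hA.Q_bounds one_pos, eventually_gt_atTop 0] with n h1 h2 h3 h4 h5 h6 h7 h8 h9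
  intro i j hij r hr
  have hn : (0:ℝ) < n := by exact_mod_cast h9
  have hd : (0:ℝ) < d n := by exact_mod_cast (by omega : 0 < d n)
  have hr' := abs_le.1 hr
  have h10 := Pool.Agent.H83.RGG.P2_crude hij h2 h3.1 (h3.2.trans (by norm_num)) hr'.1 hr'.2
  set q := c / (n:ℝ) with hq
  have hq0 : 0 < q := by positivity
  set M := t n * Real.sqrt ((1 - etan (d n) n) * d n) with hM
  set L := Real.log n with hL
  have hM0 : 0 ≤ M := by positivity
  have hM2 : M ^ 2 = (1 - etan (d n) n) * (t n ^ 2 * d n) := by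
    rw [hM, mul_pow, Real.sq_sqrt (mul_nonneg (by linarith [h3.2]) hd.le)]; ring
  have hT0 : 0 ≤ t n ^ 2 * d n := by positivity
  have hM3 : M ^ 2 ≤ 3 * L := by
    rw [hM2]
    calc (1 - etan (d n) n) * (t n ^ 2 * d n) ≤ 1 * (t n ^ 2 * d n) :=
          mul_le_mul_of_nonneg_right (by linarith [h3.1]) hT0
      _ ≤ 3 * L := by linarith
  have h11 := Qf_ge hM0
  rw [div_le_iff₀ (by positivity)] at h11
  have h12 : Real.exp (-(M ^ 2 / 2)) ≤ 26 * (M + 1) * q := by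
    refine h11.trans ?_
    have := h8.1
    have h13 : Qf M * (13 * (M + 1)) ≤ ((1 + 1) * q) * (13 * (M + 1)) :=
      mul_le_mul_of_nonneg_right this (by positivity)
    linarith
  have h13 : Real.exp (-(M ^ 2)) ≤ 5408 * L * q ^ 2 := by
    have e : Real.exp (-(M ^ 2)) = Real.exp (-(M ^ 2 / 2)) ^ 2 := by
      rw [← Real.exp_nat_mul]; congr 1; push_cast; ring
    rw [e]
    calc Real.exp (-(M ^ 2 / 2)) ^ 2 ≤ (26 * (M + 1) * q) ^ 2 := by gcongr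
      _ = 676 * (M + 1) ^ 2 * q ^ 2 := by ring
      _ ≤ 676 * (8 * L) * q ^ 2 := by
          have : (M + 1) ^ 2 ≤ 8 * L := by nlinarith [sq_nonneg (M - 1)]
          gcongr
      _ = 5408 * L * q ^ 2 := by ring
  have h14 : Real.exp (-(t n ^ 2 * ((1 - etan (d n) n) * d n) * (1 - r))) ≤
      5408 * L * q ^ 2 * Real.exp (3 * L * |r|) := by
    have e : -(t n ^ 2 * ((1 - etan (d n) n) * d n) * (1 - r)) = -(M ^ 2) + M ^ 2 * r := by
      rw [hM2]; ring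
    rw [e, Real.exp_add]
    have h15 : M ^ 2 * r ≤ 3 * L * |r| := by
      calc M ^ 2 * r ≤ M ^ 2 * |r| := mul_le_mul_of_nonneg_left (le_abs_self r) (sq_nonneg M)
        _ ≤ 3 * L * |r| := mul_le_mul_of_nonneg_right hM3 (abs_nonneg r)
    have h16 := Real.exp_le_exp.2 h15
    exact mul_le_mul h13 h16 (Real.exp_pos _).le (by positivity)
  have h15 : 1 ≤ Real.exp (3 * L * |r|) := by
    apply Real.one_le_exp
    positivity
  rw [div_le_iff₀ (by positivity)]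
  have h16 : q ^ 2 ≤ L * q ^ 2 * Real.exp (3 * L * |r|) := by
    calc q ^ 2 = 1 * q ^ 2 * 1 := by ring
      _ ≤ L * q ^ 2 * Real.exp (3 * L * |r|) := by gcongr
  have h17 : 2 * Real.exp (-(etan (d n) n ^ 2 * d n / 8)) ≤ q ^ 2 := h4.trans h5
  calc P2 i j (t n) r ≤ _ := h10
    _ ≤ 5408 * L * q ^ 2 * Real.exp (3 * L * |r|) + q ^ 2 := add_le_add h14 h17
    _ ≤ 5408 * L * q ^ 2 * Real.exp (3 * L * |r|) + L * q ^ 2 * Real.exp (3 * L * |r|) := by
        linarith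
    _ = 5409 * L * Real.exp (3 * L * |r|) * q ^ 2 := by ring

end Pool.Agent.H83.RGG
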