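import Pool.Agent.H83.RGG.GeoDefs
import Pool.Agent.H63.RGG.Cap

/-! Module G03_Chi: concentration of the squared norm. -/

set_option autoImplicit false

open MeasureTheory ProbabilityTheory

namespace Pool.Agent.H83.RGG

theorem chi_conc {d : ℕ} (hd : 1 ≤ d) {η : ℝ} (h0 : 0 < η) (h1 : η < 1) :
    (gam d).real {z | ¬ ((1 - η) * d ≤ ∑ k, z k ^ 2 ∧ ∑ k, z k ^ 2 ≤ (1 + η) * d)} ≤
      2 * Real.exp (-(η ^ 2 * d / 8)) := by
  have h3 := Pool.Agent.H63.RGG.norm_lower (ι := Fin d) h0.le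
  have h4 := Pool.Agent.H63.RGG.norm_upper (ι := Fin d) h0.le h1.le
  rw [Fintype.card_fin] at h3 h4
  have hsub : {z : Fin d → ℝ | ¬ ((1 - η) * d ≤ ∑ k, z k ^ 2 ∧ ∑ k, z k ^ 2 ≤ (1 + η) * d)} ⊆
      {z | ∑ k, z k ^ 2 ≤ (1 - η) * d} ∪ {z | (1 + η) * d ≤ ∑ k, z k ^ 2} := by
    intro z hz
    simp only [Set.mem_ofPred_eq, Set.mem_union] at hz ⊢
    by_contra hcon
    rw [not_or, not_le, not_le] at hcon
    exact hz ⟨hcon.1.le, hcon.2.le⟩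
  have h5 := measureReal_mono (μ := gam d) hsub
  have h6 := measureReal_union_le (μ := gam d) {z : Fin d → ℝ | ∑ k, z k ^ 2 ≤ (1 - η) * d}
    {z | (1 + η) * d ≤ ∑ k, z k ^ 2}
  have h7 : Real.exp (-((d : ℝ) * η ^ 2 / 4)) ≤ Real.exp (-(η ^ 2 * d / 8)) := by
    apply Real.exp_le_exp.2
    have : 0 ≤ (d : ℝ) * η ^ 2 := by positivity
    linarith
  have h8 : Real.exp (-((d : ℝ) * η ^ 2 / 8)) = Real.exp (-(η ^ 2 * d / 8)) := by
    congr 1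
    ring
  unfold gam at *
  linarith

end Pool.Agent.H83.RGG
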