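import Pool.Agent.H83.RGG.Rot
import Pool.Agent.H83.RGG.Chi
import Pool.Agent.H83.RGG.QF

/-! Module G06_RhoTail: distribution of the correlation with a random vector. -/

set_option autoImplicit false

open MeasureTheory ProbabilityTheory

namespace Pool.Agent.H83.RGG

lemma rho_abs_le_one {d : ℕ} (x y : Fin d → ℝ) : |rho x y| ≤ 1 := by
  unfold rho
  rw [abs_div]
  have hn : 0 ≤ nrm x * nrm y := mul_nonneg (Real.sqrt_nonneg _) (Real.sqrt_nonneg _)
  rw [abs_of_nonneg hn]
  refine div_le_one_of_le₀ ?_ hn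
  have h := Finset.sum_mul_sq_le_sq_mul_sq Finset.univ x y
  have h2 : dt x y ^ 2 ≤ (nrm x * nrm y) ^ 2 := by
    unfold dt nrm
    rw [mul_pow, Real.sq_sqrt (Finset.sum_nonneg fun i _ => sq_nonneg _),
      Real.sq_sqrt (Finset.sum_nonneg fun i _ => sq_nonneg _)]
    exact h
  exact abs_le_of_sq_le_sq h2 hn |> fun h => h

lemma measurable_rho {d : ℕ} (x : Fin d → ℝ) : Measurable (fun y => rho x y) := by
  unfold rho dt nrm
  fun_prop

theorem rho_tail {d : ℕ} (hd : 1 ≤ d) {x : Fin d → ℝ} (hx : x ≠ 0) {u : ℝ} (hu : 0 ≤ u) :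
    (gam d).real {y | u < |rho x y|} ≤ 4 * Real.exp (-(d * u ^ 2 / 32)) := by
  rcases le_or_gt u 1 with h1 | h1
  · have hx2 : 0 < ∑ k, x k ^ 2 := by
      rcases (Finset.sum_nonneg fun i (_ : i ∈ Finset.univ) => sq_nonneg (x i)).eq_or_lt with h | h
      · exfalso
        apply hx
        rw [eq_comm, Finset.sum_eq_zero_iff_of_nonneg (fun i _ => sq_nonneg (x i))] at h
        funext i
        exact pow_eq_zero_iff (two_ne_zero) |>.mp (h i (Finset.mem_univ _))
      · exact h
    have h2 := Pool.Agent.H63.RGG.corr_tail' hx2 hu h1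
    rw [Fintype.card_fin] at h2
    have hsub : {y : Fin d → ℝ | u < |rho x y|} ⊆
        {y | u * (Real.sqrt (∑ k, x k ^ 2) * Real.sqrt (∑ k, y k ^ 2)) ≤ |∑ k, x k * y k|} := by
      intro y hy
      simp only [Set.mem_ofPred_eq] at hy ⊢
      unfold rho at hy
      have hn : 0 ≤ nrm x * nrm y := mul_nonneg (Real.sqrt_nonneg _) (Real.sqrt_nonneg _)
      rcases hn.eq_or_lt with h | h
      · rw [← h] at hy
        simp at hy
        exact absurd hy (not_lt.mpr hu)
      · rw [abs_div, abs_of_pos h, lt_div_iff₀ h] at hy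
        exact hy.le
    have h3 : (gam d).real {y | u < |rho x y|} ≤ 3 * Real.exp (-(d * u ^ 2 / 16)) := by
      refine (measureReal_mono hsub).trans ?_
      exact h2
    refine h3.trans ?_
    have h4 : Real.exp (-(d * u ^ 2 / 16)) ≤ Real.exp (-(d * u ^ 2 / 32)) := by
      apply Real.exp_le_exp.mpr
      have : 0 ≤ (d : ℝ) * u ^ 2 := by positivity
      linarith
    have h5 := Real.exp_pos (-((d : ℝ) * u ^ 2 / 32))
    linarith
  · have : {y : Fin d → ℝ | u < |rho x y|} = ∅ := by
      ext y
      simp only [Set.mem_ofPred_eq, Set.mem_empty_iff_false, iff_false, not_lt]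
      exact (rho_abs_le_one x y).trans h1.le
    rw [this]
    simp only [measureReal_empty]
    positivity

lemma integrable_rho_exp {d : ℕ} (x : Fin d → ℝ) (a : ℝ) (ha : 0 ≤ a) :
    Integrable (fun y => Real.exp (a * rho x y ^ 2)) (gam d) := by
  refine Integrable.of_bound (C := Real.exp a) ?_ ?_
  · have := measurable_rho x
    exact (by fun_prop : Measurable (fun y => Real.exp (a * rho x y ^ 2))).aestronglyMeasurable
  · refine ae_of_all _ fun y => ?_
    rw [Real.norm_eq_abs, abs_of_pos (Real.exp_pos _)]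
    apply Real.exp_le_exp.mpr
    have h1 : rho x y ^ 2 ≤ 1 := by
      have := rho_abs_le_one x y
      rw [← sq_abs]
      have h0 := abs_nonneg (rho x y)
      nlinarith
    nlinarith

theorem rho_exp {d : ℕ} (hd : 1 ≤ d) {x : Fin d → ℝ} (hx : x ≠ 0) :
    ∫ y, Real.exp (d * rho x y ^ 2 / 64) ∂(gam d) ≤ 5 := by
  have hd0 : (0 : ℝ) < d := by exact_mod_cast hd
  have hmeas : Measurable (fun y => Real.exp (d * rho x y ^ 2 / 64)) := by
    have := measurable_rho x
    fun_prop
  rw [integral_eq_lintegral_of_nonneg_ae (ae_of_all _ fun y => (Real.exp_pos _).le)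
    hmeas.aestronglyMeasurable]
  rw [lintegral_eq_lintegral_meas_lt (gam d) (ae_of_all _ fun y => (Real.exp_pos _).le)
    hmeas.aemeasurable]
  have hsplit : Set.Ioi (0 : ℝ) = Set.Ioc 0 1 ∪ Set.Ioi 1 := by
    rw [Set.Ioc_union_Ioi_eq_Ioi zero_le_one]
  have hA : ∫⁻ t in Set.Ioi (0 : ℝ), (gam d) {a | t < Real.exp (d * rho x a ^ 2 / 64)} ≤
      ENNReal.ofReal 5 := by
    rw [hsplit, lintegral_union measurableSet_Ioi (Set.Ioc_disjoint_Ioi le_rfl)]
    have h1 : ∫⁻ t in Set.Ioc (0 : ℝ) 1, (gam d) {a | t < Real.exp (d * rho x a ^ 2 / 64)} ≤ 1 := by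
      calc _ ≤ ∫⁻ t in Set.Ioc (0 : ℝ) 1, 1 := by
            refine setLIntegral_mono measurable_const fun t _ => prob_le_one
        _ = 1 := by simp
    have h2 : ∫⁻ t in Set.Ioi (1 : ℝ), (gam d) {a | t < Real.exp (d * rho x a ^ 2 / 64)} ≤
        ENNReal.ofReal 4 := by
      have hint : IntegrableOn (fun t : ℝ => 4 * t ^ (-2 : ℝ)) (Set.Ioi 1) :=
        (integrableOn_Ioi_rpow_of_lt (by norm_num) zero_lt_one).const_mul 4
      calc _ ≤ ∫⁻ t in Set.Ioi (1 : ℝ), ENNReal.ofReal (4 * t ^ (-2 : ℝ)) := by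
            refine setLIntegral_mono (by fun_prop) fun t ht => ?_
            have ht1 : (1 : ℝ) < t := ht
            have ht0 : (0 : ℝ) < t := by linarith
            have hl : 0 < Real.log t := Real.log_pos ht1
            set u : ℝ := Real.sqrt (64 * Real.log t / d) with hu
            have hu2 : u ^ 2 = 64 * Real.log t / d := Real.sq_sqrt (by positivity)
            have hsub : {a | t < Real.exp (d * rho x a ^ 2 / 64)} ⊆ {a | u < |rho x a|} := by
              intro a ha
              simp only [Set.mem_ofPred_eq] at ha ⊢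
              rw [← Real.log_lt_iff_lt_exp ht0] at ha
              apply lt_of_pow_lt_pow_left₀ 2 (abs_nonneg _)
              rw [sq_abs, hu2, div_lt_iff₀ hd0]
              linarith
            have h3 := rho_tail hd hx (u := u) (Real.sqrt_nonneg _)
            have h4 : (d : ℝ) * u ^ 2 / 32 = 2 * Real.log t := by
              rw [hu2]; field_simp; norm_num
            have h5 : Real.exp (-((d : ℝ) * u ^ 2 / 32)) = t ^ (-2 : ℝ) := by
              rw [h4, Real.rpow_def_of_pos ht0]
              congr 1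
              ring
            rw [h5] at h3
            calc (gam d) {a | t < Real.exp (d * rho x a ^ 2 / 64)} ≤ (gam d) {a | u < |rho x a|} :=
                  measure_mono hsub
              _ = ENNReal.ofReal ((gam d).real {a | u < |rho x a|}) := by
                  rw [ofReal_measureReal]
              _ ≤ _ := ENNReal.ofReal_le_ofReal h3
        _ = ENNReal.ofReal (∫ t in Set.Ioi (1 : ℝ), 4 * t ^ (-2 : ℝ)) := by
            rw [ofReal_integral_eq_lintegral_ofReal hint]
            refine (ae_restrict_iff' measurableSet_Ioi).mpr (ae_of_all _ fun t ht => ?_)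
            have ht1 : (1 : ℝ) < t := ht
            simp only [Pi.zero_apply]
            have := Real.rpow_nonneg (by linarith : (0 : ℝ) ≤ t) (-2 : ℝ)
            positivity
        _ = ENNReal.ofReal 4 := by
            rw [integral_const_mul, integral_Ioi_rpow_of_lt (by norm_num) zero_lt_one]
            norm_num
    calc _ ≤ 1 + ENNReal.ofReal 4 := add_le_add h1 h2
      _ = ENNReal.ofReal 5 := by
          rw [← ENNReal.ofReal_one, ← ENNReal.ofReal_add (by norm_num) (by norm_num)]
          norm_num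
  exact ENNReal.toReal_le_of_le_ofReal (by norm_num) hA

open Classical in
theorem rho_exp_tail {d : ℕ} (hd : 1 ≤ d) {x : Fin d → ℝ} (hx : x ≠ 0) {u : ℝ} (hu : 0 ≤ u) :
    ∫ y, (if u < |rho x y| then Real.exp (d * rho x y ^ 2 / 128) else 0) ∂(gam d) ≤
      5 * Real.exp (-(d * u ^ 2 / 128)) := by
  have h1 : ∫ y, (if u < |rho x y| then Real.exp (d * rho x y ^ 2 / 128) else 0) ∂(gam d) ≤
      ∫ y, Real.exp (d * rho x y ^ 2 / 64) * Real.exp (-(d * u ^ 2 / 128)) ∂(gam d) := by
    refine integral_mono_of_nonneg (ae_of_all _ fun y => ?_) ?_ (ae_of_all _ fun y => ?_)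
    · simp only [Pi.zero_apply]
      split_ifs
      · exact (Real.exp_pos _).le
      · exact le_rfl
    · have h := (integrable_rho_exp x ((d : ℝ) / 64) (by positivity)).mul_const
        (Real.exp (-(d * u ^ 2 / 128)))
      refine h.congr (ae_of_all _ fun y => ?_)
      simp only
      congr 2
      ring
    · simp only
      split_ifs with hy
      · rw [← Real.exp_add]
        apply Real.exp_le_exp.mpr
        have h3 : u ^ 2 ≤ rho x y ^ 2 := by
          rw [← sq_abs (rho x y)]
          exact pow_le_pow_left₀ hu hy.le 2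
        have h4 : (d : ℝ) * u ^ 2 ≤ d * rho x y ^ 2 :=
          mul_le_mul_of_nonneg_left h3 (Nat.cast_nonneg _)
        linarith
      · positivity
  refine h1.trans ?_
  rw [integral_mul_const]
  exact mul_le_mul_of_nonneg_right (rho_exp hd hx) (Real.exp_pos _).le

end Pool.Agent.H83.RGG
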