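import Pool.Agent.H83.RGG.Asy3
import Pool.Agent.H83.RGG.RhoTail

/-! Module G10_Asy4: moments of `kh` over bad pairs. -/

set_option autoImplicit false

open MeasureTheory ProbabilityTheory Filter

namespace Pool.Agent.H83.RGG

variable {c : ℝ} {d : ℕ → ℕ} {t : ℕ → ℝ}

theorem asy4_num {C : ℝ} (hC : 1 ≤ C) : ∀ᶠ n : ℕ in atTop, 5 ≤ n ∧ 2 ≤ Real.log n ∧
    (C * Real.log n) ^ (2 * Rn n + 2) ≤ Real.exp (9 * Real.log n) ∧
    ((2 * Rn n + 2 : ℕ) : ℝ) ≤ 12 * Real.log n := by
  have h1 : Tendsto (fun n : ℕ => Real.log n) atTop atTop :=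
    Real.tendsto_log_atTop.comp tendsto_natCast_atTop_atTop
  have h2 : Tendsto (fun n : ℕ => Real.log (Real.log n)) atTop atTop :=
    Real.tendsto_log_atTop.comp h1
  have h3 : ∀ᶠ n : ℕ in atTop, ‖Real.log (Real.log n)‖ ≤ 1 / 16 * ‖id (Real.log n)‖ :=
    h1.eventually (Real.isLittleO_log_id_atTop.bound (by norm_num : (0 : ℝ) < 1 / 16))
  have hlC : 0 ≤ Real.log C := Real.log_nonneg hC
  filter_upwards [h1.eventually_ge_atTop 2, h1.eventually_ge_atTop (16 * Real.log C),
    h2.eventually_ge_atTop 1, h2.eventually_ge_atTop (16 * Real.log C), h3,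
    eventually_ge_atTop 5] with n a1 a2 a3 a4 a5 a6
  set l := Real.log n with hl
  set L := Real.log l with hL
  have hL0 : 0 < L := by linarith
  have hl0 : 0 < l := by linarith
  have a5' : L ≤ l / 16 := by
    rw [Real.norm_of_nonneg hL0.le, id, Real.norm_of_nonneg hl0.le] at a5
    linarith
  have hR : ((2 * Rn n + 2 : ℕ) : ℝ) ≤ 8 * l / L + 4 := by
    have : (Rn n : ℝ) < 4 * l / L + 1 := by
      unfold Rn
      exact Nat.ceil_lt_add_one (by positivity)
    push_cast
    have e : 8 * l / L = 2 * (4 * l / L) := by ring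
    linarith
  refine ⟨a6, a1, ?_, ?_⟩
  · have hCl : 0 < C * l := by positivity
    have hlog : Real.log (C * l) = Real.log C + L := Real.log_mul (by linarith) hl0.ne'
    rw [← Real.exp_log hCl, ← Real.exp_nat_mul, Real.exp_le_exp, hlog]
    calc ((2 * Rn n + 2 : ℕ) : ℝ) * (Real.log C + L) ≤ (8 * l / L + 4) * (Real.log C + L) :=
          mul_le_mul_of_nonneg_right hR (by linarith)
      _ = 8 * l * (Real.log C / L) + 8 * l + 4 * Real.log C + 4 * L := by
          field_simp
          ring
      _ ≤ 8 * l * (1 / 16) + 8 * l + 4 * Real.log C + 4 * L := by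
          have : Real.log C / L ≤ 1 / 16 := by
            rw [div_le_iff₀ hL0]
            linarith
          have := mul_le_mul_of_nonneg_left this (by positivity : 0 ≤ 8 * l)
          linarith
      _ ≤ 9 * l := by linarith
  · refine hR.trans ?_
    have : 8 * l / L ≤ 8 * l := div_le_self (by positivity) a3
    linarith

theorem Asy.bad (hA : Asy c d t) :
    ∀ᶠ n : ℕ in atTop, ∀ x : Fin (d n) → ℝ, ∀ r : ℕ, r ≤ 2 * Rn n + 2 →
      ∫ y, |kh (gam (d n)) (Wc (d n) (t n) (c / n)) (c / n) x y| ^ r
        * (BadS (d n) n).indicator (fun _ => (1 : ℝ)) (x, y) ∂(gam (d n)) ≤ (n : ℝ) ^ (-(10 : ℤ)) := by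
  obtain ⟨C, hC1, hcr⟩ := hA.P2_crude
  filter_upwards [hcr, hA.two_le, hA.P1_eq, hA.etan_pos, hA.ge 41472, asy4_num hC1] with n b1 b2 b3
    b4 b5 ⟨b6, b7, b8, b9⟩
  intro x r hr
  have hn0 : (0 : ℝ) < n := by
    have : 0 < n := by omega
    exact_mod_cast this
  set l := Real.log n with hl
  have hl0 : 0 < l := by linarith
  have hn10 : (n : ℝ) ^ (-(10 : ℤ)) = Real.exp (-(10 * l)) := by
    rw [zpow_neg, Real.exp_neg, hl]
    congr 1
    have : (10 : ℝ) * Real.log n = ((10 : ℕ) : ℝ) * Real.log n := by norm_num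
    rw [this, Real.exp_nat_mul, Real.exp_log hn0]
    norm_cast
  rw [hn10]
  by_cases hx : x = 0
  · have e : (fun y => |kh (gam (d n)) (Wc (d n) (t n) (c / n)) (c / n) x y| ^ r
        * (BadS (d n) n).indicator (fun _ => (1 : ℝ)) (x, y)) = fun _ => 0 := by
      funext y
      have : (x, y) ∉ BadS (d n) n := fun h => h.1 hx
      rw [Set.indicator_of_notMem this, mul_zero]
    rw [e, integral_zero]
    exact (Real.exp_pos _).le
  · have hd0 : (0 : ℝ) < d n := by
      have : 0 < d n := by omega
      exact_mod_cast this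
    set i : Fin (d n) := ⟨0, by omega⟩ with hi
    set j : Fin (d n) := ⟨1, by omega⟩ with hj
    have hij : i ≠ j := by
      intro h
      have := congrArg Fin.val h
      simp [hi, hj] at this
    have hc := hA.c_pos
    have hp : 0 < c / n := by positivity
    set u := etan (d n) n with hu
    have hu0 : 0 ≤ u := b4.1.le
    set K0 := (C * l) ^ (2 * Rn n + 2) *
      Real.exp (288 * l ^ 2 * ((2 * Rn n + 2 : ℕ) : ℝ) ^ 2 / d n) with hK0
    have hK00 : 0 ≤ K0 := by positivity
    have hCl1 : 1 ≤ C * l := by nlinarith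
    have htail := rho_exp_tail (d := d n) (by omega) hx hu0
    have hmeas := measurable_rho (d := d n) x
    have hgint : Integrable (fun y => (if u < |rho x y| then
        Real.exp (d n * rho x y ^ 2 / 128) else 0)) (gam (d n)) := by
      refine Nice.integrable ⟨?_, Real.exp (d n / 128), fun y => ?_⟩ _
      · refine Measurable.ite ?_ ?_ measurable_const
        · exact measurableSet_lt measurable_const hmeas.abs
        · fun_prop
      · have h1 : |rho x y| ≤ 1 := abs_rho_le x y
        have h2 : rho x y ^ 2 ≤ 1 := by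
          rw [← sq_abs]; nlinarith [abs_nonneg (rho x y)]
        split_ifs
        · rw [abs_of_pos (Real.exp_pos _), Real.exp_le_exp]
          have : (d n : ℝ) * rho x y ^ 2 ≤ d n * 1 := by gcongr
          linarith
        · rw [abs_zero]; exact (Real.exp_pos _).le
    have hpt : ∀ y, |kh (gam (d n)) (Wc (d n) (t n) (c / n)) (c / n) x y| ^ r
        * (BadS (d n) n).indicator (fun _ => (1 : ℝ)) (x, y) ≤
        K0 * (if u < |rho x y| then Real.exp (d n * rho x y ^ 2 / 128) else 0) := by
      intro y
      by_cases hb : (x, y) ∈ BadS (d n) n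
      · rw [Set.indicator_of_mem hb, mul_one]
        obtain ⟨-, hy, hρ⟩ := hb
        simp only at hy hρ
        rw [if_pos hρ, kh_gauss hij hp (b3 i) hx hy]
        have h1 := b1 i j hij (rho x y) (abs_rho_le x y)
        have h2 : 0 ≤ P2 i j (t n) (rho x y) / (c / n) ^ 2 := by
          unfold P2; positivity
        have h3 : |P2 i j (t n) (rho x y) / (c / n) ^ 2 - 1| ≤
            C * l * Real.exp (3 * l * |rho x y|) := by
          have h4 : 1 ≤ C * l * Real.exp (3 * l * |rho x y|) := by
            have : 1 ≤ Real.exp (3 * l * |rho x y|) := Real.one_le_exp (by positivity)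
            nlinarith
          rw [abs_le]
          constructor <;> linarith
        calc |P2 i j (t n) (rho x y) / (c / n) ^ 2 - 1| ^ r
            ≤ (C * l * Real.exp (3 * l * |rho x y|)) ^ r := by gcongr
          _ = (C * l) ^ r * Real.exp (r * (3 * l * |rho x y|)) := by
              rw [mul_pow, ← Real.exp_nat_mul]
          _ ≤ (C * l) ^ (2 * Rn n + 2) *
              Real.exp (288 * l ^ 2 * ((2 * Rn n + 2 : ℕ) : ℝ) ^ 2 / d n +
                d n * rho x y ^ 2 / 128) := by
              refine mul_le_mul (pow_le_pow_right₀ hCl1 hr) ?_ (Real.exp_pos _).le (by positivity)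
              rw [Real.exp_le_exp]
              have hrR : (r : ℝ) ≤ ((2 * Rn n + 2 : ℕ) : ℝ) := by exact_mod_cast hr
              set S := ((2 * Rn n + 2 : ℕ) : ℝ) with hS
              have h5 : (r : ℝ) * (3 * l * |rho x y|) ≤ S * (3 * l * |rho x y|) := by
                gcongr
              refine h5.trans ?_
              have h6 : 288 * l ^ 2 * S ^ 2 / d n + d n * rho x y ^ 2 / 128 -
                  S * (3 * l * |rho x y|) = (192 * l * S - d n * |rho x y|) ^ 2 /
                    (128 * d n) := by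
                rw [← sq_abs (rho x y)]
                field_simp
                ring
              have h7 : 0 ≤ (192 * l * S - d n * |rho x y|) ^ 2 / (128 * d n) := by positivity
              linarith
          _ = K0 * Real.exp (d n * rho x y ^ 2 / 128) := by
              rw [Real.exp_add, hK0]
              ring
      · rw [Set.indicator_of_notMem hb, mul_zero]
        refine mul_nonneg hK00 ?_
        split_ifs
        · exact (Real.exp_pos _).le
        · exact le_rfl
    have hmain : ∫ y, |kh (gam (d n)) (Wc (d n) (t n) (c / n)) (c / n) x y| ^ r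
        * (BadS (d n) n).indicator (fun _ => (1 : ℝ)) (x, y) ∂(gam (d n)) ≤
        ∫ y, K0 * (if u < |rho x y| then Real.exp (d n * rho x y ^ 2 / 128) else 0)
          ∂(gam (d n)) := by
      refine integral_mono_of_nonneg (ae_of_all _ fun y => ?_) (hgint.const_mul K0)
        (ae_of_all _ hpt)
      exact mul_nonneg (pow_nonneg (abs_nonneg _) _)
        (Set.indicator_nonneg (fun _ _ => zero_le_one) _)
    refine hmain.trans ?_
    rw [integral_const_mul]
    have htail' : K0 * ∫ y, (if u < |rho x y| then Real.exp (d n * rho x y ^ 2 / 128) else 0)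
        ∂(gam (d n)) ≤ K0 * (5 * Real.exp (-(d n * u ^ 2 / 128))) :=
      mul_le_mul_of_nonneg_left htail hK00
    refine htail'.trans ?_
    have hu2 : d n * u ^ 2 / 128 = 28.125 * l := by
      rw [hu]
      unfold etan
      rw [mul_pow, Real.sq_sqrt (by positivity), ← hl]
      field_simp
      norm_num
    have hexp : 288 * l ^ 2 * ((2 * Rn n + 2 : ℕ) : ℝ) ^ 2 / d n ≤ l := by
      rw [div_le_iff₀ hd0]
      set S := ((2 * Rn n + 2 : ℕ) : ℝ) with hS
      have hS0 : 0 ≤ S := by positivity
      have h1 : S ^ 2 ≤ (12 * l) ^ 2 := by gcongr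
      calc 288 * l ^ 2 * S ^ 2 ≤ 288 * l ^ 2 * (12 * l) ^ 2 := by gcongr
        _ = l * (41472 * l ^ 3) := by ring
        _ ≤ l * d n := by gcongr
    have h5 : (5 : ℝ) ≤ Real.exp l := by
      rw [hl, Real.exp_log hn0]
      exact_mod_cast b6
    rw [hu2]
    calc K0 * (5 * Real.exp (-(28.125 * l)))
        ≤ (Real.exp (9 * l) * Real.exp l) * (Real.exp l * Real.exp (-(28.125 * l))) := by
          rw [hK0]
          have := Real.exp_le_exp.2 hexp
          gcongr
      _ = Real.exp (-(17.125 * l)) := by
          rw [← Real.exp_add, ← Real.exp_add, ← Real.exp_add]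
          congr 1
          ring
      _ ≤ Real.exp (-(10 * l)) := Real.exp_le_exp.2 (by linarith)

end Pool.Agent.H83.RGG
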