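import Pool.Agent.H83.RGG.Asy2
import Pool.Agent.H83.RGG.Asy4

/-! Module G11_Asy5: the geometric input, assembled. -/

set_option autoImplicit false

open MeasureTheory ProbabilityTheory Filter

namespace Pool.Agent.H83.RGG

variable {c : ℝ} {d : ℕ → ℕ} {t : ℕ → ℝ}

theorem Asy.geo (hA : Asy c d t) {ε : ℝ} (hε : 0 < ε) :
    ∀ᶠ n : ℕ in atTop, Kern (gam (d n)) (Wc (d n) (t n) (c / n)) (c / n) ∧
      GoodKer (gam (d n)) (Wc (d n) (t n) (c / n)) (c / n) ε ((n : ℝ) ^ (-(10 : ℤ))) (Rn n)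
        (BadS (d n) n) := by
  have hc := hA.c_pos
  have hlim : Tendsto (fun n : ℕ => c / (n : ℝ)) atTop (nhds 0) :=
    tendsto_const_div_atTop_nhds_zero_nat c
  have hsmall : ∀ᶠ n : ℕ in atTop, c / (n : ℝ) ≤ 1 / 2 :=
    (hlim.eventually (gt_mem_nhds (show (0 : ℝ) < 1 / 2 by norm_num))).mono fun n h => h.le
  filter_upwards [hA.two_le, hA.P1_eq, hA.P2_near hε, hA.bad, hsmall, eventually_gt_atTop 0]
    with n h2 hP1 hP2 hbad hs hn
  have hnpos : (0 : ℝ) < n := by exact_mod_cast hn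
  have hp : 0 < c / (n : ℝ) := div_pos hc hnpos
  set i : Fin (d n) := ⟨0, by omega⟩ with hi
  set j : Fin (d n) := ⟨1, by omega⟩ with hj
  have hij : i ≠ j := by
    intro h
    have := congrArg Fin.val h
    simp [hi, hj] at this
  refine ⟨kern_gauss i hp hs (hP1 i), ?_⟩
  refine ⟨measurableSet_BadS _ _, hε.le, by positivity, ?_, hbad⟩
  intro x y hxy
  by_cases hx : x = 0
  · rw [kh_zero hp (Or.inl hx)]
    simpa using hε.le
  by_cases hy : y = 0
  · rw [kh_zero hp (Or.inr hy)]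
    simpa using hε.le
  rw [kh_gauss hij hp (hP1 i) hx hy]
  refine hP2 i j hij _ ?_
  by_contra hcon
  exact hxy ⟨hx, hy, not_le.mp hcon⟩

end Pool.Agent.H83.RGG
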