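import Pool.Agent.H83.RGG.Defs

/-! Module R01_Basic: calculus of bounded measurable functions, `EE`, `Ex`. -/

set_option autoImplicit false

open MeasureTheory ProbabilityTheory

namespace Pool.Agent.H83.RGG

section Nice

variable {α : Type} [MeasurableSpace α]

theorem Nice.add {F G : α → ℝ} (hF : Nice F) (hG : Nice G) : Nice (fun x => F x + G x) := by
  obtain ⟨h1, C, hC⟩ := hF
  obtain ⟨h2, D, hD⟩ := hG
  exact ⟨h1.add h2, C + D, fun x => (abs_add_le _ _).trans (add_le_add (hC x) (hD x))⟩

theorem Nice.sub {F G : α → ℝ} (hF : Nice F) (hG : Nice G) : Nice (fun x => F x - G x) := by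
  obtain ⟨h1, C, hC⟩ := hF
  obtain ⟨h2, D, hD⟩ := hG
  exact ⟨h1.sub h2, C + D, fun x => (abs_sub _ _).trans (add_le_add (hC x) (hD x))⟩

theorem Nice.mul {F G : α → ℝ} (hF : Nice F) (hG : Nice G) : Nice (fun x => F x * G x) := by
  obtain ⟨h1, C, hC⟩ := hF
  obtain ⟨h2, D, hD⟩ := hG
  refine ⟨h1.mul h2, C * D, fun x => ?_⟩
  rw [abs_mul]
  exact mul_le_mul (hC x) (hD x) (abs_nonneg _) ((abs_nonneg _).trans (hC x))

theorem Nice.abs {F : α → ℝ} (hF : Nice F) : Nice (fun x => |F x|) := by
  obtain ⟨h1, C, hC⟩ := hF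
  exact ⟨measurable_norm.comp h1, C, fun x => by rw [abs_abs]; exact hC x⟩

theorem Nice.neg {F : α → ℝ} (hF : Nice F) : Nice (fun x => - F x) := by
  obtain ⟨h1, C, hC⟩ := hF
  exact ⟨h1.neg, C, fun x => by rw [abs_neg]; exact hC x⟩

theorem Nice.pow {F : α → ℝ} (hF : Nice F) (n : ℕ) : Nice (fun x => F x ^ n) := by
  obtain ⟨h1, C, hC⟩ := hF
  refine ⟨h1.pow_const n, C ^ n, fun x => ?_⟩
  rw [abs_pow]
  exact pow_le_pow_left₀ (abs_nonneg _) (hC x) n

theorem Nice.const (c : ℝ) : Nice (fun _ : α => c) := ⟨measurable_const, |c|, fun _ => le_rfl⟩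

theorem Nice.sum {κ : Type} {F : κ → α → ℝ} (s : Finset κ) (hF : ∀ k ∈ s, Nice (F k)) :
    Nice (fun x => ∑ k ∈ s, F k x) := by
  classical
  induction s using Finset.induction_on with
  | empty => simpa using Nice.const (α := α) 0
  | insert a s ha ih =>
    simp only [Finset.sum_insert ha]
    exact (hF a (Finset.mem_insert_self _ _)).add
      (ih fun k hk => hF k (Finset.mem_insert_of_mem hk))

theorem Nice.prod {κ : Type} {F : κ → α → ℝ} (s : Finset κ) (hF : ∀ k ∈ s, Nice (F k)) :
    Nice (fun x => ∏ k ∈ s, F k x) := by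
  classical
  induction s using Finset.induction_on with
  | empty => simpa using Nice.const (α := α) 1
  | insert a s ha ih =>
    simp only [Finset.prod_insert ha]
    exact (hF a (Finset.mem_insert_self _ _)).mul
      (ih fun k hk => hF k (Finset.mem_insert_of_mem hk))

theorem Nice.comp {β : Type} [MeasurableSpace β] {F : α → ℝ} (hF : Nice F) {f : β → α}
    (hf : Measurable f) : Nice (fun x => F (f x)) := by
  obtain ⟨h1, C, hC⟩ := hF
  exact ⟨h1.comp hf, C, fun x => hC _⟩

theorem Nice.integrable {F : α → ℝ} (hF : Nice F) (ν : Measure α) [IsFiniteMeasure ν] :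
    Integrable F ν := by
  obtain ⟨h1, C, hC⟩ := hF
  exact Integrable.of_bound h1.aestronglyMeasurable C (Filter.Eventually.of_forall hC)

/-- partial integral of a nice function of two variables is nice -/
theorem Nice.integral {β : Type} [MeasurableSpace β] {F : α × β → ℝ} (hF : Nice F)
    (ν : Measure β) [IsProbabilityMeasure ν] : Nice (fun x => ∫ y, F (x, y) ∂ν) := by
  obtain ⟨h1, C, hC⟩ := hF
  refine ⟨(h1.stronglyMeasurable.integral_prod_right').measurable, C, fun x => ?_⟩
  have := norm_integral_le_of_norm_le_const (μ := ν) (f := fun y => F (x, y)) (C := C)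
    (Filter.Eventually.of_forall fun y => hC (x, y))
  simpa using this

end Nice

/-- Cauchy-Schwarz for nice functions -/
theorem abs_integral_mul_le {α : Type} [MeasurableSpace α] (ν : Measure α)
    [IsProbabilityMeasure ν] {F G : α → ℝ} (hF : Nice F) (hG : Nice G) :
    |∫ x, F x * G x ∂ν| ≤ Real.sqrt (∫ x, F x ^ 2 ∂ν) * Real.sqrt (∫ x, G x ^ 2 ∂ν) := by
  have hA : 0 ≤ ∫ x, F x ^ 2 ∂ν := integral_nonneg fun x => sq_nonneg _
  have hB : 0 ≤ ∫ x, G x ^ 2 ∂ν := integral_nonneg fun x => sq_nonneg _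
  have key : ∀ s : ℝ, 0 ≤ (∫ x, F x ^ 2 ∂ν) * (s * s) + (2 * ∫ x, F x * G x ∂ν) * s
      + ∫ x, G x ^ 2 ∂ν := by
    intro s
    have h0 : 0 ≤ ∫ x, (s * F x + G x) ^ 2 ∂ν := integral_nonneg fun x => sq_nonneg _
    have e : ∫ x, (s * F x + G x) ^ 2 ∂ν = ∫ x, ((s * s) * F x ^ 2 + (2 * s) * (F x * G x)
        + G x ^ 2) ∂ν := integral_congr_ae (Filter.Eventually.of_forall fun x => by ring)
    rw [e, integral_add, integral_add, integral_const_mul, integral_const_mul] at h0
    · linarith
    · exact ((hF.pow 2).integrable ν).const_mul _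
    · exact ((hF.mul hG).integrable ν).const_mul _
    · exact (((hF.pow 2).integrable ν).const_mul _).add (((hF.mul hG).integrable ν).const_mul _)
    · exact (hG.pow 2).integrable ν
  have hd := discrim_le_zero key
  unfold discrim at hd
  rw [← Real.sqrt_mul hA]
  refine Real.abs_le_sqrt ?_
  nlinarith

section Cfg

variable {Ω : Type} [MeasurableSpace Ω] {ι : Type} [Fintype ι] [DecidableEq ι]
variable {μ : Measure Ω} [IsProbabilityMeasure μ]

theorem measurable_upd (a : ι) :
    Measurable (fun q : (ι → Ω) × Ω => Function.update q.1 a q.2) := by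
  rw [measurable_pi_iff]
  intro b
  by_cases h : b = a
  · subst h
    simp only [Function.update_self]
    exact measurable_snd
  · simp only [Function.update_of_ne h]
    exact (measurable_pi_apply b).comp measurable_fst

theorem Nice.Ex {F : (ι → Ω) → ℝ} (hF : Nice F) (a : ι) : Nice (Ex μ a F) := by
  exact (hF.comp (measurable_upd (Ω := Ω) a)).integral μ

/-- integrating out one coordinate first -/
theorem EE_Ex {F : (ι → Ω) → ℝ} (hF : Nice F) (a : ι) : EE μ (Ex μ a F) = EE μ F := by
  have hmp : MeasurePreserving (fun q : (ι → Ω) × Ω => Function.update q.1 a q.2)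
      ((Measure.pi fun _ : ι => μ).prod μ) (Measure.pi fun _ : ι => μ) := by
    refine ⟨measurable_upd a, ?_⟩
    symm
    refine Measure.pi_eq fun s hs => ?_
    rw [Measure.map_apply (measurable_upd a) (MeasurableSet.univ_pi hs)]
    have : (fun q : (ι → Ω) × Ω => Function.update q.1 a q.2) ⁻¹' (Set.univ.pi s) =
        (Set.univ.pi (Function.update s a Set.univ)) ×ˢ (s a) := by
      ext q
      simp only [Set.mem_preimage, Set.mem_pi, Set.mem_univ, true_implies, Set.mem_prod]
      constructor
      · intro h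
        refine ⟨fun i => ?_, by simpa using h a⟩
        by_cases hi : i = a
        · subst hi; simp
        · simpa [Function.update_of_ne hi] using h i
      · rintro ⟨h1, h2⟩ i
        by_cases hi : i = a
        · subst hi; simpa using h2
        · have := h1 i
          simpa [Function.update_of_ne hi] using this
    rw [this, Measure.prod_prod, Measure.pi_pi]
    rw [← Finset.mul_prod_erase Finset.univ _ (Finset.mem_univ a),
      ← Finset.mul_prod_erase Finset.univ (fun i => μ (s i)) (Finset.mem_univ a)]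
    simp only [Function.update_self, measure_univ, one_mul]
    rw [mul_comm]
    congr 1
    refine Finset.prod_congr rfl fun i hi => ?_
    rw [Function.update_of_ne (Finset.ne_of_mem_erase hi)]
  unfold EE Ex
  have hN := hF.comp (measurable_upd (Ω := Ω) a)
  have h1 : ∫ x, F x ∂(Measure.pi fun _ : ι => μ) =
      ∫ q, F (Function.update q.1 a q.2) ∂((Measure.pi fun _ : ι => μ).prod μ) := by
    rw [← hmp.map_eq, integral_map hmp.measurable.aemeasurable
      (by rw [hmp.map_eq]; exact hF.1.aestronglyMeasurable), hmp.map_eq]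
  rw [h1, integral_prod _ (hN.integrable _)]

theorem EE_add {F G : (ι → Ω) → ℝ} (hF : Nice F) (hG : Nice G) :
    EE μ (fun x => F x + G x) = EE μ F + EE μ G := integral_add (hF.integrable _) (hG.integrable _)

theorem EE_const_mul (c : ℝ) (F : (ι → Ω) → ℝ) :
    EE μ (fun x => c * F x) = c * EE μ F := integral_const_mul _ _

theorem EE_const (c : ℝ) : EE μ (fun _ : ι → Ω => c) = c := by simp [EE]

theorem EE_mono {F G : (ι → Ω) → ℝ} (hF : Nice F) (hG : Nice G) (h : ∀ x, F x ≤ G x) :
    EE μ F ≤ EE μ G := integral_mono (hF.integrable _) (hG.integrable _) h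

theorem EE_nonneg {F : (ι → Ω) → ℝ} (h : ∀ x, 0 ≤ F x) : 0 ≤ EE μ F := integral_nonneg h

theorem abs_EE_le (F : (ι → Ω) → ℝ) : |EE μ F| ≤ EE μ (fun x => |F x|) := abs_integral_le_integral_abs

theorem EE_sum {κ : Type} {F : κ → (ι → Ω) → ℝ} (s : Finset κ) (hF : ∀ k ∈ s, Nice (F k)) :
    EE μ (fun x => ∑ k ∈ s, F k x) = ∑ k ∈ s, EE μ (F k) := integral_finsetSum _ fun k hk => (hF k hk).integrable _

theorem abs_Ex_le (a : ι) (F : (ι → Ω) → ℝ) (x : ι → Ω) :
    |Ex μ a F x| ≤ Ex μ a (fun x => |F x|) x := abs_integral_le_integral_abs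

theorem Ex_mono {F G : (ι → Ω) → ℝ} (hF : Nice F) (hG : Nice G) (h : ∀ x, F x ≤ G x) (a : ι)
    (x : ι → Ω) : Ex μ a F x ≤ Ex μ a G x := by
  have h1 : Nice (fun y : Ω => F (Function.update x a y)) := hF.comp (measurable_update x)
  have h2 : Nice (fun y : Ω => G (Function.update x a y)) := hG.comp (measurable_update x)
  exact integral_mono (h1.integrable _) (h2.integrable _) fun y => h _

/-- pull out a factor that does not depend on the coordinate `a` -/
theorem Ex_mul_left {F G : (ι → Ω) → ℝ} {a : ι} (hG : Ind G a) (x : ι → Ω) :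
    Ex μ a (fun x => G x * F x) x = G x * Ex μ a F x := by
  unfold Ex
  rw [← integral_const_mul]
  refine integral_congr_ae (Filter.Eventually.of_forall fun y => ?_)
  simp only [hG x y]

theorem Ex_mul_right {F G : (ι → Ω) → ℝ} {a : ι} (hG : Ind G a) (x : ι → Ω) :
    Ex μ a (fun x => F x * G x) x = Ex μ a F x * G x := by
  unfold Ex
  rw [← integral_mul_const]
  refine integral_congr_ae (Filter.Eventually.of_forall fun y => ?_)
  simp only [hG x y]

theorem Ex_of_ind {F : (ι → Ω) → ℝ} {a : ι} (hF : Ind F a) (x : ι → Ω) :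
    Ex μ a F x = F x := by
  unfold Ex
  simp only [hF x, integral_const, probReal_univ, smul_eq_mul, one_mul]

theorem ind_Ex_self (a : ι) (F : (ι → Ω) → ℝ) : Ind (Ex μ a F) a := by
  intro x y
  unfold Ex
  simp only [Function.update_idem]

theorem Ind.Ex {F : (ι → Ω) → ℝ} {b : ι} (hF : Ind F b) (a : ι) : Ind (Ex μ a F) b := by
  intro x y
  by_cases h : a = b
  · subst h; exact ind_Ex_self a F x y
  · unfold Pool.Agent.H83.RGG.Ex
    refine integral_congr_ae (Filter.Eventually.of_forall fun z => ?_)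
    simp only
    rw [Function.update_comm (Ne.symm h)]
    exact hF _ _

theorem Ex_comm {F : (ι → Ω) → ℝ} (hF : Nice F) (a b : ι) (x : ι → Ω) :
    Ex μ a (Ex μ b F) x = Ex μ b (Ex μ a F) x := by
  by_cases h : a = b
  · subst h; rfl
  · unfold Pool.Agent.H83.RGG.Ex
    have hN : Nice (fun q : Ω × Ω => F (Function.update (Function.update x a q.1) b q.2)) := by
      refine hF.comp ?_
      exact (measurable_upd b).comp ((measurable_update x).comp measurable_fst |>.prodMk measurable_snd)
    rw [integral_integral_swap (f := fun y z => F (Function.update (Function.update x a y) b z))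
      (hN.integrable _)]
    refine integral_congr_ae (Filter.Eventually.of_forall fun z => ?_)
    refine integral_congr_ae (Filter.Eventually.of_forall fun y => ?_)
    simp only
    rw [Function.update_comm h]

/-- Cauchy-Schwarz for the full expectation -/
theorem EE_CS {F G : (ι → Ω) → ℝ} (hF : Nice F) (hG : Nice G) :
    EE μ (fun x => F x * G x) ≤
      Real.sqrt (EE μ (fun x => F x ^ 2)) * Real.sqrt (EE μ (fun x => G x ^ 2)) := by
  have h := abs_integral_mul_le (Measure.pi fun _ : ι => μ) hF hG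
  exact (le_abs_self _).trans h

/-- weighted Cauchy-Schwarz: `𝔼[H |G|] ≤ √𝔼[H] √𝔼[H G²]` for `H ≥ 0` -/
theorem EE_CS_weight {H G : (ι → Ω) → ℝ} (hH : Nice H) (hG : Nice G) (hH0 : ∀ x, 0 ≤ H x) :
    EE μ (fun x => H x * |G x|) ≤
      Real.sqrt (EE μ H) * Real.sqrt (EE μ (fun x => H x * G x ^ 2)) := by
  have hs : Nice (fun x => Real.sqrt (H x)) := by
    obtain ⟨h1, C, hC⟩ := hH
    refine ⟨h1.sqrt, Real.sqrt C, fun x => ?_⟩
    rw [abs_of_nonneg (Real.sqrt_nonneg _)]
    exact Real.sqrt_le_sqrt ((le_abs_self _).trans (hC x))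
  have h := EE_CS (μ := μ) hs (hs.mul hG.abs)
  have e1 : (fun x => Real.sqrt (H x) * (Real.sqrt (H x) * |G x|)) = fun x => H x * |G x| := by
    funext x
    rw [← mul_assoc, Real.mul_self_sqrt (hH0 x)]
  have e2 : (fun x => Real.sqrt (H x) ^ 2) = H := by
    funext x
    rw [Real.sq_sqrt (hH0 x)]
  have e3 : (fun x => (Real.sqrt (H x) * |G x|) ^ 2) = fun x => H x * G x ^ 2 := by
    funext x
    rw [mul_pow, Real.sq_sqrt (hH0 x), sq_abs]
  rw [e1, e2, e3] at h
  exact h

/-- first absolute moment is at most the second -/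
theorem EE_abs_le_sqrt {F : (ι → Ω) → ℝ} (hF : Nice F) :
    EE μ (fun x => |F x|) ≤ Real.sqrt (EE μ (fun x => F x ^ 2)) := by
  have h := EE_CS (μ := μ) (Nice.const (α := ι → Ω) 1) hF.abs
  simp only [one_mul, one_pow, EE_const, Real.sqrt_one, sq_abs] at h
  exact h

/-- product lemma: integrate out the coordinates in `T`, each appearing in one factor -/
theorem EE_mul_prod {H : (ι → Ω) → ℝ} (hH : Nice H) (T : Finset ι) (k : Ω → ℝ) (hk : Nice k)
    (hind : ∀ b ∈ T, Ind H b) :
    EE μ (fun x => H x * ∏ b ∈ T, k (x b)) = EE μ H * (∫ y, k y ∂μ) ^ T.card := by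
  classical
  induction T using Finset.induction_on generalizing H with
  | empty => simp
  | insert a T ha ih =>
    have hN : Nice (fun x : ι → Ω => H x * k (x a)) := hH.mul (hk.comp (measurable_pi_apply a))
    have e1 : (fun x : ι → Ω => H x * ∏ b ∈ insert a T, k (x b)) =
        fun x => (H x * ∏ b ∈ T, k (x b)) * k (x a) := by
      funext x
      rw [Finset.prod_insert ha]; ring
    have hN2 : Nice (fun x : ι → Ω => (H x * ∏ b ∈ T, k (x b)) * k (x a)) :=
      (hH.mul (Nice.prod T fun b _ => hk.comp (measurable_pi_apply b))).mul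
        (hk.comp (measurable_pi_apply a))
    rw [e1, ← EE_Ex hN2 a]
    have hI : Ind (fun x : ι → Ω => H x * ∏ b ∈ T, k (x b)) a := by
      intro x y
      simp only
      rw [hind a (Finset.mem_insert_self _ _) x y]
      congr 1
      refine Finset.prod_congr rfl fun b hb => ?_
      rw [Function.update_of_ne]
      rintro rfl
      exact ha hb
    have e2 : Ex μ a (fun x : ι → Ω => (H x * ∏ b ∈ T, k (x b)) * k (x a)) =
        fun x => (∫ y, k y ∂μ) * (H x * ∏ b ∈ T, k (x b)) := by
      funext x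
      rw [Ex_mul_left hI x]
      unfold Pool.Agent.H83.RGG.Ex
      simp only [Function.update_self]
      ring
    rw [e2, EE_const_mul, ih hH fun b hb => hind b (Finset.mem_insert_of_mem hb),
      Finset.card_insert_of_notMem ha, pow_succ]
    ring

/-- swap of `EE` and two parameter integrals -/
theorem EE_integral_swap {F : (ι → Ω) × (Ω × Ω) → ℝ} (hF : Nice F) :
    EE μ (fun x => ∫ y, ∫ z, F (x, (y, z)) ∂μ ∂μ) = ∫ y, ∫ z, EE μ (fun x => F (x, (y, z))) ∂μ ∂μ := by
  have h1 : ∀ x, (∫ y, ∫ z, F (x, (y, z)) ∂μ ∂μ) = ∫ q, F (x, q) ∂(μ.prod μ) := by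
    intro x
    have : Nice (fun q : Ω × Ω => F (x, q)) := hF.comp measurable_prodMk_left
    rw [integral_prod _ (this.integrable _)]
  have h2 : (∫ y, ∫ z, EE μ (fun x => F (x, (y, z))) ∂μ ∂μ) =
      ∫ q, EE μ (fun x => F (x, q)) ∂(μ.prod μ) := by
    have hN : Nice (fun q : (Ω × Ω) => EE μ (fun x => F (x, q))) := by
      have : Nice (fun r : (Ω × Ω) × (ι → Ω) => F (r.2, r.1)) := hF.comp measurable_swap
      exact this.integral (Measure.pi fun _ : ι => μ)
    rw [integral_prod _ (hN.integrable _)]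
  rw [h2]
  unfold EE
  simp only [h1]
  rw [integral_integral_swap]
  exact hF.integrable _

end Cfg

end Pool.Agent.H83.RGG
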