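import Pool.Agent.H83.RGG.Kernel

/-! Module R05_Beta: `L¹` bounds. -/

set_option autoImplicit false

open MeasureTheory ProbabilityTheory

namespace Pool.Agent.H83.RGG

variable {Ω : Type} [MeasurableSpace Ω] {ι : Type} [Fintype ι] [DecidableEq ι]
variable {μ : Measure Ω} [IsProbabilityMeasure μ] {W : Ω → Ω → ℝ} {p : ℝ}

omit [Fintype ι] in
/-- integrating an edge kernel over its second endpoint -/
theorem Ex_kb (hK : Kern μ W p) {a b : ι} (hab : a ≠ b) (x : ι → Ω) :
    Ex μ b (fun x => kb W p (x a) (x b)) x = 2 := by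
  unfold Ex
  have e : (fun y => kb W p (Function.update x b y a) (Function.update x b y b)) =
      fun y => kb W p (x a) y := by
    funext y
    rw [Function.update_of_ne hab, Function.update_self]
  show ∫ y, kb W p (Function.update x b y a) (Function.update x b y b) ∂μ = 2
  rw [e, hK.int_kb]

/-- integrate out the leaves `B` -/
theorem beta_kb (hK : Kern μ W p) {H : (ι → Ω) → ℝ} (hH : Nice H)
    {a : ι} {B : Finset ι} (haB : a ∉ B) (hind : ∀ b ∈ B, Ind H b) :
    EE μ (fun x => H x * ∏ b ∈ B, kb W p (x a) (x b)) = 2 ^ B.card * EE μ H := by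
  induction B using Finset.induction_on with
  | empty => simp
  | insert b B hb ih =>
    have hab : a ≠ b := fun h => haB (by rw [h]; exact Finset.mem_insert_self _ _)
    have haB' : a ∉ B := fun h => haB (Finset.mem_insert_of_mem h)
    have ih' := ih haB' fun c hc => hind c (Finset.mem_insert_of_mem hc)
    have hprod : Nice (fun x : ι → Ω => ∏ b ∈ B, kb W p (x a) (x b)) :=
      Nice.prod B fun c _ => hK.nice_gbe a c
    have hN : Nice (fun x : ι → Ω => (H x * ∏ c ∈ B, kb W p (x a) (x c)) * kb W p (x a) (x b)) :=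
      (hH.mul hprod).mul (hK.nice_gbe a b)
    have e : (fun x : ι → Ω => H x * ∏ c ∈ insert b B, kb W p (x a) (x c)) =
        fun x => (H x * ∏ c ∈ B, kb W p (x a) (x c)) * kb W p (x a) (x b) := by
      funext x
      rw [Finset.prod_insert hb]
      ring
    have hI : Ind (fun x : ι → Ω => H x * ∏ c ∈ B, kb W p (x a) (x c)) b := by
      intro x y
      show H (Function.update x b y) * ∏ c ∈ B, kb W p (Function.update x b y a)
        (Function.update x b y c) = H x * ∏ c ∈ B, kb W p (x a) (x c)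
      rw [hind b (Finset.mem_insert_self _ _) x y, Function.update_of_ne hab]
      congr 1
      refine Finset.prod_congr rfl fun c hc => ?_
      have hcb : c ≠ b := fun h => hb (by rw [← h]; exact hc)
      rw [Function.update_of_ne hcb]
    have e2 : Ex μ b (fun x : ι → Ω => (H x * ∏ c ∈ B, kb W p (x a) (x c)) *
        kb W p (x a) (x b)) = fun x => 2 * (H x * ∏ c ∈ B, kb W p (x a) (x c)) := by
      funext x
      rw [Ex_mul_left (G := fun x : ι → Ω => H x * ∏ c ∈ B, kb W p (x a) (x c)) hI x,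
        Ex_kb hK hab x]
      ring
    rw [e, ← EE_Ex hN b, e2, EE_const_mul, ih', Finset.card_insert_of_notMem hb, pow_succ]
    ring

theorem beta_kg (hK : Kern μ W p) {H : (ι → Ω) → ℝ} (hH : Nice H) (hH0 : ∀ x, 0 ≤ H x)
    {a : ι} {B : Finset ι} (haB : a ∉ B) (hind : ∀ b ∈ B, Ind H b) :
    EE μ (fun x => H x * ∏ b ∈ B, |kg W p (x a) (x b)|) ≤ 2 ^ B.card * EE μ H := by
  rw [← beta_kb hK hH haB hind]
  refine EE_mono (hH.mul (Nice.prod B fun b _ => (hK.nice_ge a b).abs))
    (hH.mul (Nice.prod B fun b _ => hK.nice_gbe a b)) fun x => ?_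
  refine mul_le_mul_of_nonneg_left ?_ (hH0 x)
  exact Finset.prod_le_prod (fun b _ => abs_nonneg _) fun b _ => hK.abs_kg_le _ _

/-- `‖F^{[a,T]}‖₁ ≤ 2^|T| ‖F‖₁` -/
theorem beta (hK : Kern μ W p) {F : (ι → Ω) → ℝ} (hF : Nice F)
    {a : ι} {T : Finset ι} (haT : a ∉ T) (hind : ∀ b ∈ T, Ind F b) :
    EE μ (fun x => |Ex μ a (fun x => F x * ∏ b ∈ T, kg W p (x a) (x b)) x|) ≤
      2 ^ T.card * EE μ (fun x => |F x|) := by
  have hN : Nice (fun x : ι → Ω => F x * ∏ b ∈ T, kg W p (x a) (x b)) :=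
    hF.mul (hK.nice_prod_ge a T)
  have hI : ∀ b ∈ T, Ind (fun x => |F x|) b := by
    intro b hb x y
    show |F (Function.update x b y)| = |F x|
    rw [hind b hb x y]
  refine le_trans ?_ (beta_kg hK hF.abs (fun x => abs_nonneg _) haT hI)
  have e : (fun x : ι → Ω => |F x| * ∏ b ∈ T, |kg W p (x a) (x b)|) =
      fun x => |F x * ∏ b ∈ T, kg W p (x a) (x b)| := by
    funext x
    rw [abs_mul, Finset.abs_prod]
  rw [e, ← EE_Ex hN.abs a]
  exact EE_mono (hN.Ex a).abs (hN.abs.Ex a) fun x => abs_Ex_le a _ x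

end Pool.Agent.H83.RGG
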