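import Mathlib

set_option autoImplicit false

open MeasureTheory ProbabilityTheory

namespace Pool.Agent.H83.RGG

/-- bounded and measurable -/
def Nice {α : Type} [MeasurableSpace α] (F : α → ℝ) : Prop :=
  Measurable F ∧ ∃ C : ℝ, ∀ x, |F x| ≤ C

section Cfg

variable {Ω : Type} [MeasurableSpace Ω] {ι : Type} [Fintype ι] [DecidableEq ι]

/-- full expectation over iid coordinates -/
noncomputable def EE (μ : Measure Ω) (F : (ι → Ω) → ℝ) : ℝ :=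
  ∫ x, F x ∂(Measure.pi fun _ : ι => μ)

/-- integrate out the coordinate `a` -/
noncomputable def Ex (μ : Measure Ω) (a : ι) (F : (ι → Ω) → ℝ) : (ι → Ω) → ℝ :=
  fun x => ∫ y, F (Function.update x a y) ∂μ

/-- `F` does not depend on coordinate `a` -/
def Ind (F : (ι → Ω) → ℝ) (a : ι) : Prop := ∀ x y, F (Function.update x a y) = F x

/-- the kernel assumptions: `W` is a symmetric graphon with constant degree `p` -/
structure Kern (μ : Measure Ω) (W : Ω → Ω → ℝ) (p : ℝ) : Prop where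
  meas : Measurable (Function.uncurry W)
  symm : ∀ x y, W x y = W y x
  nonneg : ∀ x y, 0 ≤ W x y
  le_one : ∀ x y, W x y ≤ 1
  int : ∀ x, ∫ y, W x y ∂μ = p
  p_pos : 0 < p
  p_le : p ≤ 1 / 2

/-- centred normalised kernel -/
noncomputable def kg (W : Ω → Ω → ℝ) (p : ℝ) (x y : Ω) : ℝ := W x y / p - 1

/-- dominating kernel, `|kg| ≤ kb` -/
noncomputable def kb (W : Ω → Ω → ℝ) (p : ℝ) (x y : Ω) : ℝ := W x y / p + 1

/-- signed codegree kernel -/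
noncomputable def kh (μ : Measure Ω) (W : Ω → Ω → ℝ) (p : ℝ) (x y : Ω) : ℝ :=
  ∫ z, kg W p x z * kg W p y z ∂μ

/-- dominating codegree kernel `∫ kb x z * kb y z = kh x y + 4` -/
noncomputable def khb (μ : Measure Ω) (W : Ω → Ω → ℝ) (p : ℝ) (x y : Ω) : ℝ :=
  kh μ W p x y + 4

/-- moment facts used by the abstract part; `η` small -/
structure Mom (μ : Measure Ω) (W : Ω → Ω → ℝ) (p η : ℝ) (R : ℕ) : Prop where
  eta_nonneg : 0 ≤ η
  eta_le : η ≤ 1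
  m2 : ∀ r : ℕ, 2 ≤ r → r ≤ 2 * R + 2 → ∫ x, ∫ y, |kh μ W p x y| ^ r ∂μ ∂μ ≤ η ^ 4
  m3 : ∫ x, ∫ y, khb μ W p x y ^ 3 ∂μ ∂μ ≤ 1000
  m4 : ∀ x, ∫ y, kb W p x y * |kh μ W p x y| ∂μ ≤ η
  m5 : ∀ x, ∫ y, kb W p x y * khb μ W p x y ^ 2 ∂μ ≤ 1000
  m6 : ∀ x, ∀ s : ℕ, 1 ≤ s → s ≤ R →
    ∫ u, ∫ y, ∫ z, kb W p x u * (kb W p y x * kb W p y u) * (kb W p z x * kb W p z u)
      * |kh μ W p y z| ^ s ∂μ ∂μ ∂μ ≤ η ^ 2
  m7 : ∫ x, ∫ y, ∫ z, kb W p x y * kb W p x z * khb μ W p x y * khb μ W p x z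
      * khb μ W p y z ∂μ ∂μ ∂μ ≤ 1000

/-- good/bad pairs hypothesis -/
structure GoodKer (μ : Measure Ω) (W : Ω → Ω → ℝ) (p ε δ : ℝ) (R : ℕ) (Bad : Set (Ω × Ω)) :
    Prop where
  meas : MeasurableSet Bad
  eps_nonneg : 0 ≤ ε
  del_nonneg : 0 ≤ δ
  good : ∀ x y, (x, y) ∉ Bad → |kh μ W p x y| ≤ ε
  bad : ∀ x, ∀ r : ℕ, r ≤ 2 * R + 2 →
    ∫ y, |kh μ W p x y| ^ r * Bad.indicator (fun _ => (1 : ℝ)) (x, y) ∂μ ≤ δ

/-- the edge variable of an unordered pair -/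
noncomputable def We (W : Ω → Ω → ℝ) (e : Sym2 ι) (x : ι → Ω) : ℝ :=
  Sym2.lift ⟨fun a b => (W (x a) (x b) + W (x b) (x a)) / 2, fun a b => by ring⟩ e

/-- probability of the graph `G ⊆ E` on the pairs `E`, given the positions `x` -/
noncomputable def wt (W : Ω → Ω → ℝ) (E G : Finset (Sym2 ι)) (x : ι → Ω) : ℝ :=
  (∏ e ∈ G, We W e x) * ∏ e ∈ E \ G, (1 - We W e x)

/-- the norm `N_E(F) = ∑_{G ⊆ E} |𝔼[F 1(G)]|` -/
noncomputable def NN (μ : Measure Ω) (W : Ω → Ω → ℝ) (E : Finset (Sym2 ι))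
    (F : (ι → Ω) → ℝ) : ℝ :=
  ∑ G ∈ E.powerset, |EE μ (fun x => F x * wt W E G x)|

/-- `∑_{G ⊆ E} |𝔼[1(G)] - p^|G| (1-p)^|E∖G||` : twice the total variation distance -/
noncomputable def DD (μ : Measure Ω) (W : Ω → Ω → ℝ) (p : ℝ) (E : Finset (Sym2 ι)) : ℝ :=
  ∑ G ∈ E.powerset, |EE μ (fun x => wt W E G x) - p ^ G.card * (1 - p) ^ (E \ G).card|

end Cfg

section Edges

variable {ι : Type} [DecidableEq ι]

/-- all pairs inside `V` -/
def ed (V : Finset ι) : Finset (Sym2 ι) := V.sym2.filter (fun e => ¬ e.IsDiag)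

/-- pairs from `a` to `B` -/
def st (a : ι) (B : Finset ι) : Finset (Sym2 ι) := B.image (fun b => s(a, b))

end Edges

end Pool.Agent.H83.RGG
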