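import Pool.Agent.H83.RGG.Alpha
import Pool.Agent.H83.RGG.Beta

/-! Module R07_Delta: a single collision with an old leaf `b`. -/

set_option autoImplicit false

open MeasureTheory ProbabilityTheory

namespace Pool.Agent.H83.RGG

variable {Ω : Type} [MeasurableSpace Ω] {ι : Type} [Fintype ι] [DecidableEq ι]
variable {μ : Measure Ω} [IsProbabilityMeasure μ] {W : Ω → Ω → ℝ} {p : ℝ}

/-- an edge factor does not depend on a third coordinate -/
theorem dl_ind_edge (W : Ω → Ω → ℝ) (p : ℝ) {a b c : ι} (ha : a ≠ c) (hb : b ≠ c) :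
    Ind (fun x : ι → Ω => kg W p (x a) (x b)) c := by
  intro x y
  show kg W p (Function.update x c y a) (Function.update x c y b) = kg W p (x a) (x b)
  rw [Function.update_of_ne ha, Function.update_of_ne hb]

theorem dl_ind_prod (W : Ω → Ω → ℝ) (p : ℝ) {a c : ι} {T : Finset ι} (ha : a ≠ c) (hc : c ∉ T) :
    Ind (fun x : ι → Ω => ∏ b ∈ T, kg W p (x a) (x b)) c := by
  intro x y
  refine Finset.prod_congr rfl fun b hb => ?_
  have hbc : b ≠ c := fun h => hc (h ▸ hb)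
  rw [Function.update_of_ne ha, Function.update_of_ne hbc]

theorem dl_ind_mul {F G : (ι → Ω) → ℝ} {c : ι} (hF : Ind F c) (hG : Ind G c) :
    Ind (fun x => F x * G x) c := fun x y => by
  show F _ * G _ = F x * G x
  rw [hF x y, hG x y]

theorem dl_ind_abs {F : (ι → Ω) → ℝ} {c : ι} (hF : Ind F c) :
    Ind (fun x => |F x|) c := fun x y => by
  show |F _| = |F x|
  rw [hF x y]

/-- second moment of the two-step kernel -/
theorem dl_phi (hK : Kern μ W p) {a₁ : ι} {T : Finset ι} (ha : a₁ ∉ T) :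
    EE μ (fun x => (Ex μ a₁ (fun x : ι → Ω => ∏ c ∈ T, kg W p (x a₁) (x c)) x) ^ 2) ≤
      ∫ y, ∫ z, |kh μ W p y z| ^ T.card ∂μ ∂μ := by
  have h := second_moment (μ := μ) (F := fun _ : ι → Ω => (1 : ℝ)) (H := fun _ => (1 : ℝ))
    (Nice.const 1) (Nice.const 1) ha (fun b _ x y => rfl) (fun b _ x y => rfl)
    (k := kg W p) hK.nice_kg
  simp only [one_mul, mul_one, EE_const] at h
  rw [h]
  have hkh := hK.nice_kh
  have n1 : Nice (fun q : Ω × Ω => kh μ W p q.1 q.2 ^ T.card) := hkh.pow _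
  have n2 : Nice (fun q : Ω × Ω => |kh μ W p q.1 q.2| ^ T.card) := hkh.abs.pow _
  refine integral_mono ((n1.integral μ).integrable μ) ((n2.integral μ).integrable μ) fun y => ?_
  refine integral_mono ((n1.comp (f := fun z => (y, z)) (by fun_prop)).integrable μ)
    ((n2.comp (f := fun z => (y, z)) (by fun_prop)).integrable μ) fun z => ?_
  show kh μ W p y z ^ T.card ≤ |kh μ W p y z| ^ T.card
  rw [← abs_pow]
  exact le_abs_self _

/-- children of `a`: `a₁` and `B`; `a₁` is explored with neighbours `b` (old leaf) and `T'` (fresh) -/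
theorem delta (hK : Kern μ W p) {F : (ι → Ω) → ℝ} (hF : Nice F)
    {a a₁ b : ι} {B T' : Finset ι} (h1 : a₁ ≠ a) (h2 : b ≠ a) (h3 : b ≠ a₁)
    (haB : a ∉ B) (ha₁B : a₁ ∉ B) (hbB : b ∉ B)
    (haT : a ∉ T') (ha₁T : a₁ ∉ T') (hbT : b ∉ T') (hBT : Disjoint B T')
    (hF1 : Ind F a₁) (hFB : ∀ c ∈ B, Ind F c) (hFT : ∀ c ∈ T', Ind F c) :
    EE μ (fun x => |Ex μ a₁ (fun x =>
        (Ex μ a (fun x => F x * ∏ c ∈ insert a₁ B, kg W p (x a) (x c)) x
          * kg W p (x a₁) (x b)) * ∏ c ∈ T', kg W p (x a₁) (x c)) x|) ≤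
      2 ^ B.card * Real.sqrt (EE μ (fun x => F x ^ 2)) *
        Real.sqrt (∫ y, ∫ z, |kh μ W p y z| ^ (T'.card + 2) ∂μ ∂μ) := by
  set S : Finset ι := insert a (insert b T') with hS
  have hbT2 : a ∉ insert b T' := by
    simp only [Finset.mem_insert, not_or]; exact ⟨h2.symm, haT⟩
  have hScard : S.card = T'.card + 2 := by
    rw [hS, Finset.card_insert_of_notMem hbT2, Finset.card_insert_of_notMem hbT]
  have ha₁S : a₁ ∉ S := by
    simp only [hS, Finset.mem_insert, not_or]; exact ⟨h1, h3.symm, ha₁T⟩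
  set Φ : (ι → Ω) → ℝ := Ex μ a₁ (fun x : ι → Ω => ∏ c ∈ S, kg W p (x a₁) (x c)) with hΦ
  have nS : Nice (fun x : ι → Ω => ∏ c ∈ S, kg W p (x a₁) (x c)) := hK.nice_prod_ge a₁ S
  have nΦ : Nice Φ := nS.Ex a₁
  set P : (ι → Ω) → ℝ := fun x => ∏ c ∈ B, kg W p (x a) (x c) with hP
  have nP : Nice P := hK.nice_prod_ge a B
  set Ψ : (ι → Ω) → ℝ := fun x => kg W p (x a₁) (x b) * ∏ c ∈ T', kg W p (x a₁) (x c) with hΨ
  have nΨ : Nice Ψ := (hK.nice_ge a₁ b).mul (hK.nice_prod_ge a₁ T')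
  have iΨ : Ind Ψ a := dl_ind_mul (dl_ind_edge W p h1 h2) (dl_ind_prod W p h1 haT)
  have iF : Ind (fun x => F x * P x) a₁ := dl_ind_mul hF1 (dl_ind_prod W p h1.symm ha₁B)
  -- the main identity
  have key : ∀ x, Ex μ a₁ (fun x =>
        (Ex μ a (fun x => F x * ∏ c ∈ insert a₁ B, kg W p (x a) (x c)) x
          * kg W p (x a₁) (x b)) * ∏ c ∈ T', kg W p (x a₁) (x c)) x =
      Ex μ a (fun x => (F x * P x) * Φ x) x := by
    intro x
    have e1 : (fun x : ι → Ω =>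
        (Ex μ a (fun x => F x * ∏ c ∈ insert a₁ B, kg W p (x a) (x c)) x
          * kg W p (x a₁) (x b)) * ∏ c ∈ T', kg W p (x a₁) (x c)) =
        Ex μ a (fun x => (F x * ∏ c ∈ insert a₁ B, kg W p (x a) (x c)) * Ψ x) := by
      funext z
      rw [Ex_mul_right iΨ z, hΨ, mul_assoc]
    have n3 : Nice (fun x : ι → Ω => (F x * ∏ c ∈ insert a₁ B, kg W p (x a) (x c)) * Ψ x) :=
      (hF.mul (hK.nice_prod_ge a _)).mul nΨ
    rw [e1, Ex_comm n3 a₁ a x]
    congr 1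
    funext z
    have e2 : (fun x : ι → Ω => (F x * ∏ c ∈ insert a₁ B, kg W p (x a) (x c)) * Ψ x) =
        fun x => (F x * P x) * ∏ c ∈ S, kg W p (x a₁) (x c) := by
      funext x
      rw [Finset.prod_insert ha₁B, hS, Finset.prod_insert hbT2, Finset.prod_insert hbT, hΨ, hP,
        hK.kg_symm (x a) (x a₁)]
      ring
    rw [e2, Ex_mul_left iF z]
  have e3 : EE μ (fun x => |Ex μ a₁ (fun x =>
        (Ex μ a (fun x => F x * ∏ c ∈ insert a₁ B, kg W p (x a) (x c)) x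
          * kg W p (x a₁) (x b)) * ∏ c ∈ T', kg W p (x a₁) (x c)) x|) =
      EE μ (fun x => |Ex μ a (fun x => (F x * P x) * Φ x) x|) := by
    congr 1
    funext x
    rw [key x]
  rw [e3]
  have n4 : Nice (fun x => (F x * P x) * Φ x) := (hF.mul nP).mul nΦ
  have s1 : EE μ (fun x => |Ex μ a (fun x => (F x * P x) * Φ x) x|) ≤
      EE μ (fun x => |(F x * P x) * Φ x|) := by
    rw [← EE_Ex n4.abs a]
    exact EE_mono (n4.Ex a).abs (n4.abs.Ex a) fun x => abs_Ex_le a _ x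
  have nH : Nice (fun x => |F x| * |Φ x|) := hF.abs.mul nΦ.abs
  have s2 : EE μ (fun x => |(F x * P x) * Φ x|) =
      EE μ (fun x => (|F x| * |Φ x|) * ∏ c ∈ B, |kg W p (x a) (x c)|) := by
    congr 1
    funext x
    rw [abs_mul, abs_mul, hP, Finset.abs_prod]
    ring
  have iΦ : ∀ c ∈ B, Ind Φ c := by
    intro c hc
    refine Ind.Ex ?_ a₁
    refine dl_ind_prod W p (fun h => ha₁B (h ▸ hc)) ?_
    simp only [hS, Finset.mem_insert, not_or]
    exact ⟨fun h => haB (h ▸ hc), fun h => hbB (h ▸ hc), Finset.disjoint_left.1 hBT hc⟩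
  have s3 := beta_kg hK nH (fun x => by positivity) haB
    (fun c hc => dl_ind_mul (dl_ind_abs (hFB c hc)) (dl_ind_abs (iΦ c hc)))
  have s4 := EE_CS (μ := μ) hF.abs nΦ.abs
  have s5 := dl_phi hK ha₁S
  rw [hScard] at s5
  have e4 : (fun x : ι → Ω => |F x| ^ 2) = fun x => F x ^ 2 := by funext x; rw [sq_abs]
  have e5 : (fun x : ι → Ω => |Φ x| ^ 2) = fun x => Φ x ^ 2 := by funext x; rw [sq_abs]
  rw [e4, e5] at s4
  calc EE μ (fun x => |Ex μ a (fun x => (F x * P x) * Φ x) x|)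
      ≤ EE μ (fun x => |(F x * P x) * Φ x|) := s1
    _ = EE μ (fun x => (|F x| * |Φ x|) * ∏ c ∈ B, |kg W p (x a) (x c)|) := s2
    _ ≤ 2 ^ B.card * EE μ (fun x => |F x| * |Φ x|) := s3
    _ ≤ 2 ^ B.card * (Real.sqrt (EE μ (fun x => F x ^ 2)) * Real.sqrt (EE μ (fun x => Φ x ^ 2))) :=
        mul_le_mul_of_nonneg_left s4 (by positivity)
    _ ≤ 2 ^ B.card * (Real.sqrt (EE μ (fun x => F x ^ 2)) *
        Real.sqrt (∫ y, ∫ z, |kh μ W p y z| ^ (T'.card + 2) ∂μ ∂μ)) := by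
        refine mul_le_mul_of_nonneg_left ?_ (by positivity)
        exact mul_le_mul_of_nonneg_left (Real.sqrt_le_sqrt s5) (Real.sqrt_nonneg _)
    _ = _ := by ring

end Pool.Agent.H83.RGG
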