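import Pool.Agent.H83.RGG.Alpha
import Pool.Agent.H83.RGG.Beta

/-! Module R08_Eps: a single collision with a sibling `s`. -/

set_option autoImplicit false
set_option linter.unusedSectionVars false

open MeasureTheory ProbabilityTheory

namespace Pool.Agent.H83.RGG

variable {Ω : Type} [MeasurableSpace Ω] {ι : Type} [Fintype ι] [DecidableEq ι]
variable {μ : Measure Ω} [IsProbabilityMeasure μ] {W : Ω → Ω → ℝ} {p η : ℝ} {R : ℕ}

theorem int2_mono {A B : Ω × Ω → ℝ} (hA : Nice A) (hB : Nice B) (h : ∀ q, A q ≤ B q) :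
    ∫ y, ∫ z, A (y, z) ∂μ ∂μ ≤ ∫ y, ∫ z, B (y, z) ∂μ ∂μ := by
  rw [← integral_prod _ (hA.integrable _), ← integral_prod _ (hB.integrable _)]
  exact integral_mono (hA.integrable _) (hB.integrable _) h

theorem ind_pair {f : Ω → Ω → ℝ} {a b c : ι} (h1 : a ≠ c) (h2 : b ≠ c) :
    Ind (fun x : ι → Ω => f (x a) (x b)) c := by
  intro x y
  simp only [Function.update_of_ne h1, Function.update_of_ne h2]

theorem ind_prod_kg {a c : ι} {T : Finset ι} (h1 : a ≠ c) (h2 : c ∉ T) :
    Ind (fun x : ι → Ω => ∏ b ∈ T, kg W p (x a) (x b)) c := by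
  intro x y
  refine Finset.prod_congr rfl fun b hb => ?_
  have hbc : b ≠ c := fun h => h2 (h ▸ hb)
  simp only [Function.update_of_ne h1, Function.update_of_ne hbc]

theorem Ind.mul' {F G : (ι → Ω) → ℝ} {a : ι} (hF : Ind F a) (hG : Ind G a) :
    Ind (fun x => F x * G x) a := fun x y => by
  have h1 := hF x y
  have h2 := hG x y
  simp only at h1 h2 ⊢
  rw [h1, h2]

theorem Ind.abs' {F : (ι → Ω) → ℝ} {a : ι} (hF : Ind F a) : Ind (fun x => |F x|) a :=
  fun x y => by
    have h1 := hF x y
    simp only at h1 ⊢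
    rw [h1]

/-- first reduction: integrate out the other children `B` -/
theorem epsil_reduce (hK : Kern μ W p) {F : (ι → Ω) → ℝ} (hF : Nice F)
    {a a₁ s : ι} {B T' : Finset ι} (h1 : a₁ ≠ a) (h2 : s ≠ a) (h3 : s ≠ a₁)
    (haB : a ∉ B) (ha₁B : a₁ ∉ B) (hsB : s ∉ B)
    (haT : a ∉ T') (hBT : Disjoint B T')
    (hF1 : Ind F a₁) (hFB : ∀ c ∈ B, Ind F c) :
    EE μ (fun x => |Ex μ a₁ (fun x =>
        (Ex μ a (fun x => F x * ∏ c ∈ insert a₁ (insert s B), kg W p (x a) (x c)) x
          * kg W p (x a₁) (x s)) * ∏ c ∈ T', kg W p (x a₁) (x c)) x|) ≤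
      2 ^ B.card * EE μ (fun x => (|F x| * |kg W p (x a) (x s)|) *
        |Ex μ a₁ (fun x => (kg W p (x a) (x a₁) * kg W p (x a₁) (x s)) *
          ∏ c ∈ T', kg W p (x a₁) (x c)) x|) := by
  set G : (ι → Ω) → ℝ := fun x => F x * ∏ c ∈ insert a₁ (insert s B), kg W p (x a) (x c)
    with hG
  set φ : (ι → Ω) → ℝ := fun x => kg W p (x a₁) (x s) * ∏ c ∈ T', kg W p (x a₁) (x c) with hφ
  set U : (ι → Ω) → ℝ := fun x => (F x * kg W p (x a) (x s)) *
    ∏ c ∈ B, kg W p (x a) (x c) with hU
  set Φ : (ι → Ω) → ℝ := Ex μ a₁ (fun x => (kg W p (x a) (x a₁) * kg W p (x a₁) (x s)) *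
          ∏ c ∈ T', kg W p (x a₁) (x c)) with hΦ
  have nG : Nice G := hF.mul (hK.nice_prod_ge a _)
  have nφ : Nice φ := (hK.nice_ge a₁ s).mul (hK.nice_prod_ge a₁ T')
  have nU : Nice U := (hF.mul (hK.nice_ge a s)).mul (hK.nice_prod_ge a B)
  have nΨ : Nice (fun x : ι → Ω => (kg W p (x a) (x a₁) * kg W p (x a₁) (x s)) *
          ∏ c ∈ T', kg W p (x a₁) (x c)) :=
    ((hK.nice_ge a a₁).mul (hK.nice_ge a₁ s)).mul (hK.nice_prod_ge a₁ T')
  have nΦ : Nice Φ := nΨ.Ex a₁
  have iφ : Ind φ a := (ind_pair h1 h2).mul' (ind_prod_kg h1 haT)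
  have iU : Ind U a₁ := (hF1.mul' (ind_pair h1.symm h3)).mul' (ind_prod_kg h1.symm ha₁B)
  -- step 1
  have s1 : ∀ x, Ex μ a₁ (fun x => (Ex μ a G x * kg W p (x a₁) (x s)) *
      ∏ c ∈ T', kg W p (x a₁) (x c)) x = Ex μ a (fun x => U x * Φ x) x := by
    intro x
    have e1 : (fun x => (Ex μ a G x * kg W p (x a₁) (x s)) *
      ∏ c ∈ T', kg W p (x a₁) (x c)) = Ex μ a (fun x => G x * φ x) := by
      funext x
      rw [Ex_mul_right iφ, mul_assoc]
    rw [e1, Ex_comm (nG.mul nφ)]
    have e2 : Ex μ a₁ (fun x => G x * φ x) = fun x => U x * Φ x := by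
      funext x
      have e3 : (fun x => G x * φ x) = fun x => U x *
          ((kg W p (x a) (x a₁) * kg W p (x a₁) (x s)) *
          ∏ c ∈ T', kg W p (x a₁) (x c)) := by
        funext x
        simp only [hG, hφ, hU]
        rw [Finset.prod_insert (by simp [h3.symm, ha₁B]), Finset.prod_insert hsB]
        ring
      rw [e3, Ex_mul_left iU]
    rw [e2]
  have s2 : EE μ (fun x => |Ex μ a₁ (fun x => (Ex μ a G x * kg W p (x a₁) (x s)) *
      ∏ c ∈ T', kg W p (x a₁) (x c)) x|) ≤ EE μ (fun x => |U x * Φ x|) := by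
    have e : (fun x => |Ex μ a₁ (fun x => (Ex μ a G x * kg W p (x a₁) (x s)) *
      ∏ c ∈ T', kg W p (x a₁) (x c)) x|) = fun x => |Ex μ a (fun x => U x * Φ x) x| := by
      funext x; rw [s1 x]
    rw [e, ← EE_Ex (nU.mul nΦ).abs a]
    exact EE_mono ((nU.mul nΦ).Ex a).abs ((nU.mul nΦ).abs.Ex a) (abs_Ex_le a _)
  refine s2.trans ?_
  set H : (ι → Ω) → ℝ := fun x => (|F x| * |kg W p (x a) (x s)|) * |Φ x| with hH
  have nH : Nice H := (hF.abs.mul (hK.nice_ge a s).abs).mul nΦ.abs
  have e4 : (fun x => |U x * Φ x|) = fun x => H x * ∏ c ∈ B, |kg W p (x a) (x c)| := by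
    funext x
    simp only [hU, hH, abs_mul, Finset.abs_prod]
    ring
  rw [e4]
  refine beta_kg hK nH (fun x => by positivity) haB (fun b hb => ?_)
  have hba : a ≠ b := fun h => haB (h ▸ hb)
  have hba₁ : a₁ ≠ b := fun h => ha₁B (h ▸ hb)
  have hbs : s ≠ b := fun h => hsB (h ▸ hb)
  have hbT : b ∉ T' := fun h => (Finset.disjoint_left.mp hBT hb) h
  have iΨ : Ind (fun x : ι → Ω => (kg W p (x a) (x a₁) * kg W p (x a₁) (x s)) *
          ∏ c ∈ T', kg W p (x a₁) (x c)) b :=
    ((ind_pair hba hba₁).mul' (ind_pair hba₁ hbs)).mul' (ind_prod_kg hba₁ hbT)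
  exact (((hFB b hb).abs').mul' (ind_pair hba hbs).abs').mul' (iΨ.Ex a₁).abs'

/-- children of `a`: `a₁`, `s` and `B`; `a₁` is explored with neighbours `s` and `T'` (fresh) -/
theorem epsil (hK : Kern μ W p) (hM : Mom μ W p η R) {F : (ι → Ω) → ℝ} (hF : Nice F)
    {a a₁ s : ι} {B T' : Finset ι} (h1 : a₁ ≠ a) (h2 : s ≠ a) (h3 : s ≠ a₁)
    (haB : a ∉ B) (ha₁B : a₁ ∉ B) (hsB : s ∉ B)
    (haT : a ∉ T') (ha₁T : a₁ ∉ T') (hsT : s ∉ T') (hBT : Disjoint B T')
    (hF1 : Ind F a₁) (hFs : Ind F s) (hFB : ∀ c ∈ B, Ind F c) (hFT : ∀ c ∈ T', Ind F c)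
    (hR : T'.card ≤ R) :
    EE μ (fun x => |Ex μ a₁ (fun x =>
        (Ex μ a (fun x => F x * ∏ c ∈ insert a₁ (insert s B), kg W p (x a) (x c)) x
          * kg W p (x a₁) (x s)) * ∏ c ∈ T', kg W p (x a₁) (x c)) x|) ≤
      2 ^ B.card * (2 * η) * EE μ (fun x => |F x|) := by
  refine (epsil_reduce hK hF h1 h2 h3 haB ha₁B hsB haT hBT hF1 hFB).trans ?_
  rw [mul_assoc]
  refine mul_le_mul_of_nonneg_left ?_ (by positivity)
  set N1 := EE μ (fun x => |F x|) with hN1
  have hN1' : 0 ≤ N1 := EE_nonneg fun x => abs_nonneg _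
  set Ψ : (ι → Ω) → ℝ := fun x => (kg W p (x a) (x a₁) * kg W p (x a₁) (x s)) *
          ∏ c ∈ T', kg W p (x a₁) (x c) with hΨ
  have nΨ : Nice Ψ :=
    ((hK.nice_ge a a₁).mul (hK.nice_ge a₁ s)).mul (hK.nice_prod_ge a₁ T')
  have nH1 : Nice (fun x : ι → Ω => |F x| * |kg W p (x a) (x s)|) :=
    hF.abs.mul (hK.nice_ge a s).abs
  by_cases hT : T' = ∅
  · -- no fresh neighbours
    subst hT
    have e1 : ∀ x : ι → Ω, Ex μ a₁ Ψ x = kh μ W p (x a) (x s) := by
      intro x
      unfold Ex kh
      refine integral_congr_ae (Filter.Eventually.of_forall fun y => ?_)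
      simp only [hΨ, Finset.prod_empty, mul_one, Function.update_self,
        Function.update_of_ne h1.symm, Function.update_of_ne h3]
      rw [hK.kg_symm y (x s)]
    have e2 : (fun x => (|F x| * |kg W p (x a) (x s)|) * |Ex μ a₁ Ψ x|) =
        fun x => |F x| * (|kg W p (x a) (x s)| * |kh μ W p (x a) (x s)|) := by
      funext x; rw [e1 x, mul_assoc]
    rw [e2]
    have nK2 : Nice (fun x : ι → Ω => |kg W p (x a) (x s)| * |kh μ W p (x a) (x s)|) :=
      (hK.nice_ge a s).abs.mul ((hK.nice_kh.comp (f := fun x : ι → Ω => (x a, x s))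
        ((measurable_pi_apply a).prodMk (measurable_pi_apply s))).abs)
    rw [← EE_Ex (hF.abs.mul nK2) s]
    calc EE μ (Ex μ s (fun x => |F x| * (|kg W p (x a) (x s)| * |kh μ W p (x a) (x s)|)))
        ≤ EE μ (fun x => η * |F x|) := by
          refine EE_mono ((hF.abs.mul nK2).Ex s) ((Nice.const η).mul hF.abs) fun x => ?_
          rw [Ex_mul_left hFs.abs', mul_comm]
          refine mul_le_mul_of_nonneg_right ?_ (abs_nonneg _)
          refine le_trans ?_ (hM.m4 (x a))
          unfold Ex
          have nkb : Nice (fun y : Ω => kb W p (x a) y * |kh μ W p (x a) y|) :=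
            (hK.nice_kb.comp (f := fun y : Ω => (x a, y))
              (measurable_const.prodMk measurable_id)).mul
            (hK.nice_kh.comp (f := fun y : Ω => (x a, y))
              (measurable_const.prodMk measurable_id)).abs
          have nkg : Nice (fun y : Ω => |kg W p (x a) y| * |kh μ W p (x a) y|) :=
            (hK.nice_kg.comp (f := fun y : Ω => (x a, y))
              (measurable_const.prodMk measurable_id)).abs.mul
            (hK.nice_kh.comp (f := fun y : Ω => (x a, y))
              (measurable_const.prodMk measurable_id)).abs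
          simp only [Function.update_of_ne h2.symm, Function.update_self]
          refine integral_mono (nkg.integrable _) (nkb.integrable _) fun y => ?_
          exact mul_le_mul_of_nonneg_right (hK.abs_kg_le _ _) (abs_nonneg _)
      _ = η * N1 := EE_const_mul _ _
      _ ≤ 2 * η * N1 := by
          have := mul_nonneg hM.eta_nonneg hN1'
          linarith
  · have hT1 : 1 ≤ T'.card := Finset.one_le_card.mpr (Finset.nonempty_iff_ne_empty.mpr hT)
    have nEx : Nice (Ex μ a₁ Ψ) := nΨ.Ex a₁
    refine (EE_CS_weight nH1 nEx (fun x => by positivity)).trans ?_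
    -- first factor
    have f1 : EE μ (fun x => |F x| * |kg W p (x a) (x s)|) ≤ 2 * N1 := by
      have h := beta_kg hK hF.abs (fun x => abs_nonneg _) (a := a) (B := {s})
        (by simpa using h2.symm) (fun b hb => by
          rw [Finset.mem_singleton] at hb; subst hb; exact hFs.abs')
      simpa using h
    -- second factor
    have f2 : EE μ (fun x => (|F x| * |kg W p (x a) (x s)|) * (Ex μ a₁ Ψ x) ^ 2) ≤
        η ^ 2 * N1 := by
      have hindF' : ∀ b ∈ T', Ind (fun x : ι → Ω =>
          kg W p (x a) (x a₁) * kg W p (x a₁) (x s)) b := by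
        intro b hb
        have hba : a ≠ b := fun h => haT (h ▸ hb)
        have hba₁ : a₁ ≠ b := fun h => ha₁T (h ▸ hb)
        have hbs : s ≠ b := fun h => hsT (h ▸ hb)
        exact (ind_pair hba hba₁).mul' (ind_pair hba₁ hbs)
      have hindH : ∀ b ∈ T', Ind (fun x : ι → Ω => |F x| * |kg W p (x a) (x s)|) b := by
        intro b hb
        have hba : a ≠ b := fun h => haT (h ▸ hb)
        have hbs : s ≠ b := fun h => hsT (h ▸ hb)
        exact (hFT b hb).abs'.mul' (ind_pair hba hbs).abs'
      have sm := second_moment (μ := μ) (F := fun x : ι → Ω =>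
          kg W p (x a) (x a₁) * kg W p (x a₁) (x s)) (H := fun x : ι → Ω =>
          |F x| * |kg W p (x a) (x s)|) ((hK.nice_ge a a₁).mul (hK.nice_ge a₁ s)) nH1
          ha₁T hindF' hindH hK.nice_kg
      rw [hΨ]
      rw [sm]
      simp only [Function.update_self, Function.update_of_ne h1.symm, Function.update_of_ne h3]
      -- the nice integrands
      have nA : Nice (fun q : (ι → Ω) × (Ω × Ω) =>
          ((|F q.1| * |kg W p (q.1 a) (q.1 s)|) *
            ((kg W p (q.1 a) q.2.1 * kg W p q.2.1 (q.1 s)) *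
             (kg W p (q.1 a) q.2.2 * kg W p q.2.2 (q.1 s)))) *
            (kh μ W p q.2.1 q.2.2) ^ T'.card) := by
        have m1 : Measurable (fun q : (ι → Ω) × (Ω × Ω) => q.1 a) :=
          (measurable_pi_apply a).comp measurable_fst
        have m2 : Measurable (fun q : (ι → Ω) × (Ω × Ω) => q.1 s) :=
          (measurable_pi_apply s).comp measurable_fst
        have m3 : Measurable (fun q : (ι → Ω) × (Ω × Ω) => q.2.1) :=
          measurable_fst.comp measurable_snd
        have m4 : Measurable (fun q : (ι → Ω) × (Ω × Ω) => q.2.2) :=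
          measurable_snd.comp measurable_snd
        exact ((nH1.comp measurable_fst).mul
          (((hK.nice_kg.comp (m1.prodMk m3)).mul (hK.nice_kg.comp (m3.prodMk m2))).mul
           ((hK.nice_kg.comp (m1.prodMk m4)).mul (hK.nice_kg.comp (m4.prodMk m2))))).mul
          ((hK.nice_kh.comp measurable_snd).pow _)
      have nB : Nice (fun q : (ι → Ω) × (Ω × Ω) =>
          |F q.1| * (kb W p (q.1 a) (q.1 s) *
            (kb W p q.2.1 (q.1 a) * kb W p q.2.1 (q.1 s)) *
             (kb W p q.2.2 (q.1 a) * kb W p q.2.2 (q.1 s)) *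
            |kh μ W p q.2.1 q.2.2| ^ T'.card)) := by
        have m1 : Measurable (fun q : (ι → Ω) × (Ω × Ω) => q.1 a) :=
          (measurable_pi_apply a).comp measurable_fst
        have m2 : Measurable (fun q : (ι → Ω) × (Ω × Ω) => q.1 s) :=
          (measurable_pi_apply s).comp measurable_fst
        have m3 : Measurable (fun q : (ι → Ω) × (Ω × Ω) => q.2.1) :=
          measurable_fst.comp measurable_snd
        have m4 : Measurable (fun q : (ι → Ω) × (Ω × Ω) => q.2.2) :=
          measurable_snd.comp measurable_snd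
        exact (hF.abs.comp measurable_fst).mul ((((hK.nice_kb.comp (m1.prodMk m2)).mul
          ((hK.nice_kb.comp (m3.prodMk m1)).mul (hK.nice_kb.comp (m3.prodMk m2)))).mul
           ((hK.nice_kb.comp (m4.prodMk m1)).mul (hK.nice_kb.comp (m4.prodMk m2)))).mul
          ((hK.nice_kh.comp measurable_snd).abs.pow _))
      -- swap
      have sw : (∫ y, ∫ z, EE μ (fun x => (|F x| * |kg W p (x a) (x s)|) *
            ((kg W p (x a) y * kg W p y (x s)) * (kg W p (x a) z * kg W p z (x s)))) *
            (∫ w, kg W p y w * kg W p z w ∂μ) ^ T'.card ∂μ ∂μ) =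
          EE μ (fun x => ∫ y, ∫ z, ((|F x| * |kg W p (x a) (x s)|) *
            ((kg W p (x a) y * kg W p y (x s)) *
             (kg W p (x a) z * kg W p z (x s)))) *
            (kh μ W p y z) ^ T'.card ∂μ ∂μ) := by
        rw [EE_integral_swap nA]
        refine integral_congr_ae (Filter.Eventually.of_forall fun y => ?_)
        refine integral_congr_ae (Filter.Eventually.of_forall fun z => ?_)
        simp only
        have : (fun x : ι → Ω => ((|F x| * |kg W p (x a) (x s)|) *
            ((kg W p (x a) y * kg W p y (x s)) *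
             (kg W p (x a) z * kg W p z (x s)))) *
            (kh μ W p y z) ^ T'.card) = fun x => (kh μ W p y z) ^ T'.card *
            ((|F x| * |kg W p (x a) (x s)|) * ((kg W p (x a) y * kg W p y (x s)) *
             (kg W p (x a) z * kg W p z (x s)))) := by
          funext x; ring
        rw [this, EE_const_mul, mul_comm]
        rfl
      rw [sw]
      have nA' : Nice (fun x : ι → Ω => ∫ y, ∫ z, ((|F x| * |kg W p (x a) (x s)|) *
            ((kg W p (x a) y * kg W p y (x s)) *
             (kg W p (x a) z * kg W p z (x s)))) *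
            (kh μ W p y z) ^ T'.card ∂μ ∂μ) := by
        have n3 := nA.comp (f := fun q : ((ι → Ω) × Ω) × Ω => (q.1.1, (q.1.2, q.2)))
            ((measurable_fst.comp measurable_fst).prodMk
              ((measurable_snd.comp measurable_fst).prodMk measurable_snd))
        exact (n3.integral μ).integral μ
      have nB3 := nB.comp (f := fun q : ((ι → Ω) × Ω) × Ω => (q.1.1, (q.1.2, q.2)))
            ((measurable_fst.comp measurable_fst).prodMk
              ((measurable_snd.comp measurable_fst).prodMk measurable_snd))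
      have nB' : Nice (fun x : ι → Ω => ∫ y, ∫ z, |F x| * (kb W p (x a) (x s) *
            (kb W p y (x a) * kb W p y (x s)) *
             (kb W p z (x a) * kb W p z (x s)) *
            |kh μ W p y z| ^ T'.card) ∂μ ∂μ) :=
        (nB3.integral μ).integral μ
      calc EE μ (fun x => ∫ y, ∫ z, ((|F x| * |kg W p (x a) (x s)|) *
            ((kg W p (x a) y * kg W p y (x s)) *
             (kg W p (x a) z * kg W p z (x s)))) *
            (kh μ W p y z) ^ T'.card ∂μ ∂μ)
          ≤ EE μ (fun x => ∫ y, ∫ z, |F x| * (kb W p (x a) (x s) *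
            (kb W p y (x a) * kb W p y (x s)) *
             (kb W p z (x a) * kb W p z (x s)) *
            |kh μ W p y z| ^ T'.card) ∂μ ∂μ) := by
            refine EE_mono nA' nB' fun x => ?_
            have nAx := nA.comp (f := fun q : Ω × Ω => (x, q))
              (measurable_const.prodMk measurable_id)
            have nBx := nB.comp (f := fun q : Ω × Ω => (x, q))
              (measurable_const.prodMk measurable_id)
            refine int2_mono (μ := μ) nAx nBx fun q => ?_
            simp only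
            refine (le_abs_self _).trans ?_
            rw [abs_mul, abs_mul, abs_mul, abs_mul, abs_mul, abs_mul, abs_pow, abs_abs, abs_abs,
              mul_assoc, mul_assoc]
            refine mul_le_mul_of_nonneg_left ?_ (abs_nonneg _)
            have k1 := hK.abs_kg_le (x a) (x s)
            have k2 := hK.abs_kg_le (x a) q.1
            have k3 := hK.abs_kg_le q.1 (x s)
            have k4 := hK.abs_kg_le (x a) q.2
            have k5 := hK.abs_kg_le q.2 (x s)
            rw [hK.kb_symm (x a) q.1] at k2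
            rw [hK.kb_symm (x a) q.2] at k4
            have z1 := hK.kb_nonneg (x a) (x s)
            have z2 := hK.kb_nonneg q.1 (x a)
            have z3 := hK.kb_nonneg q.1 (x s)
            have z4 := hK.kb_nonneg q.2 (x a)
            have z5 := hK.kb_nonneg q.2 (x s)
            rw [← mul_assoc, ← mul_assoc]
            gcongr
        _ = EE μ (fun x => |F x| * ∫ y, ∫ z, kb W p (x a) (x s) *
            (kb W p y (x a) * kb W p y (x s)) *
             (kb W p z (x a) * kb W p z (x s)) *
            |kh μ W p y z| ^ T'.card ∂μ ∂μ) := by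
            congr 1
            funext x
            simp_rw [integral_const_mul]
        _ ≤ EE μ (fun x => η ^ 2 * |F x|) := by
            have nC : Nice (fun q : ((ι → Ω) × Ω) × Ω => kb W p (q.1.1 a) (q.1.1 s) *
                (kb W p q.1.2 (q.1.1 a) * kb W p q.1.2 (q.1.1 s)) *
                (kb W p q.2 (q.1.1 a) * kb W p q.2 (q.1.1 s)) *
                |kh μ W p q.1.2 q.2| ^ T'.card) := by
              have m1 : Measurable (fun q : ((ι → Ω) × Ω) × Ω => q.1.1 a) :=
                (measurable_pi_apply a).comp (measurable_fst.comp measurable_fst)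
              have m2 : Measurable (fun q : ((ι → Ω) × Ω) × Ω => q.1.1 s) :=
                (measurable_pi_apply s).comp (measurable_fst.comp measurable_fst)
              have m3 : Measurable (fun q : ((ι → Ω) × Ω) × Ω => q.1.2) :=
                measurable_snd.comp measurable_fst
              have m4 : Measurable (fun q : ((ι → Ω) × Ω) × Ω => q.2) := measurable_snd
              exact (((hK.nice_kb.comp (m1.prodMk m2)).mul
                ((hK.nice_kb.comp (m3.prodMk m1)).mul (hK.nice_kb.comp (m3.prodMk m2)))).mul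
                ((hK.nice_kb.comp (m4.prodMk m1)).mul (hK.nice_kb.comp (m4.prodMk m2)))).mul
                ((hK.nice_kh.comp (m3.prodMk m4)).abs.pow _)
            have nC' : Nice (fun x : ι → Ω => ∫ y, ∫ z, kb W p (x a) (x s) *
                (kb W p y (x a) * kb W p y (x s)) *
                (kb W p z (x a) * kb W p z (x s)) *
                |kh μ W p y z| ^ T'.card ∂μ ∂μ) := (nC.integral μ).integral μ
            rw [← EE_Ex (hF.abs.mul nC') s]
            refine EE_mono ((hF.abs.mul nC').Ex s) ((Nice.const (η ^ 2)).mul hF.abs) fun x => ?_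
            rw [Ex_mul_left hFs.abs', mul_comm]
            refine mul_le_mul_of_nonneg_right ?_ (abs_nonneg _)
            refine le_trans (le_of_eq ?_) (hM.m6 (x a) T'.card hT1 hR)
            unfold Ex
            simp only [Function.update_of_ne h2.symm, Function.update_self]
        _ = η ^ 2 * N1 := EE_const_mul _ _
    calc Real.sqrt (EE μ (fun x => |F x| * |kg W p (x a) (x s)|)) *
        Real.sqrt (EE μ (fun x => (|F x| * |kg W p (x a) (x s)|) * (Ex μ a₁ Ψ x) ^ 2))
        ≤ Real.sqrt (2 * N1) * Real.sqrt (η ^ 2 * N1) :=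
          mul_le_mul (Real.sqrt_le_sqrt f1) (Real.sqrt_le_sqrt f2) (Real.sqrt_nonneg _)
            (Real.sqrt_nonneg _)
      _ = Real.sqrt ((2 * N1) * (η ^ 2 * N1)) :=
          (Real.sqrt_mul (by positivity) _).symm
      _ ≤ 2 * η * N1 := by
          have hη := hM.eta_nonneg
          rw [show (2 * N1) * (η ^ 2 * N1) = 2 * (η * N1) ^ 2 by ring]
          refine Real.sqrt_le_iff.mpr ⟨by positivity, ?_⟩
          nlinarith [sq_nonneg (η * N1)]

end Pool.Agent.H83.RGG
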