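import Pool.Agent.H83.RGG.KernG

/-! Module R12_Glue: the sum in the frozen statement is `DD`. -/

set_option autoImplicit false

open MeasureTheory ProbabilityTheory Filter

namespace Pool.Agent.H83.RGG

/-- currying preserves the Gaussian product measure -/
theorem gl_curry (n d : ℕ) :
    MeasurePreserving (MeasurableEquiv.curry (Fin n) (Fin d) ℝ)
      (Measure.pi (fun _ : Fin n × Fin d => gaussianReal 0 1))
      (Measure.pi (fun _ : Fin n => gam d)) := by
  refine ⟨(MeasurableEquiv.curry (Fin n) (Fin d) ℝ).measurable, ?_⟩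
  have h := Measure.infinitePi_map_curry (ι := Fin n) (κ := Fin d) (X := ℝ)
    (fun _ _ => gaussianReal 0 1)
  rw [Measure.infinitePi_eq_pi, Measure.infinitePi_eq_pi] at h
  rw [h]
  congr 1
  funext i
  rw [Measure.infinitePi_eq_pi]
  rfl

theorem gl_ae_ne {n d : ℕ} (hd : 1 ≤ d) :
    ∀ᵐ x ∂(Measure.pi (fun _ : Fin n => gam d)), ∀ i, x i ≠ 0 := by
  rw [ae_all_iff]
  intro i
  have h := (measurePreserving_eval (fun _ : Fin n => gam d) i).quasiMeasurePreserving
  have h0 : ∀ᵐ y ∂(gam d), y ≠ 0 := by
    rw [ae_iff]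
    simpa using gam_zero hd
  exact h.ae h0

/-- weight as an indicator when no vector vanishes -/
theorem gl_wt {n d : ℕ} {t p : ℝ} (hK : Kern (gam d) (Wc d t p) p) (G : SimpleGraph (Fin n))
    [DecidableRel G.Adj] (x : Fin n → Fin d → ℝ) (hx : ∀ i, x i ≠ 0) :
    ((∀ i j : Fin n, i ≠ j → (G.Adj i j ↔ t * nrm (x i) * nrm (x j) ≤ dt (x i) (x j))) →
      wt (Wc d t p) (ed Finset.univ) G.edgeFinset x = 1) ∧
    ((¬ ∀ i j : Fin n, i ≠ j → (G.Adj i j ↔ t * nrm (x i) * nrm (x j) ≤ dt (x i) (x j))) →
      wt (Wc d t p) (ed Finset.univ) G.edgeFinset x = 0) := by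
  classical
  have hW : ∀ i j : Fin n, We (Wc d t p) s(i, j) x =
      if t * nrm (x i) * nrm (x j) ≤ dt (x i) (x j) then 1 else 0 := by
    intro i j
    rw [hK.We_mk]
    unfold Wc
    rw [if_neg (by simp [hx i, hx j])]
  constructor
  · intro h
    unfold wt
    have h1 : ∏ e ∈ G.edgeFinset, We (Wc d t p) e x = 1 := by
      refine Finset.prod_eq_one (fun e he => ?_)
      induction e using Sym2.ind with
      | _ i j =>
        have ha : G.Adj i j := by simpa using he
        rw [hW, if_pos ((h i j ha.ne).1 ha)]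
    have h2 : ∏ e ∈ ed Finset.univ \ G.edgeFinset, (1 - We (Wc d t p) e x) = 1 := by
      refine Finset.prod_eq_one (fun e he => ?_)
      induction e using Sym2.ind with
      | _ i j =>
        rw [Finset.mem_sdiff] at he
        have hne : i ≠ j := by
          have := (Finset.mem_filter.1 he.1).2
          simpa using this
        have ha : ¬ G.Adj i j := by simpa using he.2
        rw [hW, if_neg (fun hh => ha ((h i j hne).2 hh)), sub_zero]
    rw [h1, h2, one_mul]
  · intro h
    push Not at h
    obtain ⟨i, j, hne, hh⟩ := h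
    unfold wt
    rcases hh with ⟨ha, hb⟩ | ⟨ha, hb⟩
    · have : ∏ e ∈ G.edgeFinset, We (Wc d t p) e x = 0 := by
        refine Finset.prod_eq_zero (i := s(i, j)) (by simpa using ha) ?_
        rw [hW, if_neg (not_le.2 hb)]
      rw [this, zero_mul]
    · have : ∏ e ∈ ed Finset.univ \ G.edgeFinset, (1 - We (Wc d t p) e x) = 0 := by
        refine Finset.prod_eq_zero (i := s(i, j)) ?_ ?_
        · rw [Finset.mem_sdiff]
          refine ⟨?_, by simpa using ha⟩
          unfold ed
          rw [Finset.mem_filter]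
          exact ⟨by simp, by simpa using hne⟩
        · rw [hW, if_pos hb, sub_self]
      rw [this, mul_zero]

theorem gl_prob {n d : ℕ} (hd : 1 ≤ d) {t p : ℝ} (hK : Kern (gam d) (Wc d t p) p)
    (G : SimpleGraph (Fin n)) [DecidableRel G.Adj] :
    ((MeasureTheory.Measure.pi
                  (fun _ : Fin n × Fin d => ProbabilityTheory.gaussianReal 0 1))
                {g : Fin n × Fin d → ℝ | ∀ i j : Fin n, i ≠ j →
                  (G.Adj i j ↔
                    t * Real.sqrt (∑ k, g (i, k) ^ 2) * Real.sqrt (∑ k, g (j, k) ^ 2)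
                      ≤ ∑ k, g (i, k) * g (j, k))}).toReal =
      EE (gam d) (fun x => wt (Wc d t p) (ed Finset.univ) G.edgeFinset x) := by
  set P : (Fin n → Fin d → ℝ) → Prop := fun x =>
    ∀ i j : Fin n, i ≠ j → (G.Adj i j ↔ t * nrm (x i) * nrm (x j) ≤ dt (x i) (x j)) with hP
  have h1 : {g : Fin n × Fin d → ℝ | ∀ i j : Fin n, i ≠ j →
                  (G.Adj i j ↔
                    t * Real.sqrt (∑ k, g (i, k) ^ 2) * Real.sqrt (∑ k, g (j, k) ^ 2)
                      ≤ ∑ k, g (i, k) * g (j, k))} =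
      (MeasurableEquiv.curry (Fin n) (Fin d) ℝ) ⁻¹' {x | P x} := rfl
  rw [h1, (gl_curry n d).measure_preimage_equiv]
  set w : (Fin n → Fin d → ℝ) → ℝ := fun x => wt (Wc d t p) (ed Finset.univ) G.edgeFinset x
    with hw
  have hwN : Nice w := hK.nice_wt _ _
  have hae := gl_ae_ne (n := n) hd
  have h2 : {x | P x} =ᵐ[Measure.pi (fun _ : Fin n => gam d)] {x | w x = 1} := by
    filter_upwards [hae] with x hx
    have := gl_wt hK G x hx
    refine propext ⟨fun h => this.1 h, fun h => ?_⟩
    by_contra hc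
    have h0 := this.2 hc
    have h1' : w x = 1 := h
    simp only [hw] at h1'
    rw [h0] at h1'
    exact zero_ne_one h1'
  have hmeas : MeasurableSet {x | w x = 1} := hwN.1 (measurableSet_singleton 1)
  have h3 : w =ᵐ[Measure.pi (fun _ : Fin n => gam d)]
      {x | w x = 1}.indicator (fun _ => (1 : ℝ)) := by
    filter_upwards [hae] with x hx
    have := gl_wt hK G x hx
    by_cases hp : P x
    · have h0 := this.1 hp
      rw [Set.indicator_of_mem (show x ∈ {x | w x = 1} from h0)]
      exact h0
    · have h0 := this.2 hp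
      have : x ∉ {x | w x = 1} := by
        intro h
        have h1' : w x = 1 := h
        simp only [hw] at h1'
        rw [h0] at h1'
        exact zero_ne_one h1'
      rw [Set.indicator_of_notMem this]
      exact h0
  unfold EE
  rw [measure_congr h2, integral_congr_ae h3, integral_indicator_const _ hmeas]
  simp [Measure.real]

/-- graphs on `Fin n` and sets of pairs -/
theorem gl_bij {n : ℕ} (f : Finset (Sym2 (Fin n)) → ℝ) (g : SimpleGraph (Fin n) → ℝ)
    (hfg : ∀ (G : SimpleGraph (Fin n)) [DecidableRel G.Adj], g G = f G.edgeFinset) :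
    ∑' G : SimpleGraph (Fin n), g G = ∑ G ∈ (ed (Finset.univ : Finset (Fin n))).powerset, f G := by
  classical
  rw [tsum_fintype]
  refine Finset.sum_bij (fun G _ => G.edgeFinset) ?_ ?_ ?_ ?_
  · intro G _
    rw [Finset.mem_powerset]
    intro e he
    unfold ed
    rw [Finset.mem_filter]
    refine ⟨by simp, ?_⟩
    exact G.not_isDiag_of_mem_edgeFinset he
  · intro G _ H _ h
    exact SimpleGraph.edgeFinset_inj.1 h
  · intro S hS
    rw [Finset.mem_powerset] at hS
    refine ⟨SimpleGraph.fromEdgeSet (S : Set (Sym2 (Fin n))), Finset.mem_univ _, ?_⟩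
    ext e
    refine Iff.trans (@Set.mem_toFinset _ _ (_) _) ?_
    have hE2 : e ∈ (SimpleGraph.fromEdgeSet (S : Set (Sym2 (Fin n)))).edgeSet ↔
        e ∈ (S : Set (Sym2 (Fin n))) ∧ ¬ e.IsDiag := by
      rw [SimpleGraph.edgeSet_fromEdgeSet]
      rfl
    rw [hE2]
    constructor
    · intro h
      exact h.1
    · intro h
      refine ⟨h, ?_⟩
      have := (Finset.mem_filter.1 (hS h)).2
      exact this
  · intro G _
    exact hfg G

theorem gl_card {n : ℕ} (G : SimpleGraph (Fin n)) [DecidableRel G.Adj] :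
    n.choose 2 - G.edgeSet.ncard = (ed (Finset.univ : Finset (Fin n)) \ G.edgeFinset).card := by
  classical
  have hsub : G.edgeFinset ⊆ ed (Finset.univ : Finset (Fin n)) := by
    intro e he
    unfold ed
    rw [Finset.mem_filter]
    exact ⟨by simp, G.not_isDiag_of_mem_edgeFinset he⟩
  have h1 : (ed (Finset.univ : Finset (Fin n))) = (⊤ : SimpleGraph (Fin n)).edgeFinset := by
    ext e
    unfold ed
    rw [Finset.mem_filter, SimpleGraph.mem_edgeFinset, SimpleGraph.edgeSet_top]
    simp
  have h2 : (ed (Finset.univ : Finset (Fin n))).card = n.choose 2 := by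
    rw [h1, SimpleGraph.card_edgeFinset_top_eq_card_choose_two, Fintype.card_fin]
  rw [Finset.card_sdiff_of_subset hsub, h2]
  congr 1
  rw [← SimpleGraph.coe_edgeFinset, Set.ncard_coe_finset]

theorem glue {n d : ℕ} (hd : 1 ≤ d) {t p : ℝ} (hK : Kern (gam d) (Wc d t p) p) :
    (∑' G : SimpleGraph (Fin n),
            |((MeasureTheory.Measure.pi
                  (fun _ : Fin n × Fin d => ProbabilityTheory.gaussianReal 0 1))
                {g : Fin n × Fin d → ℝ | ∀ i j : Fin n, i ≠ j →
                  (G.Adj i j ↔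
                    t * Real.sqrt (∑ k, g (i, k) ^ 2) * Real.sqrt (∑ k, g (j, k) ^ 2)
                      ≤ ∑ k, g (i, k) * g (j, k))}).toReal
              - p ^ G.edgeSet.ncard * (1 - p) ^ (n.choose 2 - G.edgeSet.ncard)|)
      = DD (ι := Fin n) (gam d) (Wc d t p) p (ed Finset.univ) := by
  unfold DD
  refine gl_bij (fun G => |EE (gam d) (fun x => wt (Wc d t p) (ed Finset.univ) G x) -
    p ^ G.card * (1 - p) ^ ((ed Finset.univ) \ G).card|) _ ?_
  intro G _
  rw [gl_prob hd hK G, gl_card G]
  congr 3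
  rw [← SimpleGraph.coe_edgeFinset, Set.ncard_coe_finset]

end Pool.Agent.H83.RGG
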