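import Pool.Agent.H83.RGG.Kernel

/-! Module R11_Mom: moments from the good/bad pair hypothesis. -/

set_option autoImplicit false

open MeasureTheory ProbabilityTheory

namespace Pool.Agent.H83.RGG

variable {Ω : Type} [MeasurableSpace Ω]
variable {μ : Measure Ω} [IsProbabilityMeasure μ] {W : Ω → Ω → ℝ} {p η ε δ : ℝ} {R : ℕ}

theorem mg_mono {F G : Ω → ℝ} (hF : Nice F) (hG : Nice G) (h : ∀ x, F x ≤ G x) :
    ∫ x, F x ∂μ ≤ ∫ x, G x ∂μ :=
  integral_mono (hF.integrable μ) (hG.integrable μ) h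

theorem mg_nice1 {F : Ω × Ω → ℝ} (hF : Nice F) : Nice (fun x => ∫ y, F (x, y) ∂μ) :=
  hF.integral μ

theorem mg_nice_sec {F : Ω × Ω → ℝ} (hF : Nice F) (x : Ω) : Nice (fun y => F (x, y)) :=
  hF.comp (f := fun y => (x, y)) (by fun_prop)

theorem mg_mono2 {F G : Ω × Ω → ℝ} (hF : Nice F) (hG : Nice G) (h : ∀ q, F q ≤ G q) :
    ∫ x, ∫ y, F (x, y) ∂μ ∂μ ≤ ∫ x, ∫ y, G (x, y) ∂μ ∂μ := by
  refine mg_mono (mg_nice1 hF) (mg_nice1 hG) fun x => ?_
  exact mg_mono (mg_nice_sec hF x) (mg_nice_sec hG x) fun y => h _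

theorem mg_nice2 {F : Ω × (Ω × Ω) → ℝ} (hF : Nice F) :
    Nice (fun q : Ω × Ω => ∫ z, F (q.1, (q.2, z)) ∂μ) :=
  (hF.comp (f := fun q : (Ω × Ω) × Ω => (q.1.1, (q.1.2, q.2))) (by fun_prop)).integral μ

theorem mg_mono3 {F G : Ω × (Ω × Ω) → ℝ} (hF : Nice F) (hG : Nice G) (h : ∀ q, F q ≤ G q) :
    ∫ x, ∫ y, ∫ z, F (x, (y, z)) ∂μ ∂μ ∂μ ≤ ∫ x, ∫ y, ∫ z, G (x, (y, z)) ∂μ ∂μ ∂μ := by
  refine mg_mono2 (F := fun q => ∫ z, F (q.1, (q.2, z)) ∂μ)
    (G := fun q => ∫ z, G (q.1, (q.2, z)) ∂μ) (mg_nice2 hF) (mg_nice2 hG) fun q => ?_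
  refine mg_mono (hF.comp (f := fun z => (q.1, (q.2, z))) (by fun_prop))
    (hG.comp (f := fun z => (q.1, (q.2, z))) (by fun_prop)) fun z => h _

/-- indicator of the bad pairs -/
noncomputable def bi (Bad : Set (Ω × Ω)) (x y : Ω) : ℝ := Bad.indicator (fun _ => (1 : ℝ)) (x, y)

theorem bi_nonneg (Bad : Set (Ω × Ω)) (x y : Ω) : 0 ≤ bi Bad x y := by
  unfold bi
  exact Set.indicator_nonneg (fun _ _ => zero_le_one) _

theorem bi_le (Bad : Set (Ω × Ω)) (x y : Ω) : bi Bad x y ≤ 1 := by
  unfold bi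
  by_cases h : (x, y) ∈ Bad
  · rw [Set.indicator_of_mem h]
  · rw [Set.indicator_of_notMem h]; norm_num

theorem bi_mem {Bad : Set (Ω × Ω)} {x y : Ω} (h : (x, y) ∈ Bad) : bi Bad x y = 1 := by
  unfold bi; rw [Set.indicator_of_mem h]

theorem nice_bi {Bad : Set (Ω × Ω)} (h : MeasurableSet Bad) :
    Nice (fun q : Ω × Ω => bi Bad q.1 q.2) := by
  refine ⟨?_, 1, fun q => ?_⟩
  · exact (measurable_const.indicator h)
  · rw [abs_of_nonneg (bi_nonneg _ _ _)]; exact bi_le _ _ _

theorem mom_of_good (hK : Kern μ W p) {Bad : Set (Ω × Ω)} (hG : GoodKer μ W p ε δ R Bad)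
    (hη0 : 0 ≤ η) (hη1 : η ≤ 1) (hε : 2000 * ε ≤ η ^ 2) (hδ : δ ≤ p ^ 5 * ε ^ 2) :
    Mom μ W p η R := by
  have hp := hK.p_pos
  have hp1 : p ≤ 1 := by linarith [hK.p_le]
  have hε0 := hG.eps_nonneg
  have hδ0 := hG.del_nonneg
  have hη2 : η ^ 2 ≤ η := by nlinarith
  have hε1 : ε ≤ 1 / 2000 := by nlinarith
  have hε2 : ε ^ 2 ≤ ε / 2000 := by nlinarith
  have hp5 : p ^ 5 ≤ 1 := pow_le_one₀ hp.le hp1
  have hδε : δ ≤ ε ^ 2 := hδ.trans (by nlinarith [sq_nonneg ε])
  have hδp : ∀ k : ℕ, k ≤ 5 → δ / p ^ k ≤ ε ^ 2 := by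
    intro k hk
    rw [div_le_iff₀ (by positivity)]
    refine hδ.trans ?_
    have : p ^ 5 ≤ p ^ k := pow_le_pow_of_le_one hp.le hp1 hk
    nlinarith [sq_nonneg ε]
  have hbi : Nice (fun q : Ω × Ω => bi Bad q.1 q.2) := nice_bi hG.meas
  have hbad : ∀ x, ∀ r : ℕ, r ≤ 2 * R + 2 → ∫ y, |kh μ W p x y| ^ r * bi Bad x y ∂μ ≤ δ :=
    hG.bad
  have hbad0 : ∀ x, ∫ y, bi Bad x y ∂μ ≤ δ := by
    intro x
    have := hbad x 0 (by omega)
    simpa using this
  have hnb0 : ∀ x, 0 ≤ ∫ y, bi Bad x y ∂μ := fun x => integral_nonneg fun y => bi_nonneg _ _ _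
  have hkh := hK.nice_kh
  have hkb := hK.nice_kb
  have hkhb := hK.nice_khb
  -- pointwise bounds
  have hpow : ∀ x y, ∀ r : ℕ, 1 ≤ r → |kh μ W p x y| ^ r ≤ ε ^ r + |kh μ W p x y| ^ r * bi Bad x y := by
    intro x y r hr
    by_cases h : (x, y) ∈ Bad
    · rw [bi_mem h, mul_one]
      have : 0 ≤ ε ^ r := by positivity
      linarith
    · have h1 := pow_le_pow_left₀ (abs_nonneg _) (hG.good x y h) r
      have h2 : 0 ≤ |kh μ W p x y| ^ r * bi Bad x y := by
        have := bi_nonneg Bad x y; positivity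
      linarith
  have hkhb5 : ∀ x y, (x, y) ∉ Bad → khb μ W p x y ≤ 5 := by
    intro x y h
    have h1 := hG.good x y h
    unfold khb
    linarith [le_abs_self (kh μ W p x y)]
  have hεr : ∀ r : ℕ, 1 ≤ r → ε ^ r ≤ ε := by
    intro r hr
    calc ε ^ r ≤ ε ^ 1 := pow_le_pow_of_le_one hε0 (by linarith) hr
      _ = ε := pow_one _
  have hεr2 : ∀ r : ℕ, 2 ≤ r → ε ^ r ≤ ε ^ 2 := by
    intro r hr
    exact pow_le_pow_of_le_one hε0 (by linarith) hr
  have hcs : ∀ (c : ℝ), Nice (fun _ : Ω => c) := fun c => Nice.const c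
  have hkbp : ∀ x, Nice (fun y => kb W p x y) := fun x => mg_nice_sec hkb x
  have hkhbp : ∀ x, Nice (fun y => khb μ W p x y) := fun x => mg_nice_sec hkhb x
  have hkhp : ∀ x, Nice (fun y => kh μ W p x y) := fun x => mg_nice_sec hkh x
  have hbip : ∀ x, Nice (fun y => bi Bad x y) := fun x => mg_nice_sec hbi x
  -- m5
  have m5' : ∀ x, ∫ y, kb W p x y * khb μ W p x y ^ 2 ∂μ ≤ 1000 := by
    intro x
    have hpt : ∀ y, kb W p x y * khb μ W p x y ^ 2 ≤ 25 * kb W p x y + (32 / p ^ 3) * bi Bad x y := by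
      intro y
      have hk0 := hK.kb_nonneg x y
      have hh0 := hK.khb_nonneg x y
      by_cases h : (x, y) ∈ Bad
      · rw [bi_mem h]
        have h1 := hK.kb_le x y
        have h2 := hK.khb_le x y
        have h3 : khb μ W p x y ^ 2 ≤ (4 / p) ^ 2 := pow_le_pow_left₀ hh0 h2 2
        have h4 : kb W p x y * khb μ W p x y ^ 2 ≤ (2 / p) * (4 / p) ^ 2 :=
          mul_le_mul h1 h3 (by positivity) (by positivity)
        have h5 : (2 / p) * (4 / p) ^ 2 = 32 / p ^ 3 := by
          field_simp; norm_num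
        linarith
      · have h2 := hkhb5 x y h
        have h3 : khb μ W p x y ^ 2 ≤ 5 ^ 2 := pow_le_pow_left₀ hh0 h2 2
        have h4 : 0 ≤ (32 / p ^ 3) * bi Bad x y := by
          have := bi_nonneg Bad x y; positivity
        nlinarith
    have h1 := mg_mono (μ := μ) ((hkbp x).mul ((hkhbp x).pow 2))
      (((hcs 25).mul (hkbp x)).add ((hcs (32 / p ^ 3)).mul (hbip x))) hpt
    rw [integral_add (((hcs 25).mul (hkbp x)).integrable μ) (((hcs (32 / p ^ 3)).mul (hbip x)).integrable μ),
      integral_const_mul, integral_const_mul, hK.int_kb x] at h1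
    have h2 : (32 / p ^ 3) * ∫ y, bi Bad x y ∂μ ≤ 32 * (δ / p ^ 3) := by
      have : (32 / p ^ 3) * ∫ y, bi Bad x y ∂μ ≤ (32 / p ^ 3) * δ :=
        mul_le_mul_of_nonneg_left (hbad0 x) (by positivity)
      calc _ ≤ _ := this
        _ = _ := by ring
    have h3 := hδp 3 (by norm_num)
    nlinarith
  refine ⟨hη0, hη1, ?_, ?_, ?_, m5', ?_, ?_⟩
  · -- m2
    intro r hr1 hr2
    have hN : Nice (fun q : Ω × Ω => |kh μ W p q.1 q.2| ^ r) := hkh.abs.pow r
    have hN2 : Nice (fun q : Ω × Ω => ε ^ 2 + |kh μ W p q.1 q.2| ^ r * bi Bad q.1 q.2) :=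
      (Nice.const _).add (hN.mul hbi)
    have h1 := mg_mono2 (μ := μ) hN hN2 (fun q => by
      have := hpow q.1 q.2 r (by omega)
      have h2 := hεr2 r hr1
      linarith)
    refine h1.trans ?_
    have h2 : ∀ x, ∫ y, (ε ^ 2 + |kh μ W p x y| ^ r * bi Bad x y) ∂μ ≤ ε ^ 2 + δ := by
      intro x
      rw [integral_add (integrable_const _) ((((hkhp x).abs.pow r).mul (hbip x)).integrable μ)]
      have := hbad x r hr2
      simp only [integral_const, probReal_univ, one_smul]
      linarith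
    have h3 := mg_mono (μ := μ) (mg_nice1 (μ := μ) hN2) (hcs (ε ^ 2 + δ)) h2
    refine h3.trans ?_
    simp only [integral_const, probReal_univ, one_smul]
    have h4 : ε ≤ η ^ 2 / 2000 := by linarith
    have h5 : ε ^ 2 ≤ (η ^ 2 / 2000) ^ 2 := pow_le_pow_left₀ hε0 h4 2
    have h6 : (η ^ 2 / 2000) ^ 2 = η ^ 4 / 4000000 := by ring
    have h7 : 0 ≤ η ^ 4 := by positivity
    linarith
  · -- m3
    have hN : Nice (fun q : Ω × Ω => khb μ W p q.1 q.2 ^ 3) := hkhb.pow 3
    have hN2 : Nice (fun q : Ω × Ω => 125 + (64 / p ^ 3) * bi Bad q.1 q.2) :=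
      (Nice.const _).add ((Nice.const _).mul hbi)
    have h1 := mg_mono2 (μ := μ) hN hN2 (fun q => by
      have hh0 := hK.khb_nonneg q.1 q.2
      by_cases h : (q.1, q.2) ∈ Bad
      · have h2 := hK.khb_le q.1 q.2
        have h3 := pow_le_pow_left₀ hh0 h2 3
        have h5 : (4 / p) ^ 3 = 64 / p ^ 3 := by rw [div_pow]; norm_num
        simp only [bi_mem h, mul_one]
        linarith
      · have h2 := hkhb5 _ _ h
        have h3 := pow_le_pow_left₀ hh0 h2 3
        have h4 : 0 ≤ (64 / p ^ 3) * bi Bad q.1 q.2 := by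
          have := bi_nonneg Bad q.1 q.2; positivity
        norm_num at h3
        linarith)
    refine h1.trans ?_
    have h2 : ∀ x, ∫ y, (125 + (64 / p ^ 3) * bi Bad x y) ∂μ ≤ 1000 := by
      intro x
      rw [integral_add (integrable_const _) (((hcs _).mul (hbip x)).integrable μ),
        integral_const_mul]
      simp only [integral_const, probReal_univ, one_smul]
      have h3 : (64 / p ^ 3) * ∫ y, bi Bad x y ∂μ ≤ 64 * (δ / p ^ 3) := by
        have : (64 / p ^ 3) * ∫ y, bi Bad x y ∂μ ≤ (64 / p ^ 3) * δ :=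
          mul_le_mul_of_nonneg_left (hbad0 x) (by positivity)
        calc _ ≤ _ := this
          _ = _ := by ring
      have h4 := hδp 3 (by norm_num)
      nlinarith
    have h3 := mg_mono (μ := μ) (mg_nice1 (μ := μ) hN2) (hcs 1000) h2
    refine h3.trans ?_
    simp only [integral_const, probReal_univ, one_smul, le_refl]
  · -- m4
    intro x
    have hpt : ∀ y, kb W p x y * |kh μ W p x y| ≤ ε * kb W p x y
        + (2 / p) * (|kh μ W p x y| ^ 1 * bi Bad x y) := by
      intro y
      have hk0 := hK.kb_nonneg x y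
      have h1 := hpow x y 1 le_rfl
      rw [pow_one, pow_one] at h1
      have h2 := hK.kb_le x y
      have h3 : 0 ≤ |kh μ W p x y| * bi Bad x y := by
        have := bi_nonneg Bad x y; positivity
      rw [pow_one]
      calc kb W p x y * |kh μ W p x y| ≤ kb W p x y * (ε + |kh μ W p x y| * bi Bad x y) :=
            mul_le_mul_of_nonneg_left h1 hk0
        _ = ε * kb W p x y + kb W p x y * (|kh μ W p x y| * bi Bad x y) := by ring
        _ ≤ _ := by
          have := mul_le_mul_of_nonneg_right h2 h3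
          linarith
    have h1 := mg_mono (μ := μ) ((hkbp x).mul (hkhp x).abs)
      (((hcs ε).mul (hkbp x)).add ((hcs (2 / p)).mul (((hkhp x).abs.pow 1).mul (hbip x)))) hpt
    rw [integral_add (((hcs ε).mul (hkbp x)).integrable μ)
      (((hcs (2 / p)).mul (((hkhp x).abs.pow 1).mul (hbip x))).integrable μ),
      integral_const_mul, integral_const_mul, hK.int_kb x] at h1
    have h2 : (2 / p) * ∫ y, |kh μ W p x y| ^ 1 * bi Bad x y ∂μ ≤ 2 * (δ / p ^ 1) := by
      have : (2 / p) * ∫ y, |kh μ W p x y| ^ 1 * bi Bad x y ∂μ ≤ (2 / p) * δ :=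
        mul_le_mul_of_nonneg_left (hbad x 1 (by omega)) (by positivity)
      calc _ ≤ _ := this
        _ = _ := by ring
    have h3 := hδp 1 (by norm_num)
    nlinarith
  · -- m6
    intro x s hs1 hs2
    set c : ℝ := 32 / p ^ 5 with hc
    have hc0 : 0 ≤ c := by positivity
    -- nice functions of (u,(y,z))
    have hA : ∀ x : Ω, Nice (fun q : Ω × (Ω × Ω) => kb W p x q.1) := fun x =>
      (hkbp x).comp (f := fun q : Ω × (Ω × Ω) => q.1) (by fun_prop)
    have hByx : Nice (fun q : Ω × (Ω × Ω) => kb W p q.2.1 x) :=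
      hkb.comp (f := fun q : Ω × (Ω × Ω) => (q.2.1, x)) (by fun_prop)
    have hByu : Nice (fun q : Ω × (Ω × Ω) => kb W p q.2.1 q.1) :=
      hkb.comp (f := fun q : Ω × (Ω × Ω) => (q.2.1, q.1)) (by fun_prop)
    have hBzx : Nice (fun q : Ω × (Ω × Ω) => kb W p q.2.2 x) :=
      hkb.comp (f := fun q : Ω × (Ω × Ω) => (q.2.2, x)) (by fun_prop)
    have hBzu : Nice (fun q : Ω × (Ω × Ω) => kb W p q.2.2 q.1) :=
      hkb.comp (f := fun q : Ω × (Ω × Ω) => (q.2.2, q.1)) (by fun_prop)
    have hHs : Nice (fun q : Ω × (Ω × Ω) => |kh μ W p q.2.1 q.2.2| ^ s) :=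
      (hkh.abs.pow s).comp (f := fun q : Ω × (Ω × Ω) => (q.2.1, q.2.2)) (by fun_prop)
    have hbi' : Nice (fun q : Ω × (Ω × Ω) => bi Bad q.2.1 q.2.2) :=
      hbi.comp (f := fun q : Ω × (Ω × Ω) => (q.2.1, q.2.2)) (by fun_prop)
    have hP := ((hA x).mul (hByx.mul hByu)).mul (hBzx.mul hBzu)
    have hL := hP.mul hHs
    have hR := ((Nice.const (α := Ω × (Ω × Ω)) ε).mul hP).add
      ((Nice.const (α := Ω × (Ω × Ω)) c).mul (hHs.mul hbi'))
    have h1 := mg_mono3 (μ := μ) hL hR (fun q => by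
      obtain ⟨u, y, z⟩ := q
      have k1 := hK.kb_nonneg x u
      have k2 := hK.kb_nonneg y x
      have k3 := hK.kb_nonneg y u
      have k4 := hK.kb_nonneg z x
      have k5 := hK.kb_nonneg z u
      have l1 := hK.kb_le x u
      have l2 := hK.kb_le y x
      have l3 := hK.kb_le y u
      have l4 := hK.kb_le z x
      have l5 := hK.kb_le z u
      have hPn : 0 ≤ kb W p x u * (kb W p y x * kb W p y u) * (kb W p z x * kb W p z u) := by
        positivity
      have hPc : kb W p x u * (kb W p y x * kb W p y u) * (kb W p z x * kb W p z u) ≤ c := by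
        have e : c = (2 / p) * ((2 / p) * (2 / p)) * ((2 / p) * (2 / p)) := by
          rw [hc]; field_simp; norm_num
        rw [e]
        have hq : 0 ≤ 2 / p := by positivity
        gcongr
      have h1 := hpow y z s hs1
      have h2 := hεr s hs1
      have h3 : 0 ≤ |kh μ W p y z| ^ s * bi Bad y z := by
        have := bi_nonneg Bad y z; positivity
      calc kb W p x u * (kb W p y x * kb W p y u) * (kb W p z x * kb W p z u) * |kh μ W p y z| ^ s
          ≤ kb W p x u * (kb W p y x * kb W p y u) * (kb W p z x * kb W p z u) *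
            (ε + |kh μ W p y z| ^ s * bi Bad y z) :=
            mul_le_mul_of_nonneg_left (by linarith) hPn
        _ = ε * (kb W p x u * (kb W p y x * kb W p y u) * (kb W p z x * kb W p z u)) +
            (kb W p x u * (kb W p y x * kb W p y u) * (kb W p z x * kb W p z u)) *
              (|kh μ W p y z| ^ s * bi Bad y z) := by ring
        _ ≤ _ := by
          have := mul_le_mul_of_nonneg_right hPc h3
          linarith)
    refine h1.trans ?_
    -- compute the inner integrals
    have hin : ∀ u y, ∫ z, (ε * (kb W p x u * (kb W p y x * kb W p y u) * (kb W p z x * kb W p z u))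
        + c * (|kh μ W p y z| ^ s * bi Bad y z)) ∂μ ≤
        ε * (kb W p x u * (kb W p y x * kb W p y u) * khb μ W p x u) + c * δ := by
      intro u y
      have n1 : Nice (fun z => kb W p z x * kb W p z u) :=
        (hkb.comp (f := fun z => (z, x)) (by fun_prop)).mul
          (hkb.comp (f := fun z => (z, u)) (by fun_prop))
      have n2 : Nice (fun z => |kh μ W p y z| ^ s * bi Bad y z) :=
        ((hkhp y).abs.pow s).mul (hbip y)
      rw [integral_add (((hcs ε).mul ((hcs _).mul n1)).integrable μ)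
        (((hcs c).mul n2).integrable μ), integral_const_mul, integral_const_mul,
        integral_const_mul]
      have e1 : ∫ z, kb W p z x * kb W p z u ∂μ = khb μ W p x u := by
        rw [hK.khb_eq]
        refine integral_congr_ae (Filter.Eventually.of_forall fun z => ?_)
        simp only
        rw [hK.kb_symm z x, hK.kb_symm z u]
      rw [e1]
      have := mul_le_mul_of_nonneg_left (hbad y s (by omega)) hc0
      linarith
    have hin2 : ∀ u, ∫ y, ∫ z, (ε * (kb W p x u * (kb W p y x * kb W p y u) * (kb W p z x * kb W p z u))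
        + c * (|kh μ W p y z| ^ s * bi Bad y z)) ∂μ ∂μ ≤
        ε * (kb W p x u * khb μ W p x u ^ 2) + c * δ := by
      intro u
      have n1 : Nice (fun y => kb W p y x * kb W p y u) :=
        (hkb.comp (f := fun z => (z, x)) (by fun_prop)).mul
          (hkb.comp (f := fun z => (z, u)) (by fun_prop))
      have n0 : Nice (fun y => ∫ z, (ε * (kb W p x u * (kb W p y x * kb W p y u) *
          (kb W p z x * kb W p z u)) + c * (|kh μ W p y z| ^ s * bi Bad y z)) ∂μ) := by
        have := mg_nice2 (μ := μ) hR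
        exact mg_nice_sec this u
      have n2 : Nice (fun y => ε * (kb W p x u * (kb W p y x * kb W p y u) * khb μ W p x u)
          + c * δ) := ((hcs ε).mul (((hcs _).mul n1).mul (hcs _))).add (hcs _)
      refine (mg_mono (μ := μ) n0 n2 (hin u)).trans (le_of_eq ?_)
      rw [integral_add (((hcs ε).mul (((hcs _).mul n1).mul (hcs _))).integrable μ)
        (integrable_const _), integral_const_mul, integral_mul_const, integral_const_mul]
      have e1 : ∫ z, kb W p z x * kb W p z u ∂μ = khb μ W p x u := by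
        rw [hK.khb_eq]
        refine integral_congr_ae (Filter.Eventually.of_forall fun z => ?_)
        simp only
        rw [hK.kb_symm z x, hK.kb_symm z u]
      rw [e1]
      simp only [integral_const, probReal_univ, one_smul]
      ring
    have n0 : Nice (fun u => ∫ y, ∫ z, (ε * (kb W p x u * (kb W p y x * kb W p y u) *
          (kb W p z x * kb W p z u)) + c * (|kh μ W p y z| ^ s * bi Bad y z)) ∂μ ∂μ) :=
      mg_nice1 (F := fun q : Ω × Ω => ∫ z, (ε * (kb W p x q.1 * (kb W p q.2 x * kb W p q.2 q.1) *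
          (kb W p z x * kb W p z q.1)) + c * (|kh μ W p q.2 z| ^ s * bi Bad q.2 z)) ∂μ)
        (mg_nice2 (μ := μ) hR)
    have n2 : Nice (fun u => ε * (kb W p x u * khb μ W p x u ^ 2) + c * δ) :=
      ((hcs ε).mul ((hkbp x).mul ((hkhbp x).pow 2))).add (hcs _)
    refine (mg_mono (μ := μ) n0 n2 hin2).trans ?_
    rw [integral_add (((hcs ε).mul ((hkbp x).mul ((hkhbp x).pow 2))).integrable μ)
      (integrable_const _), integral_const_mul]
    simp only [integral_const, probReal_univ, one_smul]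
    have h5 := mul_le_mul_of_nonneg_left (m5' x) hε0
    have h6 : c * δ ≤ 32 * ε ^ 2 := by
      have := hδp 5 le_rfl
      calc c * δ = 32 * (δ / p ^ 5) := by rw [hc]; ring
        _ ≤ _ := by linarith
    linarith
  · -- m7
    set c : ℝ := 256 / p ^ 5 with hc
    have hc0 : 0 ≤ c := by positivity
    have a1 : Nice (fun q : Ω × (Ω × Ω) => kb W p q.1 q.2.1) :=
      hkb.comp (f := fun q : Ω × (Ω × Ω) => (q.1, q.2.1)) (by fun_prop)
    have a2 : Nice (fun q : Ω × (Ω × Ω) => kb W p q.1 q.2.2) :=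
      hkb.comp (f := fun q : Ω × (Ω × Ω) => (q.1, q.2.2)) (by fun_prop)
    have a3 : Nice (fun q : Ω × (Ω × Ω) => khb μ W p q.1 q.2.1) :=
      hkhb.comp (f := fun q : Ω × (Ω × Ω) => (q.1, q.2.1)) (by fun_prop)
    have a4 : Nice (fun q : Ω × (Ω × Ω) => khb μ W p q.1 q.2.2) :=
      hkhb.comp (f := fun q : Ω × (Ω × Ω) => (q.1, q.2.2)) (by fun_prop)
    have a5 : Nice (fun q : Ω × (Ω × Ω) => khb μ W p q.2.1 q.2.2) :=
      hkhb.comp (f := fun q : Ω × (Ω × Ω) => (q.2.1, q.2.2)) (by fun_prop)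
    have b1 : Nice (fun q : Ω × (Ω × Ω) => bi Bad q.1 q.2.1) :=
      hbi.comp (f := fun q : Ω × (Ω × Ω) => (q.1, q.2.1)) (by fun_prop)
    have b2 : Nice (fun q : Ω × (Ω × Ω) => bi Bad q.1 q.2.2) :=
      hbi.comp (f := fun q : Ω × (Ω × Ω) => (q.1, q.2.2)) (by fun_prop)
    have b3 : Nice (fun q : Ω × (Ω × Ω) => bi Bad q.2.1 q.2.2) :=
      hbi.comp (f := fun q : Ω × (Ω × Ω) => (q.2.1, q.2.2)) (by fun_prop)
    have hL := (((a1.mul a2).mul a3).mul a4).mul a5
    have hR := ((Nice.const (α := Ω × (Ω × Ω)) 125).mul (a1.mul a2)).add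
      ((Nice.const (α := Ω × (Ω × Ω)) c).mul ((b1.add b2).add b3))
    have h1 := mg_mono3 (μ := μ) hL hR (fun q => by
      obtain ⟨x, y, z⟩ := q
      have k1 := hK.kb_nonneg x y
      have k2 := hK.kb_nonneg x z
      have k3 := hK.khb_nonneg x y
      have k4 := hK.khb_nonneg x z
      have k5 := hK.khb_nonneg y z
      have l1 := hK.kb_le x y
      have l2 := hK.kb_le x z
      have l3 := hK.khb_le x y
      have l4 := hK.khb_le x z
      have l5 := hK.khb_le y z
      have q1 := bi_nonneg Bad x y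
      have q2 := bi_nonneg Bad x z
      have q3 := bi_nonneg Bad y z
      have hPc : kb W p x y * kb W p x z * khb μ W p x y * khb μ W p x z * khb μ W p y z ≤ c := by
        have e : c = (2 / p) * (2 / p) * (4 / p) * (4 / p) * (4 / p) := by
          rw [hc]; field_simp; norm_num
        rw [e]
        have hq : 0 ≤ 2 / p := by positivity
        have hq' : 0 ≤ 4 / p := by positivity
        gcongr
      have hb : 0 ≤ 125 * (kb W p x y * kb W p x z) := by positivity
      by_cases h : (x, y) ∈ Bad ∨ (x, z) ∈ Bad ∨ (y, z) ∈ Bad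
      · have hs : 1 ≤ bi Bad x y + bi Bad x z + bi Bad y z := by
          rcases h with h | h | h
          · rw [bi_mem h]; linarith
          · rw [bi_mem h]; linarith
          · rw [bi_mem h]; linarith
        have h2 : c ≤ c * (bi Bad x y + bi Bad x z + bi Bad y z) := by nlinarith
        simp only
        linarith
      · push Not at h
        have u3 := hkhb5 _ _ h.1
        have u4 := hkhb5 _ _ h.2.1
        have u5 := hkhb5 _ _ h.2.2
        have h2 : kb W p x y * kb W p x z * khb μ W p x y * khb μ W p x z * khb μ W p y z ≤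
            kb W p x y * kb W p x z * 5 * 5 * 5 := by gcongr
        have h3 : 0 ≤ c * (bi Bad x y + bi Bad x z + bi Bad y z) := by positivity
        simp only
        linarith)
    refine h1.trans ?_
    have hin : ∀ x y, ∫ z, (125 * (kb W p x y * kb W p x z)
        + c * (bi Bad x y + bi Bad x z + bi Bad y z)) ∂μ ≤
        250 * kb W p x y + (c * bi Bad x y + 2 * (c * δ)) := by
      intro x y
      rw [integral_add (((hcs 125).mul ((hcs _).mul (hkbp x))).integrable μ)
        (((hcs c).mul (((hcs _).add (hbip x)).add (hbip y))).integrable μ), integral_const_mul,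
        integral_const_mul, integral_const_mul,
        integral_add (((hcs _).add (hbip x)).integrable μ) ((hbip y).integrable μ),
        integral_add (integrable_const _) ((hbip x).integrable μ), hK.int_kb x]
      simp only [integral_const, probReal_univ, one_smul]
      have h2 := mul_le_mul_of_nonneg_left (hbad0 x) hc0
      have h3 := mul_le_mul_of_nonneg_left (hbad0 y) hc0
      linarith
    have hin2 : ∀ x, ∫ y, ∫ z, (125 * (kb W p x y * kb W p x z)
        + c * (bi Bad x y + bi Bad x z + bi Bad y z)) ∂μ ∂μ ≤ 500 + 3 * (c * δ) := by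
      intro x
      have n0 : Nice (fun y => ∫ z, (125 * (kb W p x y * kb W p x z)
        + c * (bi Bad x y + bi Bad x z + bi Bad y z)) ∂μ) := by
        have := mg_nice2 (μ := μ) hR
        exact mg_nice_sec this x
      have n2 : Nice (fun y => 250 * kb W p x y + (c * bi Bad x y + 2 * (c * δ))) :=
        ((hcs 250).mul (hkbp x)).add (((hcs c).mul (hbip x)).add (hcs _))
      refine (mg_mono (μ := μ) n0 n2 (hin x)).trans ?_
      rw [integral_add (((hcs 250).mul (hkbp x)).integrable μ)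
        ((((hcs c).mul (hbip x)).add (hcs _)).integrable μ),
        integral_add (((hcs c).mul (hbip x)).integrable μ) (integrable_const _),
        integral_const_mul, integral_const_mul, hK.int_kb x]
      simp only [integral_const, probReal_univ, one_smul]
      have h2 := mul_le_mul_of_nonneg_left (hbad0 x) hc0
      linarith
    have n0 : Nice (fun x => ∫ y, ∫ z, (125 * (kb W p x y * kb W p x z)
        + c * (bi Bad x y + bi Bad x z + bi Bad y z)) ∂μ ∂μ) :=
      mg_nice1 (F := fun q : Ω × Ω => ∫ z, (125 * (kb W p q.1 q.2 * kb W p q.1 z)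
        + c * (bi Bad q.1 q.2 + bi Bad q.1 z + bi Bad q.2 z)) ∂μ) (mg_nice2 (μ := μ) hR)
    refine (mg_mono (μ := μ) n0 (hcs (500 + 3 * (c * δ))) hin2).trans ?_
    simp only [integral_const, probReal_univ, one_smul]
    have h6 : c * δ ≤ 256 * ε ^ 2 := by
      have := hδp 5 le_rfl
      calc c * δ = 256 * (δ / p ^ 5) := by rw [hc]; ring
        _ ≤ _ := by linarith
    nlinarith

end Pool.Agent.H83.RGG
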