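import Pool.Agent.H83.RGG.GeoDefs

/-! Module R13_Tau: the two sums over subsets. -/

set_option autoImplicit false

open Filter

namespace Pool.Agent.H83.RGG

theorem sum_pow_card_powerset {α : Type} (B : Finset α) (a : ℝ) :
    ∑ T ∈ B.powerset, a ^ T.card = (a + 1) ^ B.card := by
  have h := Finset.sum_pow_mul_eq_add_pow a 1 B
  simpa using h

theorem sum_powerset_le_exp {n : ℕ} (hn : 1 ≤ n) (a : ℝ) (ha : 0 ≤ a) (B : Finset (Fin n)) :
    ∑ T ∈ B.powerset, (a / n) ^ T.card ≤ Real.exp a := by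
  rw [sum_pow_card_powerset]
  have hn0 : (0 : ℝ) < n := by exact_mod_cast hn
  have h1 : (1 : ℝ) ≤ a / n + 1 := by
    have : 0 ≤ a / n := div_nonneg ha hn0.le
    linarith
  have hB : B.card ≤ n := by simpa using Finset.card_le_univ B
  calc (a / n + 1) ^ B.card ≤ (a / n + 1) ^ n := pow_le_pow_right₀ h1 hB
    _ ≤ (Real.exp (a / n)) ^ n :=
        pow_le_pow_left₀ (by linarith) (Real.add_one_le_exp _) _
    _ = Real.exp a := by
        rw [← Real.exp_nat_mul]
        congr 1
        field_simp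

theorem sum_all (c : ℝ) (hc : 0 < c) (n : ℕ) (hn : 1 ≤ n) (B : Finset (Fin n)) :
    ∑ T ∈ B.powerset, (32 * (c / n)) ^ T.card ≤ Real.exp (32 * c) := by
  have h := sum_powerset_le_exp hn (32 * c) (by linarith) B
  calc ∑ T ∈ B.powerset, (32 * (c / n)) ^ T.card
      = ∑ T ∈ B.powerset, ((32 * c) / n) ^ T.card := by
        refine Finset.sum_congr rfl fun T _ => ?_
        rw [mul_div_assoc]
    _ ≤ _ := h

theorem sum_tail (c : ℝ) (hc : 0 < c) :
    ∀ᶠ n : ℕ in atTop, ∀ B : Finset (Fin n),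
      ∑ T ∈ B.powerset.filter (fun T => Rn n ≤ T.card), (4 * (c / n)) ^ T.card ≤
        (n : ℝ) ^ (-(2 : ℤ)) := by
  have hlog : Tendsto (fun n : ℕ => Real.log n) atTop atTop :=
    Real.tendsto_log_atTop.comp tendsto_natCast_atTop_atTop
  have hll : Tendsto (fun n : ℕ => Real.log (Real.log n)) atTop atTop :=
    Real.tendsto_log_atTop.comp hlog
  filter_upwards [hlog.eventually_ge_atTop (4 * c + 1), hll.eventually_ge_atTop 1,
    hll.eventually_ge_atTop (4 * Real.log (4 * c)), eventually_ge_atTop 1] with n h1 h2 h3 hn B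
  have hn0 : (0 : ℝ) < n := by exact_mod_cast hn
  set l := Real.log n with hl
  have hl0 : 0 < l := by linarith
  have hc4 : 0 < 4 * c := by linarith
  -- the Chernoff parameter
  have hlam : 1 ≤ l / (4 * c) := by
    rw [le_div_iff₀ hc4]; linarith
  have hlam0 : 0 < l / (4 * c) := by positivity
  have key : ∀ T ∈ B.powerset.filter (fun T => Rn n ≤ T.card),
      (4 * (c / n)) ^ T.card ≤ ((l / (4 * c)) ^ (Rn n))⁻¹ * (l / n) ^ T.card := by
    intro T hT
    rw [Finset.mem_filter] at hT
    have h4 : l / n = (l / (4 * c)) * (4 * (c / n)) := by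
      field_simp
    rw [h4, mul_pow (l / (4 * c)) (4 * (c / n)), ← mul_assoc]
    have h5 : 1 ≤ ((l / (4 * c)) ^ (Rn n))⁻¹ * (l / (4 * c)) ^ T.card := by
      rw [inv_mul_eq_div, one_le_div (by positivity)]
      exact pow_le_pow_right₀ hlam hT.2
    have h6 : 0 ≤ (4 * (c / n)) ^ T.card := by positivity
    nlinarith
  have hR : 4 * l / Real.log l ≤ (Rn n : ℝ) := Nat.le_ceil _
  have hbase : (l / (4 * c)) = Real.exp (Real.log l - Real.log (4 * c)) := by
    rw [← Real.log_div hl0.ne' hc4.ne', Real.exp_log hlam0]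
  have hpow : Real.exp (3 * l) ≤ (l / (4 * c)) ^ (Rn n) := by
    rw [hbase, ← Real.exp_nat_mul]
    apply Real.exp_le_exp.2
    have h7 : 0 < Real.log l := by linarith
    have h8 : 3 / 4 * Real.log l ≤ Real.log l - Real.log (4 * c) := by linarith
    calc 3 * l = (4 * l / Real.log l) * (3 / 4 * Real.log l) := by
          field_simp; try ring
      _ ≤ (Rn n : ℝ) * (Real.log l - Real.log (4 * c)) := by
          apply mul_le_mul hR h8 (by positivity) (by positivity)
  have hexp : Real.exp l = n := Real.exp_log hn0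
  calc ∑ T ∈ B.powerset.filter (fun T => Rn n ≤ T.card), (4 * (c / n)) ^ T.card
      ≤ ∑ T ∈ B.powerset.filter (fun T => Rn n ≤ T.card),
          ((l / (4 * c)) ^ (Rn n))⁻¹ * (l / n) ^ T.card := Finset.sum_le_sum key
    _ ≤ ∑ T ∈ B.powerset, ((l / (4 * c)) ^ (Rn n))⁻¹ * (l / n) ^ T.card := by
        apply Finset.sum_le_sum_of_subset_of_nonneg (Finset.filter_subset _ _)
        intro T _ _
        positivity
    _ = ((l / (4 * c)) ^ (Rn n))⁻¹ * ∑ T ∈ B.powerset, (l / n) ^ T.card := by
        rw [Finset.mul_sum]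
    _ ≤ (Real.exp (3 * l))⁻¹ * Real.exp l := by
        apply mul_le_mul
        · exact inv_anti₀ (Real.exp_pos _) hpow
        · exact sum_powerset_le_exp hn l hl0.le B
        · apply Finset.sum_nonneg
          intro T _
          positivity
        · positivity
    _ = (n : ℝ) ^ (-(2 : ℤ)) := by
        have h9 : Real.exp (3 * l) = Real.exp l ^ 3 := by
          rw [← Real.exp_nat_mul]; norm_num
        rw [h9, hexp, zpow_neg]
        field_simp

end Pool.Agent.H83.RGG
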