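import Pool.Agent.H83.RGG.ThmA
import Pool.Agent.H83.RGG.MomG
import Pool.Agent.H83.RGG.Asy5
import Pool.Agent.H83.RGG.Tau
import Pool.Agent.H83.RGG.Glue

/-! Module R14_Final: the frozen statement. -/

set_option autoImplicit false

open MeasureTheory ProbabilityTheory Filter

namespace Pool.Agent.H83.RGG

theorem DD_nonneg' {Ω : Type} [MeasurableSpace Ω] {ι : Type} [Fintype ι] [DecidableEq ι]
    (μ : Measure Ω) (W : Ω → Ω → ℝ) (p : ℝ) (E : Finset (Sym2 ι)) : 0 ≤ DD μ W p E :=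
  Finset.sum_nonneg fun _ _ => abs_nonneg _

/-- the numerical bound for one `n` -/
theorem DD_bound {n d : ℕ} (hn : 1 ≤ n) {t c η ε κ : ℝ} {R : ℕ}
    {Bad : Set ((Fin d → ℝ) × (Fin d → ℝ))}
    (hK : Kern (gam d) (Wc d t (c / n)) (c / n))
    (hG : GoodKer (gam d) (Wc d t (c / n)) (c / n) ε ((n : ℝ) ^ (-(10 : ℤ))) R Bad)
    (hη : 0 < η) (hη1 : η ≤ 1) (hε : 2000 * ε ≤ η ^ 2)
    (hδ : (n : ℝ) ^ (-(10 : ℤ)) ≤ (c / n) ^ 5 * ε ^ 2)
    (hS : ∀ B : Finset (Fin n), ∑ T ∈ B.powerset, (32 * (c / n)) ^ T.card ≤ Real.exp (32 * c))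
    (hτ : ∀ B : Finset (Fin n),
      ∑ T ∈ B.powerset.filter (fun T => R ≤ T.card), (4 * (c / n)) ^ T.card ≤
        (n : ℝ) ^ (-(2 : ℤ)))
    (hηM : η * Real.exp (32 * c) ≤ 1 / 2)
    (hηκ : 12 * Real.exp (32 * c) ^ 2 * c * η ≤ κ)
    (hnκ : (Real.exp (32 * c) ^ 2 * (2 + 8000 * c ^ 2) + 1) / n < κ) :
    DD (ι := Fin n) (gam d) (Wc d t (c / n)) (c / n) (ed Finset.univ) < 2 * κ := by
  have hM := mom_of_good (η := η) hK hG hη.le hη1 hε hδ
  have h := theoremA (ι := Fin n) hK hM (Real.exp (32 * c)) ((n : ℝ) ^ (-(2 : ℤ))) hS hτ hηM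
  refine lt_of_le_of_lt h ?_
  have hn0 : (0 : ℝ) < n := by exact_mod_cast hn
  rw [Fintype.card_fin]
  have e1 : ((n : ℝ) ^ (-(2 : ℤ))) = 1 / (n : ℝ) ^ 2 := by
    rw [zpow_neg]; norm_cast; rw [one_div]
  rw [e1]
  have e2 : (n : ℝ) * (2 * Real.exp (32 * c) ^ 2 *
      (1 / (n : ℝ) ^ 2 + 4000 * (c / n) ^ 2 + 6 * (c / n) * η) + 1 / (n : ℝ) ^ 2) =
      (Real.exp (32 * c) ^ 2 * (2 + 8000 * c ^ 2) + 1) / n
        + 12 * Real.exp (32 * c) ^ 2 * c * η := by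
    field_simp
    ring
  rw [e2]
  linarith

theorem final :
    ∀ c : ℝ, 0 < c → ∀ d : ℕ → ℕ,
      Filter.Tendsto (fun n : ℕ => (d n : ℝ) / (Real.log n) ^ 3) Filter.atTop Filter.atTop →
      ∀ t : ℕ → ℝ,
        (∀ᶠ n in Filter.atTop,
          (MeasureTheory.Measure.pi
              (fun _ : Fin 2 × Fin (d n) => ProbabilityTheory.gaussianReal 0 1))
            {g : Fin 2 × Fin (d n) → ℝ |
              t n * Real.sqrt (∑ k, g (0, k) ^ 2) * Real.sqrt (∑ k, g (1, k) ^ 2)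
                ≤ ∑ k, g (0, k) * g (1, k)}
            = ENNReal.ofReal (c / n)) →
        Filter.Tendsto (fun n : ℕ =>
          (1 / 2 : ℝ) * ∑' G : SimpleGraph (Fin n),
            |((MeasureTheory.Measure.pi
                  (fun _ : Fin n × Fin (d n) => ProbabilityTheory.gaussianReal 0 1))
                {g : Fin n × Fin (d n) → ℝ | ∀ i j : Fin n, i ≠ j →
                  (G.Adj i j ↔
                    t n * Real.sqrt (∑ k, g (i, k) ^ 2) * Real.sqrt (∑ k, g (j, k) ^ 2)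
                      ≤ ∑ k, g (i, k) * g (j, k))}).toReal
              - (c / n) ^ G.edgeSet.ncard * (1 - c / n) ^ (n.choose 2 - G.edgeSet.ncard)|)
          Filter.atTop (nhds 0) := by
  intro c hc d hd t ht
  have hA : Asy c d t := ⟨hc, hd, ht⟩
  rw [Metric.tendsto_nhds]
  intro κ hκ
  set M : ℝ := Real.exp (32 * c) with hMdef
  have hM1 : 1 ≤ M := Real.one_le_exp (by positivity)
  have hM0 : 0 < M := by linarith
  set η : ℝ := min (1 / (2 * M)) (κ / (12 * M ^ 2 * c)) with hηdef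
  have hη0 : 0 < η := by
    rw [hηdef]
    exact lt_min (by positivity) (by positivity)
  have hηM : η * M ≤ 1 / 2 := by
    have : η ≤ 1 / (2 * M) := min_le_left _ _
    calc η * M ≤ 1 / (2 * M) * M := by gcongr
      _ = 1 / 2 := by field_simp
  have hη1 : η ≤ 1 := by nlinarith
  have hηκ : 12 * M ^ 2 * c * η ≤ κ := by
    have h1 : η ≤ κ / (12 * M ^ 2 * c) := min_le_right _ _
    rw [le_div_iff₀ (by positivity)] at h1
    linarith
  set ε : ℝ := η ^ 2 / 2000 with hεdef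
  have hε0 : 0 < ε := by positivity
  have hgeo := hA.geo hε0
  have htail := sum_tail c hc
  have h2 : ∀ᶠ n : ℕ in atTop, 1 / (c ^ 5 * ε ^ 2) ≤ (n : ℝ) :=
    tendsto_natCast_atTop_atTop.eventually_ge_atTop _
  have h3 : ∀ᶠ n : ℕ in atTop, (M ^ 2 * (2 + 8000 * c ^ 2) + 1) / κ < (n : ℝ) :=
    tendsto_natCast_atTop_atTop.eventually_gt_atTop _
  filter_upwards [hgeo, htail, h2, h3, eventually_ge_atTop 1, hA.two_le]
    with n hg htl h2n h3n hn1 hd2
  have hn0 : (0 : ℝ) < n := by exact_mod_cast hn1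
  have hn1' : (1 : ℝ) ≤ n := by exact_mod_cast hn1
  rw [glue (by omega) hg.1]
  have hb := DD_bound (κ := κ) hn1 hg.1 hg.2 hη0 hη1 (by rw [hεdef]; linarith) ?_
    (fun B => sum_all c hc n hn1 B) htl hηM hηκ ?_
  · have hnn := DD_nonneg' (gam (d n)) (Wc (d n) (t n) (c / n)) (c / n)
      (ed (Finset.univ : Finset (Fin n)))
    rw [Real.dist_eq, sub_zero, abs_of_nonneg (by positivity)]
    linarith
  · rw [zpow_neg]
    have e3 : (n : ℝ) ^ (10 : ℤ) = (n : ℝ) ^ 10 := by norm_cast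
    rw [e3, div_pow]
    rw [div_le_iff₀ (by positivity)] at h2n
    rw [inv_eq_one_div, div_le_iff₀ (by positivity)]
    have e4 : c ^ 5 / (n : ℝ) ^ 5 * ε ^ 2 * (n : ℝ) ^ 10 = (n * (c ^ 5 * ε ^ 2)) * (n : ℝ) ^ 4 := by
      field_simp
    rw [e4]
    calc (1 : ℝ) = 1 * 1 := by ring
      _ ≤ (n * (c ^ 5 * ε ^ 2)) * (n : ℝ) ^ 4 := by
        gcongr
        exact one_le_pow₀ hn1'
  · rw [div_lt_iff₀ hn0]
    rw [div_lt_iff₀ hκ] at h3n
    linarith

end Pool.Agent.H83.RGG
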