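import Pool.Agent.H83.RGG.Alpha
import Pool.Agent.H83.RGG.Beta

/-! Module R06_Gamma: double collisions. -/

set_option autoImplicit false

open MeasureTheory ProbabilityTheory

namespace Pool.Agent.H83.RGG

variable {Ω : Type} [MeasurableSpace Ω] {ι : Type} [Fintype ι] [DecidableEq ι]
variable {μ : Measure Ω} [IsProbabilityMeasure μ] {W : Ω → Ω → ℝ} {p η : ℝ} {R : ℕ}

theorem gm_EE_coord {g : Ω → ℝ} (hg : Nice g) (a : ι) :
    EE μ (fun x => g (x a)) = ∫ y, g y ∂μ := by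
  have h := measurePreserving_eval (fun _ : ι => μ) a
  unfold EE
  exact integral_comp_of_nice h hg
where
  integral_comp_of_nice {g : Ω → ℝ} (h : MeasurePreserving (Function.eval a)
      (Measure.pi fun _ : ι => μ) μ) (hg : Nice g) :
      ∫ x, g (x a) ∂(Measure.pi fun _ : ι => μ) = ∫ y, g y ∂μ := by
    have h2 : ∫ y, g y ∂(Measure.map (Function.eval a) (Measure.pi fun _ : ι => μ)) =
        ∫ x, g (x a) ∂(Measure.pi fun _ : ι => μ) := by
      rw [integral_map h.measurable.aemeasurable hg.1.aestronglyMeasurable]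
    rw [← h2, h.map_eq]

/-- the coordinate `a` is integrated out inside an expectation -/
theorem gm_EE_Ex {F G K : (ι → Ω) → ℝ} (hF : Nice F) (a : ι) (hG : Ind G a)
    (hK : ∀ x, Ex μ a F x = K x) (hGN : Nice G) :
    EE μ (fun x => G x * F x) = EE μ (fun x => G x * K x) := by
  rw [← EE_Ex (hGN.mul hF) a]
  congr 1
  funext x
  rw [Ex_mul_left hG, hK]

/-- first step: remove the absolute value and the inner integral -/
theorem gm_step (hK : Kern μ W p) {F J : (ι → Ω) → ℝ} (hF : Nice F) (hJ : Nice J)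
    (hJ0 : ∀ x, 0 ≤ J x) {a : ι} {T : Finset ι} (hJa : Ind J a) :
    EE μ (fun x => |Ex μ a (fun x => F x * ∏ b ∈ T, kg W p (x a) (x b)) x| * J x) ≤
      EE μ (fun x => (|F x| * J x) * ∏ b ∈ T, kb W p (x a) (x b)) := by
  have hNg : Nice (fun x : ι → Ω => ∏ b ∈ T, kg W p (x a) (x b)) := hK.nice_prod_ge a T
  have hNb : Nice (fun x : ι → Ω => ∏ b ∈ T, kb W p (x a) (x b)) :=
    Nice.prod T (fun b _ => hK.nice_gbe a b)
  have h1 : Nice (fun x : ι → Ω => F x * ∏ b ∈ T, kg W p (x a) (x b)) := hF.mul hNg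
  have h2 : Nice (fun x : ι → Ω => |F x| * ∏ b ∈ T, kb W p (x a) (x b)) := hF.abs.mul hNb
  have h3 : ∀ x, |Ex μ a (fun x => F x * ∏ b ∈ T, kg W p (x a) (x b)) x| ≤
      Ex μ a (fun x => |F x| * ∏ b ∈ T, kb W p (x a) (x b)) x := by
    intro x
    refine (abs_Ex_le a _ x).trans ?_
    refine Ex_mono h1.abs h2 (fun y => ?_) a x
    rw [abs_mul]
    refine mul_le_mul_of_nonneg_left ?_ (abs_nonneg _)
    rw [Finset.abs_prod]
    exact Finset.prod_le_prod (fun b _ => abs_nonneg _) (fun b _ => hK.abs_kg_le _ _)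
  have h4 : EE μ (fun x => |Ex μ a (fun x => F x * ∏ b ∈ T, kg W p (x a) (x b)) x| * J x) ≤
      EE μ (fun x => Ex μ a (fun x => |F x| * ∏ b ∈ T, kb W p (x a) (x b)) x * J x) := by
    refine EE_mono ((h1.Ex a).abs.mul hJ) ((h2.Ex a).mul hJ) (fun x => ?_)
    exact mul_le_mul_of_nonneg_right (h3 x) (hJ0 x)
  refine h4.trans (le_of_eq ?_)
  have h5 : (fun x => Ex μ a (fun x => |F x| * ∏ b ∈ T, kb W p (x a) (x b)) x * J x) =
      Ex μ a (fun x => (|F x| * ∏ b ∈ T, kb W p (x a) (x b)) * J x) := by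
    funext x
    rw [Ex_mul_right hJa]
  rw [h5, EE_Ex (h2.mul hJ) a]
  congr 1
  funext x
  ring

theorem gm_ind_gbe {a b c : ι} (hca : c ≠ a) (hcb : c ≠ b) :
    Ind (fun x : ι → Ω => kb W p (x a) (x b)) c := by
  intro x y
  simp only [Function.update_of_ne hca.symm, Function.update_of_ne hcb.symm]

theorem gm_ind_mul {F G : (ι → Ω) → ℝ} {a : ι} (hF : Ind F a) (hG : Ind G a) :
    Ind (fun x => F x * G x) a := by
  intro x y
  simp only [hF x y, hG x y]

theorem gm_ind_abs {F : (ι → Ω) → ℝ} {a : ι} (hF : Ind F a) : Ind (fun x => |F x|) a := by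
  intro x y
  simp only [hF x y]

/-- second step: integrate out the free leaves -/
theorem gm_leaves (hK : Kern μ W p) {H : (ι → Ω) → ℝ} (hH : Nice H)
    {a : ι} {B : Finset ι} (haB : a ∉ B) (hind : ∀ b ∈ B, Ind H b) :
    EE μ (fun x => H x * ∏ b ∈ B, kb W p (x a) (x b)) = 2 ^ B.card * EE μ H :=
  beta_kb hK hH haB hind

theorem gm_niceJ (hK : Kern μ W p) (a b c d : ι) :
    Nice (fun x : ι → Ω => kb W p (x a) (x b) * kb W p (x c) (x d)) :=
  (hK.nice_gbe a b).mul (hK.nice_gbe c d)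

theorem gm_sqrt_le {A : ℝ} (h : A ≤ 1000) : Real.sqrt A ≤ 32 := by
  rw [show (32 : ℝ) = Real.sqrt (32 ^ 2) by rw [Real.sqrt_sq (by norm_num)]]
  exact Real.sqrt_le_sqrt (by linarith)

/-- both collision points outside `T` -/
theorem gm_caseA (hK : Kern μ W p) (hM : Mom μ W p η R) {F : (ι → Ω) → ℝ} (hF : Nice F)
    {a a₁ b₁ b₂ : ι} {T : Finset ι} (haT : a ∉ T) (ha₁ : a₁ ∈ T) (hind : ∀ b ∈ T, Ind F b)
    (hb : b₁ ≠ b₂) (h1 : b₁ ≠ a) (h2 : b₂ ≠ a) (h3 : b₁ ≠ a₁) (h4 : b₂ ≠ a₁)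
    (hb1 : b₁ ∉ T) (hb2 : b₂ ∉ T) :
    EE μ (fun x => (|F x| * (kb W p (x a₁) (x b₁) * kb W p (x a₁) (x b₂))) *
        ∏ b ∈ T, kb W p (x a) (x b)) ≤
      1000 * 2 ^ T.card * Real.sqrt (EE μ (fun x => F x ^ 2)) := by
  have haa1 : a ≠ a₁ := fun h => haT (h ▸ ha₁)
  -- split off `a₁`
  set K3 : (ι → Ω) → ℝ := fun x => ∏ b ∈ ({a, b₁, b₂} : Finset ι), kb W p (x a₁) (x b) with hK3
  have hK3N : Nice K3 := Nice.prod _ (fun b _ => hK.nice_gbe a₁ b)
  have hK3e : ∀ x, K3 x = kb W p (x a) (x a₁) * (kb W p (x a₁) (x b₁) * kb W p (x a₁) (x b₂)) := by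
    intro x
    rw [hK3]
    simp only
    rw [Finset.prod_insert (by simp [h1.symm, h2.symm]), Finset.prod_insert (by simp [hb]),
      Finset.prod_singleton, hK.kb_symm (x a₁) (x a)]
  have hB : a ∉ T.erase a₁ := fun h => haT (Finset.mem_of_mem_erase h)
  have e1 : (fun x => (|F x| * (kb W p (x a₁) (x b₁) * kb W p (x a₁) (x b₂))) *
        ∏ b ∈ T, kb W p (x a) (x b)) =
      fun x => (|F x| * K3 x) * ∏ b ∈ T.erase a₁, kb W p (x a) (x b) := by
    funext x
    rw [← Finset.mul_prod_erase T (fun b => kb W p (x a) (x b)) ha₁, hK3e]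
    ring
  have hindK3 : ∀ b ∈ T.erase a₁, Ind K3 b := by
    intro b hb'
    have hbT := Finset.mem_of_mem_erase hb'
    have hba1 : b ≠ a₁ := Finset.ne_of_mem_erase hb'
    have hba : b ≠ a := fun h => haT (h ▸ hbT)
    have hbb1 : b ≠ b₁ := fun h => hb1 (h ▸ hbT)
    have hbb2 : b ≠ b₂ := fun h => hb2 (h ▸ hbT)
    have : K3 = fun x => kb W p (x a) (x a₁) * (kb W p (x a₁) (x b₁) * kb W p (x a₁) (x b₂)) := by
      funext x; exact hK3e x
    rw [this]
    exact gm_ind_mul (gm_ind_gbe hba hba1) (gm_ind_mul (gm_ind_gbe hba1 hbb1)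
      (gm_ind_gbe hba1 hbb2))
  rw [e1, gm_leaves hK (hF.abs.mul hK3N) hB (fun b hb' => gm_ind_mul
    (gm_ind_abs (hind b (Finset.mem_of_mem_erase hb'))) (hindK3 b hb'))]
  -- integrate out `a₁`
  have e2 : EE μ (fun x => |F x| * K3 x) = EE μ (fun x => |F x| * Ex μ a₁ K3 x) :=
    gm_EE_Ex hK3N a₁ (gm_ind_abs (hind a₁ ha₁)) (fun x => rfl) hF.abs
  have e3 := EE_CS (μ := μ) hF.abs (hK3N.Ex (μ := μ) a₁)
  have e4 : EE μ (fun x => (Ex μ a₁ K3 x) ^ 2) ≤ 1000 := by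
    have h := second_moment (μ := μ) (F := fun _ : ι → Ω => (1 : ℝ)) (H := fun _ => (1 : ℝ))
      (Nice.const 1) (Nice.const 1) (a := a₁) (T := {a, b₁, b₂})
      (by simp [haa1.symm, h3.symm, h4.symm]) (fun b _ x y => rfl) (fun b _ x y => rfl)
      (k := kb W p) hK.nice_kb
    have hc : ({a, b₁, b₂} : Finset ι).card = 3 := by
      rw [Finset.card_insert_of_notMem (by simp [h1.symm, h2.symm]),
        Finset.card_insert_of_notMem (by simp [hb]), Finset.card_singleton]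
    rw [hc] at h
    have h' : EE μ (fun x => (Ex μ a₁ K3 x) ^ 2) = ∫ y, ∫ z, khb μ W p y z ^ 3 ∂μ ∂μ := by
      calc EE μ (fun x => (Ex μ a₁ K3 x) ^ 2)
          = EE μ (fun x => 1 * (Ex μ a₁ (fun x => 1 * ∏ b ∈ ({a, b₁, b₂} : Finset ι),
            kb W p (x a₁) (x b)) x) ^ 2) := by
            simp only [one_mul, hK3]
        _ = _ := h
        _ = _ := by
            refine integral_congr_ae (Filter.Eventually.of_forall fun y => ?_)
            refine integral_congr_ae (Filter.Eventually.of_forall fun z => ?_)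
            simp only [mul_one, EE_const, one_mul]
            rw [← hK.khb_eq]
    rw [h']
    exact hM.m3
  have e5 : EE μ (fun x => |F x| ^ 2) = EE μ (fun x => F x ^ 2) := by
    congr 1; funext x; exact sq_abs _
  have hc2 : T.card = (T.erase a₁).card + 1 := (Finset.card_erase_add_one ha₁).symm
  have hs0 := Real.sqrt_nonneg (EE μ (fun x => F x ^ 2))
  have e6 : EE μ (fun x => |F x| * Ex μ a₁ K3 x) ≤ 32 * Real.sqrt (EE μ (fun x => F x ^ 2)) := by
    refine e3.trans ?_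
    rw [e5, mul_comm]
    exact mul_le_mul_of_nonneg_right (gm_sqrt_le e4) hs0
  rw [e2, hc2, pow_succ]
  have hp2 : (0 : ℝ) < 2 ^ (T.erase a₁).card := by positivity
  calc 2 ^ (T.erase a₁).card * EE μ (fun x => |F x| * Ex μ a₁ K3 x)
      ≤ 2 ^ (T.erase a₁).card * (32 * Real.sqrt (EE μ (fun x => F x ^ 2))) :=
        mul_le_mul_of_nonneg_left e6 hp2.le
    _ ≤ 1000 * (2 ^ (T.erase a₁).card * 2) * Real.sqrt (EE μ (fun x => F x ^ 2)) := by
        have : 0 ≤ 2 ^ (T.erase a₁).card * Real.sqrt (EE μ (fun x => F x ^ 2)) := by positivity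
        nlinarith

/-- one collision point in `T` -/
theorem gm_caseB (hK : Kern μ W p) (hM : Mom μ W p η R) {F : (ι → Ω) → ℝ} (hF : Nice F)
    {a a₁ b₁ b₂ : ι} {T : Finset ι} (haT : a ∉ T) (ha₁ : a₁ ∈ T) (hind : ∀ b ∈ T, Ind F b)
    (hb : b₁ ≠ b₂) (h1 : b₁ ≠ a) (h2 : b₂ ≠ a) (h3 : b₁ ≠ a₁) (h4 : b₂ ≠ a₁)
    (hb1 : b₁ ∈ T) (hb2 : b₂ ∉ T) :
    EE μ (fun x => (|F x| * (kb W p (x a₁) (x b₁) * kb W p (x a₁) (x b₂))) *
        ∏ b ∈ T, kb W p (x a) (x b)) ≤
      1000 * 2 ^ T.card * Real.sqrt (EE μ (fun x => F x ^ 2)) := by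
  have haa1 : a ≠ a₁ := fun h => haT (h ▸ ha₁)
  set B : Finset ι := (T.erase a₁).erase b₁ with hBdef
  have hb1' : b₁ ∈ T.erase a₁ := Finset.mem_erase.2 ⟨h3, hb1⟩
  have hBT : ∀ b ∈ B, b ∈ T := fun b h =>
    Finset.mem_of_mem_erase (Finset.mem_of_mem_erase h)
  have hB : a ∉ B := fun h => haT (hBT a h)
  -- kernels
  set K1 : (ι → Ω) → ℝ := fun x => kb W p (x a) (x b₁) * kb W p (x a₁) (x b₁) with hK1
  set K2 : (ι → Ω) → ℝ := fun x => kb W p (x a) (x a₁) * kb W p (x a₁) (x b₂) with hK2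
  have hK1N : Nice K1 := gm_niceJ hK a b₁ a₁ b₁
  have hK2N : Nice K2 := gm_niceJ hK a a₁ a₁ b₂
  have e1 : (fun x => (|F x| * (kb W p (x a₁) (x b₁) * kb W p (x a₁) (x b₂))) *
        ∏ b ∈ T, kb W p (x a) (x b)) =
      fun x => ((|F x| * K2 x) * K1 x) * ∏ b ∈ B, kb W p (x a) (x b) := by
    funext x
    rw [← Finset.mul_prod_erase T (fun b => kb W p (x a) (x b)) ha₁,
      ← Finset.mul_prod_erase (T.erase a₁) (fun b => kb W p (x a) (x b)) hb1', hK1, hK2]
    simp only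
    ring
  have hne : ∀ b ∈ B, b ≠ a ∧ b ≠ a₁ ∧ b ≠ b₁ ∧ b ≠ b₂ := by
    intro b hb'
    refine ⟨fun h => hB (h ▸ hb'), ?_, ?_, fun h => hb2 (h ▸ hBT b hb')⟩
    · exact Finset.ne_of_mem_erase (Finset.mem_of_mem_erase hb')
    · exact Finset.ne_of_mem_erase hb'
  rw [e1, gm_leaves hK ((hF.abs.mul hK2N).mul hK1N) hB (fun b hb' => by
    obtain ⟨q1, q2, q3, q4⟩ := hne b hb'
    exact gm_ind_mul (gm_ind_mul (gm_ind_abs (hind b (hBT b hb')))
      (gm_ind_mul (gm_ind_gbe q1 q2) (gm_ind_gbe q2 q4)))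
      (gm_ind_mul (gm_ind_gbe q1 q3) (gm_ind_gbe q2 q3)))]
  -- integrate out `b₁`
  have hkhbN : Nice (fun x : ι → Ω => khb μ W p (x a) (x a₁)) :=
    Nice.comp hK.nice_khb (f := fun x : ι → Ω => (x a, x a₁))
      ((measurable_pi_apply a).prodMk (measurable_pi_apply a₁))
  have e2 : EE μ (fun x => (|F x| * K2 x) * K1 x) =
      EE μ (fun x => (|F x| * K2 x) * khb μ W p (x a) (x a₁)) := by
    refine gm_EE_Ex hK1N b₁ ?_ ?_ (hF.abs.mul hK2N)
    · exact gm_ind_mul (gm_ind_abs (hind b₁ hb1))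
        (gm_ind_mul (gm_ind_gbe h1 h3) (gm_ind_gbe h3 hb))
    · intro x
      unfold Ex
      rw [hK.khb_eq]
      refine integral_congr_ae (Filter.Eventually.of_forall fun y => ?_)
      simp only [hK1, Function.update_of_ne h1.symm, Function.update_of_ne h3.symm,
        Function.update_self]
  -- integrate out `a₁`
  set G1 : (ι → Ω) → ℝ := fun x => kb W p (x a) (x a₁) * khb μ W p (x a) (x a₁) with hG1
  have hG1N : Nice G1 := (hK.nice_gbe a a₁).mul hkhbN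
  set K4 : (ι → Ω) → ℝ := fun x => G1 x * ∏ b ∈ ({b₂} : Finset ι), kb W p (x a₁) (x b) with hK4
  have hK4N : Nice K4 := hG1N.mul (Nice.prod _ (fun b _ => hK.nice_gbe a₁ b))
  have e3 : (fun x => (|F x| * K2 x) * khb μ W p (x a) (x a₁)) = fun x => |F x| * K4 x := by
    funext x
    simp only [hK2, hK4, hG1, Finset.prod_singleton]
    ring
  have e4 : EE μ (fun x => |F x| * K4 x) = EE μ (fun x => |F x| * Ex μ a₁ K4 x) :=
    gm_EE_Ex hK4N a₁ (gm_ind_abs (hind a₁ ha₁)) (fun x => rfl) hF.abs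
  have e5 := EE_CS (μ := μ) hF.abs (hK4N.Ex (μ := μ) a₁)
  have e6 : EE μ (fun x => (Ex μ a₁ K4 x) ^ 2) ≤ 1000 := by
    have h := second_moment (μ := μ) (F := G1) (H := fun _ => (1 : ℝ))
      hG1N (Nice.const 1) (a := a₁) (T := {b₂})
      (by simp [h4.symm]) (fun b hb' x y => by
        rw [Finset.mem_singleton] at hb'
        subst hb'
        simp only [hG1, Function.update_of_ne h2.symm, Function.update_of_ne h4.symm])
      (fun b _ x y => rfl) (k := kb W p) hK.nice_kb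
    rw [Finset.card_singleton] at h
    have hN7 : Nice (fun q : Ω × (Ω × Ω) =>
        kb W p q.1 q.2.1 * kb W p q.1 q.2.2 * khb μ W p q.1 q.2.1 * khb μ W p q.1 q.2.2
        * khb μ W p q.2.1 q.2.2) := by
      have n1 := Nice.comp hK.nice_kb (f := fun q : Ω × (Ω × Ω) => (q.1, q.2.1)) (by fun_prop)
      have n2 := Nice.comp hK.nice_kb (f := fun q : Ω × (Ω × Ω) => (q.1, q.2.2)) (by fun_prop)
      have n3 := Nice.comp hK.nice_khb (f := fun q : Ω × (Ω × Ω) => (q.1, q.2.1)) (by fun_prop)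
      have n4 := Nice.comp hK.nice_khb (f := fun q : Ω × (Ω × Ω) => (q.1, q.2.2)) (by fun_prop)
      have n5 := Nice.comp hK.nice_khb (f := fun q : Ω × (Ω × Ω) => (q.2.1, q.2.2)) (by fun_prop)
      exact (((n1.mul n2).mul n3).mul n4).mul n5
    have hswap : EE μ (fun x => ∫ y, ∫ z, (kb W p (x a) y * kb W p (x a) z * khb μ W p (x a) y *
          khb μ W p (x a) z * khb μ W p y z) ∂μ ∂μ) =
        ∫ y, ∫ z, EE μ (fun x => kb W p (x a) y * kb W p (x a) z * khb μ W p (x a) y *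
          khb μ W p (x a) z * khb μ W p y z) ∂μ ∂μ := by
      have hN8 : Nice (fun q : (ι → Ω) × (Ω × Ω) =>
        kb W p (q.1 a) q.2.1 * kb W p (q.1 a) q.2.2 * khb μ W p (q.1 a) q.2.1 *
          khb μ W p (q.1 a) q.2.2 * khb μ W p q.2.1 q.2.2) :=
        Nice.comp hN7 (f := fun q : (ι → Ω) × (Ω × Ω) => (q.1 a, (q.2.1, q.2.2)))
          (((measurable_pi_apply a).comp measurable_fst).prodMk measurable_snd)
      exact EE_integral_swap hN8
    have h' : EE μ (fun x => (Ex μ a₁ K4 x) ^ 2) =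
        ∫ x, ∫ y, ∫ z, kb W p x y * kb W p x z * khb μ W p x y * khb μ W p x z
      * khb μ W p y z ∂μ ∂μ ∂μ := by
      calc EE μ (fun x => (Ex μ a₁ K4 x) ^ 2)
          = EE μ (fun x => 1 * (Ex μ a₁ (fun x => G1 x * ∏ b ∈ ({b₂} : Finset ι),
            kb W p (x a₁) (x b)) x) ^ 2) := by
            simp only [one_mul, hK4]
        _ = _ := h
        _ = ∫ y, ∫ z, EE μ (fun x => kb W p (x a) y * kb W p (x a) z * khb μ W p (x a) y *
          khb μ W p (x a) z * khb μ W p y z) ∂μ ∂μ := by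
            refine integral_congr_ae (Filter.Eventually.of_forall fun y => ?_)
            refine integral_congr_ae (Filter.Eventually.of_forall fun z => ?_)
            simp only [one_mul, pow_one]
            rw [← hK.khb_eq, mul_comm (EE μ _), ← EE_const_mul]
            congr 1
            funext x
            simp only [hG1, Function.update_self, Function.update_of_ne haa1]
            ring
        _ = EE μ (fun x => ∫ y, ∫ z, (kb W p (x a) y * kb W p (x a) z * khb μ W p (x a) y *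
          khb μ W p (x a) z * khb μ W p y z) ∂μ ∂μ) := hswap.symm
        _ = _ := by
            refine gm_EE_coord (g := fun w => ∫ y, ∫ z, (kb W p w y * kb W p w z *
              khb μ W p w y * khb μ W p w z * khb μ W p y z) ∂μ ∂μ) ?_ a
            have hN9 : Nice (fun q : (Ω × Ω) × Ω =>
              kb W p q.1.1 q.1.2 * kb W p q.1.1 q.2 * khb μ W p q.1.1 q.1.2 * khb μ W p q.1.1 q.2
              * khb μ W p q.1.2 q.2) :=
              Nice.comp hN7 (f := fun q : (Ω × Ω) × Ω => (q.1.1, (q.1.2, q.2))) (by fun_prop)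
            exact Nice.integral (Nice.integral hN9 μ) μ
    rw [h']
    exact hM.m7
  have e7 : EE μ (fun x => |F x| ^ 2) = EE μ (fun x => F x ^ 2) := by
    congr 1; funext x; exact sq_abs _
  have hc2 : T.card = B.card + 2 := by
    have q1 := Finset.card_erase_add_one ha₁
    have q2 := Finset.card_erase_add_one hb1'
    rw [← hBdef] at q2
    omega
  have hs0 := Real.sqrt_nonneg (EE μ (fun x => F x ^ 2))
  have e8 : EE μ (fun x => |F x| * Ex μ a₁ K4 x) ≤ 32 * Real.sqrt (EE μ (fun x => F x ^ 2)) := by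
    refine e5.trans ?_
    rw [e7, mul_comm]
    exact mul_le_mul_of_nonneg_right (gm_sqrt_le e6) hs0
  rw [e2, e3, e4, hc2, pow_add]
  have hp2 : (0 : ℝ) < 2 ^ B.card := by positivity
  calc 2 ^ B.card * EE μ (fun x => |F x| * Ex μ a₁ K4 x)
      ≤ 2 ^ B.card * (32 * Real.sqrt (EE μ (fun x => F x ^ 2))) :=
        mul_le_mul_of_nonneg_left e8 hp2.le
    _ ≤ 1000 * (2 ^ B.card * 2 ^ 2) * Real.sqrt (EE μ (fun x => F x ^ 2)) := by
        have : 0 ≤ 2 ^ B.card * Real.sqrt (EE μ (fun x => F x ^ 2)) := by positivity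
        nlinarith

/-- both collision points in `T` -/
theorem gm_caseC (hK : Kern μ W p) (hM : Mom μ W p η R) {F : (ι → Ω) → ℝ} (hF : Nice F)
    {a a₁ b₁ b₂ : ι} {T : Finset ι} (haT : a ∉ T) (ha₁ : a₁ ∈ T) (hind : ∀ b ∈ T, Ind F b)
    (hb : b₁ ≠ b₂) (h1 : b₁ ≠ a) (h2 : b₂ ≠ a) (h3 : b₁ ≠ a₁) (h4 : b₂ ≠ a₁)
    (hb1 : b₁ ∈ T) (hb2 : b₂ ∈ T) :
    EE μ (fun x => (|F x| * (kb W p (x a₁) (x b₁) * kb W p (x a₁) (x b₂))) *
        ∏ b ∈ T, kb W p (x a) (x b)) ≤
      1000 * 2 ^ T.card * Real.sqrt (EE μ (fun x => F x ^ 2)) := by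
  have haa1 : a ≠ a₁ := fun h => haT (h ▸ ha₁)
  set B : Finset ι := ((T.erase a₁).erase b₁).erase b₂ with hBdef
  have hb1' : b₁ ∈ T.erase a₁ := Finset.mem_erase.2 ⟨h3, hb1⟩
  have hb2' : b₂ ∈ (T.erase a₁).erase b₁ :=
    Finset.mem_erase.2 ⟨hb.symm, Finset.mem_erase.2 ⟨h4, hb2⟩⟩
  have hBT : ∀ b ∈ B, b ∈ T := fun b h =>
    Finset.mem_of_mem_erase (Finset.mem_of_mem_erase (Finset.mem_of_mem_erase h))
  have hB : a ∉ B := fun h => haT (hBT a h)
  set K1 : (ι → Ω) → ℝ := fun x => kb W p (x a) (x b₁) * kb W p (x a₁) (x b₁) with hK1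
  set K2 : (ι → Ω) → ℝ := fun x => kb W p (x a) (x b₂) * kb W p (x a₁) (x b₂) with hK2
  have hK1N : Nice K1 := gm_niceJ hK a b₁ a₁ b₁
  have hK2N : Nice K2 := gm_niceJ hK a b₂ a₁ b₂
  have hK0N : Nice (fun x : ι → Ω => kb W p (x a) (x a₁)) := hK.nice_gbe a a₁
  have e1 : (fun x => (|F x| * (kb W p (x a₁) (x b₁) * kb W p (x a₁) (x b₂))) *
        ∏ b ∈ T, kb W p (x a) (x b)) =
      fun x => (((|F x| * kb W p (x a) (x a₁)) * K1 x) * K2 x) *
        ∏ b ∈ B, kb W p (x a) (x b) := by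
    funext x
    rw [← Finset.mul_prod_erase T (fun b => kb W p (x a) (x b)) ha₁,
      ← Finset.mul_prod_erase (T.erase a₁) (fun b => kb W p (x a) (x b)) hb1',
      ← Finset.mul_prod_erase ((T.erase a₁).erase b₁) (fun b => kb W p (x a) (x b)) hb2',
      hK1, hK2]
    simp only
    ring
  have hne : ∀ b ∈ B, b ≠ a ∧ b ≠ a₁ ∧ b ≠ b₁ ∧ b ≠ b₂ := by
    intro b hb'
    refine ⟨fun h => hB (h ▸ hb'), ?_, ?_, ?_⟩
    · exact Finset.ne_of_mem_erase (Finset.mem_of_mem_erase (Finset.mem_of_mem_erase hb'))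
    · exact Finset.ne_of_mem_erase (Finset.mem_of_mem_erase hb')
    · exact Finset.ne_of_mem_erase hb'
  rw [e1, gm_leaves hK (((hF.abs.mul hK0N).mul hK1N).mul hK2N) hB (fun b hb' => by
    obtain ⟨q1, q2, q3, q4⟩ := hne b hb'
    exact gm_ind_mul (gm_ind_mul (gm_ind_mul (gm_ind_abs (hind b (hBT b hb')))
      (gm_ind_gbe q1 q2)) (gm_ind_mul (gm_ind_gbe q1 q3) (gm_ind_gbe q2 q3)))
      (gm_ind_mul (gm_ind_gbe q1 q4) (gm_ind_gbe q2 q4)))]
  have hkhbN : Nice (fun x : ι → Ω => khb μ W p (x a) (x a₁)) :=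
    Nice.comp hK.nice_khb (f := fun x : ι → Ω => (x a, x a₁))
      ((measurable_pi_apply a).prodMk (measurable_pi_apply a₁))
  have hindh : ∀ b, b ≠ a → b ≠ a₁ → Ind (fun x : ι → Ω => khb μ W p (x a) (x a₁)) b := by
    intro b q1 q2 x y
    simp only [Function.update_of_ne q1.symm, Function.update_of_ne q2.symm]
  have e2 : EE μ (fun x => ((|F x| * kb W p (x a) (x a₁)) * K1 x) * K2 x) =
      EE μ (fun x => ((|F x| * kb W p (x a) (x a₁)) * K1 x) * khb μ W p (x a) (x a₁)) := by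
    refine gm_EE_Ex hK2N b₂ ?_ ?_ ((hF.abs.mul hK0N).mul hK1N)
    · exact gm_ind_mul (gm_ind_mul (gm_ind_abs (hind b₂ hb2)) (gm_ind_gbe h2 h4))
        (gm_ind_mul (gm_ind_gbe h2 hb.symm) (gm_ind_gbe h4 hb.symm))
    · intro x
      unfold Ex
      rw [hK.khb_eq]
      refine integral_congr_ae (Filter.Eventually.of_forall fun y => ?_)
      simp only [hK2, Function.update_of_ne h2.symm, Function.update_of_ne h4.symm,
        Function.update_self]
  have e3 : EE μ (fun x => ((|F x| * kb W p (x a) (x a₁)) * K1 x) * khb μ W p (x a) (x a₁)) =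
      EE μ (fun x => ((|F x| * kb W p (x a) (x a₁)) * khb μ W p (x a) (x a₁)) *
        khb μ W p (x a) (x a₁)) := by
    have q : (fun x : ι → Ω => ((|F x| * kb W p (x a) (x a₁)) * K1 x) * khb μ W p (x a) (x a₁)) =
        fun x => ((|F x| * kb W p (x a) (x a₁)) * khb μ W p (x a) (x a₁)) * K1 x := by
      funext x; ring
    rw [q]
    refine gm_EE_Ex hK1N b₁ ?_ ?_ ((hF.abs.mul hK0N).mul hkhbN)
    · exact gm_ind_mul (gm_ind_mul (gm_ind_abs (hind b₁ hb1)) (gm_ind_gbe h1 h3))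
        (hindh b₁ h1 h3)
    · intro x
      unfold Ex
      rw [hK.khb_eq]
      refine integral_congr_ae (Filter.Eventually.of_forall fun y => ?_)
      simp only [hK1, Function.update_of_ne h1.symm, Function.update_of_ne h3.symm,
        Function.update_self]
  set K5 : (ι → Ω) → ℝ := fun x => kb W p (x a) (x a₁) * khb μ W p (x a) (x a₁) ^ 2 with hK5
  have hK5N : Nice K5 := hK0N.mul (hkhbN.pow 2)
  have e4 : (fun x : ι → Ω => ((|F x| * kb W p (x a) (x a₁)) * khb μ W p (x a) (x a₁)) *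
        khb μ W p (x a) (x a₁)) = fun x => |F x| * K5 x := by
    funext x; simp only [hK5]; ring
  have e5 : EE μ (fun x => |F x| * K5 x) = EE μ (fun x => |F x| * Ex μ a₁ K5 x) :=
    gm_EE_Ex hK5N a₁ (gm_ind_abs (hind a₁ ha₁)) (fun x => rfl) hF.abs
  have e6 : ∀ x, Ex μ a₁ K5 x ≤ 1000 := by
    intro x
    unfold Ex
    refine le_trans (le_of_eq ?_) (hM.m5 (x a))
    refine integral_congr_ae (Filter.Eventually.of_forall fun y => ?_)
    simp only [hK5, Function.update_of_ne haa1, Function.update_self]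
  have e7 : EE μ (fun x => |F x| * Ex μ a₁ K5 x) ≤ 1000 * EE μ (fun x => |F x|) := by
    rw [← EE_const_mul]
    refine EE_mono (hF.abs.mul (hK5N.Ex a₁)) ((Nice.const 1000).mul hF.abs) (fun x => ?_)
    rw [mul_comm]
    exact mul_le_mul_of_nonneg_right (e6 x) (abs_nonneg _)
  have e8 := EE_abs_le_sqrt (μ := μ) hF
  have hc2 : T.card = B.card + 3 := by
    have q1 := Finset.card_erase_add_one ha₁
    have q2 := Finset.card_erase_add_one hb1'
    have q3 := Finset.card_erase_add_one hb2'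
    rw [← hBdef] at q3
    omega
  rw [e2, e3, e4, e5, hc2, pow_add]
  have hp2 : (0 : ℝ) < 2 ^ B.card := by positivity
  have hs0 := Real.sqrt_nonneg (EE μ (fun x => F x ^ 2))
  calc 2 ^ B.card * EE μ (fun x => |F x| * Ex μ a₁ K5 x)
      ≤ 2 ^ B.card * (1000 * Real.sqrt (EE μ (fun x => F x ^ 2))) := by
        refine mul_le_mul_of_nonneg_left (e7.trans ?_) hp2.le
        linarith
    _ ≤ 1000 * (2 ^ B.card * 2 ^ 3) * Real.sqrt (EE μ (fun x => F x ^ 2)) := by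
        have : 0 ≤ 2 ^ B.card * Real.sqrt (EE μ (fun x => F x ^ 2)) := by positivity
        nlinarith

theorem gamma (hK : Kern μ W p) (hM : Mom μ W p η R) {F : (ι → Ω) → ℝ} (hF : Nice F)
    {a a₁ b₁ b₂ : ι} {T : Finset ι} (haT : a ∉ T) (ha₁ : a₁ ∈ T) (hind : ∀ b ∈ T, Ind F b)
    (hb : b₁ ≠ b₂) (h1 : b₁ ≠ a) (h2 : b₂ ≠ a) (h3 : b₁ ≠ a₁) (h4 : b₂ ≠ a₁) :
    EE μ (fun x => |Ex μ a (fun x => F x * ∏ b ∈ T, kg W p (x a) (x b)) x| *
        (kb W p (x a₁) (x b₁) * kb W p (x a₁) (x b₂))) ≤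
      1000 * 2 ^ T.card * Real.sqrt (EE μ (fun x => F x ^ 2)) := by
  have haa1 : a ≠ a₁ := fun h => haT (h ▸ ha₁)
  refine (gm_step hK hF (gm_niceJ hK a₁ b₁ a₁ b₂) (fun x => mul_nonneg (hK.kb_nonneg _ _)
    (hK.kb_nonneg _ _)) (gm_ind_mul (gm_ind_gbe haa1 h1.symm) (gm_ind_gbe haa1 h2.symm))).trans ?_
  by_cases q1 : b₁ ∈ T
  · by_cases q2 : b₂ ∈ T
    · exact gm_caseC hK hM hF haT ha₁ hind hb h1 h2 h3 h4 q1 q2
    · exact gm_caseB hK hM hF haT ha₁ hind hb h1 h2 h3 h4 q1 q2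
  · by_cases q2 : b₂ ∈ T
    · have h := gm_caseB hK hM hF haT ha₁ hind hb.symm h2 h1 h4 h3 q2 q1
      refine le_trans (le_of_eq ?_) h
      congr 1
      funext x
      ring
    · exact gm_caseA hK hM hF haT ha₁ hind hb h1 h2 h3 h4 q1 q2

end Pool.Agent.H83.RGG
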