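import Pool.Agent.H83.RGG.Kernel

/-! Definitions for the Gaussian part. -/

set_option autoImplicit false

open MeasureTheory ProbabilityTheory

namespace Pool.Agent.H83.RGG

/-- standard Gaussian measure on `ℝ^d` -/
noncomputable def gam (d : ℕ) : Measure (Fin d → ℝ) :=
  Measure.pi fun _ : Fin d => gaussianReal 0 1

instance (d : ℕ) : IsProbabilityMeasure (gam d) := by
  unfold gam; infer_instance

/-- Euclidean norm -/
noncomputable def nrm {d : ℕ} (x : Fin d → ℝ) : ℝ := Real.sqrt (∑ k, x k ^ 2)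

/-- inner product -/
noncomputable def dt {d : ℕ} (x y : Fin d → ℝ) : ℝ := ∑ k, x k * y k

/-- cosine of the angle (junk value `0` if a vector vanishes) -/
noncomputable def rho {d : ℕ} (x y : Fin d → ℝ) : ℝ := dt x y / (nrm x * nrm y)

open Classical in
/-- the spherical cap kernel, with the conventional value `p` if a vector vanishes -/
noncomputable def Wc (d : ℕ) (t p : ℝ) (x y : Fin d → ℝ) : ℝ :=
  if x = 0 ∨ y = 0 then p else if t * nrm x * nrm y ≤ dt x y then 1 else 0

/-- Gaussian tail -/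
noncomputable def Qf (x : ℝ) : ℝ := (gaussianReal 0 1).real (Set.Ici x)

/-- one cap: `P(t |w| ≤ w_i)` -/
noncomputable def P1 {d : ℕ} (i : Fin d) (t : ℝ) : ℝ :=
  (gam d).real {w | t * nrm w ≤ w i}

/-- two caps at correlation `r` -/
noncomputable def P2 {d : ℕ} (i j : Fin d) (t r : ℝ) : ℝ :=
  (gam d).real {w | t * nrm w ≤ w i ∧ t * nrm w ≤ r * w i + Real.sqrt (1 - r ^ 2) * w j}

/-- relative fluctuation of the squared norm -/
noncomputable def etan (d n : ℕ) : ℝ := 60 * Real.sqrt (Real.log n / d)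

/-- order of the truncation -/
noncomputable def Rn (n : ℕ) : ℕ := ⌈4 * Real.log n / Real.log (Real.log n)⌉₊

/-- bad pairs: large correlation -/
def BadS (d n : ℕ) : Set ((Fin d → ℝ) × (Fin d → ℝ)) :=
  {q | q.1 ≠ 0 ∧ q.2 ≠ 0 ∧ etan d n < |rho q.1 q.2|}

/-- the probability of an edge in the frozen statement -/
noncomputable def edgeP (d : ℕ) (t : ℝ) : ENNReal :=
  (MeasureTheory.Measure.pi
      (fun _ : Fin 2 × Fin d => ProbabilityTheory.gaussianReal 0 1))
    {g : Fin 2 × Fin d → ℝ |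
      t * Real.sqrt (∑ k, g (0, k) ^ 2) * Real.sqrt (∑ k, g (1, k) ^ 2)
        ≤ ∑ k, g (0, k) * g (1, k)}

/-- the standing assumptions of the asymptotic part -/
structure Asy (c : ℝ) (d : ℕ → ℕ) (t : ℕ → ℝ) : Prop where
  c_pos : 0 < c
  hd : Filter.Tendsto (fun n : ℕ => (d n : ℝ) / (Real.log n) ^ 3) Filter.atTop Filter.atTop
  ht : ∀ᶠ n : ℕ in Filter.atTop, edgeP (d n) (t n) = ENNReal.ofReal (c / n)

end Pool.Agent.H83.RGG
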