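import Pool.Agent.H83.RGG.Rot

/-! Module G02_Kern: the cap kernel satisfies `Kern`; formula for `kh`. -/

set_option autoImplicit false

open MeasureTheory ProbabilityTheory

namespace Pool.Agent.H83.RGG

theorem g2_nrm_nonneg {d : ℕ} (x : Fin d → ℝ) : 0 ≤ nrm x := Real.sqrt_nonneg _

theorem g2_nrm_sq {d : ℕ} (x : Fin d → ℝ) : nrm x ^ 2 = ∑ k, x k ^ 2 :=
  Real.sq_sqrt (Finset.sum_nonneg fun _ _ => sq_nonneg _)

theorem g2_nrm_pos {d : ℕ} {x : Fin d → ℝ} (hx : x ≠ 0) : 0 < nrm x := by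
  apply Real.sqrt_pos.2
  obtain ⟨k, hk⟩ := Function.ne_iff.1 hx
  exact Finset.sum_pos' (fun _ _ => sq_nonneg _) ⟨k, Finset.mem_univ _, by
    have : x k ≠ 0 := hk
    positivity⟩

theorem g2_nrm_zero {d : ℕ} : nrm (0 : Fin d → ℝ) = 0 := by
  simp [nrm]

theorem g2_nrm_smul {d : ℕ} (c : ℝ) (x : Fin d → ℝ) : nrm (c • x) = |c| * nrm x := by
  unfold nrm
  have : ∑ k, (c • x) k ^ 2 = c ^ 2 * ∑ k, x k ^ 2 := by
    rw [Finset.mul_sum]
    refine Finset.sum_congr rfl fun k _ => ?_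
    simp [mul_pow]
  rw [this, Real.sqrt_mul (sq_nonneg c), Real.sqrt_sq_eq_abs]

theorem g2_dt_smul_left {d : ℕ} (c : ℝ) (x y : Fin d → ℝ) : dt (c • x) y = c * dt x y := by
  unfold dt
  rw [Finset.mul_sum]
  refine Finset.sum_congr rfl fun k _ => ?_
  simp [mul_assoc]

theorem g2_dt_comm {d : ℕ} (x y : Fin d → ℝ) : dt x y = dt y x := by
  unfold dt
  exact Finset.sum_congr rfl fun k _ => mul_comm _ _

theorem g2_dt_smul_right {d : ℕ} (c : ℝ) (x y : Fin d → ℝ) : dt x (c • y) = c * dt x y := by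
  rw [g2_dt_comm, g2_dt_smul_left, g2_dt_comm]

theorem g2_measurable_nrm {d : ℕ} : Measurable (nrm (d := d)) := by
  unfold nrm
  fun_prop

theorem g2_measurable_dt {d : ℕ} :
    Measurable (fun q : (Fin d → ℝ) × (Fin d → ℝ) => dt q.1 q.2) := by
  unfold dt
  fun_prop

theorem g2_measurable_rho {d : ℕ} :
    Measurable (fun q : (Fin d → ℝ) × (Fin d → ℝ) => rho q.1 q.2) := by
  unfold rho
  exact g2_measurable_dt.div ((g2_measurable_nrm.comp measurable_fst).mul
    (g2_measurable_nrm.comp measurable_snd))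

theorem gam_zero {d : ℕ} (hd : 1 ≤ d) : (gam d) {x | x = 0} = 0 := by
  have h : (gam d) {(0 : Fin d → ℝ)} = 0 := by
    have h1 : NullSingletonClass (gaussianReal 0 1) := nullSingletonClass_gaussianReal one_ne_zero
    unfold gam
    have h2 : NullSingletonClass (Measure.pi fun _ : Fin d => gaussianReal 0 1) :=
      Measure.pi_nullSingletonClass (⟨0, hd⟩ : Fin d)
    exact measure_singleton _
  exact h

theorem g2_ae_ne_zero {d : ℕ} (hd : 1 ≤ d) : ∀ᵐ x ∂(gam d), x ≠ 0 := by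
  rw [ae_iff]
  simpa using gam_zero hd

/-- the unit vector in the direction `x` -/
theorem g2_nrm_unit {d : ℕ} {x : Fin d → ℝ} (hx : x ≠ 0) : nrm ((nrm x)⁻¹ • x) = 1 := by
  rw [g2_nrm_smul, abs_of_pos (inv_pos.2 (g2_nrm_pos hx)), inv_mul_cancel₀ (g2_nrm_pos hx).ne']

theorem g2_cap_iff {d : ℕ} {x : Fin d → ℝ} (hx : x ≠ 0) (t : ℝ) (z : Fin d → ℝ) :
    t * nrm x * nrm z ≤ dt x z ↔ t * nrm z ≤ dt ((nrm x)⁻¹ • x) z := by
  rw [g2_dt_smul_left, inv_mul_eq_div, le_div_iff₀ (g2_nrm_pos hx)]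
  constructor <;> intro h <;> linarith

theorem g2_measurableSet_cap {d : ℕ} (t : ℝ) (u : Fin d → ℝ) :
    MeasurableSet {z : Fin d → ℝ | t * nrm z ≤ dt u z} := by
  apply measurableSet_le
  · exact measurable_const.mul g2_measurable_nrm
  · exact g2_measurable_dt.comp (measurable_const.prodMk measurable_id)

theorem g2_cap_measure {d : ℕ} (i : Fin d) (t : ℝ) {x : Fin d → ℝ} (hx : x ≠ 0) :
    (gam d) {z | t * nrm x * nrm z ≤ dt x z} = (gam d) {w | t * nrm w ≤ w i} := by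
  obtain ⟨Φ, hΦ, h1, h2⟩ := rot_one i _ (g2_nrm_unit hx)
  have hset : {z | t * nrm x * nrm z ≤ dt x z} =
      {z | t * nrm z ≤ dt ((nrm x)⁻¹ • x) z} := by
    ext z
    exact g2_cap_iff hx t z
  rw [hset, ← hΦ.measure_preimage (g2_measurableSet_cap _ _).nullMeasurableSet]
  congr 1
  ext w
  simp only [Set.mem_preimage, Set.mem_ofPred_eq, h1, h2]

theorem g2_cap_real {d : ℕ} (i : Fin d) (t : ℝ) {x : Fin d → ℝ} (hx : x ≠ 0) :
    (gam d).real {z | t * nrm x * nrm z ≤ dt x z} = P1 i t := by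
  unfold P1 Measure.real
  rw [g2_cap_measure i t hx]

theorem g2_measurableSet_cap2 {d : ℕ} (t : ℝ) :
    MeasurableSet {q : (Fin d → ℝ) × (Fin d → ℝ) | t * nrm q.1 * nrm q.2 ≤ dt q.1 q.2} := by
  apply measurableSet_le
  · exact (measurable_const.mul (g2_measurable_nrm.comp measurable_fst)).mul
      (g2_measurable_nrm.comp measurable_snd)
  · exact g2_measurable_dt

theorem g2_edgeP_eq_prod {d : ℕ} (t : ℝ) : edgeP d t =
    ((gam d).prod (gam d)) {q | t * nrm q.1 * nrm q.2 ≤ dt q.1 q.2} := by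
  unfold edgeP
  have h1 : (Measure.pi fun _ : Fin 2 × Fin d => gaussianReal 0 1).map
      (MeasurableEquiv.curry (Fin 2) (Fin d) ℝ) = Measure.pi fun _ : Fin 2 => gam d := by
    have h := Measure.infinitePi_map_curry (ι := Fin 2) (κ := Fin d)
      (fun (_ : Fin 2) (_ : Fin d) => gaussianReal 0 1)
    rw [Measure.infinitePi_eq_pi] at h
    rw [h]
    simp only [Measure.infinitePi_eq_pi]
    rfl
  have h2 := measurePreserving_finTwoArrow (gam d)
  have h3 : MeasurePreserving (MeasurableEquiv.curry (Fin 2) (Fin d) ℝ)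
      (Measure.pi fun _ : Fin 2 × Fin d => gaussianReal 0 1)
      (Measure.pi fun _ : Fin 2 => gam d) :=
    ⟨(MeasurableEquiv.curry (Fin 2) (Fin d) ℝ).measurable, h1⟩
  have h4 := h2.comp h3
  rw [← h4.measure_preimage (g2_measurableSet_cap2 t).nullMeasurableSet]
  rfl

theorem edgeP_eq {d : ℕ} (i : Fin d) (t : ℝ) : (edgeP d t).toReal = P1 i t := by
  have hd : 1 ≤ d := lt_of_le_of_lt (Nat.zero_le _) i.2
  rw [g2_edgeP_eq_prod, Measure.prod_apply (g2_measurableSet_cap2 t)]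
  have h : ∫⁻ x, (gam d) (Prod.mk x ⁻¹' {q | t * nrm q.1 * nrm q.2 ≤ dt q.1 q.2}) ∂(gam d) =
      ∫⁻ _, (gam d) {w | t * nrm w ≤ w i} ∂(gam d) := by
    apply lintegral_congr_ae
    filter_upwards [g2_ae_ne_zero hd] with x hx
    exact g2_cap_measure i t hx
  rw [h, lintegral_const, measure_univ, mul_one]
  rfl

theorem g2_Wc_meas {d : ℕ} (t p : ℝ) : Measurable (Function.uncurry (Wc d t p)) := by
  classical
  have h : Function.uncurry (Wc d t p) = fun q : (Fin d → ℝ) × (Fin d → ℝ) =>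
      if q.1 = 0 ∨ q.2 = 0 then p else if t * nrm q.1 * nrm q.2 ≤ dt q.1 q.2 then 1 else 0 := by
    ext q
    unfold Function.uncurry Wc
    congr
  rw [h]
  have hz : MeasurableSet {q : (Fin d → ℝ) × (Fin d → ℝ) | q.1 = 0 ∨ q.2 = 0} := by
    apply MeasurableSet.union
    · exact measurable_fst (measurableSet_singleton 0)
    · exact measurable_snd (measurableSet_singleton 0)
  refine Measurable.ite hz measurable_const ?_
  exact Measurable.ite (g2_measurableSet_cap2 t) measurable_const measurable_const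

theorem g2_Wc_symm {d : ℕ} (t p : ℝ) (x y : Fin d → ℝ) : Wc d t p x y = Wc d t p y x := by
  unfold Wc
  have h1 : (x = 0 ∨ y = 0) ↔ (y = 0 ∨ x = 0) := or_comm
  have h2 : (t * nrm x * nrm y ≤ dt x y) ↔ (t * nrm y * nrm x ≤ dt y x) := by
    rw [g2_dt_comm x y, mul_right_comm]
  simp only [h1, h2]

theorem g2_Wc_nonneg {d : ℕ} {t p : ℝ} (hp : 0 ≤ p) (x y : Fin d → ℝ) : 0 ≤ Wc d t p x y := by
  unfold Wc
  split_ifs <;> norm_num [hp]

theorem g2_Wc_le_one {d : ℕ} {t p : ℝ} (hp : p ≤ 1) (x y : Fin d → ℝ) : Wc d t p x y ≤ 1 := by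
  unfold Wc
  split_ifs <;> norm_num [hp]

theorem g2_Wc_zero_left {d : ℕ} {t p : ℝ} (y : Fin d → ℝ) : Wc d t p 0 y = p := by
  unfold Wc
  simp

theorem g2_Wc_zero_right {d : ℕ} {t p : ℝ} (x : Fin d → ℝ) : Wc d t p x 0 = p := by
  unfold Wc
  simp

theorem g2_Wc_of_ne {d : ℕ} {t p : ℝ} {x y : Fin d → ℝ} (hx : x ≠ 0) (hy : y ≠ 0) :
    Wc d t p x y = Set.indicator {z | t * nrm x * nrm z ≤ dt x z} (fun _ => (1 : ℝ)) y := by
  classical
  unfold Wc
  rw [Set.indicator_apply]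
  simp only [hx, hy, or_self, if_false, Set.mem_ofPred_eq]

theorem g2_measurableSet_capx {d : ℕ} (t : ℝ) (x : Fin d → ℝ) :
    MeasurableSet {z : Fin d → ℝ | t * nrm x * nrm z ≤ dt x z} := by
  apply measurableSet_le
  · exact measurable_const.mul g2_measurable_nrm
  · exact g2_measurable_dt.comp (measurable_const.prodMk measurable_id)

theorem g2_Wc_int {d : ℕ} (i : Fin d) {t p : ℝ} (hP : P1 i t = p) (x : Fin d → ℝ) :
    ∫ y, Wc d t p x y ∂(gam d) = p := by
  have hd : 1 ≤ d := lt_of_le_of_lt (Nat.zero_le _) i.2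
  by_cases hx : x = 0
  · subst hx
    simp [g2_Wc_zero_left]
  · have h : ∫ y, Wc d t p x y ∂(gam d) =
        ∫ y, Set.indicator {z | t * nrm x * nrm z ≤ dt x z} (fun _ => (1 : ℝ)) y ∂(gam d) := by
      apply integral_congr_ae
      filter_upwards [g2_ae_ne_zero hd] with y hy
      exact g2_Wc_of_ne hx hy
    rw [h, integral_indicator (g2_measurableSet_capx t x)]
    simp only [integral_const, smul_eq_mul, mul_one, measureReal_restrict_apply_univ]
    rw [g2_cap_real i t hx, hP]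

theorem kern_gauss {d : ℕ} (i : Fin d) {t p : ℝ} (hp : 0 < p) (hp2 : p ≤ 1 / 2)
    (hP : P1 i t = p) : Kern (gam d) (Wc d t p) p where
  meas := g2_Wc_meas t p
  symm := g2_Wc_symm t p
  nonneg := g2_Wc_nonneg hp.le
  le_one := g2_Wc_le_one (by linarith)
  int := g2_Wc_int i hP
  p_pos := hp
  p_le := hp2

theorem g2_dt_unit {d : ℕ} (x y : Fin d → ℝ) :
    dt ((nrm x)⁻¹ • x) ((nrm y)⁻¹ • y) = rho x y := by
  rw [g2_dt_smul_left, g2_dt_smul_right]
  unfold rho
  rw [div_eq_mul_inv, mul_inv]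
  ring

theorem g2_cap2_real {d : ℕ} {i j : Fin d} (hij : i ≠ j) (t : ℝ) {x y : Fin d → ℝ}
    (hx : x ≠ 0) (hy : y ≠ 0) :
    (gam d).real ({z | t * nrm x * nrm z ≤ dt x z} ∩ {z | t * nrm y * nrm z ≤ dt y z}) =
      P2 i j t (rho x y) := by
  obtain ⟨Φ, hΦ, h1, h2, h3⟩ := rot_two hij _ _ (g2_nrm_unit hx) (g2_nrm_unit hy)
  have hset : {z | t * nrm x * nrm z ≤ dt x z} ∩ {z | t * nrm y * nrm z ≤ dt y z} =
      {z | t * nrm z ≤ dt ((nrm x)⁻¹ • x) z} ∩ {z | t * nrm z ≤ dt ((nrm y)⁻¹ • y) z} := by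
    ext z
    simp only [Set.mem_inter_iff, Set.mem_ofPred_eq]
    rw [g2_cap_iff hx t z, g2_cap_iff hy t z]
  unfold P2 Measure.real
  rw [hset, ← hΦ.measure_preimage ((g2_measurableSet_cap _ _).inter
    (g2_measurableSet_cap _ _)).nullMeasurableSet]
  congr 2
  ext w
  simp only [Set.mem_preimage, Set.mem_inter_iff, Set.mem_ofPred_eq, h1, h2, h3, g2_dt_unit]

theorem g2_integrable_of_bdd {d : ℕ} {F : (Fin d → ℝ) → ℝ} (hF : Measurable F) (C : ℝ)
    (hC : ∀ x, |F x| ≤ C) : Integrable F (gam d) :=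
  Integrable.of_bound hF.aestronglyMeasurable C (Filter.Eventually.of_forall hC)

theorem kh_gauss {d : ℕ} {i j : Fin d} (hij : i ≠ j) {t p : ℝ} (hp : 0 < p)
    (hP : P1 i t = p) {x y : Fin d → ℝ} (hx : x ≠ 0) (hy : y ≠ 0) :
    kh (gam d) (Wc d t p) p x y = P2 i j t (rho x y) / p ^ 2 - 1 := by
  have hd : 1 ≤ d := lt_of_le_of_lt (Nat.zero_le _) i.2
  have hp1 : p ≤ 1 := by
    rw [← hP]
    unfold P1
    exact measureReal_le_one
  have hWx : Integrable (Wc d t p x) (gam d) :=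
    g2_integrable_of_bdd ((g2_Wc_meas t p).comp (measurable_const.prodMk measurable_id)) 1
      (fun z => by rw [abs_of_nonneg (g2_Wc_nonneg hp.le _ _)]; exact g2_Wc_le_one hp1 _ _)
  have hWy : Integrable (Wc d t p y) (gam d) :=
    g2_integrable_of_bdd ((g2_Wc_meas t p).comp (measurable_const.prodMk measurable_id)) 1
      (fun z => by rw [abs_of_nonneg (g2_Wc_nonneg hp.le _ _)]; exact g2_Wc_le_one hp1 _ _)
  have hWW : Integrable (fun z => Wc d t p x z * Wc d t p y z) (gam d) := by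
    refine g2_integrable_of_bdd (((g2_Wc_meas t p).comp (measurable_const.prodMk measurable_id)).mul
      ((g2_Wc_meas t p).comp (measurable_const.prodMk measurable_id))) 1 (fun z => ?_)
    have h1 := g2_Wc_nonneg (t := t) hp.le x z
    have h2 := g2_Wc_nonneg (t := t) hp.le y z
    have h3 := g2_Wc_le_one (t := t) hp1 x z
    have h4 := g2_Wc_le_one (t := t) hp1 y z
    rw [abs_of_nonneg (mul_nonneg h1 h2)]
    nlinarith
  have hI : ∫ z, Wc d t p x z * Wc d t p y z ∂(gam d) = P2 i j t (rho x y) := by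
    have h : ∫ z, Wc d t p x z * Wc d t p y z ∂(gam d) =
        ∫ z, Set.indicator ({z | t * nrm x * nrm z ≤ dt x z} ∩ {z | t * nrm y * nrm z ≤ dt y z})
          (fun _ => (1 : ℝ)) z ∂(gam d) := by
      apply integral_congr_ae
      filter_upwards [g2_ae_ne_zero hd] with z hz
      rw [g2_Wc_of_ne hx hz, g2_Wc_of_ne hy hz]
      by_cases h1 : z ∈ {z | t * nrm x * nrm z ≤ dt x z}
      · by_cases h2 : z ∈ {z | t * nrm y * nrm z ≤ dt y z}
        · rw [Set.indicator_of_mem h1, Set.indicator_of_mem h2,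
            Set.indicator_of_mem (Set.mem_inter h1 h2), mul_one]
        · have h3 : z ∉ {z | t * nrm x * nrm z ≤ dt x z} ∩ {z | t * nrm y * nrm z ≤ dt y z} :=
            fun h => h2 h.2
          rw [Set.indicator_of_notMem h2, Set.indicator_of_notMem h3, mul_zero]
      · have h3 : z ∉ {z | t * nrm x * nrm z ≤ dt x z} ∩ {z | t * nrm y * nrm z ≤ dt y z} :=
          fun h => h1 h.1
        rw [Set.indicator_of_notMem h1, Set.indicator_of_notMem h3, zero_mul]
    rw [h, integral_indicator ((g2_measurableSet_capx t x).inter (g2_measurableSet_capx t y))]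
    simp only [integral_const, smul_eq_mul, mul_one, measureReal_restrict_apply_univ]
    exact g2_cap2_real hij t hx hy
  unfold kh kg
  have hexp : ∀ z, (Wc d t p x z / p - 1) * (Wc d t p y z / p - 1) =
      (p ^ 2)⁻¹ * (Wc d t p x z * Wc d t p y z) - p⁻¹ * Wc d t p x z - p⁻¹ * Wc d t p y z + 1 := by
    intro z
    field_simp
    ring
  simp_rw [hexp]
  have e1 : Integrable (fun z => (p ^ 2)⁻¹ * (Wc d t p x z * Wc d t p y z)) (gam d) :=
    hWW.const_mul _
  have e2 : Integrable (fun z => p⁻¹ * Wc d t p x z) (gam d) := hWx.const_mul _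
  have e3 : Integrable (fun z => p⁻¹ * Wc d t p y z) (gam d) := hWy.const_mul _
  have e4 : Integrable (fun z => (p ^ 2)⁻¹ * (Wc d t p x z * Wc d t p y z) -
      p⁻¹ * Wc d t p x z) (gam d) := e1.sub e2
  have e5 : Integrable (fun z => (p ^ 2)⁻¹ * (Wc d t p x z * Wc d t p y z) -
      p⁻¹ * Wc d t p x z - p⁻¹ * Wc d t p y z) (gam d) := e4.sub e3
  rw [integral_add e5 (integrable_const _), integral_sub e4 e3, integral_sub e1 e2,
    integral_const_mul, integral_const_mul, integral_const_mul, hI, g2_Wc_int i hP x, g2_Wc_int i hP y]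
  simp only [integral_const, smul_eq_mul, mul_one, probReal_univ]
  field_simp
  ring

theorem kh_zero {d : ℕ} {t p : ℝ} (hp : 0 < p) {x y : Fin d → ℝ} (h : x = 0 ∨ y = 0) :
    kh (gam d) (Wc d t p) p x y = 0 := by
  unfold kh kg
  rcases h with h | h
  · subst h
    simp [g2_Wc_zero_left, hp.ne']
  · subst h
    simp [g2_Wc_zero_left, hp.ne']

theorem g2_abs_dt_le {d : ℕ} (x y : Fin d → ℝ) : |dt x y| ≤ nrm x * nrm y := by
  have h := Finset.sum_mul_sq_le_sq_mul_sq Finset.univ x y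
  have h2 : (dt x y) ^ 2 ≤ (nrm x * nrm y) ^ 2 := by
    rw [mul_pow, g2_nrm_sq, g2_nrm_sq]
    exact h
  exact abs_le_of_sq_le_sq h2 (mul_nonneg (g2_nrm_nonneg _) (g2_nrm_nonneg _))

theorem abs_rho_le {d : ℕ} (x y : Fin d → ℝ) : |rho x y| ≤ 1 := by
  unfold rho
  rw [abs_div, abs_of_nonneg (mul_nonneg (g2_nrm_nonneg x) (g2_nrm_nonneg y))]
  exact div_le_one_of_le₀ (g2_abs_dt_le x y) (mul_nonneg (g2_nrm_nonneg _) (g2_nrm_nonneg _))

theorem measurableSet_BadS (d n : ℕ) : MeasurableSet (BadS d n) := by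
  unfold BadS
  have h1 : MeasurableSet {q : (Fin d → ℝ) × (Fin d → ℝ) | q.1 ≠ 0} :=
    (measurable_fst (measurableSet_singleton 0)).compl
  have h2 : MeasurableSet {q : (Fin d → ℝ) × (Fin d → ℝ) | q.2 ≠ 0} :=
    (measurable_snd (measurableSet_singleton 0)).compl
  have h3 : MeasurableSet {q : (Fin d → ℝ) × (Fin d → ℝ) | etan d n < |rho q.1 q.2|} :=
    measurableSet_lt measurable_const (continuous_abs.measurable.comp g2_measurable_rho)
  exact h1.inter (h2.inter h3)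

end Pool.Agent.H83.RGG
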