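import Pool.Agent.H83.RGG.Basic

/-! Module R02_Kernel: elementary facts on the kernels `kg, kb, kh, khb` and `We`. -/

set_option autoImplicit false

open MeasureTheory ProbabilityTheory

namespace Pool.Agent.H83.RGG

section K

variable {Ω : Type} [MeasurableSpace Ω] {μ : Measure Ω} [IsProbabilityMeasure μ]
variable {W : Ω → Ω → ℝ} {p : ℝ}

omit [IsProbabilityMeasure μ] in
theorem Kern.kb_nonneg (hK : Kern μ W p) (x y : Ω) : 0 ≤ kb W p x y := by
  unfold kb
  have := hK.p_pos
  have := hK.nonneg x y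
  positivity

omit [IsProbabilityMeasure μ] in
theorem Kern.abs_kg_le (hK : Kern μ W p) (x y : Ω) : |kg W p x y| ≤ kb W p x y := by
  unfold kg kb
  have h1 := hK.p_pos
  have h2 := hK.nonneg x y
  have h3 : 0 ≤ W x y / p := by positivity
  rw [abs_le]
  constructor <;> linarith

omit [IsProbabilityMeasure μ] in
theorem Kern.two_le (hK : Kern μ W p) : 2 ≤ 1 / p := by
  have h1 := hK.p_pos
  have h2 := hK.p_le
  rw [le_div_iff₀ h1]
  linarith

omit [IsProbabilityMeasure μ] in
theorem Kern.div_le (hK : Kern μ W p) (x y : Ω) : W x y / p ≤ 1 / p := by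
  have h1 := hK.p_pos
  have h2 := hK.le_one x y
  gcongr

omit [IsProbabilityMeasure μ] in
theorem Kern.abs_kg_le' (hK : Kern μ W p) (x y : Ω) : |kg W p x y| ≤ 1 / p := by
  unfold kg
  have h1 := hK.p_pos
  have h2 := hK.nonneg x y
  have h3 : 0 ≤ W x y / p := by positivity
  have h4 := hK.div_le x y
  have h5 := hK.two_le
  rw [abs_le]
  constructor <;> linarith

omit [IsProbabilityMeasure μ] in
theorem Kern.kb_le (hK : Kern μ W p) (x y : Ω) : kb W p x y ≤ 2 / p := by
  unfold kb
  have h4 := hK.div_le x y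
  have h5 := hK.two_le
  have h6 : 2 / p = 1 / p + 1 / p := by ring
  linarith

omit [IsProbabilityMeasure μ] in
theorem Kern.nice_kg (hK : Kern μ W p) : Nice (fun q : Ω × Ω => kg W p q.1 q.2) := by
  refine ⟨?_, 1 / p, fun q => hK.abs_kg_le' q.1 q.2⟩
  unfold kg
  exact (hK.meas.div_const p).sub_const 1

omit [IsProbabilityMeasure μ] in
theorem Kern.nice_kb (hK : Kern μ W p) : Nice (fun q : Ω × Ω => kb W p q.1 q.2) := by
  refine ⟨?_, 2 / p, fun q => ?_⟩
  · unfold kb
    exact (hK.meas.div_const p).add_const 1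
  · rw [abs_of_nonneg (hK.kb_nonneg _ _)]
    exact hK.kb_le q.1 q.2

theorem Kern.nice_kh (hK : Kern μ W p) : Nice (fun q : Ω × Ω => kh μ W p q.1 q.2) := by
  unfold kh
  have h1 : Nice (fun r : (Ω × Ω) × Ω => kg W p r.1.1 r.2) :=
    hK.nice_kg.comp (f := fun r : (Ω × Ω) × Ω => (r.1.1, r.2)) (by fun_prop)
  have h2 : Nice (fun r : (Ω × Ω) × Ω => kg W p r.1.2 r.2) :=
    hK.nice_kg.comp (f := fun r : (Ω × Ω) × Ω => (r.1.2, r.2)) (by fun_prop)
  exact (h1.mul h2).integral μ

theorem Kern.nice_khb (hK : Kern μ W p) : Nice (fun q : Ω × Ω => khb μ W p q.1 q.2) :=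
  hK.nice_kh.add (Nice.const 4)

omit [IsProbabilityMeasure μ] in
theorem Kern.kg_symm (hK : Kern μ W p) (x y : Ω) : kg W p x y = kg W p y x := by
  unfold kg; rw [hK.symm x y]

omit [IsProbabilityMeasure μ] in
theorem Kern.kb_symm (hK : Kern μ W p) (x y : Ω) : kb W p x y = kb W p y x := by
  unfold kb; rw [hK.symm x y]

omit [IsProbabilityMeasure μ] in
theorem Kern.kh_symm (_hK : Kern μ W p) (x y : Ω) : kh μ W p x y = kh μ W p y x := by
  unfold kh
  congr 1
  funext z
  ring

/-- the section of a kernel is nice -/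
theorem Nice.sec {α β : Type} [MeasurableSpace α] [MeasurableSpace β] {F : α × β → ℝ}
    (hF : Nice F) (x : α) : Nice (fun y => F (x, y)) :=
  hF.comp (f := fun y => (x, y)) measurable_prodMk_left

theorem Kern.integrable_W (hK : Kern μ W p) (x : Ω) : Integrable (fun y => W x y) μ := by
  refine Nice.integrable ⟨hK.meas.comp measurable_prodMk_left, 1, fun y => ?_⟩ μ
  have h1 := hK.nonneg x y
  have h2 := hK.le_one x y
  simp only [Function.comp, Function.uncurry]
  rw [abs_of_nonneg h1]
  exact h2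

theorem Kern.integrable_kg (hK : Kern μ W p) (x : Ω) : Integrable (fun y => kg W p x y) μ :=
  (hK.nice_kg.sec x).integrable μ

theorem Kern.integrable_kb (hK : Kern μ W p) (x : Ω) : Integrable (fun y => kb W p x y) μ :=
  (hK.nice_kb.sec x).integrable μ

theorem Kern.int_kg (hK : Kern μ W p) (x : Ω) : ∫ y, kg W p x y ∂μ = 0 := by
  unfold kg
  rw [integral_sub ((hK.integrable_W x).div_const p) (integrable_const _), integral_div, hK.int x,
    div_self hK.p_pos.ne', integral_const]
  simp

theorem Kern.int_kb (hK : Kern μ W p) (x : Ω) : ∫ y, kb W p x y ∂μ = 2 := by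
  unfold kb
  rw [integral_add ((hK.integrable_W x).div_const p) (integrable_const _), integral_div, hK.int x,
    div_self hK.p_pos.ne', integral_const]
  simp
  norm_num

theorem Kern.int_abs_kg (hK : Kern μ W p) (x : Ω) : ∫ y, |kg W p x y| ∂μ ≤ 2 := by
  rw [← hK.int_kb x]
  exact integral_mono (hK.integrable_kg x).abs (hK.integrable_kb x) fun y => hK.abs_kg_le x y

omit [IsProbabilityMeasure μ] in
/-- `kh x y = ∫ kg z x * kg z y` -/
theorem Kern.kh_eq (hK : Kern μ W p) (x y : Ω) :
    kh μ W p x y = ∫ z, kg W p z x * kg W p z y ∂μ := by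
  unfold kh
  congr 1
  funext z
  rw [hK.kg_symm x z, hK.kg_symm y z]

theorem Kern.integrable_kg_kg (hK : Kern μ W p) (x y : Ω) :
    Integrable (fun z => kg W p x z * kg W p y z) μ :=
  ((hK.nice_kg.sec x).mul (hK.nice_kg.sec y)).integrable μ

theorem Kern.integrable_kb_kb (hK : Kern μ W p) (x y : Ω) :
    Integrable (fun z => kb W p x z * kb W p y z) μ :=
  ((hK.nice_kb.sec x).mul (hK.nice_kb.sec y)).integrable μ

theorem Kern.khb_eq (hK : Kern μ W p) (x y : Ω) :
    khb μ W p x y = ∫ z, kb W p x z * kb W p y z ∂μ := by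
  have e : (fun z => kb W p x z * kb W p y z) = fun z => (kg W p x z * kg W p y z +
      2 * kg W p x z) + (2 * kg W p y z + 4) := by
    funext z
    unfold kb kg
    ring
  rw [e, integral_add, integral_add, integral_add, integral_const_mul, integral_const_mul,
    hK.int_kg, hK.int_kg, integral_const]
  · unfold khb kh
    simp
  · exact (hK.integrable_kg y).const_mul 2
  · exact integrable_const _
  · exact hK.integrable_kg_kg x y
  · exact (hK.integrable_kg x).const_mul 2
  · exact (hK.integrable_kg_kg x y).add ((hK.integrable_kg x).const_mul 2)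
  · exact ((hK.integrable_kg y).const_mul 2).add (integrable_const _)

theorem Kern.khb_nonneg (hK : Kern μ W p) (x y : Ω) : 0 ≤ khb μ W p x y := by
  rw [hK.khb_eq]
  exact integral_nonneg fun z => mul_nonneg (hK.kb_nonneg _ _) (hK.kb_nonneg _ _)

theorem Kern.khb_le (hK : Kern μ W p) (x y : Ω) : khb μ W p x y ≤ 4 / p := by
  rw [hK.khb_eq]
  have e : 4 / p = ∫ z, 2 / p * kb W p y z ∂μ := by
    rw [integral_const_mul, hK.int_kb]
    ring
  rw [e]
  refine integral_mono (hK.integrable_kb_kb x y) ((hK.integrable_kb y).const_mul _) fun z => ?_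
  exact mul_le_mul_of_nonneg_right (hK.kb_le x z) (hK.kb_nonneg y z)

theorem Kern.abs_kh_le (hK : Kern μ W p) (x y : Ω) : |kh μ W p x y| ≤ khb μ W p x y := by
  rw [hK.khb_eq]
  unfold kh
  refine (abs_integral_le_integral_abs).trans ?_
  refine integral_mono (hK.integrable_kg_kg x y).abs (hK.integrable_kb_kb x y) fun z => ?_
  show |kg W p x z * kg W p y z| ≤ kb W p x z * kb W p y z
  rw [abs_mul]
  exact mul_le_mul (hK.abs_kg_le _ _) (hK.abs_kg_le _ _) (abs_nonneg _) (hK.kb_nonneg _ _)

end K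

section We

variable {Ω : Type} [MeasurableSpace Ω] {ι : Type} [Fintype ι] [DecidableEq ι]
variable {μ : Measure Ω} [IsProbabilityMeasure μ] {W : Ω → Ω → ℝ} {p : ℝ}

omit [Fintype ι] [DecidableEq ι] [IsProbabilityMeasure μ] in
theorem Kern.We_mk (hK : Kern μ W p) (a b : ι) (x : ι → Ω) :
    We W s(a, b) x = W (x a) (x b) := by
  unfold We
  rw [Sym2.lift_mk]
  show (W (x a) (x b) + W (x b) (x a)) / 2 = _
  rw [hK.symm (x b) (x a)]
  ring

omit [Fintype ι] [DecidableEq ι] [IsProbabilityMeasure μ] in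
theorem Kern.We_nonneg (hK : Kern μ W p) (e : Sym2 ι) (x : ι → Ω) : 0 ≤ We W e x := by
  induction e using Sym2.ind with
  | _ a b => rw [hK.We_mk]; exact hK.nonneg _ _

omit [Fintype ι] [DecidableEq ι] [IsProbabilityMeasure μ] in
theorem Kern.We_le_one (hK : Kern μ W p) (e : Sym2 ι) (x : ι → Ω) : We W e x ≤ 1 := by
  induction e using Sym2.ind with
  | _ a b => rw [hK.We_mk]; exact hK.le_one _ _

omit [Fintype ι] [DecidableEq ι] [IsProbabilityMeasure μ] in
theorem Kern.nice_We (hK : Kern μ W p) (e : Sym2 ι) : Nice (fun x : ι → Ω => We W e x) := by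
  refine ⟨?_, 1, fun x => ?_⟩
  · induction e using Sym2.ind with
    | _ a b =>
      have e : (fun x : ι → Ω => We W s(a, b) x) = fun x => Function.uncurry W (x a, x b) := by
        funext x; rw [hK.We_mk]; rfl
      rw [e]
      exact hK.meas.comp ((measurable_pi_apply a).prodMk (measurable_pi_apply b))
  · rw [abs_of_nonneg (hK.We_nonneg e x)]
    exact hK.We_le_one e x

omit [IsProbabilityMeasure μ] [Fintype ι] in
theorem Kern.nice_wt (hK : Kern μ W p) (E G : Finset (Sym2 ι)) :
    Nice (fun x : ι → Ω => wt W E G x) := by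
  unfold wt
  exact (Nice.prod G fun e _ => hK.nice_We e).mul
    (Nice.prod (E \ G) fun e _ => (Nice.const 1).sub (hK.nice_We e))

omit [IsProbabilityMeasure μ] [Fintype ι] in
theorem Kern.wt_nonneg (hK : Kern μ W p) (E G : Finset (Sym2 ι)) (x : ι → Ω) :
    0 ≤ wt W E G x := by
  unfold wt
  refine mul_nonneg (Finset.prod_nonneg fun e _ => hK.We_nonneg e x)
    (Finset.prod_nonneg fun e _ => ?_)
  have := hK.We_le_one e x
  linarith

omit [MeasurableSpace Ω] [Fintype ι] in
/-- the weights of all graphs on `E` sum to one -/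
theorem sum_wt (W : Ω → Ω → ℝ) (E : Finset (Sym2 ι)) (x : ι → Ω) :
    ∑ G ∈ E.powerset, wt W E G x = 1 := by
  have h := Finset.prod_add (fun e => We W e x) (fun e => 1 - We W e x) E
  simp only [add_sub_cancel, Finset.prod_const_one] at h
  exact h.symm

omit [MeasurableSpace Ω] [Fintype ι] in
theorem ind_We (W : Ω → Ω → ℝ) (e : Sym2 ι) (a : ι) (ha : a ∉ e) :
    Ind (fun x : ι → Ω => We W e x) a := by
  intro x y
  induction e using Sym2.ind with
  | _ b c =>
    rw [Sym2.mem_iff, not_or] at ha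
    show (W (Function.update x a y b) (Function.update x a y c) +
      W (Function.update x a y c) (Function.update x a y b)) / 2 = _
    rw [Function.update_of_ne (Ne.symm ha.1), Function.update_of_ne (Ne.symm ha.2)]
    rfl

omit [MeasurableSpace Ω] [Fintype ι] in
theorem ind_wt (W : Ω → Ω → ℝ) (E G : Finset (Sym2 ι)) (hG : G ⊆ E) (a : ι)
    (ha : ∀ e ∈ E, a ∉ e) : Ind (fun x : ι → Ω => wt W E G x) a := by
  intro x y
  show (∏ e ∈ G, We W e (Function.update x a y)) *
    ∏ e ∈ E \ G, (1 - We W e (Function.update x a y)) =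
    (∏ e ∈ G, We W e x) * ∏ e ∈ E \ G, (1 - We W e x)
  have h : ∀ e ∈ E, We W e (Function.update x a y) = We W e x :=
    fun e he => ind_We W e a (ha e he) x y
  have h1 : ∏ e ∈ G, We W e (Function.update x a y) = ∏ e ∈ G, We W e x :=
    Finset.prod_congr rfl fun e he => h e (hG he)
  have h2 : ∏ e ∈ E \ G, (1 - We W e (Function.update x a y)) = ∏ e ∈ E \ G, (1 - We W e x) :=
    Finset.prod_congr rfl fun e he => by rw [h e (Finset.mem_sdiff.1 he).1]
  rw [h1, h2]

omit [IsProbabilityMeasure μ] [Fintype ι] [DecidableEq ι] in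
/-- edge function `x ↦ kg (x a) (x b)` is nice -/
theorem Kern.nice_ge (hK : Kern μ W p) (a b : ι) :
    Nice (fun x : ι → Ω => kg W p (x a) (x b)) :=
  hK.nice_kg.comp (f := fun x : ι → Ω => (x a, x b)) (by fun_prop)

omit [IsProbabilityMeasure μ] [Fintype ι] [DecidableEq ι] in
theorem Kern.nice_gbe (hK : Kern μ W p) (a b : ι) :
    Nice (fun x : ι → Ω => kb W p (x a) (x b)) :=
  hK.nice_kb.comp (f := fun x : ι → Ω => (x a, x b)) (by fun_prop)

omit [IsProbabilityMeasure μ] [Fintype ι] [DecidableEq ι] in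
theorem Kern.nice_prod_ge (hK : Kern μ W p) (a : ι) (T : Finset ι) :
    Nice (fun x : ι → Ω => ∏ b ∈ T, kg W p (x a) (x b)) :=
  Nice.prod T fun b _ => hK.nice_ge a b

end We

end Pool.Agent.H83.RGG
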