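import Pool.Agent.H83.RGG.MPAux

/-! Module R09_MP: the main proposition. -/

set_option autoImplicit false

open MeasureTheory ProbabilityTheory

namespace Pool.Agent.H83.RGG

variable {Ω : Type} [MeasurableSpace Ω] {ι : Type} [Fintype ι] [DecidableEq ι]
variable {μ : Measure Ω} [IsProbabilityMeasure μ] {W : Ω → Ω → ℝ} {p η : ℝ} {R : ℕ}

theorem main_prop (hK : Kern μ W p) (hM : Mom μ W p η R) (M τ : ℝ)
    (hS : ∀ B : Finset ι, ∑ T ∈ B.powerset, (32 * p) ^ T.card ≤ M)
    (hτ : ∀ B : Finset ι, ∑ T ∈ B.powerset.filter (fun T => R ≤ T.card), (4 * p) ^ T.card ≤ τ)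
    (hηM : η * M ≤ 1 / 2) (V : Finset ι) :
    ∀ (a : ι) (L : Finset ι) (F : (ι → Ω) → ℝ), a ∉ V → L ⊆ V → Nice F →
      (∀ b ∈ V \ L, Ind F b) →
      ∑ T ∈ (V \ L).powerset.filter (fun T => 1 ≤ T.card ∧ T.card ≤ R),
        (2 * p) ^ T.card * NN μ W (ed V) (fun x => F x * ∏ b ∈ T, kg W p (x a) (x b)) ≤
      2 * M ^ 2 * (τ + 4000 * p ^ 2 + 6 * p * η) * 8 ^ L.card *
        Real.sqrt (EE μ (fun x => F x ^ 2)) := by
  have hp := hK.p_pos
  have hη := hM.eta_nonneg
  have hM1 : 1 ≤ M := by simpa using hS ∅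
  have hM0 : 0 ≤ M := by linarith
  have hτ0 : 0 ≤ τ := le_trans (Finset.sum_nonneg fun T _ => by positivity) (hτ ∅)
  have hΨ0 : 0 ≤ 2 * M ^ 2 * (τ + 4000 * p ^ 2 + 6 * p * η) := by positivity
  have hclose : M * ((2 * M ^ 2 * (τ + 4000 * p ^ 2 + 6 * p * η)) * η +
      (τ + p * M * η + 1000 * M * p ^ 2)) / 8 ≤
      2 * M ^ 2 * (τ + 4000 * p ^ 2 + 6 * p * η) := by
    have h1 : M * ((2 * M ^ 2 * (τ + 4000 * p ^ 2 + 6 * p * η)) * η) ≤
        (2 * M ^ 2 * (τ + 4000 * p ^ 2 + 6 * p * η)) * (1 / 2) := by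
      calc _ = (2 * M ^ 2 * (τ + 4000 * p ^ 2 + 6 * p * η)) * (η * M) := by ring
        _ ≤ _ := mul_le_mul_of_nonneg_left hηM hΨ0
    have h2 : M * τ ≤ M ^ 2 * τ := by
      refine mul_le_mul_of_nonneg_right ?_ hτ0
      nlinarith
    have h3 : 0 ≤ M ^ 2 * τ := by positivity
    have h4 : 0 ≤ M ^ 2 * p ^ 2 := by positivity
    have h5 : 0 ≤ M ^ 2 * (p * η) := by positivity
    nlinarith
  induction V using Finset.strongInduction with
  | H V ih =>
    intro a L F haV hL hF hFi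
    set N := Real.sqrt (EE μ (fun x => F x ^ 2)) with hNd
    have hN : 0 ≤ N := Real.sqrt_nonneg _
    set Ψ := 2 * M ^ 2 * (τ + 4000 * p ^ 2 + 6 * p * η) with hΨd
    have hX0 : 0 ≤ τ + p * M * η + 1000 * M * p ^ 2 := by positivity
    have hterm : ∀ T ∈ (V \ L).powerset.filter (fun T => 1 ≤ T.card ∧ T.card ≤ R),
        (2 * p) ^ T.card * NN μ W (ed V) (fun x => F x * ∏ b ∈ T, kg W p (x a) (x b)) ≤
        (32 * p) ^ T.card * (8 ^ L.card * N *
          ((Ψ * η + (τ + p * M * η + 1000 * M * p ^ 2)) / 8)) := by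
      intro T hT
      obtain ⟨hT1, hT2, hT3⟩ := Finset.mem_filter.1 hT
      have hTV : T ⊆ V \ L := Finset.mem_powerset.1 hT1
      obtain ⟨a₁, ha₁⟩ := Finset.card_pos.1 (show 0 < T.card by omega)
      have ha₁V : a₁ ∈ V := (Finset.mem_sdiff.1 (hTV ha₁)).1
      have ha₁L : a₁ ∉ L := (Finset.mem_sdiff.1 (hTV ha₁)).2
      have hins : insert a₁ (T.erase a₁) = T := Finset.insert_erase ha₁
      have hinsV : insert a₁ (V.erase a₁) = V := Finset.insert_erase ha₁V
      have hcard : (T.erase a₁).card + 1 = T.card := Finset.card_erase_add_one ha₁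
      have key := mp_step (V' := V.erase a₁) (L := L) (B := T.erase a₁) (a := a) (a₁ := a₁)
        hK hM M τ Ψ hS hτ hΨ0
        (fun h => haV (Finset.mem_of_mem_erase h))
        (fun h => haV (h ▸ ha₁V)) (by simp)
        (fun c hc => Finset.mem_erase.2 ⟨fun h => ha₁L (h ▸ hc), hL hc⟩)
        (fun c hc => Finset.mem_erase.2 ⟨(Finset.mem_erase.1 hc).1,
          (Finset.mem_sdiff.1 (hTV (Finset.mem_erase.1 hc).2)).1⟩)
        (Finset.disjoint_left.2 fun c h1 h2 =>
          (Finset.mem_sdiff.1 (hTV (Finset.mem_erase.1 h2).2)).2 h1)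
        hF (hFi a₁ (Finset.mem_sdiff.2 ⟨ha₁V, ha₁L⟩))
        (fun c hc => hFi c (Finset.mem_sdiff.2 ⟨Finset.mem_of_mem_erase
          (Finset.mem_sdiff.1 hc).1, (Finset.mem_sdiff.1 hc).2⟩))
        (by omega) (ih (V.erase a₁) (Finset.erase_ssubset ha₁V))
      rw [hins, hinsV, ← hNd] at key
      have h2 : (1 : ℝ) ≤ 2 ^ ((T.erase a₁).card + 1) := one_le_pow₀ (by norm_num)
      have hΨη : 0 ≤ Ψ * η := by positivity
      have hb : Ψ * η + 2 ^ ((T.erase a₁).card + 1) * (τ + p * M * η + 1000 * M * p ^ 2) ≤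
          2 ^ ((T.erase a₁).card + 1) * (Ψ * η + (τ + p * M * η + 1000 * M * p ^ 2)) := by
        rw [mul_add]
        have := mul_le_mul_of_nonneg_right h2 hΨη
        linarith
      calc _ ≤ (2 * p) ^ T.card * (8 ^ (L.card + (T.erase a₁).card) * N *
            (2 ^ ((T.erase a₁).card + 1) * (Ψ * η + (τ + p * M * η + 1000 * M * p ^ 2)))) := by
            refine mul_le_mul_of_nonneg_left (key.trans ?_) (by positivity)
            exact mul_le_mul_of_nonneg_left hb (by positivity)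
        _ = _ := by
            have e8 : (32 * p) ^ T.card = (2 * p) ^ T.card * (8 ^ ((T.erase a₁).card + 1) *
                2 ^ ((T.erase a₁).card + 1)) := by
              rw [hcard, ← mul_pow, ← mul_pow]; congr 1; ring
            rw [e8, pow_add, pow_succ 8 (T.erase a₁).card]
            ring
    refine (Finset.sum_le_sum hterm).trans ?_
    rw [← Finset.sum_mul]
    have hsum : ∑ T ∈ (V \ L).powerset.filter (fun T => 1 ≤ T.card ∧ T.card ≤ R),
        (32 * p) ^ T.card ≤ M := by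
      refine le_trans ?_ (hS (V \ L))
      exact Finset.sum_le_sum_of_subset_of_nonneg (Finset.filter_subset _ _)
        fun T _ _ => by positivity
    have hpos : 0 ≤ 8 ^ L.card * N *
          ((Ψ * η + (τ + p * M * η + 1000 * M * p ^ 2)) / 8) := by positivity
    calc _ ≤ M * (8 ^ L.card * N *
          ((Ψ * η + (τ + p * M * η + 1000 * M * p ^ 2)) / 8)) :=
          mul_le_mul_of_nonneg_right hsum hpos
      _ = 8 ^ L.card * N * (M * (Ψ * η + (τ + p * M * η + 1000 * M * p ^ 2)) / 8) := by ring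
      _ ≤ 8 ^ L.card * N * Ψ := mul_le_mul_of_nonneg_left hclose (by positivity)
      _ = _ := by ring

end Pool.Agent.H83.RGG
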