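import Pool.Agent.H83.RGG.Norm
import Pool.Agent.H83.RGG.Alpha
import Pool.Agent.H83.RGG.Beta
import Pool.Agent.H83.RGG.Gamma
import Pool.Agent.H83.RGG.Delta
import Pool.Agent.H83.RGG.Eps

/-! Auxiliary lemmas for module R09_MP. -/

set_option autoImplicit false

open MeasureTheory ProbabilityTheory

namespace Pool.Agent.H83.RGG

variable {Ω : Type} [MeasurableSpace Ω] {ι : Type} [Fintype ι] [DecidableEq ι]
variable {μ : Measure Ω} [IsProbabilityMeasure μ] {W : Ω → Ω → ℝ} {p η : ℝ} {R : ℕ}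

omit [MeasurableSpace Ω] [Fintype ι] in
theorem mp_ind_mul {F G : (ι → Ω) → ℝ} {a : ι} (hF : Ind F a) (hG : Ind G a) :
    Ind (fun x => F x * G x) a := fun x y => by
  show F _ * G _ = F x * G x
  rw [hF x y, hG x y]

omit [MeasurableSpace Ω] [Fintype ι] in
theorem mp_ind_abs {F : (ι → Ω) → ℝ} {a : ι} (hF : Ind F a) :
    Ind (fun x => |F x|) a := fun x y => by
  show |F _| = |F x|
  rw [hF x y]

omit [MeasurableSpace Ω] [Fintype ι] in
theorem mp_ind_kg (W : Ω → Ω → ℝ) (p : ℝ) {a b c : ι} (h1 : b ≠ a) (h2 : b ≠ c) :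
    Ind (fun x : ι → Ω => kg W p (x a) (x c)) b := fun x y => by
  show kg W p (Function.update x b y a) (Function.update x b y c) = _
  rw [Function.update_of_ne h1.symm, Function.update_of_ne h2.symm]

omit [MeasurableSpace Ω] [Fintype ι] in
theorem mp_ind_prod (W : Ω → Ω → ℝ) (p : ℝ) {a b : ι} {T : Finset ι} (h1 : b ≠ a) (h2 : b ∉ T) :
    Ind (fun x : ι → Ω => ∏ c ∈ T, kg W p (x a) (x c)) b := fun x y => by
  apply Finset.prod_congr rfl
  intro c hc
  have : c ≠ b := fun h => h2 (h ▸ hc)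
  rw [Function.update_of_ne h1.symm, Function.update_of_ne this]

omit [MeasurableSpace Ω] [Fintype ι] in
theorem mp_ind_prod_abs (W : Ω → Ω → ℝ) (p : ℝ) {a b : ι} {T : Finset ι} (h1 : b ≠ a)
    (h2 : b ∉ T) :
    Ind (fun x : ι → Ω => ∏ c ∈ T, |kg W p (x a) (x c)|) b := fun x y => by
  apply Finset.prod_congr rfl
  intro c hc
  have : c ≠ b := fun h => h2 (h ▸ hc)
  rw [Function.update_of_ne h1.symm, Function.update_of_ne this]

theorem mp_nice (hK : Kern μ W p) {F : (ι → Ω) → ℝ} (hF : Nice F) (a : ι) (T : Finset ι) :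
    Nice (fun x : ι → Ω => F x * ∏ b ∈ T, kg W p (x a) (x b)) :=
  hF.mul (hK.nice_prod_ge a T)

theorem mp_zero (hK : Kern μ W p) {F : (ι → Ω) → ℝ} (hF : Nice F) {a a₁ : ι} {B : Finset ι}
    (h1 : a₁ ≠ a) (h2 : a₁ ∉ B) (hind : Ind F a₁) :
    Ex μ a₁ (Ex μ a (fun x => F x * ∏ b ∈ insert a₁ B, kg W p (x a) (x b))) = fun _ => 0 := by
  funext x
  rw [Ex_comm (mp_nice hK hF a _)]
  have h : Ex μ a₁ (fun x => F x * ∏ b ∈ insert a₁ B, kg W p (x a) (x b)) = fun _ => 0 := by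
    funext x
    have e : (fun x : ι → Ω => F x * ∏ b ∈ insert a₁ B, kg W p (x a) (x b)) =
        fun x => (F x * ∏ b ∈ B, kg W p (x a) (x b)) * kg W p (x a) (x a₁) := by
      funext x; rw [Finset.prod_insert h2]; ring
    rw [e, Ex_mul_left (mp_ind_mul hind (mp_ind_prod W p h1 h2))]
    have : Ex μ a₁ (fun x : ι → Ω => kg W p (x a) (x a₁)) x = 0 := by
      unfold Ex
      simp only [Function.update_self, Function.update_of_ne h1.symm]
      exact hK.int_kg _
    rw [this, mul_zero]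
  rw [h]
  simp [Ex]

theorem mp_NN_zero (E : Finset (Sym2 ι)) : NN μ W E (fun _ : ι → Ω => (0 : ℝ)) = 0 := by
  simp [NN, EE]

theorem mp_NN_le_Ex (hK : Kern μ W p) {V' : Finset ι} {a₁ : ι} (h : a₁ ∉ V')
    {G : (ι → Ω) → ℝ} (hG : Nice G) :
    NN μ W (ed V') G ≤ EE μ (fun x => |Ex μ a₁ G x|) := by
  rw [NN_Ex hK (ed V') hG a₁ (not_mem_of_ed V' a₁ h)]
  exact NN_le hK _ (hG.Ex a₁)

/-- first moment of the new function -/
theorem mp_F1_abs (hK : Kern μ W p) {F : (ι → Ω) → ℝ} (hF : Nice F)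
    {a : ι} {T : Finset ι} (haT : a ∉ T) (hind : ∀ b ∈ T, Ind F b) :
    EE μ (fun x => |Ex μ a (fun x => F x * ∏ b ∈ T, kg W p (x a) (x b)) x|) ≤
      2 ^ T.card * Real.sqrt (EE μ (fun x => F x ^ 2)) :=
  (beta hK hF haT hind).trans
    (mul_le_mul_of_nonneg_left (EE_abs_le_sqrt hF) (by positivity))

/-- second moment of the new function -/
theorem mp_F1_sq (hK : Kern μ W p) (hM : Mom μ W p η R) {F : (ι → Ω) → ℝ} (hF : Nice F)
    {a : ι} {T : Finset ι} (haT : a ∉ T) (hind : ∀ b ∈ T, Ind F b) (h1 : 1 ≤ T.card)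
    (h2 : T.card ≤ R) :
    Real.sqrt (EE μ (fun x =>
      (Ex μ a (fun x => F x * ∏ b ∈ T, kg W p (x a) (x b)) x) ^ 2)) ≤
      Real.sqrt (EE μ (fun x => F x ^ 2)) * η := by
  have hη := hM.eta_nonneg
  have hm := hM.m2 (2 * T.card) (by omega) (by omega)
  have hs : Real.sqrt (∫ y, ∫ z, |kh μ W p y z| ^ (2 * T.card) ∂μ ∂μ) ≤ η ^ 2 := by
    rw [Real.sqrt_le_left (by positivity)]
    calc _ ≤ η ^ 4 := hm
      _ = (η ^ 2) ^ 2 := by ring
  have h0 : 0 ≤ EE μ (fun x => F x ^ 2) := EE_nonneg (fun x => sq_nonneg _)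
  have h := (alpha hK hF haT hind).trans (mul_le_mul_of_nonneg_left hs h0)
  calc _ ≤ Real.sqrt (EE μ (fun x => F x ^ 2) * η ^ 2) := Real.sqrt_le_sqrt h
    _ = _ := by rw [Real.sqrt_mul h0, Real.sqrt_sq hη]

/-- splitting a sum over subsets according to their size -/
theorem mp_split (S : Finset ι) (f : Finset ι → ℝ) (A B D : ℝ) (hA : 0 ≤ A) (hB : 0 ≤ B)
    (hD : 0 ≤ D) (h0 : f ∅ ≤ A) (h1 : ∀ b ∈ S, f {b} ≤ B)
    (h2 : ∀ C ⊆ S, 2 ≤ C.card → f C ≤ D * 2 ^ C.card) :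
    ∑ C ∈ S.powerset, f C ≤ A + S.card * B + D * 3 ^ S.card := by
  have key : ∀ C ∈ S.powerset, f C ≤ (if C = ∅ then A else 0) +
      (if C.card = 1 then B else 0) + D * 2 ^ C.card := by
    intro C hC
    have hC' : C ⊆ S := Finset.mem_powerset.1 hC
    have hDn : 0 ≤ D * 2 ^ C.card := by positivity
    rcases Nat.lt_or_ge C.card 2 with h | h
    · rcases Nat.lt_or_ge C.card 1 with h' | h'
      · have : C = ∅ := Finset.card_eq_zero.1 (by omega)
        subst this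
        simp only [if_true, Finset.card_empty]
        norm_num
        linarith
      · have hc1 : C.card = 1 := by omega
        obtain ⟨b, rfl⟩ := Finset.card_eq_one.1 hc1
        have hb : b ∈ S := hC' (by simp)
        have := h1 b hb
        rw [if_neg (by simp), if_pos hc1]
        linarith
    · have := h2 C hC' h
      rw [if_neg (by rintro rfl; simp at h), if_neg (by omega)]
      linarith
  refine (Finset.sum_le_sum key).trans ?_
  rw [Finset.sum_add_distrib, Finset.sum_add_distrib]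
  have e1 : ∑ C ∈ S.powerset, (if C = ∅ then A else 0) = A := by
    rw [Finset.sum_ite_eq']
    simp
  have e2 : ∑ C ∈ S.powerset, (if C.card = 1 then B else 0) = S.card * B := by
    rw [← Finset.sum_filter, Finset.sum_const, nsmul_eq_mul]
    have : S.powerset.filter (fun C => C.card = 1) = S.powersetCard 1 := by
      ext C
      simp [Finset.mem_powersetCard]
    rw [this, Finset.card_powersetCard]
    simp
  have e3 : ∑ C ∈ S.powerset, D * 2 ^ C.card = D * 3 ^ S.card := by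
    rw [← Finset.mul_sum]
    congr 1
    have := Finset.sum_pow_mul_eq_add_pow (2 : ℝ) 1 S
    simp only [one_pow, mul_one] at this
    rw [this]
    norm_num
  rw [e1, e2, e3]


/-- the term with exactly one collision and many new leaves -/
theorem mp_one_big (hK : Kern μ W p) {F1 : (ι → Ω) → ℝ} (hF1 : Nice F1) {V' T2 : Finset ι}
    {a₁ b : ι} (ha₁ : a₁ ∉ V') (hT : T2 ⊆ V') (hbT : b ∉ T2)
    (hind : ∀ c ∈ T2, Ind F1 c) :
    NN μ W (ed V') (fun x => (F1 x * kg W p (x a₁) (x b)) *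
        ∏ c ∈ T2, kg W p (x a₁) (x c)) ≤
      2 ^ T2.card * (1 / p * EE μ (fun x => |F1 x|)) := by
  have hG : Nice (fun x : ι → Ω => F1 x * kg W p (x a₁) (x b)) := hF1.mul (hK.nice_ge a₁ b)
  have haT : a₁ ∉ T2 := fun h => ha₁ (hT h)
  refine (mp_NN_le_Ex hK ha₁ (mp_nice hK hG a₁ T2)).trans ?_
  refine (beta hK hG haT ?_).trans ?_
  · intro c hc
    exact mp_ind_mul (hind c hc) (mp_ind_kg W p (fun h => haT (h ▸ hc)) (fun h => hbT (h ▸ hc)))
  · refine mul_le_mul_of_nonneg_left ?_ (by positivity)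
    rw [← EE_const_mul]
    refine EE_mono hG.abs ((Nice.const (1 / p)).mul hF1.abs) ?_
    intro x
    rw [abs_mul, mul_comm]
    exact mul_le_mul_of_nonneg_right (hK.abs_kg_le' _ _) (abs_nonneg _)

omit [Fintype ι] in
/-- pointwise bound for the product over a set with at least two collisions -/
theorem mp_prod_C (hK : Kern μ W p) {C : Finset ι} {b₁ b₂ : ι} (h1 : b₁ ∈ C) (h2 : b₂ ∈ C)
    (hne : b₁ ≠ b₂) (a₁ : ι) (x : ι → Ω) :
    (2 * p) ^ C.card * ∏ c ∈ C, |kg W p (x a₁) (x c)| ≤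
      (p ^ 2 * 2 ^ C.card) * (kb W p (x a₁) (x b₁) * kb W p (x a₁) (x b₂)) := by
  have hp := hK.p_pos
  have h2' : b₂ ∈ C.erase b₁ := Finset.mem_erase.2 ⟨hne.symm, h2⟩
  set C' := (C.erase b₁).erase b₂ with hC'
  have hc : C.card = C'.card + 2 := by
    have e1 := Finset.card_erase_of_mem h1
    have e2 := Finset.card_erase_of_mem h2'
    have p1 := Finset.card_pos.2 ⟨b₁, h1⟩
    have p2 := Finset.card_pos.2 ⟨b₂, h2'⟩
    rw [hC', e2, e1]
    omega
  have hprod : ∏ c ∈ C, |kg W p (x a₁) (x c)| =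
      |kg W p (x a₁) (x b₁)| * (|kg W p (x a₁) (x b₂)| * ∏ c ∈ C', |kg W p (x a₁) (x c)|) := by
    rw [hC', Finset.mul_prod_erase _ (fun c => |kg W p (x a₁) (x c)|) h2',
      Finset.mul_prod_erase _ (fun c => |kg W p (x a₁) (x c)|) h1]
  have hrest : (2 * p) ^ C'.card * ∏ c ∈ C', |kg W p (x a₁) (x c)| ≤ 2 ^ C'.card := by
    rw [← Finset.prod_const, ← Finset.prod_mul_distrib, ← Finset.prod_const]
    refine Finset.prod_le_prod (fun c _ => by positivity) (fun c _ => ?_)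
    have := hK.abs_kg_le' (x a₁) (x c)
    calc 2 * p * |kg W p (x a₁) (x c)| ≤ 2 * p * (1 / p) :=
          mul_le_mul_of_nonneg_left this (by positivity)
      _ = 2 := by field_simp
  have hb1 := hK.abs_kg_le (x a₁) (x b₁)
  have hb2 := hK.abs_kg_le (x a₁) (x b₂)
  have hn1 := hK.kb_nonneg (x a₁) (x b₁)
  have hn2 := hK.kb_nonneg (x a₁) (x b₂)
  have hpr : 0 ≤ ∏ c ∈ C', |kg W p (x a₁) (x c)| := Finset.prod_nonneg fun c _ => abs_nonneg _
  calc (2 * p) ^ C.card * ∏ c ∈ C, |kg W p (x a₁) (x c)|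
      = (4 * p ^ 2) * ((|kg W p (x a₁) (x b₁)| * |kg W p (x a₁) (x b₂)|) *
          ((2 * p) ^ C'.card * ∏ c ∈ C', |kg W p (x a₁) (x c)|)) := by
        rw [hprod, hc, pow_add]; ring
    _ ≤ (4 * p ^ 2) * ((kb W p (x a₁) (x b₁) * kb W p (x a₁) (x b₂)) * 2 ^ C'.card) := by
        refine mul_le_mul_of_nonneg_left ?_ (by positivity)
        refine mul_le_mul ?_ hrest (by positivity) (by positivity)
        exact mul_le_mul hb1 hb2 (abs_nonneg _) hn1
    _ = _ := by rw [hc, pow_add]; ring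

/-- the term with at least two collisions -/
theorem mp_two (hK : Kern μ W p) (hM : Mom μ W p η R) {F : (ι → Ω) → ℝ} (hF : Nice F)
    {V' T2 T C : Finset ι} {a a₁ : ι} (haT : a ∉ T) (ha₁T : a₁ ∈ T)
    (hind : ∀ b ∈ T, Ind F b) (ha₁ : a₁ ∉ V') (haV : a ∉ V') (hT2 : T2 ⊆ V') (hC : C ⊆ V')
    (hCT : Disjoint C T2) (hT2T : ∀ c ∈ T2, c ∉ T) (hT2F : ∀ c ∈ T2, Ind F c)
    (h2 : 2 ≤ C.card) :
    (2 * p) ^ (C.card + T2.card) *
      NN μ W (ed V') (fun x =>
        ((Ex μ a (fun x => F x * ∏ b ∈ T, kg W p (x a) (x b)) x) *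
          ∏ c ∈ C, kg W p (x a₁) (x c)) * ∏ c ∈ T2, kg W p (x a₁) (x c)) ≤
      (4 * p) ^ T2.card * ((p ^ 2 * 2 ^ C.card) *
        (1000 * 2 ^ T.card * Real.sqrt (EE μ (fun x => F x ^ 2)))) := by
  have hp := hK.p_pos
  set F1 := Ex μ a (fun x => F x * ∏ b ∈ T, kg W p (x a) (x b)) with hF1d
  have hF1 : Nice F1 := (mp_nice hK hF a T).Ex a
  have haT2 : a ∉ T2 := fun h => haV (hT2 h)
  have ha₁T2 : a₁ ∉ T2 := fun h => ha₁ (hT2 h)
  have hF1ind : ∀ c ∈ T2, Ind F1 c := fun c hc =>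
    (mp_ind_mul (hT2F c hc) (mp_ind_prod W p (a := a) (b := c) (T := T)
      (fun h => haT2 (h ▸ hc)) (hT2T c hc))).Ex a
  obtain ⟨b₁, hb₁, b₂, hb₂, hne⟩ := Finset.one_lt_card.1 h2
  have hpc : Nice (fun x : ι → Ω => ∏ c ∈ C, |kg W p (x a₁) (x c)|) :=
    Nice.prod C fun c _ => (hK.nice_ge a₁ c).abs
  have hH : Nice (fun x : ι → Ω => |F1 x| * ∏ c ∈ C, |kg W p (x a₁) (x c)|) := hF1.abs.mul hpc
  have hG : Nice (fun x : ι → Ω => (F1 x * ∏ c ∈ C, kg W p (x a₁) (x c)) *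
      ∏ c ∈ T2, kg W p (x a₁) (x c)) :=
    (hF1.mul (hK.nice_prod_ge a₁ C)).mul (hK.nice_prod_ge a₁ T2)
  have s1 : NN μ W (ed V') (fun x => (F1 x * ∏ c ∈ C, kg W p (x a₁) (x c)) *
      ∏ c ∈ T2, kg W p (x a₁) (x c)) ≤
      2 ^ T2.card * EE μ (fun x => |F1 x| * ∏ c ∈ C, |kg W p (x a₁) (x c)|) := by
    refine (NN_le hK _ hG).trans ?_
    have e : (fun x : ι → Ω => |(F1 x * ∏ c ∈ C, kg W p (x a₁) (x c)) *
        ∏ c ∈ T2, kg W p (x a₁) (x c)|) =
        fun x => (|F1 x| * ∏ c ∈ C, |kg W p (x a₁) (x c)|) *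
          ∏ c ∈ T2, |kg W p (x a₁) (x c)| := by
      funext x
      rw [abs_mul, abs_mul, Finset.abs_prod, Finset.abs_prod]
    rw [e]
    refine beta_kg hK hH (fun x => ?_) ha₁T2 ?_
    · exact mul_nonneg (abs_nonneg _) (Finset.prod_nonneg fun c _ => abs_nonneg _)
    · intro c hc
      exact mp_ind_mul (mp_ind_abs (hF1ind c hc))
        (mp_ind_prod_abs W p (fun h => ha₁T2 (h ▸ hc))
          (fun h => Finset.disjoint_left.1 hCT h hc))
  have s2 : (2 * p) ^ C.card * EE μ (fun x => |F1 x| * ∏ c ∈ C, |kg W p (x a₁) (x c)|) ≤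
      (p ^ 2 * 2 ^ C.card) * EE μ (fun x => |F1 x| *
        (kb W p (x a₁) (x b₁) * kb W p (x a₁) (x b₂))) := by
    rw [← EE_const_mul, ← EE_const_mul]
    have hkk : Nice (fun x : ι → Ω => |F1 x| *
        (kb W p (x a₁) (x b₁) * kb W p (x a₁) (x b₂))) :=
      hF1.abs.mul ((hK.nice_gbe a₁ b₁).mul (hK.nice_gbe a₁ b₂))
    refine EE_mono ((Nice.const _).mul hH) ((Nice.const _).mul hkk) ?_
    intro x
    have := mul_le_mul_of_nonneg_left (mp_prod_C hK hb₁ hb₂ hne a₁ x) (abs_nonneg (F1 x))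
    calc _ = |F1 x| * ((2 * p) ^ C.card * ∏ c ∈ C, |kg W p (x a₁) (x c)|) := by ring
      _ ≤ _ := this
      _ = _ := by ring
  have hbV : ∀ b ∈ C, b ≠ a ∧ b ≠ a₁ := fun b hb =>
    ⟨fun h => haV (h ▸ hC hb), fun h => ha₁ (h ▸ hC hb)⟩
  have s3 := gamma hK hM hF haT ha₁T hind hne (hbV b₁ hb₁).1 (hbV b₂ hb₂).1
    (hbV b₁ hb₁).2 (hbV b₂ hb₂).2
  rw [← hF1d] at s3
  calc (2 * p) ^ (C.card + T2.card) * NN μ W (ed V') (fun x =>
        (F1 x * ∏ c ∈ C, kg W p (x a₁) (x c)) * ∏ c ∈ T2, kg W p (x a₁) (x c))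
      ≤ (2 * p) ^ (C.card + T2.card) *
        (2 ^ T2.card * EE μ (fun x => |F1 x| * ∏ c ∈ C, |kg W p (x a₁) (x c)|)) :=
        mul_le_mul_of_nonneg_left s1 (by positivity)
    _ = (4 * p) ^ T2.card * ((2 * p) ^ C.card *
        EE μ (fun x => |F1 x| * ∏ c ∈ C, |kg W p (x a₁) (x c)|)) := by
        have : (4 * p) ^ T2.card = (2 * p) ^ T2.card * 2 ^ T2.card := by
          rw [← mul_pow]; congr 1; ring
        rw [this, pow_add]; ring
    _ ≤ (4 * p) ^ T2.card * ((p ^ 2 * 2 ^ C.card) *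
        (1000 * 2 ^ T.card * Real.sqrt (EE μ (fun x => F x ^ 2)))) := by
        refine mul_le_mul_of_nonneg_left (s2.trans ?_) (by positivity)
        exact mul_le_mul_of_nonneg_left s3 (by positivity)


/-- the expectation with exactly one collision and few new leaves -/
theorem mp_one_small (hK : Kern μ W p) (hM : Mom μ W p η R) {F : (ι → Ω) → ℝ} (hF : Nice F)
    {V' T2 L B : Finset ι} {a a₁ b : ι} (haV : a ∉ V') (haa : a₁ ≠ a) (ha₁ : a₁ ∉ V')
    (hL : L ⊆ V') (hB : B ⊆ V') (hLB : Disjoint L B) (hT2 : T2 ⊆ V' \ (L ∪ B))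
    (hFa : Ind F a₁) (hFi : ∀ c ∈ V' \ L, Ind F c) (hb : b ∈ L ∪ B) (hR : T2.card < R) :
    NN μ W (ed V') (fun x =>
        ((Ex μ a (fun x => F x * ∏ c ∈ insert a₁ B, kg W p (x a) (x c)) x) *
          kg W p (x a₁) (x b)) * ∏ c ∈ T2, kg W p (x a₁) (x c)) ≤
      2 ^ B.card * η * Real.sqrt (EE μ (fun x => F x ^ 2)) := by
  have hη := hM.eta_nonneg
  have hη1 := hM.eta_le
  have hN : 0 ≤ Real.sqrt (EE μ (fun x => F x ^ 2)) := Real.sqrt_nonneg _
  have hT2V : T2 ⊆ V' := fun c hc => (Finset.mem_sdiff.1 (hT2 hc)).1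
  have hT2n : ∀ c ∈ T2, c ∉ L ∧ c ∉ B := fun c hc => by
    have := (Finset.mem_sdiff.1 (hT2 hc)).2
    simpa [not_or] using this
  have hG : Nice (fun x : ι → Ω =>
        ((Ex μ a (fun x => F x * ∏ c ∈ insert a₁ B, kg W p (x a) (x c)) x) *
          kg W p (x a₁) (x b)) * ∏ c ∈ T2, kg W p (x a₁) (x c)) :=
    (((mp_nice hK hF a _).Ex a).mul (hK.nice_ge a₁ b)).mul (hK.nice_prod_ge a₁ T2)
  have hbV : b ∈ V' := by
    rcases Finset.mem_union.1 hb with h | h
    · exact hL h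
    · exact hB h
  have hba : b ≠ a := fun h => haV (h ▸ hbV)
  have hba₁ : b ≠ a₁ := fun h => ha₁ (h ▸ hbV)
  have haB : a ∉ B := fun h => haV (hB h)
  have ha₁B : a₁ ∉ B := fun h => ha₁ (hB h)
  have haT : a ∉ T2 := fun h => haV (hT2V h)
  have ha₁T : a₁ ∉ T2 := fun h => ha₁ (hT2V h)
  have hFB : ∀ c ∈ B, Ind F c := fun c hc =>
    hFi c (Finset.mem_sdiff.2 ⟨hB hc, fun h => Finset.disjoint_left.1 hLB h hc⟩)
  have hFT : ∀ c ∈ T2, Ind F c := fun c hc =>
    hFi c (Finset.mem_sdiff.2 ⟨hT2V hc, (hT2n c hc).1⟩)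
  have hBT : Disjoint B T2 := Finset.disjoint_left.2 fun c h1 h2 => (hT2n c h2).2 h1
  refine (mp_NN_le_Ex hK ha₁ hG).trans ?_
  rcases Finset.mem_union.1 hb with h | h
  · have hbB : b ∉ B := fun h' => Finset.disjoint_left.1 hLB h h'
    have hbT : b ∉ T2 := fun h' => (hT2n b h').1 h
    refine (delta hK hF haa hba hba₁ haB ha₁B hbB haT ha₁T hbT hBT hFa hFB hFT).trans ?_
    have hm := hM.m2 (T2.card + 2) (by omega) (by omega)
    have hs : Real.sqrt (∫ y, ∫ z, |kh μ W p y z| ^ (T2.card + 2) ∂μ ∂μ) ≤ η := by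
      rw [Real.sqrt_le_left hη]
      calc _ ≤ η ^ 4 := hm
        _ = η ^ 2 * η ^ 2 := by ring
        _ ≤ 1 * η ^ 2 := by
            refine mul_le_mul_of_nonneg_right ?_ (by positivity)
            exact pow_le_one₀ hη hη1
        _ = η ^ 2 := one_mul _
    calc _ ≤ 2 ^ B.card * Real.sqrt (EE μ (fun x => F x ^ 2)) * η :=
          mul_le_mul_of_nonneg_left hs (by positivity)
      _ = _ := by ring
  · have hbT : b ∉ T2 := fun h' => (hT2n b h').2 h
    have e : insert b (B.erase b) = B := Finset.insert_erase h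
    have hcard : (B.erase b).card + 1 = B.card := Finset.card_erase_add_one h
    have key := epsil hK hM hF haa hba hba₁ (B := B.erase b) (T' := T2)
      (fun h' => haB (Finset.mem_of_mem_erase h')) (fun h' => ha₁B (Finset.mem_of_mem_erase h'))
      (by simp) haT ha₁T hbT
      (Finset.disjoint_of_subset_left (Finset.erase_subset _ _) hBT) hFa (hFB b h)
      (fun c hc => hFB c (Finset.mem_of_mem_erase hc)) hFT hR.le
    rw [e] at key
    refine key.trans ?_
    calc 2 ^ (B.erase b).card * (2 * η) * EE μ (fun x => |F x|)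
        ≤ 2 ^ (B.erase b).card * (2 * η) * Real.sqrt (EE μ (fun x => F x ^ 2)) :=
          mul_le_mul_of_nonneg_left (EE_abs_le_sqrt hF) (by positivity)
      _ = _ := by rw [← hcard, pow_succ]; ring

/-- the weighted term with exactly one collision -/
theorem mp_one_term (hK : Kern μ W p) (hM : Mom μ W p η R) {F : (ι → Ω) → ℝ} (hF : Nice F)
    {V' T2 L B : Finset ι} {a a₁ b : ι} (haV : a ∉ V') (haa : a₁ ≠ a) (ha₁ : a₁ ∉ V')
    (hL : L ⊆ V') (hB : B ⊆ V') (hLB : Disjoint L B) (hT2 : T2 ⊆ V' \ (L ∪ B))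
    (hFa : Ind F a₁) (hFi : ∀ c ∈ V' \ L, Ind F c) (hb : b ∈ L ∪ B) :
    (2 * p) ^ (1 + T2.card) * NN μ W (ed V') (fun x =>
        ((Ex μ a (fun x => F x * ∏ c ∈ insert a₁ B, kg W p (x a) (x c)) x) *
          kg W p (x a₁) (x b)) * ∏ c ∈ T2, kg W p (x a₁) (x c)) ≤
      (2 * p) ^ T2.card * (p * η * (2 ^ (B.card + 1) * Real.sqrt (EE μ (fun x => F x ^ 2)))) +
      (if R ≤ T2.card then (4 * p) ^ T2.card *
        (2 * (2 ^ (B.card + 1) * Real.sqrt (EE μ (fun x => F x ^ 2)))) else 0) := by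
  have hp := hK.p_pos
  have hη := hM.eta_nonneg
  have hN : 0 ≤ Real.sqrt (EE μ (fun x => F x ^ 2)) := Real.sqrt_nonneg _
  by_cases hR : R ≤ T2.card
  · rw [if_pos hR]
    have hT2V : T2 ⊆ V' := fun c hc => (Finset.mem_sdiff.1 (hT2 hc)).1
    have hT2n : ∀ c ∈ T2, c ∉ L ∧ c ∉ B := fun c hc => by
      have := (Finset.mem_sdiff.1 (hT2 hc)).2
      simpa [not_or] using this
    have haT : a ∉ T2 := fun h => haV (hT2V h)
    have ha₁T : a₁ ∉ T2 := fun h => ha₁ (hT2V h)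
    have haB : a ∉ insert a₁ B := by
      intro h
      rcases Finset.mem_insert.1 h with h | h
      · exact haa h.symm
      · exact haV (hB h)
    have hFB : ∀ c ∈ insert a₁ B, Ind F c := fun c hc => by
      rcases Finset.mem_insert.1 hc with h | h
      · rw [h]; exact hFa
      · exact hFi c (Finset.mem_sdiff.2 ⟨hB h, fun h' => Finset.disjoint_left.1 hLB h' h⟩)
    have hbT : b ∉ T2 := fun h' => by
      rcases Finset.mem_union.1 hb with h | h
      · exact (hT2n b h').1 h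
      · exact (hT2n b h').2 h
    have hF1 : Nice (Ex μ a (fun x => F x * ∏ c ∈ insert a₁ B, kg W p (x a) (x c))) :=
      (mp_nice hK hF a _).Ex a
    have hind : ∀ c ∈ T2,
        Ind (Ex μ a (fun x => F x * ∏ c ∈ insert a₁ B, kg W p (x a) (x c))) c := by
      intro c hc
      refine (mp_ind_mul (hFi c (Finset.mem_sdiff.2 ⟨hT2V hc, (hT2n c hc).1⟩))
        (mp_ind_prod W p (a := a) (b := c) (T := insert a₁ B) (fun h => haT (h ▸ hc)) ?_)).Ex a
      intro h
      rcases Finset.mem_insert.1 h with h | h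
      · exact ha₁T (h ▸ hc)
      · exact (hT2n c hc).2 h
    have h1 := mp_one_big (b := b) hK hF1 ha₁ hT2V hbT hind
    have h2 := mp_F1_abs hK hF haB hFB
    have hc : (insert a₁ B).card = B.card + 1 :=
      Finset.card_insert_of_notMem (fun h => ha₁ (hB h))
    rw [hc] at h2
    have h3 : 0 ≤ (2 * p) ^ T2.card * (p * η *
      (2 ^ (B.card + 1) * Real.sqrt (EE μ (fun x => F x ^ 2)))) := by positivity
    have h4 : (4 * p) ^ T2.card = (2 * p) ^ T2.card * 2 ^ T2.card := by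
      rw [← mul_pow]; congr 1; ring
    calc _ ≤ (2 * p) ^ (1 + T2.card) * (2 ^ T2.card * (1 / p *
          (2 ^ (B.card + 1) * Real.sqrt (EE μ (fun x => F x ^ 2))))) := by
          refine mul_le_mul_of_nonneg_left (h1.trans ?_) (by positivity)
          refine mul_le_mul_of_nonneg_left ?_ (by positivity)
          exact mul_le_mul_of_nonneg_left h2 (by positivity)
      _ = (4 * p) ^ T2.card *
          (2 * (2 ^ (B.card + 1) * Real.sqrt (EE μ (fun x => F x ^ 2)))) := by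
          rw [h4, pow_add]; field_simp
      _ ≤ _ := by linarith
  · rw [if_neg hR, add_zero]
    have h1 := mp_one_small hK hM hF haV haa ha₁ hL hB hLB hT2 hFa hFi hb (by omega)
    calc _ ≤ (2 * p) ^ (1 + T2.card) * (2 ^ B.card * η *
          Real.sqrt (EE μ (fun x => F x ^ 2))) := mul_le_mul_of_nonneg_left h1 (by positivity)
      _ = _ := by rw [pow_add, pow_succ]; ring


/-- one exploration step -/
theorem mp_step (hK : Kern μ W p) (hM : Mom μ W p η R) (M τ Ψ : ℝ)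
    (hS : ∀ B : Finset ι, ∑ T ∈ B.powerset, (32 * p) ^ T.card ≤ M)
    (hτ : ∀ B : Finset ι, ∑ T ∈ B.powerset.filter (fun T => R ≤ T.card), (4 * p) ^ T.card ≤ τ)
    (hΨ : 0 ≤ Ψ)
    {V' L B : Finset ι} {a a₁ : ι} (haV : a ∉ V') (haa : a₁ ≠ a) (ha₁ : a₁ ∉ V')
    (hL : L ⊆ V') (hB : B ⊆ V') (hLB : Disjoint L B)
    {F : (ι → Ω) → ℝ} (hF : Nice F) (hFa : Ind F a₁) (hFi : ∀ b ∈ V' \ L, Ind F b)
    (hBR : B.card + 1 ≤ R)
    (IH : ∀ (a : ι) (L : Finset ι) (F : (ι → Ω) → ℝ), a ∉ V' → L ⊆ V' → Nice F →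
      (∀ b ∈ V' \ L, Ind F b) →
      ∑ T ∈ (V' \ L).powerset.filter (fun T => 1 ≤ T.card ∧ T.card ≤ R),
        (2 * p) ^ T.card * NN μ W (ed V') (fun x => F x * ∏ b ∈ T, kg W p (x a) (x b)) ≤
      Ψ * 8 ^ L.card * Real.sqrt (EE μ (fun x => F x ^ 2))) :
    NN μ W (ed (insert a₁ V')) (fun x => F x * ∏ b ∈ insert a₁ B, kg W p (x a) (x b)) ≤
      8 ^ (L.card + B.card) * Real.sqrt (EE μ (fun x => F x ^ 2)) *
        (Ψ * η + 2 ^ (B.card + 1) * (τ + p * M * η + 1000 * M * p ^ 2)) := by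
  have hp := hK.p_pos
  have hη := hM.eta_nonneg
  set N := Real.sqrt (EE μ (fun x => F x ^ 2)) with hNd
  have hN : 0 ≤ N := Real.sqrt_nonneg _
  have hM1 : 1 ≤ M := by simpa using hS ∅
  have hM0 : 0 ≤ M := by linarith
  have hτ0 : 0 ≤ τ := le_trans (Finset.sum_nonneg fun T _ => by positivity) (hτ ∅)
  have haB : a ∉ insert a₁ B := by
    intro h
    rcases Finset.mem_insert.1 h with h | h
    · exact haa h.symm
    · exact haV (hB h)
  have hFB : ∀ c ∈ insert a₁ B, Ind F c := fun c hc => by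
    rcases Finset.mem_insert.1 hc with h | h
    · rw [h]; exact hFa
    · exact hFi c (Finset.mem_sdiff.2 ⟨hB h, fun h' => Finset.disjoint_left.1 hLB h' h⟩)
  have ha₁B : a₁ ∉ B := fun h => ha₁ (hB h)
  have hc : (insert a₁ B).card = B.card + 1 := Finset.card_insert_of_notMem ha₁B
  have haI : a ∉ insert a₁ V' := by
    intro h
    rcases Finset.mem_insert.1 h with h | h
    · exact haa h.symm
    · exact haV h
  have hG0 := mp_nice hK hF a (insert a₁ B)
  have hF1 : Nice (Ex μ a (fun x => F x * ∏ c ∈ insert a₁ B, kg W p (x a) (x c))) := hG0.Ex a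
  have hz := mp_zero hK hF haa ha₁B hFa
  have hF1a := mp_F1_abs hK hF haB hFB
  have hF1s := mp_F1_sq hK hM hF haB hFB (by omega) (by omega)
  have hF1ind : ∀ c ∈ V' \ (L ∪ B),
      Ind (Ex μ a (fun x => F x * ∏ c ∈ insert a₁ B, kg W p (x a) (x c))) c := by
    intro c hc
    have hcV := (Finset.mem_sdiff.1 hc).1
    have hcn : c ∉ L ∧ c ∉ B := by
      have := (Finset.mem_sdiff.1 hc).2
      simpa [not_or] using this
    refine (mp_ind_mul (hFi c (Finset.mem_sdiff.2 ⟨hcV, hcn.1⟩))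
      (mp_ind_prod W p (a := a) (b := c) (T := insert a₁ B) (fun h => haV (h ▸ hcV)) ?_)).Ex a
    intro h
    rcases Finset.mem_insert.1 h with h | h
    · exact ha₁ (h ▸ hcV)
    · exact hcn.2 h
  rw [hc] at hF1a
  rw [← hNd] at hF1a hF1s
  rw [NN_Ex hK _ hG0 a (not_mem_of_ed _ a haI)]
  have hLBV : L ∪ B ⊆ V' := Finset.union_subset hL hB
  have hrec := NN_rec hK hF1 V' (L ∪ B) (V' \ (L ∪ B)) a₁ ha₁ Finset.disjoint_sdiff
    (Finset.union_sdiff_of_subset hLBV).symm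
  refine hrec.trans ?_
  have hone : ∀ c ∈ L ∪ B, ∀ T2 ∈ (V' \ (L ∪ B)).powerset,
      (2 * p) ^ (1 + T2.card) * NN μ W (ed V') (fun x =>
        ((Ex μ a (fun x => F x * ∏ c ∈ insert a₁ B, kg W p (x a) (x c)) x) *
          kg W p (x a₁) (x c)) * ∏ c ∈ T2, kg W p (x a₁) (x c)) ≤
      (2 * p) ^ T2.card * (p * η * (2 ^ (B.card + 1) * N)) +
      (if R ≤ T2.card then (4 * p) ^ T2.card * (2 * (2 ^ (B.card + 1) * N)) else 0) :=
    fun c hcm T2 hT2 => mp_one_term hK hM hF haV haa ha₁ hL hB hLB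
      (Finset.mem_powerset.1 hT2) hFa hFi hcm
  set F1 := Ex μ a (fun x => F x * ∏ c ∈ insert a₁ B, kg W p (x a) (x c)) with hF1d
  set S := V' \ (L ∪ B) with hSd
  have hSV : S ⊆ V' := Finset.sdiff_subset
  have hsum2 : ∑ T ∈ S.powerset, (2 * p) ^ T.card ≤ M := by
    refine le_trans (Finset.sum_le_sum fun T _ => ?_) (hS S)
    exact pow_le_pow_left₀ (by positivity) (by linarith) _
  have hsum4 : ∑ T ∈ S.powerset, (4 * p) ^ T.card ≤ M := by
    refine le_trans (Finset.sum_le_sum fun T _ => ?_) (hS S)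
    exact pow_le_pow_left₀ (by positivity) (by linarith) _
  have hcardL1 : (L ∪ B).card = L.card + B.card := Finset.card_union_of_disjoint hLB
  -- no collision
  have hA : ∑ T ∈ S.powerset, (2 * p) ^ ((∅ : Finset ι).card + T.card) *
        NN μ W (ed V') (fun x => (F1 x * ∏ b ∈ (∅ : Finset ι), kg W p (x a₁) (x b)) *
          ∏ b ∈ T, kg W p (x a₁) (x b)) ≤
      Ψ * 8 ^ (L ∪ B).card * (N * η) + τ * (2 ^ (B.card + 1) * N) := by
    have e : ∀ T : Finset ι, (2 * p) ^ ((∅ : Finset ι).card + T.card) *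
        NN μ W (ed V') (fun x => (F1 x * ∏ b ∈ (∅ : Finset ι), kg W p (x a₁) (x b)) *
          ∏ b ∈ T, kg W p (x a₁) (x b)) =
        (2 * p) ^ T.card * NN μ W (ed V') (fun x => F1 x * ∏ b ∈ T, kg W p (x a₁) (x b)) := by
      intro T
      simp
    rw [Finset.sum_congr rfl fun T _ => e T]
    have hle : ∀ T ∈ S.powerset,
        (2 * p) ^ T.card * NN μ W (ed V') (fun x => F1 x * ∏ b ∈ T, kg W p (x a₁) (x b)) ≤
        (if 1 ≤ T.card ∧ T.card ≤ R then (2 * p) ^ T.card *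
          NN μ W (ed V') (fun x => F1 x * ∏ b ∈ T, kg W p (x a₁) (x b)) else 0) +
        (if R ≤ T.card then (4 * p) ^ T.card * (2 ^ (B.card + 1) * N) else 0) := by
      intro T hT
      have hTS : T ⊆ S := Finset.mem_powerset.1 hT
      have hpos : 0 ≤ (4 * p) ^ T.card * (2 ^ (B.card + 1) * N) := by positivity
      by_cases h1 : 1 ≤ T.card ∧ T.card ≤ R
      · rw [if_pos h1]
        split_ifs
        · linarith
        · linarith
      · rw [if_neg h1]
        by_cases h2 : R ≤ T.card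
        · rw [if_pos h2, zero_add]
          have ha₁T : a₁ ∉ T := fun h => ha₁ (hSV (hTS h))
          have hb := (mp_NN_le_Ex (μ := μ) hK ha₁ (mp_nice hK hF1 a₁ T)).trans
            (beta hK hF1 ha₁T fun b hb => hF1ind b (hTS hb))
          have h4 : (4 * p) ^ T.card = (2 * p) ^ T.card * 2 ^ T.card := by
            rw [← mul_pow]; congr 1; ring
          calc _ ≤ (2 * p) ^ T.card * (2 ^ T.card * (2 ^ (B.card + 1) * N)) := by
                refine mul_le_mul_of_nonneg_left (hb.trans ?_) (by positivity)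
                exact mul_le_mul_of_nonneg_left hF1a (by positivity)
            _ = _ := by rw [h4]; ring
        · have hT0 : T = ∅ := Finset.card_eq_zero.1 (by omega)
          subst hT0
          rw [if_neg h2]
          have e2 : (fun x : ι → Ω => F1 x * ∏ b ∈ (∅ : Finset ι), kg W p (x a₁) (x b)) = F1 := by
            funext x; simp
          rw [e2, NN_Ex hK (ed V') hF1 a₁ (not_mem_of_ed V' a₁ ha₁), hz, mp_NN_zero]
          simp
    refine (Finset.sum_le_sum hle).trans ?_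
    rw [Finset.sum_add_distrib, ← Finset.sum_filter, ← Finset.sum_filter, ← Finset.sum_mul]
    refine add_le_add ?_ (mul_le_mul_of_nonneg_right (hτ S) (by positivity))
    refine (IH a₁ (L ∪ B) F1 ha₁ hLBV hF1 hF1ind).trans ?_
    exact mul_le_mul_of_nonneg_left hF1s (by positivity)
  -- one collision
  have hBB : ∀ c ∈ L ∪ B, ∑ T ∈ S.powerset, (2 * p) ^ (({c} : Finset ι).card + T.card) *
        NN μ W (ed V') (fun x => (F1 x * ∏ b ∈ ({c} : Finset ι), kg W p (x a₁) (x b)) *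
          ∏ b ∈ T, kg W p (x a₁) (x b)) ≤
      (2 * τ + p * M * η) * (2 ^ (B.card + 1) * N) := by
    intro c hcm
    have e : ∀ T : Finset ι, (2 * p) ^ (({c} : Finset ι).card + T.card) *
        NN μ W (ed V') (fun x => (F1 x * ∏ b ∈ ({c} : Finset ι), kg W p (x a₁) (x b)) *
          ∏ b ∈ T, kg W p (x a₁) (x b)) =
        (2 * p) ^ (1 + T.card) * NN μ W (ed V') (fun x => (F1 x * kg W p (x a₁) (x c)) *
          ∏ b ∈ T, kg W p (x a₁) (x b)) := by
      intro T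
      simp
    rw [Finset.sum_congr rfl fun T _ => e T]
    refine (Finset.sum_le_sum (hone c hcm)).trans ?_
    rw [Finset.sum_add_distrib, ← Finset.sum_filter, ← Finset.sum_mul, ← Finset.sum_mul]
    have h1 := mul_le_mul_of_nonneg_right hsum2
      (show 0 ≤ p * η * (2 ^ (B.card + 1) * N) by positivity)
    have h2 := mul_le_mul_of_nonneg_right (hτ S)
      (show 0 ≤ 2 * (2 ^ (B.card + 1) * N) by positivity)
    refine (add_le_add h1 h2).trans (le_of_eq ?_)
    ring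
  -- several collisions
  have hCC : ∀ C ⊆ L ∪ B, 2 ≤ C.card → ∑ T ∈ S.powerset, (2 * p) ^ (C.card + T.card) *
        NN μ W (ed V') (fun x => (F1 x * ∏ b ∈ C, kg W p (x a₁) (x b)) *
          ∏ b ∈ T, kg W p (x a₁) (x b)) ≤
      (M * (p ^ 2 * (1000 * 2 ^ (B.card + 1) * N))) * 2 ^ C.card := by
    intro C hC h2
    have hle : ∀ T ∈ S.powerset, (2 * p) ^ (C.card + T.card) *
        NN μ W (ed V') (fun x => (F1 x * ∏ b ∈ C, kg W p (x a₁) (x b)) *
          ∏ b ∈ T, kg W p (x a₁) (x b)) ≤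
        (4 * p) ^ T.card * ((p ^ 2 * 2 ^ C.card) * (1000 * 2 ^ (B.card + 1) * N)) := by
      intro T hT
      have hTS : T ⊆ S := Finset.mem_powerset.1 hT
      have hTn : ∀ c ∈ T, c ∈ V' ∧ c ∉ L ∧ c ∉ B := fun c hc => by
        have h := Finset.mem_sdiff.1 (hTS hc)
        have := h.2
        refine ⟨h.1, ?_⟩
        simpa [not_or] using this
      have := mp_two (C := C) (T2 := T) (a₁ := a₁) hK hM hF haB (Finset.mem_insert_self a₁ B)
        hFB ha₁ haV (hTS.trans hSV) (hC.trans hLBV)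
        (Finset.disjoint_left.2 fun c h1 h2 => (Finset.mem_sdiff.1 (hTS h2)).2 (hC h1))
        (fun c hc h => by
          rcases Finset.mem_insert.1 h with h | h
          · exact ha₁ (h ▸ (hTn c hc).1)
          · exact (hTn c hc).2.2 h)
        (fun c hc => hFi c (Finset.mem_sdiff.2 ⟨(hTn c hc).1, (hTn c hc).2.1⟩)) h2
      rw [hc] at this
      exact this
    refine (Finset.sum_le_sum hle).trans ?_
    rw [← Finset.sum_mul]
    refine (mul_le_mul_of_nonneg_right hsum4 (by positivity)).trans (le_of_eq ?_)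
    ring
  refine (mp_split (L ∪ B) _ _ _ _ (by positivity) (by positivity) (by positivity)
    hA hBB hCC).trans ?_
  rw [hcardL1]
  set k := L.card + B.card with hk
  have h8 : (3 : ℝ) ^ k ≤ 8 ^ k := pow_le_pow_left₀ (by norm_num) (by norm_num) _
  have hb3 : 1 + 2 * (k : ℝ) ≤ 8 ^ k := by
    have := one_add_mul_le_pow (show (-2 : ℝ) ≤ 2 by norm_num) k
    have h3 : (1 + 2 : ℝ) ^ k = 3 ^ k := by norm_num
    rw [h3] at this
    linarith
  have hk0 : (0 : ℝ) ≤ k := Nat.cast_nonneg k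
  have hk8 : (k : ℝ) ≤ 8 ^ k := by linarith
  have hX : 0 ≤ 2 ^ (B.card + 1) * N := by positivity
  have e1 : τ * (2 ^ (B.card + 1) * N) + k * ((2 * τ + p * M * η) * (2 ^ (B.card + 1) * N)) =
      (2 ^ (B.card + 1) * N) * (τ * (1 + 2 * k) + p * M * η * k) := by ring
  have e2 : τ * (1 + 2 * (k : ℝ)) + p * M * η * k ≤ τ * 8 ^ k + p * M * η * 8 ^ k :=
    add_le_add (mul_le_mul_of_nonneg_left hb3 hτ0) (mul_le_mul_of_nonneg_left hk8 (by positivity))
  have e3 := mul_le_mul_of_nonneg_left e2 hX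
  have e4 : (M * (p ^ 2 * (1000 * 2 ^ (B.card + 1) * N))) * 3 ^ k ≤
      (M * (p ^ 2 * (1000 * 2 ^ (B.card + 1) * N))) * 8 ^ k :=
    mul_le_mul_of_nonneg_left h8 (by positivity)
  calc Ψ * 8 ^ k * (N * η) + τ * (2 ^ (B.card + 1) * N) +
        k * ((2 * τ + p * M * η) * (2 ^ (B.card + 1) * N)) +
        (M * (p ^ 2 * (1000 * 2 ^ (B.card + 1) * N))) * 3 ^ k
      = Ψ * 8 ^ k * (N * η) + (τ * (2 ^ (B.card + 1) * N) +
        k * ((2 * τ + p * M * η) * (2 ^ (B.card + 1) * N))) +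
        (M * (p ^ 2 * (1000 * 2 ^ (B.card + 1) * N))) * 3 ^ k := by ring
    _ ≤ Ψ * 8 ^ k * (N * η) +
        (2 ^ (B.card + 1) * N) * (τ * 8 ^ k + p * M * η * 8 ^ k) +
        (M * (p ^ 2 * (1000 * 2 ^ (B.card + 1) * N))) * 8 ^ k := by
        rw [e1]; linarith
    _ = _ := by ring

end Pool.Agent.H83.RGG
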