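import Pool.Agent.H83.RGG.Kernel

/-! Module R03_Norm: the graph norm `NN`, its star expansion, and the defect `DD`. -/

set_option autoImplicit false

open MeasureTheory ProbabilityTheory

namespace Pool.Agent.H83.RGG

variable {Ω : Type} [MeasurableSpace Ω] {ι : Type} [Fintype ι] [DecidableEq ι]
variable {μ : Measure Ω} [IsProbabilityMeasure μ] {W : Ω → Ω → ℝ} {p : ℝ}

theorem NN_nonneg (μ : Measure Ω) (W : Ω → Ω → ℝ) (E : Finset (Sym2 ι)) (F : (ι → Ω) → ℝ) :
    0 ≤ NN μ W E F :=
  Finset.sum_nonneg fun _ _ => abs_nonneg _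

/-- the norm is at most the `L¹` norm -/
theorem NN_le (hK : Kern μ W p) (E : Finset (Sym2 ι)) {F : (ι → Ω) → ℝ} (hF : Nice F) :
    NN μ W E F ≤ EE μ (fun x => |F x|) := by
  have h1 : ∀ G ∈ E.powerset, |EE μ (fun x => F x * wt W E G x)| ≤
      EE μ (fun x => |F x| * wt W E G x) := by
    intro G _
    refine (abs_EE_le _).trans (le_of_eq ?_)
    congr 1
    funext x
    rw [abs_mul, abs_of_nonneg (hK.wt_nonneg E G x)]
  calc NN μ W E F ≤ ∑ G ∈ E.powerset, EE μ (fun x => |F x| * wt W E G x) :=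
        Finset.sum_le_sum h1
    _ = EE μ (fun x => ∑ G ∈ E.powerset, |F x| * wt W E G x) :=
        (EE_sum _ fun G _ => hF.abs.mul (hK.nice_wt E G)).symm
    _ = EE μ (fun x => |F x|) := by
        congr 1
        funext x
        rw [← Finset.mul_sum, sum_wt, mul_one]

/-- a coordinate not touched by `E` may be integrated out -/
theorem NN_Ex (hK : Kern μ W p) (E : Finset (Sym2 ι)) {F : (ι → Ω) → ℝ} (hF : Nice F)
    (a : ι) (ha : ∀ e ∈ E, a ∉ e) : NN μ W E F = NN μ W E (Ex μ a F) := by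
  unfold NN
  refine Finset.sum_congr rfl fun G hG => ?_
  have hG' : G ⊆ E := Finset.mem_powerset.1 hG
  have h1 : EE μ (fun x => F x * wt W E G x) =
      EE μ (Ex μ a (fun x => F x * wt W E G x)) :=
    (EE_Ex (hF.mul (hK.nice_wt E G)) a).symm
  rw [h1]
  congr 2
  funext x
  exact Ex_mul_right (ind_wt W E G hG' a ha) x

omit [MeasurableSpace Ω] [Fintype ι] in
theorem wt_insert_left (W : Ω → Ω → ℝ) (E G : Finset (Sym2 ι)) (e : Sym2 ι) (he : e ∉ E)
    (hG : G ⊆ E) (x : ι → Ω) :
    wt W (insert e E) G x = wt W E G x * (1 - We W e x) := by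
  have heG : e ∉ G := fun h => he (hG h)
  unfold wt
  rw [Finset.insert_sdiff_of_notMem _ heG, Finset.prod_insert (fun h => he (Finset.mem_sdiff.1 h).1)]
  ring

omit [MeasurableSpace Ω] [Fintype ι] in
theorem wt_insert_both (W : Ω → Ω → ℝ) (E G : Finset (Sym2 ι)) (e : Sym2 ι) (he : e ∉ E)
    (hG : G ⊆ E) (x : ι → Ω) :
    wt W (insert e E) (insert e G) x = wt W E G x * We W e x := by
  have heG : e ∉ G := fun h => he (hG h)
  unfold wt
  rw [Finset.prod_insert heG, Finset.insert_sdiff_insert, Finset.sdiff_insert_of_notMem he]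
  ring

theorem Kern.We_eq (hK : Kern μ W p) (a b : ι) (x : ι → Ω) :
    We W s(a, b) x = p * (1 + kg W p (x a) (x b)) := by
  rw [hK.We_mk]
  unfold kg
  have := hK.p_pos.ne'
  field_simp
  ring

/-- splitting of the expectation for an absent edge -/
theorem EE_absent (hK : Kern μ W p) (E G : Finset (Sym2 ι)) {F : (ι → Ω) → ℝ} (hF : Nice F)
    (a b : ι) (he : s(a, b) ∉ E) (hG : G ⊆ E) :
    EE μ (fun x => F x * wt W (insert s(a, b) E) G x) =
      (1 - p) * EE μ (fun x => F x * wt W E G x) -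
        p * EE μ (fun x => (F x * kg W p (x a) (x b)) * wt W E G x) := by
  have h1 : (fun x => F x * wt W (insert s(a, b) E) G x) =
      fun x => (1 - p) * (F x * wt W E G x) +
        (-p) * ((F x * kg W p (x a) (x b)) * wt W E G x) := by
    funext x
    rw [wt_insert_left W E G _ he hG, hK.We_eq]
    ring
  have n1 : Nice (fun x : ι → Ω => F x * wt W E G x) := hF.mul (hK.nice_wt E G)
  have n2 : Nice (fun x : ι → Ω => (F x * kg W p (x a) (x b)) * wt W E G x) :=
    (hF.mul (hK.nice_ge a b)).mul (hK.nice_wt E G)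
  rw [h1, EE_add ((Nice.const _).mul n1) ((Nice.const _).mul n2), EE_const_mul, EE_const_mul]
  ring

theorem EE_present (hK : Kern μ W p) (E G : Finset (Sym2 ι)) {F : (ι → Ω) → ℝ} (hF : Nice F)
    (a b : ι) (he : s(a, b) ∉ E) (hG : G ⊆ E) :
    EE μ (fun x => F x * wt W (insert s(a, b) E) (insert s(a, b) G) x) =
      p * EE μ (fun x => F x * wt W E G x) +
        p * EE μ (fun x => (F x * kg W p (x a) (x b)) * wt W E G x) := by
  have h1 : (fun x => F x * wt W (insert s(a, b) E) (insert s(a, b) G) x) =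
      fun x => p * (F x * wt W E G x) +
        p * ((F x * kg W p (x a) (x b)) * wt W E G x) := by
    funext x
    rw [wt_insert_both W E G _ he hG, hK.We_eq]
    ring
  have n1 : Nice (fun x : ι → Ω => F x * wt W E G x) := hF.mul (hK.nice_wt E G)
  have n2 : Nice (fun x : ι → Ω => (F x * kg W p (x a) (x b)) * wt W E G x) :=
    (hF.mul (hK.nice_ge a b)).mul (hK.nice_wt E G)
  rw [h1, EE_add ((Nice.const _).mul n1) ((Nice.const _).mul n2), EE_const_mul, EE_const_mul]

/-- elementary: `|(1-p)A - pB| + |pA + pB| ≤ |A| + 2p|B|` -/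
theorem abs_split {p A B : ℝ} (h0 : 0 ≤ p) (h1 : p ≤ 1 / 2) :
    |(1 - p) * A - p * B| + |p * A + p * B| ≤ |A| + 2 * p * |B| := by
  have e1 : |(1 - p) * A - p * B| ≤ (1 - p) * |A| + p * |B| := by
    refine (abs_sub _ _).trans ?_
    rw [abs_mul, abs_mul, abs_of_nonneg h0, abs_of_nonneg (by linarith : (0:ℝ) ≤ 1 - p)]
  have e2 : |p * A + p * B| ≤ p * |A| + p * |B| := by
    refine (abs_add_le _ _).trans ?_
    rw [abs_mul, abs_mul, abs_of_nonneg h0]
  linarith

/-- one edge at a time -/
theorem NN_insert (hK : Kern μ W p) (E : Finset (Sym2 ι)) {F : (ι → Ω) → ℝ} (hF : Nice F)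
    (a b : ι) (he : s(a, b) ∉ E) :
    NN μ W (insert s(a, b) E) F ≤
      NN μ W E F + 2 * p * NN μ W E (fun x => F x * kg W p (x a) (x b)) := by
  unfold NN
  rw [Finset.sum_powerset_insert he, ← Finset.sum_add_distrib, Finset.mul_sum,
    ← Finset.sum_add_distrib]
  refine Finset.sum_le_sum fun G hG => ?_
  have hG' : G ⊆ E := Finset.mem_powerset.1 hG
  rw [EE_absent hK E G hF a b he hG', EE_present hK E G hF a b he hG']
  exact abs_split hK.p_pos.le hK.p_le

omit [Fintype ι] in
theorem st_insert (a b : ι) (B : Finset ι) : st a (insert b B) = insert s(a, b) (st a B) := by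
  unfold st
  rw [Finset.image_insert]

omit [Fintype ι] in
theorem not_mem_st (a b : ι) (B : Finset ι) (hb : b ∉ B) : s(a, b) ∉ st a B := by
  unfold st
  intro h
  obtain ⟨c, hc, h2⟩ := Finset.mem_image.1 h
  exact hb ((Sym2.congr_right.1 h2) ▸ hc)

/-- star expansion -/
theorem NN_star (hK : Kern μ W p) (E : Finset (Sym2 ι)) {F : (ι → Ω) → ℝ} (hF : Nice F)
    (a : ι) (B : Finset ι) (hB : ∀ b ∈ B, s(a, b) ∉ E) :
    NN μ W (E ∪ st a B) F ≤
      ∑ T ∈ B.powerset, (2 * p) ^ T.card *
        NN μ W E (fun x => F x * ∏ b ∈ T, kg W p (x a) (x b)) := by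
  induction B using Finset.induction_on generalizing F with
  | empty => simp [st]
  | insert b B hb ih =>
    have hB' : ∀ c ∈ B, s(a, c) ∉ E := fun c hc => hB c (Finset.mem_insert_of_mem hc)
    have he : s(a, b) ∉ E ∪ st a B := by
      rw [Finset.mem_union]
      rintro (h | h)
      · exact hB b (Finset.mem_insert_self _ _) h
      · exact not_mem_st a b B hb h
    rw [st_insert, Finset.union_insert]
    refine (NN_insert hK _ hF a b he).trans ?_
    rw [Finset.sum_powerset_insert hb]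
    refine add_le_add (ih hF hB') ?_
    have h2p : 0 ≤ 2 * p := by linarith [hK.p_pos]
    refine (mul_le_mul_of_nonneg_left (ih (hF.mul (hK.nice_ge a b)) hB') h2p).trans
      (le_of_eq ?_)
    rw [Finset.mul_sum]
    refine Finset.sum_congr rfl fun T hT => ?_
    have hbT : b ∉ T := fun h => hb (Finset.mem_powerset.1 hT h)
    rw [Finset.card_insert_of_notMem hbT, pow_succ]
    have : (fun x : ι → Ω => F x * ∏ c ∈ insert b T, kg W p (x a) (x c)) =
        fun x => (F x * kg W p (x a) (x b)) * ∏ c ∈ T, kg W p (x a) (x c) := by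
      funext x
      rw [Finset.prod_insert hbT]
      ring
    rw [this]
    ring

/-- the defect, one edge at a time -/
theorem DD_insert (hK : Kern μ W p) (E : Finset (Sym2 ι)) (a b : ι) (he : s(a, b) ∉ E) :
    DD μ W p (insert s(a, b) E) ≤
      DD μ W p E + 2 * p * NN μ W E (fun x => kg W p (x a) (x b)) := by
  unfold DD NN
  rw [Finset.sum_powerset_insert he, ← Finset.sum_add_distrib, Finset.mul_sum,
    ← Finset.sum_add_distrib]
  refine Finset.sum_le_sum fun G hG => ?_
  have hG' : G ⊆ E := Finset.mem_powerset.1 hG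
  have heG : s(a, b) ∉ G := fun h => he (hG' h)
  have h1 := EE_absent hK E G (F := fun _ => (1 : ℝ)) (Nice.const 1) a b he hG'
  have h2 := EE_present hK E G (F := fun _ => (1 : ℝ)) (Nice.const 1) a b he hG'
  simp only [one_mul] at h1 h2
  have c1 : (insert s(a, b) E \ G).card = (E \ G).card + 1 := by
    rw [Finset.insert_sdiff_of_notMem _ heG,
      Finset.card_insert_of_notMem (fun h => he (Finset.mem_sdiff.1 h).1)]
  have c2 : insert s(a, b) E \ insert s(a, b) G = E \ G := by
    rw [Finset.insert_sdiff_insert, Finset.sdiff_insert_of_notMem he]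
  have c3 : (insert s(a, b) G).card = G.card + 1 := Finset.card_insert_of_notMem heG
  rw [h1, h2, c1, c2, c3]
  have e1 : (1 - p) * EE μ (fun x => wt W E G x) -
        p * EE μ (fun x => kg W p (x a) (x b) * wt W E G x) -
        p ^ G.card * (1 - p) ^ ((E \ G).card + 1) =
      (1 - p) * (EE μ (fun x => wt W E G x) - p ^ G.card * (1 - p) ^ (E \ G).card) -
        p * EE μ (fun x => kg W p (x a) (x b) * wt W E G x) := by ring
  have e2 : p * EE μ (fun x => wt W E G x) +
        p * EE μ (fun x => kg W p (x a) (x b) * wt W E G x) -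
        p ^ (G.card + 1) * (1 - p) ^ (E \ G).card =
      p * (EE μ (fun x => wt W E G x) - p ^ G.card * (1 - p) ^ (E \ G).card) +
        p * EE μ (fun x => kg W p (x a) (x b) * wt W E G x) := by ring
  rw [e1, e2]
  exact abs_split hK.p_pos.le hK.p_le

/-- star expansion for the defect -/
theorem DD_star (hK : Kern μ W p) (E : Finset (Sym2 ι))
    (a : ι) (B : Finset ι) (hB : ∀ b ∈ B, s(a, b) ∉ E) :
    DD μ W p (E ∪ st a B) ≤ DD μ W p E +
      ∑ T ∈ B.powerset.filter (fun T => 1 ≤ T.card), (2 * p) ^ T.card *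
        NN μ W E (fun x => ∏ b ∈ T, kg W p (x a) (x b)) := by
  induction B using Finset.induction_on with
  | empty =>
    have h2p : 0 ≤ 2 * p := by linarith [hK.p_pos]
    have hst : E ∪ st a ∅ = E := by simp [st]
    rw [hst]
    exact le_add_of_nonneg_right
      (Finset.sum_nonneg fun T _ => mul_nonneg (pow_nonneg h2p _) (NN_nonneg _ _ _ _))
  | insert b B hb ih =>
    have hB' : ∀ c ∈ B, s(a, c) ∉ E := fun c hc => hB c (Finset.mem_insert_of_mem hc)
    have he : s(a, b) ∉ E ∪ st a B := by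
      rw [Finset.mem_union]
      rintro (h | h)
      · exact hB b (Finset.mem_insert_self _ _) h
      · exact not_mem_st a b B hb h
    have h2p : 0 ≤ 2 * p := by linarith [hK.p_pos]
    rw [st_insert, Finset.union_insert]
    refine (DD_insert hK _ a b he).trans ?_
    have hst := NN_star hK E (hK.nice_ge a b) a B hB'
    have hmul := mul_le_mul_of_nonneg_left hst h2p
    have ih' := ih hB'
    rw [Finset.sum_filter] at ih' ⊢
    rw [Finset.sum_powerset_insert hb]
    have key : (2 * p) * ∑ T ∈ B.powerset, (2 * p) ^ T.card *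
        NN μ W E (fun x => kg W p (x a) (x b) * ∏ c ∈ T, kg W p (x a) (x c)) =
        ∑ T ∈ B.powerset, (if 1 ≤ (insert b T).card then (2 * p) ^ (insert b T).card *
        NN μ W E (fun x => ∏ c ∈ insert b T, kg W p (x a) (x c)) else 0) := by
      rw [Finset.mul_sum]
      refine Finset.sum_congr rfl fun T hT => ?_
      have hbT : b ∉ T := fun h => hb (Finset.mem_powerset.1 hT h)
      have hc : (insert b T).card = T.card + 1 := Finset.card_insert_of_notMem hbT
      rw [if_pos (by omega), hc, pow_succ]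
      have : (fun x : ι → Ω => ∏ c ∈ insert b T, kg W p (x a) (x c)) =
          fun x => kg W p (x a) (x b) * ∏ c ∈ T, kg W p (x a) (x c) := by
        funext x
        rw [Finset.prod_insert hbT]
      rw [this]
      ring
    rw [← key]
    linarith

theorem DD_empty : DD (ι := ι) μ W p ∅ = 0 := by
  unfold DD
  simp [wt, EE_const]

omit [Fintype ι] in
theorem ed_empty : ed (∅ : Finset ι) = ∅ := by
  simp [ed]

omit [Fintype ι] in
theorem ed_insert (V : Finset ι) (a : ι) (ha : a ∉ V) : ed (insert a V) = ed V ∪ st a V := by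
  ext e
  induction e using Sym2.ind with
  | _ x y =>
    unfold ed st
    simp only [Finset.mem_filter, Finset.mk_mem_sym2_iff, Finset.mem_insert, Sym2.mk_isDiag_iff,
      Finset.mem_union, Finset.mem_image]
    constructor
    · rintro ⟨⟨h1, h2⟩, h3⟩
      rcases h1 with rfl | h1
      · rcases h2 with rfl | h2
        · exact absurd rfl h3
        · exact Or.inr ⟨y, h2, rfl⟩
      · rcases h2 with rfl | h2
        · exact Or.inr ⟨x, h1, Sym2.eq_swap⟩
        · exact Or.inl ⟨⟨h1, h2⟩, h3⟩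
    · rintro (⟨⟨h1, h2⟩, h3⟩ | ⟨c, hc, h⟩)
      · exact ⟨⟨Or.inr h1, Or.inr h2⟩, h3⟩
      · rcases Sym2.eq_iff.1 h with ⟨rfl, rfl⟩ | ⟨rfl, rfl⟩
        · exact ⟨⟨Or.inl rfl, Or.inr hc⟩, fun h => ha (h ▸ hc)⟩
        · exact ⟨⟨Or.inr hc, Or.inl rfl⟩, fun h => ha (h ▸ hc)⟩

omit [Fintype ι] in
theorem not_mem_of_ed (V : Finset ι) (a : ι) (ha : a ∉ V) : ∀ e ∈ ed V, a ∉ e := by
  intro e he hae
  unfold ed at he
  exact ha (Finset.mem_sym2_iff.1 (Finset.mem_filter.1 he).1 a hae)

/-- (REC) in two-block form: `V = insert a₁ V'`, `V' = L₁ ∪ M` -/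
theorem NN_rec (hK : Kern μ W p) {F : (ι → Ω) → ℝ} (hF : Nice F) (V' L M : Finset ι) (a : ι)
    (ha : a ∉ V') (hLM : Disjoint L M) (hV : V' = L ∪ M) :
    NN μ W (ed (insert a V')) F ≤
      ∑ C ∈ L.powerset, ∑ T ∈ M.powerset, (2 * p) ^ (C.card + T.card) *
        NN μ W (ed V') (fun x => (F x * ∏ b ∈ C, kg W p (x a) (x b)) *
          ∏ b ∈ T, kg W p (x a) (x b)) := by
  have h2p : 0 ≤ 2 * p := by linarith [hK.p_pos]
  have hnot : ∀ b, s(a, b) ∉ ed V' := fun b hb =>
    not_mem_of_ed V' a ha _ hb (Sym2.mem_mk_left a b)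
  have hst : st a V' = st a M ∪ st a L := by
    unfold st
    rw [hV, Finset.image_union, Finset.union_comm]
  rw [ed_insert V' a ha, hst, ← Finset.union_assoc]
  have hL : ∀ b ∈ L, s(a, b) ∉ ed V' ∪ st a M := by
    intro b hb
    rw [Finset.mem_union]
    rintro (h | h)
    · exact hnot b h
    · exact not_mem_st a b M (fun hM => (Finset.disjoint_left.1 hLM) hb hM) h
  refine (NN_star hK _ hF a L hL).trans ?_
  refine Finset.sum_le_sum fun C _ => ?_
  have hFC : Nice (fun x : ι → Ω => F x * ∏ b ∈ C, kg W p (x a) (x b)) :=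
    hF.mul (hK.nice_prod_ge a C)
  have h1 := NN_star hK (ed V') hFC a M (fun b _ => hnot b)
  refine (mul_le_mul_of_nonneg_left h1 (pow_nonneg h2p _)).trans (le_of_eq ?_)
  rw [Finset.mul_sum]
  refine Finset.sum_congr rfl fun T _ => ?_
  rw [pow_add]
  ring

end Pool.Agent.H83.RGG
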