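import Pool.Agent.H83.RGG.GeoDefs

/-! Module G01_Rot: rotation invariance of the Gaussian measure. -/

set_option autoImplicit false

open MeasureTheory ProbabilityTheory
open scoped RealInnerProductSpace

namespace Pool.Agent.H83.RGG

namespace RotAux

/-- Euclidean space -/
abbrev Es (d : ℕ) := EuclideanSpace ℝ (Fin d)

/-- the map attached to an orthonormal basis -/
noncomputable def Phi {d : ℕ} (b : OrthonormalBasis (Fin d) ℝ (Es d)) (w : Fin d → ℝ) :
    Fin d → ℝ := WithLp.ofLp (∑ k, w k • b k)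

lemma nrm_eq {d : ℕ} (x : Fin d → ℝ) : nrm x = ‖(WithLp.toLp 2 x : Es d)‖ := by
  unfold nrm
  rw [← EuclideanSpace.real_norm_sq_eq (WithLp.toLp 2 x : Es d)]
  simp

lemma dt_eq {d : ℕ} (x y : Fin d → ℝ) :
    dt x y = ⟪(WithLp.toLp 2 x : Es d), (WithLp.toLp 2 y : Es d)⟫ := by
  unfold dt
  rw [PiLp.inner_apply]
  simp [mul_comm]

lemma toLp_Phi {d : ℕ} (b : OrthonormalBasis (Fin d) ℝ (Es d)) (w : Fin d → ℝ) :
    (WithLp.toLp 2 (Phi b w) : Es d) = ∑ k, w k • b k := by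
  unfold Phi; rfl

lemma Phi_mp {d : ℕ} (b : OrthonormalBasis (Fin d) ℝ (Es d)) :
    MeasurePreserving (Phi b) (gam d) (gam d) := by
  have h1 : (gam d).map (fun x : Fin d → ℝ => ∑ k, x k • b k) = stdGaussian (Es d) :=
    (stdGaussian_eq_map_pi_orthonormalBasis b).symm
  have h2 : (gam d).map (WithLp.toLp 2) = stdGaussian (Es d) := map_pi_eq_stdGaussian
  have hm : Measurable (fun x : Fin d → ℝ => ∑ k, x k • b k) := by fun_prop
  have hof : Measurable (WithLp.ofLp : Es d → (Fin d → ℝ)) := by fun_prop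
  have hto : Measurable (WithLp.toLp 2 : (Fin d → ℝ) → Es d) := by fun_prop
  refine ⟨hof.comp hm, ?_⟩
  have : Phi b = WithLp.ofLp ∘ (fun x : Fin d → ℝ => ∑ k, x k • b k) := rfl
  rw [this, ← Measure.map_map hof hm, h1, ← h2, Measure.map_map hof hto]
  have : (WithLp.ofLp ∘ (WithLp.toLp 2 : (Fin d → ℝ) → Es d)) = id := by funext x; rfl
  rw [this, Measure.map_id]

lemma nrm_Phi {d : ℕ} (b : OrthonormalBasis (Fin d) ℝ (Es d)) (w : Fin d → ℝ) :
    nrm (Phi b w) = nrm w := by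
  rw [nrm_eq, toLp_Phi, nrm_eq]
  have : (∑ k, w k • b k) = b.repr.symm (WithLp.toLp 2 w) := by
    exact b.sum_repr_symm (WithLp.toLp 2 w)
  rw [this, LinearIsometryEquiv.norm_map]

lemma inner_Phi {d : ℕ} (b : OrthonormalBasis (Fin d) ℝ (Es d)) (w : Fin d → ℝ) (k : Fin d) :
    ⟪b k, (WithLp.toLp 2 (Phi b w) : Es d)⟫ = w k := by
  rw [toLp_Phi, inner_sum, Finset.sum_eq_single k]
  · rw [real_inner_smul_right, real_inner_self_eq_norm_sq, b.norm_eq_one]; ring
  · intro l _ hl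
    rw [real_inner_smul_right, b.inner_eq_zero (Ne.symm hl), mul_zero]
  · intro h; exact absurd (Finset.mem_univ k) h

lemma ext_one {d : ℕ} (i : Fin d) (u : Es d) (hu : ‖u‖ = 1) :
    ∃ b : OrthonormalBasis (Fin d) ℝ (Es d), b i = u := by
  have hv : Orthonormal ℝ (({i} : Set (Fin d)).domRestrict (fun _ => u)) := by
    constructor
    · intro k; simpa using hu
    · intro k l hkl
      exact absurd (Subtype.ext (by rw [Set.mem_singleton_iff.mp k.2, Set.mem_singleton_iff.mp l.2])) hkl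
  obtain ⟨b, hb⟩ := hv.exists_orthonormalBasis_extension_of_card_eq (by simp)
  exact ⟨b, hb i (by simp)⟩

lemma ext_two {d : ℕ} {i j : Fin d} (hij : i ≠ j) (u w : Es d) (hu : ‖u‖ = 1) (hw : ‖w‖ = 1)
    (huw : ⟪u, w⟫ = 0) :
    ∃ b : OrthonormalBasis (Fin d) ℝ (Es d), b i = u ∧ b j = w := by
  classical
  have hv : Orthonormal ℝ (({i, j} : Set (Fin d)).domRestrict (fun k => if k = i then u else w)) := by
    constructor
    · intro k
      simp only [Set.domRestrict_apply]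
      split_ifs <;> assumption
    · intro k l hkl
      have hk := k.2
      have hl := l.2
      simp only [Set.domRestrict_apply]
      rw [Set.mem_insert_iff, Set.mem_singleton_iff] at hk hl
      have hne : (k : Fin d) ≠ l := fun h => hkl (Subtype.ext h)
      rcases hk with hk | hk <;> rcases hl with hl | hl
      · exact absurd (hk.trans hl.symm) hne
      · rw [if_pos hk, if_neg (by rw [hl]; exact hij.symm)]; exact huw
      · rw [if_neg (by rw [hk]; exact hij.symm), if_pos hl, real_inner_comm]; exact huw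
      · exact absurd (hk.trans hl.symm) hne
  obtain ⟨b, hb⟩ := hv.exists_orthonormalBasis_extension_of_card_eq (by simp)
  refine ⟨b, ?_, ?_⟩
  · have := hb i (by simp); simpa using this
  · have := hb j (by simp); rw [this]; simp [hij.symm]

lemma exists_perp {d : ℕ} {i j : Fin d} (hij : i ≠ j) (u v : Es d) (hu : ‖u‖ = 1) (hv : ‖v‖ = 1) :
    ∃ w : Es d, ‖w‖ = 1 ∧ ⟪u, w⟫ = 0 ∧
      v = ⟪u, v⟫ • u + Real.sqrt (1 - ⟪u, v⟫ ^ 2) • w := by
  set r := ⟪u, v⟫ with hrdef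
  have huu : ⟪u, u⟫ = 1 := by rw [real_inner_self_eq_norm_sq, hu]; norm_num
  have hvv : ⟪v, v⟫ = 1 := by rw [real_inner_self_eq_norm_sq, hv]; norm_num
  have hvu : ⟪v, u⟫ = r := by rw [real_inner_comm]
  have h1 : ‖v - r • u‖ ^ 2 = 1 - r ^ 2 := by
    rw [← real_inner_self_eq_norm_sq, inner_sub_left, inner_sub_right, inner_sub_right,
      real_inner_smul_left, real_inner_smul_left, real_inner_smul_right, real_inner_smul_right,
      huu, hvv, hvu, ← hrdef]
    ring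
  have h2 : ‖v - r • u‖ = Real.sqrt (1 - r ^ 2) := by
    rw [← h1, Real.sqrt_sq (norm_nonneg _)]
  by_cases h0 : Real.sqrt (1 - r ^ 2) = 0
  · obtain ⟨b, hb⟩ := ext_one i u hu
    refine ⟨b j, b.norm_eq_one j, ?_, ?_⟩
    · rw [← hb]; exact b.inner_eq_zero hij
    · rw [h0, zero_smul, add_zero]
      rw [h0, norm_eq_zero, sub_eq_zero] at h2
      exact h2
  · have hs : 0 < Real.sqrt (1 - r ^ 2) := lt_of_le_of_ne (Real.sqrt_nonneg _) (Ne.symm h0)
    refine ⟨(Real.sqrt (1 - r ^ 2))⁻¹ • (v - r • u), ?_, ?_, ?_⟩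
    · rw [norm_smul, h2, norm_inv, Real.norm_of_nonneg hs.le, inv_mul_cancel₀ hs.ne']
    · rw [real_inner_smul_right, inner_sub_right, real_inner_smul_right, huu, ← hrdef]
      ring
    · rw [smul_smul, mul_inv_cancel₀ hs.ne', one_smul]
      abel

end RotAux

open RotAux

theorem rot_one {d : ℕ} (i : Fin d) (u : Fin d → ℝ) (hu : nrm u = 1) :
    ∃ Φ : (Fin d → ℝ) → (Fin d → ℝ), MeasurePreserving Φ (gam d) (gam d) ∧
      (∀ w, nrm (Φ w) = nrm w) ∧ (∀ w, dt u (Φ w) = w i) := by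
  rw [nrm_eq] at hu
  obtain ⟨b, hb⟩ := ext_one i (WithLp.toLp 2 u : Es d) hu
  refine ⟨Phi b, Phi_mp b, nrm_Phi b, fun w => ?_⟩
  rw [dt_eq, ← hb, inner_Phi]

theorem rot_two {d : ℕ} {i j : Fin d} (hij : i ≠ j) (u v : Fin d → ℝ) (hu : nrm u = 1)
    (hv : nrm v = 1) :
    ∃ Φ : (Fin d → ℝ) → (Fin d → ℝ), MeasurePreserving Φ (gam d) (gam d) ∧
      (∀ w, nrm (Φ w) = nrm w) ∧ (∀ w, dt u (Φ w) = w i) ∧
      (∀ w, dt v (Φ w) = dt u v * w i + Real.sqrt (1 - (dt u v) ^ 2) * w j) := by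
  rw [nrm_eq] at hu hv
  obtain ⟨w0, hw0, huw0, hvw0⟩ := exists_perp hij (WithLp.toLp 2 u : Es d) (WithLp.toLp 2 v) hu hv
  obtain ⟨b, hbi, hbj⟩ := ext_two hij (WithLp.toLp 2 u : Es d) w0 hu hw0 huw0
  refine ⟨Phi b, Phi_mp b, nrm_Phi b, fun w => ?_, fun w => ?_⟩
  · rw [dt_eq, ← hbi, inner_Phi]
  · rw [dt_eq, dt_eq]
    conv_lhs => rw [hvw0]
    rw [inner_add_left, real_inner_smul_left, real_inner_smul_left, ← hbj, inner_Phi]
    conv_lhs => rw [← hbi, inner_Phi, hbi]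

end Pool.Agent.H83.RGG
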