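import Pool.Agent.H83.RGG.MP

/-! Module R10_ThmA: total variation bound from the main proposition. -/

set_option autoImplicit false

open MeasureTheory ProbabilityTheory

namespace Pool.Agent.H83.RGG

variable {Ω : Type} [MeasurableSpace Ω] {ι : Type} [Fintype ι] [DecidableEq ι]
variable {μ : Measure Ω} [IsProbabilityMeasure μ] {W : Ω → Ω → ℝ} {p η : ℝ} {R : ℕ}

theorem ta_aux (hK : Kern μ W p) (hM : Mom μ W p η R) (M τ : ℝ)
    (hS : ∀ B : Finset ι, ∑ T ∈ B.powerset, (32 * p) ^ T.card ≤ M)
    (hτ : ∀ B : Finset ι, ∑ T ∈ B.powerset.filter (fun T => R ≤ T.card), (4 * p) ^ T.card ≤ τ)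
    (hηM : η * M ≤ 1 / 2) (V : Finset ι) :
    DD μ W p (ed V) ≤
      (V.card : ℝ) * (2 * M ^ 2 * (τ + 4000 * p ^ 2 + 6 * p * η) + τ) := by
  have hp := hK.p_pos
  induction V using Finset.induction_on with
  | empty => rw [ed_empty, DD_empty]; simp
  | insert a V ha ih =>
    have hB : ∀ b ∈ V, s(a, b) ∉ ed V := fun b _ h =>
      not_mem_of_ed V a ha _ h (Sym2.mem_mk_left a b)
    rw [ed_insert V a ha, Finset.card_insert_of_notMem ha]
    have h1 := DD_star (μ := μ) hK (ed V) a V hB
    have hmain := main_prop hK hM M τ hS hτ hηM V a ∅ (fun _ => 1) ha (Finset.empty_subset V)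
      (Nice.const 1) (fun b _ x y => rfl)
    simp only [Finset.sdiff_empty, Finset.card_empty, pow_zero, mul_one, one_mul, one_pow,
      EE_const, Real.sqrt_one] at hmain
    have hle : ∀ T ∈ V.powerset.filter (fun T => 1 ≤ T.card),
        (2 * p) ^ T.card * NN μ W (ed V) (fun x => ∏ b ∈ T, kg W p (x a) (x b)) ≤
        (if T.card ≤ R then (2 * p) ^ T.card *
          NN μ W (ed V) (fun x => ∏ b ∈ T, kg W p (x a) (x b)) else 0) +
        (if R ≤ T.card then (4 * p) ^ T.card else 0) := by
      intro T hT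
      have hTV : T ⊆ V := Finset.mem_powerset.1 (Finset.mem_filter.1 hT).1
      have hpos : 0 ≤ (4 * p) ^ T.card := by positivity
      by_cases h : T.card ≤ R
      · rw [if_pos h]
        split_ifs
        · linarith
        · linarith
      · rw [if_neg h, if_pos (by omega), zero_add]
        have haT : a ∉ T := fun h => ha (hTV h)
        have hb := beta_kg (μ := μ) hK (H := fun _ : ι → Ω => 1) (Nice.const 1)
          (fun _ => zero_le_one) haT (fun b _ x y => rfl)
        rw [EE_const, mul_one] at hb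
        have e : (fun x : ι → Ω => |∏ b ∈ T, kg W p (x a) (x b)|) =
            fun x => 1 * ∏ b ∈ T, |kg W p (x a) (x b)| := by
          funext x
          rw [Finset.abs_prod, one_mul]
        have hn : NN μ W (ed V) (fun x => ∏ b ∈ T, kg W p (x a) (x b)) ≤ 2 ^ T.card := by
          refine (NN_le hK _ (hK.nice_prod_ge a T)).trans ?_
          rw [e]
          exact hb
        calc _ ≤ (2 * p) ^ T.card * 2 ^ T.card := mul_le_mul_of_nonneg_left hn (by positivity)
          _ = _ := by rw [← mul_pow]; congr 1; ring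
    have h2 := Finset.sum_le_sum hle
    rw [Finset.sum_add_distrib, ← Finset.sum_filter, ← Finset.sum_filter, Finset.filter_filter,
      Finset.filter_filter] at h2
    have h3 : ∑ T ∈ V.powerset.filter (fun T => 1 ≤ T.card ∧ R ≤ T.card), (4 * p) ^ T.card ≤ τ := by
      refine le_trans (Finset.sum_le_sum_of_subset_of_nonneg ?_ fun T _ _ => by positivity) (hτ V)
      intro T hT
      have := Finset.mem_filter.1 hT
      exact Finset.mem_filter.2 ⟨this.1, this.2.2⟩
    push_cast
    linarith

theorem theoremA (hK : Kern μ W p) (hM : Mom μ W p η R) (M τ : ℝ)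
    (hS : ∀ B : Finset ι, ∑ T ∈ B.powerset, (32 * p) ^ T.card ≤ M)
    (hτ : ∀ B : Finset ι, ∑ T ∈ B.powerset.filter (fun T => R ≤ T.card), (4 * p) ^ T.card ≤ τ)
    (hηM : η * M ≤ 1 / 2) :
    DD (ι := ι) μ W p (ed Finset.univ) ≤
      (Fintype.card ι : ℝ) * (2 * M ^ 2 * (τ + 4000 * p ^ 2 + 6 * p * η) + τ) :=
  ta_aux hK hM M τ hS hτ hηM Finset.univ

end Pool.Agent.H83.RGG
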